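import Mathlib
import Pool.Agent.Lib.MP_679d9b_al.AltMain

/-!
Groups covered by special linear groups in characteristic `p`: definitions and the statements of
the main steps.
-/

set_option autoImplicit false

namespace Pool.Agent.Lib.MP_679d9b_al.PT

open Subgroup Matrix
open scoped commutatorElement

/-- The special linear group. -/
abbrev SL (ι K : Type) [Fintype ι] [DecidableEq ι] [Field K] : Type := SpecialLinearGroup ι K

/-- Elements of `p`-power order. -/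
def PEl (p : ℕ) {M : Type} [Monoid M] (g : M) : Prop := ∃ k : ℕ, g ^ p ^ k = 1

/-- Elements of finite order prime to `p`. -/
def QEl (p : ℕ) {M : Type} [Monoid M] (g : M) : Prop := ∃ m : ℕ, m.Coprime p ∧ g ^ m = 1

/-- The subgroup generated by the elements of order prime to `p`. -/
def Op (p : ℕ) (H : Type) [Group H] : Subgroup H := closure {g | QEl p g}

/-- The norm map of Higman: the sum of `t ^ i * r * t ^ (s - i)` over `i ≤ s`. -/
def Nn {A : Type} [Ring A] (t : A) (s : ℕ) (r : A) : A :=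
  ∑ i ∈ Finset.range (s + 1), t ^ i * r * t ^ (s - i)

/-- Pairs of elements centralizing `u` which give a long chain of centralizers. -/
def Alpha (p : ℕ) {H : Type} [Group H] (u : H) (d : ℕ) : Prop :=
  ∃ g g' : Fin (d + 1) → H, (∀ k, PEl p (g k) ∧ Commute u (g k) ∧ Commute u (g' k)) ∧
    (∀ k l, k ≠ l → Commute (g k) (g' l)) ∧ ∀ k, ¬ Commute (g k) (g' k)

section
variable {ι K : Type} [Fintype ι] [DecidableEq ι] [Field K]

/-- The group generated by the elementary transvections with indices in `S`. -/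
def Tr (K : Type) [Field K] (S : Finset ι) : Subgroup (SL ι K) :=
  closure {t | ∃ (i j : ι) (h : i ≠ j) (a : K), i ∈ S ∧ j ∈ S ∧
    t = SpecialLinearGroup.transvection h a}

/-- Change of basis (and of the index type). -/
def cj {ι' : Type} [Fintype ι'] [DecidableEq ι'] (P : Matrix ι' ι K) (P' : Matrix ι ι' K)
    (h1 : P * P' = 1) (h2 : P' * P = 1) : SL ι K →* SL ι' K where
  toFun A := ⟨P * A.1 * P', by rw [det_conj_of_mul_eq_one h1 h2, A.2]⟩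
  map_one' := Subtype.ext (by simp [h1])
  map_mul' A B := Subtype.ext (by
    change P * (A.1 * B.1) * P' = P * A.1 * P' * (P * B.1 * P')
    calc P * (A.1 * B.1) * P' = P * A.1 * (P' * P) * B.1 * P' := by
          rw [h2]; simp [Matrix.mul_assoc]
      _ = _ := by simp only [Matrix.mul_assoc])

variable {H : Type} [Group H]

/-- The commutator subgroup of the preimage of `Tr K S`. -/
def Ys (φ : H →* SL ι K) (S : Finset ι) : Subgroup H := ⁅(Tr K S).comap φ, (Tr K S).comap φ⁆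

/-- Degree one, for one pair of blocks. -/
def Deg1 (p : ℕ) {E : Type} [Ring E] (φ : H →* SL ι K) (ρ : H →* E) (S₁ S₂ : Finset ι) : Prop :=
  ∀ τ₁ ∈ Ys φ S₁, ∀ τ₂ ∈ Ys φ S₂, QEl p τ₁ → QEl p τ₂ → IsNilpotent ((ρ τ₁ - 1) * (ρ τ₂ - 1))

/-- Degree one, invariant form. -/
def D1 (p : ℕ) {E : Type} [Ring E] (φ : H →* SL ι K) (ρ : H →* E) : Prop :=
  ∀ τ₁ τ₂ : H, QEl p τ₁ → QEl p τ₂ → ((φ τ₁).1 - 1) * ((φ τ₂).1 - 1) = 0 →
    ((φ τ₂).1 - 1) * ((φ τ₁).1 - 1) = 0 → IsNilpotent ((ρ τ₁ - 1) * (ρ τ₂ - 1))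

/-- The representation `ρ` is a sum of natural, dual and trivial parts. -/
structure Str {E : Type} [Ring E] (φ : H →* SL ι K) (ρ : H →* E)
    (π π' : Matrix ι ι K →+ E) : Prop where
  mul : ∀ B C, π (B * C) = π B * π C
  anti : ∀ B C, π' (B * C) = π' C * π' B
  orth : ∀ B C, π B * π' C = 0
  orth' : ∀ B C, π' B * π C = 0
  eq : ∀ g, ρ g = 1 + π ((φ g).1 - 1) + π' ((φ g⁻¹).1 - 1)

/-- The additive span of the image of a subgroup. -/
def Ad {A : Type} [Ring A] (ρ : H →* A) (S : Subgroup H) : Submodule ℤ A :=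
  Submodule.span ℤ {x | ∃ g ∈ S, x = ρ g}

/-- The augmentation ideal of a subgroup. -/
def Bd {A : Type} [Ring A] (ρ : H →* A) (S : Subgroup H) : Submodule ℤ A :=
  Submodule.span ℤ {x | ∃ g ∈ S, x = ρ g - 1}

/-- The ideal of `Ad ρ S` generated by the augmentation ideal of `P ⊓ S`. -/
def Jd {A : Type} [Ring A] (ρ : H →* A) (P S : Subgroup H) : Submodule ℤ A :=
  Submodule.span ℤ {x | ∃ y ∈ P, y ∈ S ∧ ∃ g ∈ S, x = (ρ y - 1) * ρ g}

/-- A group over `SL ι K` with `p`-kernel spanning a ring with involution. -/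
structure St (p : ℕ) {A E : Type} [Ring A] [StarRing A] [Ring E] (φ : H →* SL ι K) (ρ : H →* A)
    (q : A →+* E) (π π' : Matrix ι ι K →+ E) : Prop where
  surj : Function.Surjective φ
  pker : IsPGroup p φ.ker
  chr : (p : A) = 0
  inj : Function.Injective ρ
  star_eq : ∀ g, star (ρ g) = ρ g⁻¹
  span : Ad ρ ⊤ = ⊤
  ker : ∀ a, q a = 0 ↔ a ∈ Jd ρ φ.ker ⊤
  nil : ∃ L : ℕ, Jd ρ φ.ker ⊤ ^ L = ⊥
  str : Str φ ((q : A →* E).comp ρ) π π'
  pinj : Function.Injective π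

/-- An isotypic component of the semisimple matrix `S`, with its centralizer. -/
structure Model (p : ℕ) (S η : Matrix ι ι K) (o : ℕ) : Type 1 where
  K' : Type
  [fld : Field K']
  [fin : Finite K']
  [chr : CharP K' p]
  ι' : Type
  [ft : Fintype ι']
  [de : DecidableEq ι']
  ext : Matrix ι' ι' K' →ₙ+* Matrix ι ι K
  inj : Function.Injective ext
  one : ext 1 = η
  comm : ∀ C, Commute S (ext C)
  res : ∀ B, Commute S B → ∃ C, ext C = B * η
  cen : ∀ B, Commute S B → Commute B η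
  rk : ∀ C, (ext C).rank ≤ o * C.rank

attribute [instance] Model.fld Model.fin Model.chr Model.ft Model.de

end

/-- The dimension of the span of a family. -/
noncomputable def cdim (k : Type) [Field k] {F M : Type} [AddCommGroup M] [Module k M]
    (T : F → M) : ℕ := Module.finrank k (Submodule.span k (Set.range T))

/-- Flags with many good sections. -/
def Good {F : Type} [Group F] (K : Type) [Field K] (c : ℕ) :
    ℕ → ∀ (ι : Type) [Fintype ι] [DecidableEq ι], (F →* SL ι K) → Prop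
  | 0 => fun _ _ _ _ => True
  | r + 1 => fun ι _ _ σ => c ≤ cdim K (fun f => (σ f).1) ∧
      ∃ (ι₁ ι₂ : Type) (_ : Fintype ι₁) (_ : DecidableEq ι₁) (_ : Fintype ι₂) (_ : DecidableEq ι₂)
        (P : Matrix (ι₁ ⊕ ι₂) ι K) (P' : Matrix ι (ι₁ ⊕ ι₂) K) (σ₁ : F →* SL ι₁ K)
        (σ₂ : F →* SL ι₂ K), P * P' = 1 ∧ P' * P = 1 ∧ 3 ≤ Fintype.card ι₁ ∧
        3 ≤ Fintype.card ι₂ ∧ Function.Injective σ₂ ∧
        (∀ f, ∃ B, P * (σ f).1 * P' = fromBlocks (σ₁ f).1 0 B (σ₂ f).1) ∧ Good K c r ι₁ σ₁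

/-- Rank condition: some `c` group elements have only combinations of large rank. -/
def RK {F ι K : Type} [Group F] [Fintype ι] [DecidableEq ι] [Field K] (c N : ℕ)
    (σ : F →* SL ι K) : Prop :=
  N ≤ Fintype.card ι ∧ (∀ f, f ≠ 1 → N ≤ ((σ f).1 - 1).rank) ∧
    ∃ e : Fin c → F, ∀ l : Fin c → K, l ≠ 0 → N ≤ (∑ j, l j • (σ (e j)).1).rank

/-- A faithful finitary linear representation. -/
def Finitary (G : Type) [Group G] : Prop :=
  ∃ (K : Type) (_ : Field K) (V : Type) (_ : AddCommGroup V) (_ : Module K V)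
    (ρ : G →* (V ≃ₗ[K] V)), Function.Injective ρ ∧
      ∀ g, FiniteDimensional K (LinearMap.range ((ρ g : V →ₗ[K] V) - LinearMap.id))

/-! The statements of the main steps. -/

/-- The structure theorem for representations of degree one of a perfect group which are central
on the kernel. -/
def StructStmt : Prop :=
  ∀ (p : ℕ) [Fact p.Prime] (ι K : Type) [Fintype ι] [DecidableEq ι] [Field K] (H : Type) [Group H]
    [Finite H] (E : Type) [Ring E] (φ : H →* SL ι K) (ρ : H →* E) (S₁ S₂ : Finset ι),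
    Function.Surjective φ → Group.IsPerfect H → (p : E) = 0 →
    (∀ y g, φ y = 1 → Commute (ρ y) (ρ g)) → Disjoint S₁ S₂ → 3 ≤ S₁.card → 3 ≤ S₂.card →
    Deg1 p φ ρ S₁ S₂ → ∃ π π' : Matrix ι ι K →+ E, Str φ ρ π π'

/-- Natural and dual modules have at least the coefficients of the natural module. -/
def CfStmt : Prop :=
  ∀ (ι K : Type) [Fintype ι] [DecidableEq ι] [Field K] [Finite K] (H : Type) [Group H]
    (k V : Type) [Field k] [IsAlgClosed k] [AddCommGroup V] [Module k V] [FiniteDimensional k V]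
    (φ : H →* SL ι K) (ω : H →* Module.End k V) (π π' : Matrix ι ι K →+ Module.End k V)
    (F : Type) [Group F] [Finite F] (σ : F →* SL ι K) (T : F → Module.End k V),
    Str φ ω π π' → (∃ g, ω g ≠ 1) → (∀ f, ∃ g, φ g = σ f ∧ T f = ω g) →
    cdim K (fun f => (σ f).1) ≤ cdim k T

/-- The product lemma for two commuting representations of a `p`-group on a simple module. -/
def TensStmt : Prop :=
  ∀ (p : ℕ) [Fact p.Prime] (k V : Type) [Field k] [IsAlgClosed k] [CharP k p] [AddCommGroup V]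
    [Module k V] [FiniteDimensional k V] [Nontrivial V] (X₁ X₂ : Submonoid (Module.End k V))
    (F : Type) [Group F] [Finite F] (T₁ T₂ : F →* Module.End k V),
    IsPGroup p F → (∀ a ∈ X₁, ∀ b ∈ X₂, Commute a b) →
    (∀ U : Submodule k V, (∀ a ∈ X₁, ∀ v ∈ U, a v ∈ U) → (∀ a ∈ X₂, ∀ v ∈ U, a v ∈ U) →
      U = ⊥ ∨ U = ⊤) →
    (∀ f, T₁ f ∈ X₁) → (∀ f, T₂ f ∈ X₂) → Function.Injective T₂ →
    min (Nat.card F) (cdim k T₁ + 1) ≤ cdim k fun f => T₁ f * T₂ f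

/-- Simple sections on which a given product stays non nilpotent. -/
def SecStmt : Prop :=
  ∀ (p : ℕ) [Fact p.Prime] (k V : Type) [Field k] [CharP k p] [AddCommGroup V] [Module k V]
    [FiniteDimensional k V] (H : Type) [Group H] (ω : H →* Module.End k V) (a b : H),
    ¬ IsNilpotent ((ω a - 1) * (ω b - 1)) →
    ∃ (V' : Type) (_ : AddCommGroup V') (_ : Module k V') (_ : FiniteDimensional k V')
      (_ : Nontrivial V') (ω' : H →* Module.End k V'),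
      ¬ IsNilpotent ((ω' a - 1) * (ω' b - 1)) ∧
      (∀ U : Submodule k V', (∀ g, ∀ v ∈ U, ω' g v ∈ U) → U = ⊥ ∨ U = ⊤) ∧
      (∀ P : Subgroup H, P.Normal → Finite P → IsPGroup p P → ∀ y ∈ P, ω' y = 1) ∧
      (∀ g, ω g = 1 → ω' g = 1) ∧
      ∀ (F : Type) [Finite F] (j : F → H), cdim k (fun f => ω' (j f)) ≤ cdim k fun f => ω (j f)

/-- Large ranks give good flags. -/
def SectStmt : Prop :=
  ∀ (p : ℕ) [Fact p.Prime] (m r : ℕ), ∃ N : ℕ, ∀ (F : Type) [Group F] [Finite F] (K : Type)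
    [Field K] [CharP K p] (c : ℕ) (ι : Type) [Fintype ι] [DecidableEq ι] (σ : F →* SL ι K),
    IsPGroup p F → Nat.card F ≤ m → RK c N σ → Good K c r ι σ

/-- Failure of degree one for a central extension by a group of order prime to `p` raises the
dimension of the span. -/
def ClaimStmt : Prop :=
  ∀ (p : ℕ) [Fact p.Prime] (K : Type) [Field K] [Finite K] [CharP K p] (k : Type) [Field k]
    [IsAlgClosed k] [CharP k p] (F : Type) [Group F] [Finite F] (c r : ℕ) (ι₁ ι₂ : Type)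
    [Fintype ι₁] [DecidableEq ι₁] [Fintype ι₂] [DecidableEq ι₂] (H : Type) [Group H] [Finite H]
    (φ : H →* SL (ι₁ ⊕ ι₂) K) (V : Type) [AddCommGroup V] [Module k V] [FiniteDimensional k V]
    (ω : H →* Module.End k V) (σ : F →* SL (ι₁ ⊕ ι₂) K) (σ₁ : F →* SL ι₁ K) (σ₂ : F →* SL ι₂ K)
    (T : F → Module.End k V),
    IsPGroup p F → Function.Surjective φ → Group.IsPerfect H →
    (∀ y, φ y = 1 → y ∈ center H ∧ QEl p y) → 3 ≤ Fintype.card ι₁ → 3 ≤ Fintype.card ι₂ →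
    Function.Injective σ₂ → (∀ f, ∃ B, (σ f).1 = fromBlocks (σ₁ f).1 0 B (σ₂ f).1) →
    Good K c r ι₁ σ₁ → (∀ f, ∃ g, PEl p g ∧ φ g = σ f ∧ T f = ω g) →
    ¬ Deg1 p φ ω (Finset.univ.map Function.Embedding.inl)
      (Finset.univ.map Function.Embedding.inr) →
    min (Nat.card F) (min c r + 1) ≤ cdim k T

/-- Consequences of degree one modulo a nilpotent ideal. -/
def StrnStmt : Prop :=
  ∀ (p : ℕ) [Fact p.Prime] (ι K : Type) [Fintype ι] [DecidableEq ι] [Field K] (H : Type) [Group H]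
    [Finite H] (E : Type) [Ring E] (φ : H →* SL ι K) (ρ : H →* E) (S₁ S₂ : Finset ι),
    Function.Surjective φ → Group.IsPerfect H → (p : E) = 0 → IsPGroup p (⁅φ.ker, ⊤⁆ : Subgroup H) →
    Disjoint S₁ S₂ → 3 ≤ S₁.card → 3 ≤ S₂.card → Deg1 p φ ρ S₁ S₂ →
    (∀ g₁ g₂, ((φ g₁).1 - 1) * ((φ g₂).1 - 1) = 0 → ((φ g₂).1 - 1) * ((φ g₁).1 - 1) = 0 →
      IsNilpotent ((ρ g₁ - 1) * (ρ g₂ - 1))) ∧ ((∀ g, ρ g = 1) ∨ ∀ g, ρ g = 1 → φ g = 1)

/-- The dichotomy: a `p`-subgroup with linearly dependent image forces degree one. -/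
def DichStmt : Prop :=
  ∀ (p : ℕ) [Fact p.Prime] (m : ℕ), ∃ N : ℕ, ∀ (ι K : Type) [Fintype ι] [DecidableEq ι] [Field K]
    [Finite K] [CharP K p] (T : Type) [Group T] (φ : T →* SL ι K) (R F : Subgroup T) [R.Normal]
    [Finite R] [Finite F] (k E : Type) [Field k] [CharP k p] [Ring E] [Algebra k E] (ρ : T →* E),
    R.map φ = ⊤ → ⁅R, R⁆ = R → IsPGroup p (⁅φ.ker, R⁆ : Subgroup T) → IsPGroup p F →
    Nat.card F ≤ m → cdim k (fun f : F => ρ f) < Nat.card F →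
    RK (cdim k fun f : F => ρ f) N (φ.comp F.subtype) →
    (∀ g₁ ∈ R, ∀ g₂ ∈ R, ((φ g₁).1 - 1) * ((φ g₂).1 - 1) = 0 →
      ((φ g₂).1 - 1) * ((φ g₁).1 - 1) = 0 → IsNilpotent ((ρ g₁ - 1) * (ρ g₂ - 1))) ∧
    ((∀ g ∈ R, ρ g = 1) ∨ ∀ g ∈ R, ρ g = 1 → φ g = 1)

/-- Decomposition into isotypic components. -/
def PrimStmt : Prop :=
  ∀ (p : ℕ) [Fact p.Prime] (ι K : Type) [Fintype ι] [DecidableEq ι] [Field K] [Finite K]
    [CharP K p] (S : Matrix ι ι K) (o : ℕ) (c : K), o.Coprime p → c ≠ 0 → S ^ o = c • 1 →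
    ∃ η : Fin o → Matrix ι ι K, ∑ j, η j = 1 ∧ ∀ j, Nonempty (Model p S (η j) o)

/-- The part of the centralizer of `s` lying over one isotypic component. -/
def CompStmt : Prop :=
  ∀ (p : ℕ) [Fact p.Prime] (ι K : Type) [Fintype ι] [DecidableEq ι] [Field K] [Finite K]
    [CharP K p] (T : Type) [Group T] (φ : T →* SL ι K) (R Q : Subgroup T) [R.Normal] [Finite R]
    [Finite Q] (s : T) (o : ℕ) (η : Matrix ι ι K) (M : Model p (φ s).1 η o),
    R.map φ = ⊤ → IsPGroup p (⁅φ.ker, R⁆ : Subgroup T) → IsPGroup p Q → o.Coprime p →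
    (∀ g, Commute (s ^ o) g) → (∀ y ∈ Q, Commute s y) → 2 ≤ Fintype.card M.ι' →
    ∃ (H : Subgroup T) (ψ : H →* SL M.ι' M.K'), Finite H ∧ Q ≤ H ∧ H ≤ R ⊔ Q ∧
      Function.Surjective ψ ∧ (∀ g ∈ H, Commute s g) ∧ (∀ g : H, M.ext (ψ g).1 = (φ g).1 * η) ∧
      ∀ g ∈ H, ∃ y ∈ Q, (φ g).1 * (1 - η) = (φ y).1 * (1 - η)

/-- Free modules give long chains. -/
def CaseOneStmt : Prop :=
  ∀ (p : ℕ) [Fact p.Prime] (C : Type) [Group C] (u : C) (d : ℕ), PEl p u →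
    (∀ F : Subgroup C, Finite F → IsPGroup p F → u ∈ F → ∀ N : ℕ,
      ∃ (H : Type) (_ : Group H) (_ : Finite H) (K : Type) (_ : Field K) (_ : Finite K)
        (_ : CharP K p) (ι : Type) (_ : Fintype ι) (_ : DecidableEq ι) (φ : H →* SL ι K)
        (μ : H →* C) (j : F →* H), Function.Surjective φ ∧ (∀ f, μ (j f) = f) ∧
        (∀ g, μ g = 1 → φ g ∈ center (SL ι K)) ∧ N ≤ (∑ᶠ f, (φ (j f)).1).rank) →
    ¬ Alt.NoChain u d

/-- Families of approximate representations of bounded degree give a finitary representation. -/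
def FinStmt : Prop :=
  ∀ (G : Type) [Group G] (I : Type) (U : Ultrafilter I) (n : I → ℕ) (K : I → Type)
    [∀ i, Field (K i)] (r : ∀ i, G → Matrix.ProjectiveSpecialLinearGroup (Fin (n i)) (K i)),
    (∀ g h, ∀ᶠ i in U, r i (g * h) = r i g * r i h) → (∀ g, g ≠ 1 → ∀ᶠ i in U, r i g ≠ 1) →
    (∀ g, ∃ b : ℕ, ∀ᶠ i in U, ∃ (A : SL (Fin (n i)) (K i)) (l : K i),
      (A : Matrix.ProjectiveSpecialLinearGroup (Fin (n i)) (K i)) = r i g ∧
        (A.1 - l • 1).rank ≤ b) → Finitary G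

/-- Free blocks of a nilpotent matrix. -/
def BlockStmt : Prop :=
  ∀ (ι K : Type) [Fintype ι] [DecidableEq ι] [Field K] (t : Matrix ι ι K) (s N : ℕ),
    t ^ (s + 1) = 0 → N ≤ (t ^ s).rank →
    ∃ θ : Fin N → Fin N → Matrix ι ι K, (∀ a b, ∃ r, θ a b = Nn t s r) ∧
      (∀ a b c, θ a b * θ b c = θ a c) ∧ (∀ a b c d, b ≠ c → θ a b * θ c d = 0) ∧
      ∀ a, t ^ s * θ a a ≠ 0

/-- Matrices commuting with `t` which are not polynomials in `t` are detected by norms. -/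
def NcStmt : Prop :=
  ∀ (ι K : Type) [Fintype ι] [DecidableEq ι] [Field K] (t z z' : Matrix ι ι K) (s : ℕ),
    t ^ (s + 1) = 0 → 2 * s + 3 ≤ (t ^ s).rank → z' * z = 1 → Commute t z → z ≠ 1 →
    (∀ γ : Matrix ι ι K, Commute γ z → γ * (z - 1) ≠ t ^ s) →
    ∃ θ ξ ψ ξ' γ ξ'' ψ' : Matrix ι ι K, (∃ r, ξ = Nn t s r) ∧ (∃ r, ψ = Nn t s r) ∧
      (∃ r, ξ' = Nn t s r) ∧ Commute t θ ∧ t ^ s * θ ≠ 0 ∧ ψ * ξ = 0 ∧ ψ * ξ' = 0 ∧
      ψ * z * ξ' = 0 ∧ γ * ψ * z * ξ = θ * t ^ s ∧ ψ * ξ'' = θ ∧ ψ' * z * ξ' = θ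

/-- The graded root theorem. -/
def GrStmt : Prop :=
  ∀ (p : ℕ) [Fact p.Prime] (ι K : Type) [Fintype ι] [DecidableEq ι] [Field K] [Finite K]
    [CharP K p] (H : Type) [Group H] [Finite H] (A E : Type) [Ring A] [StarRing A] [Ring E]
    (φ : H →* SL ι K) (ρ : H →* A) (q : A →+* E) (π π' : Matrix ι ι K →+ E),
    St p φ ρ q π π' → Group.IsPerfect H → 6 ≤ Fintype.card ι →
    ∀ (k : ℕ) (a b : ι) (X Y m : A), a ≠ b →
      (q X = π (single a a 1) ∨ q X = π' (single a a 1)) →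
      (q Y = π (single b b 1) ∨ q Y = π' (single b b 1)) → m ∈ Jd ρ φ.ker ⊤ ^ (k + 1) →
      ∃ y, ρ y - 1 - (X * m * Y - star (X * m * Y)) ∈ Jd ρ φ.ker ⊤ ^ (k + 2)

/-- Exact root elements, for a perfect group. -/
def SmallStmt : Prop :=
  ∀ (p : ℕ) [Fact p.Prime] (ι K : Type) [Fintype ι] [DecidableEq ι] [Field K] [Finite K]
    [CharP K p] (H : Type) [Group H] [Finite H] (A E : Type) [Ring A] [StarRing A] [Ring E]
    (φ : H →* SL ι K) (ρ : H →* A) (q : A →+* E) (π π' : Matrix ι ι K →+ E),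
    St p φ ρ q π π' → Group.IsPerfect H → 6 ≤ Fintype.card ι →
    (Bd ρ ⊤ * Jd ρ φ.ker ⊤ * Bd ρ ⊤ = ⊥ → ∀ X ∈ Bd ρ ⊤, ∀ c ∈ Bd ρ ⊤, ∀ Y ∈ Bd ρ ⊤,
      ∀ θ₁ γ θ₂, q X = π θ₁ → q c = π γ → q Y = π θ₂ → θ₁ * γ = γ → γ * θ₂ = γ → γ * γ = 0 →
        ∃ g, ρ g = 1 + X * c * Y - star (X * c * Y)) ∧
    ∀ k : ℕ, Bd ρ ⊤ * Jd ρ φ.ker ⊤ ^ (k + 2) * Bd ρ ⊤ = ⊥ → ∀ X ∈ Bd ρ ⊤, ∀ Y ∈ Bd ρ ⊤,
      ∀ m ∈ Jd ρ φ.ker ⊤ ^ (k + 1), ∀ ξ ψ, q X = π ξ → (q Y = π ψ ∧ ψ * ξ = 0 ∨ q Y = π' ψ) →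
        ∃ g, ρ g = 1 + X * m * Y - star (X * m * Y)

/-- Exact root elements inside the subgroup generated by the elements of order prime to `p`. -/
def BigStmt : Prop :=
  ∀ (p : ℕ) [Fact p.Prime] (ι K : Type) [Fintype ι] [DecidableEq ι] [Field K] [Finite K]
    [CharP K p] (H : Type) [Group H] [Finite H] (A E : Type) [Ring A] [StarRing A] [Ring E]
    (φ : H →* SL ι K) (ρ : H →* A) (q : A →+* E) (π π' : Matrix ι ι K →+ E),
    St p φ ρ q π π' → 6 ≤ Fintype.card ι →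
    (Bd ρ (Op p H) * Jd ρ φ.ker (Op p H) * Bd ρ (Op p H) = ⊥ → ∀ X ∈ Bd ρ (Op p H),
      ∀ c ∈ Bd ρ (Op p H), ∀ Y ∈ Bd ρ (Op p H),
      ∀ θ₁ γ θ₂, q X = π θ₁ → q c = π γ → q Y = π θ₂ → θ₁ * γ = γ → γ * θ₂ = γ → γ * γ = 0 →
        ∃ g, ρ g = 1 + X * c * Y - star (X * c * Y)) ∧
    (∀ k : ℕ, Bd ρ (Op p H) * Jd ρ φ.ker (Op p H) ^ (k + 2) * Bd ρ (Op p H) = ⊥ →
      ∀ X ∈ Bd ρ (Op p H), ∀ Y ∈ Bd ρ (Op p H), ∀ m ∈ Jd ρ φ.ker (Op p H) ^ (k + 1), ∀ ξ ψ,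
        q X = π ξ → (q Y = π ψ ∧ ψ * ξ = 0 ∨ q Y = π' ψ) →
        ∃ g, ρ g = 1 + X * m * Y - star (X * m * Y)) ∧
    ∀ a ∈ Ad ρ (Op p H), q a = 0 → a ∈ Jd ρ φ.ker (Op p H)

/-- The norm map preserves the augmentation ideal up to a power of `u`. -/
def StarStmt : Prop :=
  ∀ (p : ℕ) [Fact p.Prime] (ι K : Type) [Fintype ι] [DecidableEq ι] [Field K] [Finite K]
    [CharP K p] (H : Type) [Group H] [Finite H] (A E : Type) [Ring A] [StarRing A] [Ring E]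
    (φ : H →* SL ι K) (ρ : H →* A) (q : A →+* E) (π π' : Matrix ι ι K →+ E),
    St p φ ρ q π π' → 3 ≤ Fintype.card ι → ∀ (s : ℕ) (u : H), (ρ u - 1) ^ (s + 1) = 0 →
    ((φ u).1 - 1) ^ s ≠ 0 → ∃ e : ℕ, ∀ I : Submodule ℤ A,
      (∀ g, ∀ a ∈ I, ρ g * a * ρ g⁻¹ ∈ I) →
      (∀ b ∈ Bd ρ (Op p H), Nn (ρ u - 1) s b * ρ u⁻¹ ^ e ∈ Bd ρ (Op p H)) ∧
      ∀ b ∈ Bd ρ (Op p H) * I * Bd ρ (Op p H),
        Nn (ρ u - 1) s b * ρ u⁻¹ ^ e ∈ Bd ρ (Op p H) * I * Bd ρ (Op p H)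

/-- The conclusion of the local analysis. -/
def CoreOut (p : ℕ) {ι K : Type} [Fintype ι] [DecidableEq ι] [Field K] {H : Type} [Group H]
    {A : Type} [Ring A] (φ : H →* SL ι K) (ρ : H →* A) (u : H) (s d : ℕ) : Prop :=
  Alpha p u d ∨ ∃ N : Subgroup H, N.Normal ∧ IsPGroup p N ∧ N ≠ ⊥ ∧
    (∀ z, Commute u z → φ z ≠ 1 → (∀ γ : Matrix ι ι K, γ * ((φ z).1 - 1) ≠ ((φ u).1 - 1) ^ s) →
      ∃ a ∈ N, Commute u a ∧ ¬ Commute z a) ∧
    ∀ (E : Type) [Ring E] (χ : A →+* E), ∀ w ∈ N, ∀ η : E, (∀ g, Commute (χ (ρ g)) η) →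
      χ (ρ w - 1) * η ≠ 0 → ∀ γ, γ * χ (ρ w - 1) * η ≠ χ (ρ u - 1) ^ s * η

/-- The local analysis inside a ring with involution. -/
def CoreStStmt : Prop :=
  ∀ (p : ℕ) [Fact p.Prime] (ι K : Type) [Fintype ι] [DecidableEq ι] [Field K] [Finite K]
    [CharP K p] (H : Type) [Group H] [Finite H] (A E : Type) [Ring A] [StarRing A] [Ring E]
    (φ : H →* SL ι K) (ρ : H →* A) (q : A →+* E) (π π' : Matrix ι ι K →+ E),
    St p φ ρ q π π' → ∀ (u : H) (s d : ℕ), (ρ u - 1) ^ (s + 1) = 0 →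
    2 * (d + s) + 6 ≤ (((φ u).1 - 1) ^ s).rank → CoreOut p φ ρ u s d

/-- The local analysis. -/
def CoreStmt : Prop :=
  ∀ (p : ℕ) [Fact p.Prime] (ι K : Type) [Fintype ι] [DecidableEq ι] [Field K] [Finite K]
    [CharP K p] (H : Type) [Group H] [Finite H] (A : Type) [Ring A] (φ : H →* SL ι K)
    (ρ : H →* A), Function.Surjective φ → IsPGroup p φ.ker → (p : A) = 0 →
    Function.Injective ρ → D1 p φ ρ → ∀ (u : H) (s d : ℕ), (ρ u - 1) ^ (s + 1) = 0 →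
    2 * (d + s) + 6 ≤ (((φ u).1 - 1) ^ s).rank → CoreOut p φ ρ u s d

end Pool.Agent.Lib.MP_679d9b_al.PT
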