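import Mathlib
import Pool.Agent.Lib.MP_679d9b_al.PT.Defs

-- part Pool.Agent.Lib.MP_679d9b_al.PT.Grp
section

/-!
Elementary facts on finite groups and on rings of characteristic `p`.
-/

set_option autoImplicit false

namespace Pool.Agent.Lib.MP_679d9b_al.PT

open Subgroup Matrix
open scoped commutatorElement

namespace Grp

variable {p : ℕ} {H H' : Type} [Group H] [Group H']

theorem pel_map {M M' : Type} [Monoid M] [Monoid M'] (ψ : M →* M') {g : M} (h : PEl p g) :
    PEl p (ψ g) := by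
  obtain ⟨k, hk⟩ := h
  exact ⟨k, by rw [← map_pow, hk, map_one]⟩

theorem qel_map {M M' : Type} [Monoid M] [Monoid M'] (ψ : M →* M') {g : M} (h : QEl p g) :
    QEl p (ψ g) := by
  obtain ⟨m, hm, hk⟩ := h
  exact ⟨m, hm, by rw [← map_pow, hk, map_one]⟩

theorem pel_mul_comm {M : Type} [Monoid M] {a b : M} (hab : Commute a b) (ha : PEl p a)
    (hb : PEl p b) : PEl p (a * b) := by
  obtain ⟨k, hk⟩ := ha
  obtain ⟨l, hl⟩ := hb
  refine ⟨k + l, ?_⟩
  rw [hab.mul_pow, pow_add, pow_mul a, hk, one_pow, mul_comm (p ^ k), pow_mul b, hl, one_pow,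
    one_mul]

theorem qel_mul_comm {M : Type} [Monoid M] {a b : M} (hab : Commute a b) (ha : QEl p a)
    (hb : QEl p b) : QEl p (a * b) := by
  obtain ⟨k, hk', hk⟩ := ha
  obtain ⟨l, hl', hl⟩ := hb
  refine ⟨k * l, Nat.Coprime.mul_left hk' hl', ?_⟩
  rw [hab.mul_pow, pow_mul a, hk, one_pow, mul_comm k, pow_mul b, hl, one_pow, one_mul]

theorem pel_inv {a : H} (ha : PEl p a) : PEl p a⁻¹ := by
  obtain ⟨k, hk⟩ := ha
  exact ⟨k, by rw [inv_pow, hk, inv_one]⟩

theorem qel_inv {a : H} (ha : QEl p a) : QEl p a⁻¹ := by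
  obtain ⟨m, hm, hk⟩ := ha
  exact ⟨m, hm, by rw [inv_pow, hk, inv_one]⟩

theorem qel_pow {M : Type} [Monoid M] {a : M} (ha : QEl p a) (n : ℕ) : QEl p (a ^ n) := by
  obtain ⟨m, hm, hk⟩ := ha
  exact ⟨m, hm, by rw [← pow_mul, mul_comm, pow_mul, hk, one_pow]⟩

theorem commute_of_mem_zpowers {g a b : H} (ha : a ∈ zpowers g) (hb : b ∈ zpowers g) :
    Commute a b := by
  obtain ⟨i, rfl⟩ := ha
  obtain ⟨j, rfl⟩ := hb
  exact zpow_mul_comm g i j

theorem pel_of_pow {M : Type} [Monoid M] {a : M} {k : ℕ} (h : PEl p (a ^ p ^ k)) : PEl p a := by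
  obtain ⟨l, hl⟩ := h
  exact ⟨k + l, by rw [pow_add, pow_mul, hl]⟩

theorem pel_of_mem {P : Subgroup H} (hP : IsPGroup p P) {a : H} (ha : a ∈ P) : PEl p a := by
  obtain ⟨k, hk⟩ := hP ⟨a, ha⟩
  exact ⟨k, by simpa using congrArg Subtype.val hk⟩

theorem isPGroup_of_pel {P : Subgroup H} (h : ∀ a ∈ P, PEl p a) : IsPGroup p P := by
  rintro ⟨a, ha⟩
  obtain ⟨k, hk⟩ := h a ha
  exact ⟨k, Subtype.ext (by simpa using hk)⟩

theorem exists_exp [hp : Fact p.Prime] {m : ℕ} (hm : m.Coprime p) (n : ℕ) :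
    ∃ k, n ≤ p ^ k ∧ p ^ k ≡ 1 [MOD m] := by
  have hm0 : m ≠ 0 := by
    rintro rfl
    exact hp.out.one_lt.ne' (by simpa using hm)
  have ht : 0 < Nat.totient m := Nat.totient_pos.2 (Nat.pos_of_ne_zero hm0)
  refine ⟨Nat.totient m * n, ?_, ?_⟩
  · exact (Nat.le_mul_of_pos_left n ht).trans (Nat.lt_pow_self hp.out.one_lt).le
  · rw [pow_mul]
    simpa using (Nat.ModEq.pow_totient hm.symm).pow n

theorem pow_eq_self {M : Type} [Monoid M] {a : M} {m N : ℕ} (h : a ^ m = 1)
    (hN : N ≡ 1 [MOD m]) : a ^ N = a := by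
  rw [pow_eq_pow_mod N h, hN, ← pow_eq_pow_mod 1 h, pow_one]

/-- An element of order prime to `p` is a power of each of its `p ^ k`-th powers. -/
theorem qel_mem [Fact p.Prime] {S : Subgroup H} {b : H} (hb : QEl p b) {k : ℕ}
    (h : b ^ p ^ k ∈ S) : b ∈ S := by
  obtain ⟨m, hm, hk⟩ := hb
  obtain ⟨l', h1, h2⟩ := exists_exp hm (p ^ k)
  have hp : p.Prime := Fact.out
  have hle : k ≤ l' := (Nat.pow_le_pow_iff_right hp.one_lt).1 h1
  rw [← pow_eq_self hk h2, ← Nat.add_sub_cancel' hle, pow_add, pow_mul]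
  exact S.pow_mem h _

theorem fix_prime [hp : Fact p.Prime] (P : Subgroup H) [Finite P] (hP : IsPGroup p P)
    (σ : MulAut H) (q : ℕ) (hq : q.Prime) (hqp : q.Coprime p) (g : H) (hσ : ∀ y ∈ P, σ y ∈ P)
    (hg : g⁻¹ * σ g ∈ P) (ho' : ∀ y ∈ P, (σ ^ q) (g * y) = g * y) :
    ∃ y ∈ P, σ (g * y) = g * y := by
  classical
  haveI : Fact q.Prime := ⟨hq⟩
  haveI := Fintype.ofFinite P
  let f : P → P := fun y => ⟨g⁻¹ * σ g * σ y, P.mul_mem hg (hσ y y.2)⟩
  have hf : ∀ y : P, g * (f y : H) = σ (g * y) := fun y => by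
    simp only [f, map_mul]
    group
  have hinj : Function.Injective f := by
    intro y y' e
    have := hf y
    rw [e, hf] at this
    exact Subtype.ext (mul_left_cancel (σ.injective this)).symm
  let τ : Equiv.Perm P := Equiv.ofBijective f (Finite.injective_iff_bijective.1 hinj)
  have hτ : ∀ (n : ℕ) (y : P), g * ((τ ^ n) y : H) = (σ ^ n) (g * y) := by
    intro n
    induction n with
    | zero => intro y; rfl
    | succ n ih =>
      intro y
      rw [pow_succ', pow_succ', Equiv.Perm.mul_apply, MulAut.mul_apply, ← ih]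
      exact hf _
  have h1 : τ ^ q ^ 1 = 1 := by
    ext y
    rw [pow_one]
    have := hτ q y
    rw [ho' y y.2] at this
    exact mul_left_cancel this
  have h2 : ¬ q ∣ Fintype.card P := by
    obtain ⟨n, hn⟩ := IsPGroup.iff_card.1 hP
    rw [← Nat.card_eq_fintype_card, hn]
    exact (Nat.Prime.coprime_iff_not_dvd hq).1 (hqp.pow_right n)
  obtain ⟨y, hy⟩ := Equiv.Perm.exists_fixed_point_of_prime h2 h1
  refine ⟨y, y.2, ?_⟩
  rw [← hf]
  exact congrArg (fun t : P => g * (t : H)) hy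

end Grp

open Grp

section Grp
variable {p : ℕ} [Fact p.Prime] {H H' : Type} [Group H] [Group H']

theorem eq_one_of_pel_qel {M : Type} [Monoid M] {g : M} (h : PEl p g) (h' : QEl p g) : g = 1 := by
  obtain ⟨k, hk⟩ := h
  obtain ⟨m, hm, hm'⟩ := h'
  exact orderOf_eq_one_iff.1 (Nat.eq_one_of_dvd_coprimes (hm.pow_right k)
    (orderOf_dvd_of_pow_eq_one hm') (orderOf_dvd_of_pow_eq_one hk))

theorem exists_pq {g : H} (hg : IsOfFinOrder g) :
    ∃ a ∈ zpowers g, ∃ b ∈ zpowers g, PEl p a ∧ QEl p b ∧ g = a * b := by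
  have hp : p.Prime := Fact.out
  obtain ⟨k, m, hm, hn⟩ := Nat.exists_eq_pow_mul_and_not_dvd hg.orderOf_pos.ne' p hp.ne_one
  have hc : m.Coprime p := ((Nat.Prime.coprime_iff_not_dvd hp).2 hm).symm
  have hc' : IsCoprime (m : ℤ) ((p ^ k : ℕ) : ℤ) := Nat.isCoprime_iff_coprime.2 (hc.pow_right k)
  obtain ⟨u, v, huv⟩ := hc'
  have h1 : g ^ ((p ^ k * m : ℕ) : ℤ) = 1 := by rw [zpow_natCast, ← hn, pow_orderOf_eq_one]
  refine ⟨g ^ (u * m), zpow_mem_zpowers _ _, g ^ (v * (p ^ k : ℕ)), zpow_mem_zpowers _ _,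
    ⟨k, ?_⟩, ⟨m, hc, ?_⟩, ?_⟩
  · rw [← zpow_natCast, ← _root_.zpow_mul,
      show u * (m : ℤ) * ((p ^ k : ℕ) : ℤ) = ((p ^ k * m : ℕ) : ℤ) * u by push_cast; ring,
      _root_.zpow_mul, h1, _root_.one_zpow]
  · rw [← zpow_natCast, ← _root_.zpow_mul,
      show v * ((p ^ k : ℕ) : ℤ) * (m : ℤ) = ((p ^ k * m : ℕ) : ℤ) * v by push_cast; ring,
      _root_.zpow_mul, h1, _root_.one_zpow]
  · rw [← _root_.zpow_add, huv, zpow_one]

theorem pel_lift (ψ : H →* H') {g : H} (hg : IsOfFinOrder g) (h : PEl p (ψ g)) :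
    ∃ a ∈ zpowers g, PEl p a ∧ ψ a = ψ g := by
  obtain ⟨a, ha, b, -, pa, qb, e⟩ := exists_pq (p := p) hg
  have hc : Commute (ψ a)⁻¹ (ψ g) :=
    ((commute_of_mem_zpowers ha (mem_zpowers g)).map ψ).inv_left
  have e1 : ψ b = (ψ a)⁻¹ * ψ g := by rw [e, map_mul, inv_mul_cancel_left]
  have : ψ b = 1 :=
    eq_one_of_pel_qel (e1 ▸ pel_mul_comm hc (pel_inv (pel_map ψ pa)) h) (qel_map ψ qb)
  exact ⟨a, ha, pa, by rw [e, map_mul, this, mul_one]⟩

theorem qel_lift (ψ : H →* H') {g : H} (hg : IsOfFinOrder g) (h : QEl p (ψ g)) :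
    ∃ a ∈ zpowers g, QEl p a ∧ ψ a = ψ g := by
  obtain ⟨a, -, b, hb, pa, qb, e⟩ := exists_pq (p := p) hg
  have hc : Commute (ψ g) (ψ b)⁻¹ :=
    ((commute_of_mem_zpowers (mem_zpowers g) hb).map ψ).inv_right
  have e1 : ψ a = ψ g * (ψ b)⁻¹ := by rw [e, map_mul, mul_inv_cancel_right]
  have : ψ a = 1 :=
    eq_one_of_pel_qel (pel_map ψ pa) (e1 ▸ qel_mul_comm hc h (qel_inv (qel_map ψ qb)))
  exact ⟨b, hb, qb, by rw [e, map_mul, this, one_mul]⟩

/-- In a finite central extension of a `p`-group the `p`-elements form a subgroup. -/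
theorem pel_mul (D Z : Subgroup H) [Finite D] (hZ : ∀ z ∈ Z, ∀ d ∈ D, Commute z d)
    (hD : ∀ d ∈ D, ∃ k, d ^ p ^ k ∈ Z) {a b : H} (ha : a ∈ D) (hb : b ∈ D) (ha' : PEl p a)
    (hb' : PEl p b) : PEl p (a * b) := by
  have hq : IsPGroup p (D ⧸ center D) := by
    intro x
    obtain ⟨d, rfl⟩ := QuotientGroup.mk_surjective x
    obtain ⟨k, hk⟩ := hD d d.2
    refine ⟨k, ?_⟩
    rw [← QuotientGroup.mk_pow, QuotientGroup.eq_one_iff, mem_center_iff]
    intro y
    exact Subtype.ext (hZ _ hk y y.2).eq.symm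
  haveI : Group.IsNilpotent D := Group.of_quotient_center_nilpotent hq.isNilpotent
  have key : ∀ (P : Sylow p D) (x : D), PEl p (x : H) → x ∈ P := by
    intro P x hx
    have h1 : IsPGroup p (zpowers x) := by
      refine isPGroup_of_pel fun y hy => ?_
      obtain ⟨i, rfl⟩ := hy
      obtain ⟨k, hk⟩ := hx
      have hk' : x ^ p ^ k = 1 := Subtype.ext (by simpa using hk)
      refine ⟨k, ?_⟩
      simp only
      rw [← zpow_natCast, ← _root_.zpow_mul, mul_comm, _root_.zpow_mul, zpow_natCast, hk',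
        _root_.one_zpow]
    obtain ⟨Q, hQ⟩ := h1.exists_le_sylow
    haveI := Sylow.unique_of_normal P inferInstance
    rw [Subsingleton.elim P Q]
    exact hQ (mem_zpowers x)
  obtain ⟨P⟩ : Nonempty (Sylow p D) := inferInstance
  have := pel_of_mem P.isPGroup' (P.1.mul_mem (key P ⟨a, ha⟩ ha') (key P ⟨b, hb⟩ hb'))
  exact pel_map D.subtype this

theorem exists_pk (N R : Subgroup H) [Finite N] [N.Normal] [R.Normal]
    (h1 : ∀ g ∈ N, ∃ k, g ^ p ^ k ∈ R) (h2 : IsPGroup p (⁅N, R⁆ : Subgroup H)) :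
    ∃ P : Subgroup H, P.Normal ∧ ∀ g, g ∈ P ↔ g ∈ N ∧ PEl p g := by
  have hmul : ∀ a b, a ∈ N ∧ PEl p a → b ∈ N ∧ PEl p b → a * b ∈ N ∧ PEl p (a * b) := by
    intro a b ha hb
    refine ⟨N.mul_mem ha.1 hb.1, ?_⟩
    let π := QuotientGroup.mk' (⁅N, R⁆ : Subgroup H)
    haveI : Finite (N.map π) := Finite.of_surjective _ (π.subgroupMap_surjective N)
    have := pel_mul (p := p) (N.map π) (R.map π) (by
        rintro _ ⟨z, hz, rfl⟩ _ ⟨d, hd, rfl⟩
        refine (commutatorElement_eq_one_iff_commute.1 ?_).symm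
        rw [← map_commutatorElement]
        exact (QuotientGroup.eq_one_iff _).2 (commutator_mem_commutator hd hz))
      (by
        rintro _ ⟨d, hd, rfl⟩
        obtain ⟨k, hk⟩ := h1 d hd
        exact ⟨k, _, hk, map_pow π _ _⟩)
      (mem_map_of_mem π ha.1) (mem_map_of_mem π hb.1) (pel_map π ha.2) (pel_map π hb.2)
    obtain ⟨k, hk⟩ := this
    rw [← map_mul, ← map_pow] at hk
    exact pel_of_pow (pel_of_mem h2 ((QuotientGroup.eq_one_iff _).1 hk))
  let P : Subgroup H :=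
    { carrier := {g | g ∈ N ∧ PEl p g}
      mul_mem' := fun ha hb => hmul _ _ ha hb
      one_mem' := ⟨N.one_mem, 0, one_pow _⟩
      inv_mem' := fun ha => ⟨N.inv_mem ha.1, pel_inv ha.2⟩ }
  refine ⟨P, ⟨fun n hn g => ⟨Normal.conj_mem inferInstance n hn.1 g, ?_⟩⟩, fun g => Iff.rfl⟩
  exact pel_map (MulAut.conj g).toMonoidHom hn.2

theorem cenp (N R Z : Subgroup H) [N.Normal] [R.Normal] [Finite R] (hR : ⁅R, R⁆ = R)
    (hZ : Z ≤ center H) (h : ∀ g ∈ (⁅N, R⁆ : Subgroup H), ∃ k, g ^ p ^ k ∈ Z) :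
    IsPGroup p (⁅N, R⁆ : Subgroup H) := by
  have hCR : (⁅N, R⁆ : Subgroup H) ≤ R := commutator_le_right N R
  haveI : Finite (⁅N, R⁆ : Subgroup H) :=
    Finite.of_injective _ (inclusion_injective hCR)
  have hb : (⁅(⁅N, R⁆ : Subgroup H), center H⁆ : Subgroup H) = ⊥ := by
    rw [commutator_eq_bot_iff_le_centralizer]
    intro x _ y hy
    exact (mem_center_iff.1 hy x).symm
  obtain ⟨P, hPn, hP⟩ := exists_pk (p := p) (⁅N, R⁆ : Subgroup H) (center H)
    (fun g hg => (h g hg).imp fun k hk => hZ hk) (by rw [hb]; exact IsPGroup.of_bot)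
  let π := QuotientGroup.mk' P
  have hc : (⁅(⁅N.map π, R.map π⁆ : Subgroup _), R.map π⁆ : Subgroup _) = ⊥ := by
    rw [commutator_eq_bot_iff_le_centralizer, ← map_commutator]
    rintro _ ⟨g, hg, rfl⟩ _ ⟨y, -, rfl⟩
    have hfin : IsOfFinOrder g := by
      have := isOfFinOrder_of_finite (⟨g, hg⟩ : (⁅N, R⁆ : Subgroup H))
      exact (⁅N, R⁆ : Subgroup H).subtype.isOfFinOrder this
    obtain ⟨a, ha, b, hb', pa, qb, e⟩ := exists_pq (p := p) hfin
    have ha' : a ∈ (⁅N, R⁆ : Subgroup H) := zpowers_le.2 hg ha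
    have hb2 : b ∈ (⁅N, R⁆ : Subgroup H) := zpowers_le.2 hg hb'
    obtain ⟨k, hk⟩ := h b hb2
    have hbz : b ∈ center H := qel_mem qb (hZ hk)
    have e1 : π a = 1 := (QuotientGroup.eq_one_iff _).2 ((hP a).2 ⟨ha', pa⟩)
    rw [e, map_mul, e1, one_mul, ← map_mul, ← map_mul, mem_center_iff.1 hbz y]
  have h3 : (⁅(⁅R.map π, R.map π⁆ : Subgroup _), N.map π⁆ : Subgroup _) = ⊥ :=
    commutator_commutator_eq_bot_of_rotate (by rw [commutator_comm (R.map π) (N.map π)]; exact hc)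
      hc
  rw [← map_commutator, hR, commutator_comm, ← map_commutator, Subgroup.map_eq_bot_iff,
    QuotientGroup.ker_mk'] at h3
  exact isPGroup_of_pel fun a ha => ((hP a).1 (h3 ha)).2

/-- Coprime action: an invariant coset of a `p`-group contains a fixed point. -/
theorem fix_coset (P : Subgroup H) [Finite P] (hP : IsPGroup p P) (σ : MulAut H) (o : ℕ)
    (ho : o.Coprime p) (g : H) (hσ : ∀ y ∈ P, σ y ∈ P) (hg : g⁻¹ * σ g ∈ P)
    (ho' : ∀ y ∈ P, (σ ^ o) (g * y) = g * y) : ∃ y ∈ P, σ (g * y) = g * y := by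
  induction o using induction_on_primes generalizing σ with
  | zero => exact absurd (by simpa using ho) (Fact.out : p.Prime).one_lt.ne'
  | one => exact ⟨1, P.one_mem, by simpa using ho' 1 P.one_mem⟩
  | prime_mul q a hq ih =>
    have hσn : ∀ (n : ℕ), ∀ y ∈ P, (σ ^ n) y ∈ P := by
      intro n
      induction n with
      | zero => intro y hy; exact hy
      | succ n ihn => intro y hy; rw [pow_succ', MulAut.mul_apply]; exact hσ _ (ihn y hy)
    have hgn : ∀ n : ℕ, g⁻¹ * (σ ^ n) g ∈ P := by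
      intro n
      induction n with
      | zero => simpa using P.one_mem
      | succ n ihn =>
        have := P.mul_mem hg (hσ _ ihn)
        rw [map_mul, map_inv, mul_assoc, mul_inv_cancel_left] at this
        rw [pow_succ', MulAut.mul_apply]
        exact this
    obtain ⟨y0, hy0, e0⟩ := ih (σ ^ q) (Nat.Coprime.coprime_mul_left ho) (hσn q) (hgn q)
      (fun y hy => by rw [← pow_mul]; exact ho' y hy)
    have hcomm : ∀ x, (σ ^ q) (σ x) = σ ((σ ^ q) x) := fun x => by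
      rw [← MulAut.mul_apply, ← MulAut.mul_apply, ← pow_succ, ← pow_succ']
    let P' : Subgroup H := P ⊓ MonoidHom.eqLocus (σ ^ q).toMonoidHom (MonoidHom.id H)
    have hm : ∀ y, y ∈ P' ↔ y ∈ P ∧ (σ ^ q) y = y := fun y => Iff.rfl
    haveI : Finite P' := Finite.of_injective _ (inclusion_injective (inf_le_left : P' ≤ P))
    obtain ⟨y, hy, e⟩ := fix_prime P' (hP.to_le inf_le_left) σ q hq
      (Nat.Coprime.coprime_mul_right ho) (g * y0)
      (fun y hy => (hm _).2 ⟨hσ y hy.1, by rw [hcomm, ((hm y).1 hy).2]⟩)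
      ((hm _).2 ⟨by
        have := P.mul_mem (P.mul_mem (P.inv_mem hy0) hg) (hσ y0 hy0)
        rw [map_mul, _root_.mul_inv_rev]
        simpa only [mul_assoc] using this, by rw [map_mul, map_inv, hcomm, e0]⟩)
      (fun y hy => by rw [map_mul, e0, ((hm y).1 hy).2])
    exact ⟨y0 * y, P.mul_mem hy0 hy.1, by rw [← mul_assoc]; exact e⟩

instance op_normal : (Op p H).Normal := by
  refine ⟨fun n hn g => ?_⟩
  have : Op p H ≤ (Op p H).comap (MulAut.conj g).toMonoidHom := by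
    rw [Op, closure_le]
    intro x hx
    exact subset_closure (qel_map (MulAut.conj g).toMonoidHom hx)
  exact this hn

theorem pow_mem_op [Finite H] (g : H) : ∃ k, g ^ p ^ k ∈ Op p H := by
  obtain ⟨a, ha, b, hb, ⟨k, hk⟩, qb, e⟩ := exists_pq (p := p) (isOfFinOrder_of_finite g)
  refine ⟨k, ?_⟩
  rw [e, (commute_of_mem_zpowers ha hb).mul_pow, hk, one_mul]
  exact subset_closure (qel_pow qb _)

theorem op_eq_top [Finite H] (h : Group.IsPerfect H) : Op p H = ⊤ := by
  have hq : IsPGroup p (H ⧸ Op p H) := by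
    intro x
    obtain ⟨d, rfl⟩ := QuotientGroup.mk_surjective x
    obtain ⟨k, hk⟩ := pow_mem_op (p := p) d
    exact ⟨k, by rw [← QuotientGroup.mk_pow, QuotientGroup.eq_one_iff]; exact hk⟩
  rcases subsingleton_or_nontrivial (H ⧸ Op p H) with hs | hn
  · rw [eq_top_iff]
    intro g _
    exact (QuotientGroup.eq_one_iff g).1 (Subsingleton.elim _ _)
  · exact absurd hq.isNilpotent (Group.IsPerfect.not_isNilpotent _)

/-- Induction over a finite perfect subgroup through its elements of order prime to `p`. -/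
theorem le_of_qel {Y S : Subgroup H} [Finite Y] (hY : ⁅Y, Y⁆ = Y)
    (h : ∀ g ∈ Y, QEl p g → g ∈ S) : Y ≤ S := by
  have h1 := op_eq_top (p := p) (Subgroup.isPerfect_iff.2 hY)
  have h2 : Op p Y ≤ S.comap Y.subtype := by
    rw [Op, closure_le]
    intro x hx
    exact h x x.2 (qel_map Y.subtype hx)
  intro y hy
  exact h2 (show (⟨y, hy⟩ : Y) ∈ Op p Y by rw [h1]; exact mem_top _)

theorem commute_of_pel {a b : H} (ha : PEl p a) (h : ⁅a, b⁆ ∈ center H)
    (h' : PEl p ⁅a, b⁆ → ⁅a, b⁆ = 1) : Commute a b := by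
  refine commutatorElement_eq_one_iff_commute.1 (h' ?_)
  obtain ⟨k, hk⟩ := ha
  have h1 : a * b = ⁅a, b⁆ * b * a := by rw [commutatorElement_def]; group
  have hc : ∀ x, Commute x ⁅a, b⁆ := fun x => mem_center_iff.1 h x
  have key : ∀ n : ℕ, a ^ n * b = ⁅a, b⁆ ^ n * b * a ^ n := by
    intro n
    induction n with
    | zero => simp
    | succ n ih =>
      rw [pow_succ' a n, mul_assoc, ih, ← mul_assoc, ← mul_assoc, ((hc a).pow_right n).eq,
        mul_assoc _ a b, h1, pow_succ]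
      simp only [mul_assoc]
  have := key (p ^ k)
  rw [hk, one_mul, mul_one] at this
  exact ⟨k, mul_right_cancel (this.symm.trans (one_mul b).symm)⟩

/-- Commuting lifts of order prime to `p` through a `p`-kernel. -/
theorem commuting_qel_lift [Finite H] (φ : H →* H') (hφ : Function.Surjective φ)
    (hk : IsPGroup p φ.ker) {a b : H'} (ha : QEl p a) (hb : QEl p b) (hab : Commute a b) :
    ∃ x y : H, QEl p x ∧ QEl p y ∧ Commute x y ∧ φ x = a ∧ φ y = b := by
  obtain ⟨x0, rfl⟩ := hφ a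
  obtain ⟨g, rfl⟩ := hφ b
  obtain ⟨x, -, qx, ex⟩ := qel_lift φ (isOfFinOrder_of_finite x0) ha
  obtain ⟨o, ho, hxo⟩ := id qx
  obtain ⟨y, hy, e⟩ := fix_coset φ.ker hk (MulAut.conj x) o ho g
    (fun y hy => Normal.conj_mem inferInstance y hy x)
    (by
      rw [MonoidHom.mem_ker, MulAut.conj_apply, map_mul, map_mul, map_mul, map_inv, map_inv, ex,
        hab.eq]
      group)
    (fun y _ => by rw [← map_pow, hxo, map_one]; rfl)
  have e1 : φ (g * y) = φ g := by rw [map_mul, MonoidHom.mem_ker.1 hy, mul_one]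
  obtain ⟨y', hy', qy, ey⟩ := qel_lift φ (isOfFinOrder_of_finite (g * y)) (e1 ▸ hb)
  have hc : Commute x (g * y) := by
    rw [MulAut.conj_apply, mul_inv_eq_iff_eq_mul] at e
    exact e
  obtain ⟨i, rfl⟩ := hy'
  exact ⟨x, _, qx, qy, hc.zpow_right i, ex, ey.trans e1⟩

/-- A normal `p`-subgroup contains a nontrivial element centralized by a given `p`-subgroup. -/
theorem exists_fixed [Finite H] (N Q : Subgroup H) [N.Normal] (hN : IsPGroup p N)
    (hQ : IsPGroup p Q) (h : N ≠ ⊥) : ∃ w ∈ N, w ≠ 1 ∧ ∀ y ∈ Q, Commute y w := by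
  letI : MulAction Q N := MulAction.compHom N ((MulAut.conjNormal : H →* MulAut N).comp Q.subtype)
  have hs : ∀ (y : Q) (w : N), ((y • w : N) : H) = y * w * (y : H)⁻¹ := fun y w => rfl
  have hd : p ∣ Nat.card N := by
    rcases hN.card_eq_or_dvd with h1 | h1
    · exact absurd (Subgroup.card_eq_one.1 h1) h
    · exact h1
  obtain ⟨w, hw, hne⟩ := hQ.exists_fixed_point_of_prime_dvd_card_of_fixed_point N hd
    (a := 1) (fun y => Subtype.ext (by rw [hs]; simp))
  refine ⟨w, w.2, fun e => hne (Subtype.ext e.symm), fun y hy => ?_⟩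
  have := congrArg Subtype.val (hw ⟨y, hy⟩)
  rw [hs, mul_inv_eq_iff_eq_mul] at this
  exact this

end Grp

section Rng
variable {p : ℕ} [Fact p.Prime] {A : Type} [Ring A]

theorem Grp.sub_one_pow (hp : (p : A) = 0) (a : A) (k : ℕ) :
    (a - 1) ^ p ^ k = a ^ p ^ k - 1 := by
  rcases subsingleton_or_nontrivial A with hs | hn
  · exact Subsingleton.elim _ _
  · haveI : CharP A p := (CharP.charP_iff_prime_eq_zero Fact.out).2 hp
    rw [sub_pow_char_pow_of_commute p k (Commute.one_right a), one_pow]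

theorem pel_of_nil (hp : (p : A) = 0) {a : A} (h : IsNilpotent (a - 1)) : PEl p a := by
  obtain ⟨n, hn⟩ := h
  refine ⟨n, sub_eq_zero.1 ?_⟩
  rw [← Grp.sub_one_pow hp]
  exact pow_eq_zero_of_le (Nat.lt_pow_self (Fact.out : p.Prime).one_lt).le hn

theorem nil_of_pel (hp : (p : A) = 0) {a : A} (h : PEl p a) : IsNilpotent (a - 1) := by
  obtain ⟨k, hk⟩ := h
  exact ⟨p ^ k, by rw [Grp.sub_one_pow hp, hk, sub_self]⟩

/-- Reducedness of the ring generated by two commuting elements of order prime to `p`. -/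
theorem red (hp : (p : A) = 0) {a b : A} (ha : QEl p a) (hb : QEl p b) (hab : Commute a b)
    (h : IsNilpotent ((a - 1) * (b - 1))) : (a - 1) * (b - 1) = 0 := by
  obtain ⟨n, hn⟩ := h
  obtain ⟨m, hm, em⟩ := ha
  obtain ⟨l, hl, el⟩ := hb
  obtain ⟨k, h1, h2⟩ := exists_exp (Nat.Coprime.mul_left hm hl) n
  have hc : Commute (a - 1) (b - 1) :=
    (hab.sub_right (Commute.one_right a)).sub_left (Commute.one_left _)
  have := pow_eq_zero_of_le h1 hn
  rwa [hc.mul_pow, Grp.sub_one_pow hp, Grp.sub_one_pow hp,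
    pow_eq_self em (h2.of_mul_right l), pow_eq_self el (h2.of_mul_left m)] at this

/-- For `a` of order prime to `p` the element `a - 1` is a multiple of each of its powers. -/
theorem sub_one_eq (hp : (p : A) = 0) {a : A} (ha : QEl p a) (n : ℕ) :
    ∃ N, n ≤ N ∧ a - 1 = (a - 1) ^ N := by
  obtain ⟨m, hm, em⟩ := ha
  obtain ⟨k, h1, h2⟩ := exists_exp hm n
  exact ⟨p ^ k, h1, by rw [Grp.sub_one_pow hp, pow_eq_self em h2]⟩

/-- Affine permutations with linear part from `P` and translation part from `M`. -/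
def Grp.aff {H : Type} [Group H] (ρ : H →* A) (P : Subgroup H) (M : Submodule ℤ A)
    (hM : ∀ g, ∀ m ∈ M, ρ g * m ∈ M) : Subgroup (Equiv.Perm A) where
  carrier := {e | ∃ y ∈ P, ∃ m ∈ M, ∀ x, e x = ρ y * x + m}
  mul_mem' := by
    rintro e e' ⟨y, hy, m, hm, h⟩ ⟨y', hy', m', hm', h'⟩
    refine ⟨y * y', P.mul_mem hy hy', ρ y * m' + m, M.add_mem (hM _ _ hm') hm, fun x => ?_⟩
    rw [Equiv.Perm.mul_apply, h, h', map_mul, mul_add, mul_assoc, add_assoc]
  one_mem' := ⟨1, P.one_mem, 0, M.zero_mem, fun x => by simp⟩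
  inv_mem' := by
    rintro e ⟨y, hy, m, hm, h⟩
    refine ⟨y⁻¹, P.inv_mem hy, -(ρ y⁻¹ * m), M.neg_mem (hM _ _ hm), fun x => ?_⟩
    rw [Equiv.Perm.inv_eq_iff_eq, h, mul_add, mul_neg, ← mul_assoc, ← mul_assoc, ← map_mul,
      mul_inv_cancel, map_one, one_mul, one_mul, neg_add_cancel_right]

theorem nil_aug (hp : (p : A) = 0) {H : Type} [Group H] [Finite H] (ρ : H →* A) (P : Subgroup H)
    [P.Normal] (hP : IsPGroup p P) : ∃ L : ℕ, Jd ρ P ⊤ ^ L = ⊥ := by
  set M : Submodule ℤ A := Ad ρ ⊤ with hMd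
  have hM : ∀ g, ∀ m ∈ M, ρ g * m ∈ M := by
    intro g m hm
    induction hm using Submodule.span_induction with
    | mem x hx =>
      obtain ⟨h, -, rfl⟩ := hx
      exact Submodule.subset_span ⟨g * h, mem_top _, (map_mul ρ g h).symm⟩
    | zero => rw [mul_zero]; exact M.zero_mem
    | add x y _ _ hx hy => rw [mul_add]; exact M.add_mem hx hy
    | smul c x _ hx => rw [mul_smul_comm]; exact M.smul_mem c hx
  have hfin : {x | ∃ g ∈ (⊤ : Subgroup H), x = ρ g}.Finite :=
    (Set.finite_range ρ).subset fun x ⟨g, _, e⟩ => ⟨g, e.symm⟩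
  haveI : Module.Finite ℤ M := Module.Finite.span_of_finite ℤ hfin
  have hp0 : (p : ℤ) ≠ 0 := Int.natCast_ne_zero.2 (Fact.out : p.Prime).ne_zero
  haveI : Finite M := Module.finite_of_fg_torsion M fun x =>
    ⟨⟨p, mem_nonZeroDivisors_of_ne_zero hp0⟩, Subtype.ext (by
      change (p : ℤ) • (x : A) = 0
      rw [natCast_zsmul, nsmul_eq_mul, hp, zero_mul])⟩
  set Γ := Grp.aff ρ P M hM with hΓ
  haveI : Finite Γ := by
    have : ∀ e : Γ, ∃ q : H × M, ∀ x, e.1 x = ρ q.1 * x + q.2 := fun e => by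
      obtain ⟨y, -, m, hm, h⟩ := e.2
      exact ⟨(y, ⟨m, hm⟩), h⟩
    choose F hF using this
    refine Finite.of_injective F fun e e' h => Subtype.ext (Equiv.ext fun x => ?_)
    rw [hF, hF, h]
  have hΓp : IsPGroup p Γ := by
    refine isPGroup_of_pel ?_
    rintro e ⟨y, hy, m, hm, h⟩
    obtain ⟨k, hk⟩ := pel_of_mem hP hy
    have h1 : ∀ n : ℕ, ∃ c, ∀ x, (e ^ n) x = ρ (y ^ n) * x + c := by
      intro n
      induction n with
      | zero => exact ⟨0, fun x => by simp⟩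
      | succ n ih =>
        obtain ⟨c, hc⟩ := ih
        refine ⟨ρ y * c + m, fun x => ?_⟩
        rw [pow_succ', Equiv.Perm.mul_apply, hc, h, pow_succ', map_mul, mul_add, mul_assoc,
          add_assoc]
    obtain ⟨c, hc⟩ := h1 (p ^ k)
    rw [hk, map_one] at hc
    have h2 : ∀ (n : ℕ) x, ((e ^ p ^ k) ^ n) x = x + n * c := by
      intro n
      induction n with
      | zero => intro x; simp
      | succ n ih =>
        intro x
        rw [pow_succ', Equiv.Perm.mul_apply, hc, ih, one_mul, Nat.cast_succ, add_mul, one_mul,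
          add_assoc]
    refine ⟨k + 1, Equiv.ext fun x => ?_⟩
    rw [pow_succ, pow_mul, h2, hp, zero_mul, add_zero, Equiv.Perm.one_apply]
  obtain ⟨L, hL⟩ := (isNilpotent_iff_lowerCentralSeries Γ).1 hΓp.isNilpotent
  have tadd : ∀ a b : A, Equiv.addRight (a + b) = Equiv.addRight b * Equiv.addRight a :=
    fun a b => Equiv.ext fun x => by simp [add_assoc]
  have tneg : ∀ a : A, Equiv.addRight (-a) = (Equiv.addRight a)⁻¹ :=
    fun a => Equiv.ext fun x => by rw [eq_comm, Equiv.Perm.inv_eq_iff_eq]; simp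
  let S : ℕ → AddSubgroup A := fun n =>
    { carrier := {x | ∀ g, Equiv.addRight (ρ g * x) ∈ Γ.lowerCentralSeries n}
      add_mem' := fun ha hb g => by
        rw [mul_add, tadd]
        exact Subgroup.mul_mem _ (hb g) (ha g)
      zero_mem' := fun g => by
        have : Equiv.addRight (ρ g * 0) = 1 := Equiv.ext fun x => by simp
        rw [this]
        exact Subgroup.one_mem _
      neg_mem' := fun ha g => by
        rw [mul_neg, tneg]
        exact Subgroup.inv_mem _ (ha g) }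
  have key : ∀ n : ℕ, Jd ρ P ⊤ ^ n ≤ (S n).toIntSubmodule := by
    intro n
    induction n with
    | zero =>
      rw [pow_zero, Submodule.one_le]
      intro g
      exact ⟨1, P.one_mem, ρ g * 1, by
        rw [mul_one]; exact Submodule.subset_span ⟨g, mem_top _, rfl⟩, fun x => by simp⟩
    | succ n ih =>
      rw [pow_succ', Submodule.mul_le]
      intro j hj x hx
      have hx' : x ∈ S n := ih hx
      change j * x ∈ S (n + 1)
      induction hj using Submodule.span_induction with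
      | mem j hj =>
        obtain ⟨y, hy, -, h, -, rfl⟩ := hj
        intro g
        have hy' : g * y * g⁻¹ ∈ P := Normal.conj_mem inferInstance y hy g
        let l : Equiv.Perm A := Units.mulLeft (ρ.toHomUnits (g * y * g⁻¹))
        have hl : ∀ x, l x = ρ (g * y * g⁻¹) * x := fun x => rfl
        have hlΓ : l ∈ Γ := ⟨_, hy', 0, M.zero_mem, fun x => by rw [hl, add_zero]⟩
        have h1 := commutator_mem_commutator (Subgroup.inv_mem _ (hx' (g * h))) hlΓ
        rw [Subgroup.lowerCentralSeries_succ]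
        convert h1 using 1
        rw [commutatorElement_def, inv_inv, eq_mul_inv_iff_mul_eq, mul_assoc _ l,
          eq_inv_mul_iff_mul_eq]
        refine Equiv.ext fun z => ?_
        simp only [Equiv.Perm.mul_apply, Equiv.coe_addRight, hl, map_mul]
        have e : ρ g⁻¹ * ρ g = 1 := by rw [← map_mul, inv_mul_cancel, map_one]
        have e2 : ρ g * ρ y * ρ g⁻¹ * (ρ g * ρ h * x) = ρ g * ρ y * ρ h * x := by
          calc _ = ρ g * ρ y * (ρ g⁻¹ * ρ g) * ρ h * x := by simp only [mul_assoc]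
            _ = _ := by rw [e, mul_one]
        rw [mul_add, e2]
        noncomm_ring
      | zero => rw [zero_mul]; exact (S _).zero_mem
      | add a b _ _ ha hb => rw [add_mul]; exact (S _).add_mem ha hb
      | smul c a _ ha => rw [smul_mul_assoc]; exact (S _).zsmul_mem ha c
  refine ⟨L, eq_bot_iff.2 fun x hx => ?_⟩
  have h1 : Equiv.addRight (ρ 1 * x) ∈ Γ.lowerCentralSeries L := key L hx 1
  rw [hL, mem_bot] at h1
  have := congrArg (fun e : Equiv.Perm A => e 0) h1
  simpa using this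

end Rng

end Pool.Agent.Lib.MP_679d9b_al.PT
end

-- part Pool.Agent.Lib.MP_679d9b_al.PT.SLn
section

/-!
Elementary facts on special linear groups.
-/

set_option autoImplicit false

namespace Pool.Agent.Lib.MP_679d9b_al.PT

open Subgroup Matrix
open scoped commutatorElement

section SLn
variable {ι K : Type} [Fintype ι] [DecidableEq ι] [Field K]

namespace SLn

theorem mul_val (A B : SL ι K) : (A * B).1 = A.1 * B.1 := rfl

theorem tv_val {i j : ι} (h : i ≠ j) (a : K) :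
    (SpecialLinearGroup.transvection h a : SL ι K).1 = 1 + single i j a := rfl

theorem val_mul_inv (A : SL ι K) : A.1 * (A⁻¹).1 = 1 := by
  rw [← mul_val, mul_inv_cancel]; rfl

theorem val_inv_mul (A : SL ι K) : (A⁻¹).1 * A.1 = 1 := by
  rw [← mul_val, inv_mul_cancel]; rfl

open Matrix.SpecialLinearGroup in
theorem weyl {i j : ι} (h : i ≠ j) {c : K} (hc : c ≠ 0) :
    (transvection h c * transvection h.symm (-c⁻¹) * transvection h c).1 =
      1 - single i i 1 - single j j 1 + single i j c - single j i c⁻¹ := by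
  simp only [mul_val, tv_val, mul_add, add_mul, mul_one, one_mul, single_mul_single_same,
    single_mul_single_of_ne _ _ _ _ h.symm, mul_neg, neg_mul,
    mul_inv_cancel₀ hc, inv_mul_cancel₀ hc, ← single_neg]
  abel

open Matrix.SpecialLinearGroup in
theorem diag_eq {i j : ι} (h : i ≠ j) {c : K} (hc : c ≠ 0) :
    diag2n h c hc = (transvection h c * transvection h.symm (-c⁻¹) * transvection h c) *
      (transvection h (-1) * transvection h.symm (-(-1 : K)⁻¹) * transvection h (-1)) := by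
  apply Subtype.ext
  rw [mul_val, weyl h hc, weyl h (neg_ne_zero.2 one_ne_zero), diag2n_coe]
  simp only [mul_add, add_mul, mul_sub, sub_mul, mul_one, one_mul, single_mul_single_same,
    single_mul_single_of_ne _ _ _ _ h.symm, single_mul_single_of_ne _ _ _ _ h]
  ext a b
  by_cases hai : a = i <;> by_cases haj : a = j <;> by_cases hbi : b = i <;> by_cases hbj : b = j <;>
    simp_all [diagonal_apply, one_apply, single_apply, eq_comm]

open Matrix.SpecialLinearGroup in
theorem comm_eq {i h j : ι} (hih : i ≠ h) (hhj : h ≠ j) (hij : i ≠ j) (a : K) :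
    ⁅transvection hih a, transvection hhj (1 : K)⁆ = transvection hij a := by
  rw [commutatorElement_def, transvection_inv, transvection_inv]
  apply Subtype.ext
  simp only [mul_val, tv_val, mul_add, add_mul, mul_one, one_mul, single_mul_single_same,
    single_mul_single_of_ne _ _ _ _ hih.symm, single_mul_single_of_ne _ _ _ _ hhj.symm,
    single_mul_single_of_ne _ _ _ _ hij.symm, mul_neg, neg_mul, ← single_neg, zero_mul]
  abel

end SLn

theorem tv_induction [Nontrivial ι] (P : SL ι K → Prop)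
    (h1 : ∀ (i j : ι) (h : i ≠ j) (a : K), P (SpecialLinearGroup.transvection h a))
    (hmul : ∀ A B, P A → P B → P (A * B)) (A : SL ι K) : P A := by
  refine SpecialLinearGroup.diagonal_transvection_induction' P A (fun i j hij c hc => ?_) h1 hmul
  rw [SLn.diag_eq hij hc]
  exact hmul _ _ (hmul _ _ (hmul _ _ (h1 _ _ _ _) (h1 _ _ _ _)) (h1 _ _ _ _))
    (hmul _ _ (hmul _ _ (h1 _ _ _ _) (h1 _ _ _ _)) (h1 _ _ _ _))

theorem SLn.eq_one [Subsingleton ι] (A : SL ι K) : A = 1 := by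
  apply Subtype.ext
  ext i j
  obtain rfl : i = j := Subsingleton.elim _ _
  have := A.2
  rw [det_eq_elem_of_subsingleton _ i] at this
  simpa using this

theorem SLn.tv_mem {S : Finset ι} {i j : ι} (h : i ≠ j) (a : K) (hi : i ∈ S) (hj : j ∈ S) :
    SpecialLinearGroup.transvection h a ∈ Tr K S :=
  subset_closure ⟨i, j, h, a, hi, hj, rfl⟩

theorem tr_univ : Tr K (Finset.univ : Finset ι) = ⊤ := by
  rw [eq_top_iff]
  intro A _
  rcases subsingleton_or_nontrivial ι with h | h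
  · rw [SLn.eq_one A]; exact one_mem _
  · exact tv_induction (fun A => A ∈ Tr K (Finset.univ : Finset ι))
      (fun i j h a => SLn.tv_mem h a (Finset.mem_univ _) (Finset.mem_univ _))
      (fun _ _ => mul_mem) A

theorem tr_perfect {S : Finset ι} (h : 3 ≤ S.card) : ⁅Tr K S, Tr K S⁆ = Tr K S := by
  refine le_antisymm (commutator_le.2 fun a ha b hb => ?_) ?_
  · rw [commutatorElement_def]
    exact mul_mem (mul_mem (mul_mem ha hb) (inv_mem ha)) (inv_mem hb)
  · refine (closure_le _).2 ?_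
    rintro _ ⟨i, j, hij, a, hi, hj, rfl⟩
    have hc : 0 < ((S.erase i).erase j).card := by
      have h1 := Finset.pred_card_le_card_erase (s := S) (a := i)
      have h2 := Finset.pred_card_le_card_erase (s := S.erase i) (a := j)
      omega
    obtain ⟨k, hk⟩ := Finset.card_pos.1 hc
    simp only [Finset.mem_erase] at hk
    rw [← SLn.comm_eq (Ne.symm hk.2.1) hk.1 hij a]
    exact commutator_mem_commutator (SLn.tv_mem _ _ hi hk.2.2) (SLn.tv_mem _ _ hk.2.2 hj)

theorem sl_perfect (h : 3 ≤ Fintype.card ι) : Group.IsPerfect (SL ι K) := by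
  have := tr_perfect (K := K) (S := (Finset.univ : Finset ι)) (by simpa using h)
  rw [tr_univ] at this
  exact ⟨this⟩

theorem tr_supp {S : Finset ι} {A : SL ι K} (h : A ∈ Tr K S) (i j : ι) (hij : i ∉ S ∨ j ∉ S) :
    (A.1 - 1) i j = 0 := by
  induction h using closure_induction generalizing i j with
  | mem t ht =>
    obtain ⟨a, b, hab, c, ha, hb, rfl⟩ := ht
    rw [SLn.tv_val, add_sub_cancel_left, single_apply, if_neg]
    rintro ⟨rfl, rfl⟩
    tauto
  | one => simp
  | mul A B _ _ hA hB =>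
    have e : (A * B).1 - 1 = (A.1 - 1) * (B.1 - 1) + (A.1 - 1) + (B.1 - 1) := by
      rw [SLn.mul_val]; noncomm_ring
    rw [e, Matrix.add_apply, Matrix.add_apply, hA i j hij, hB i j hij, add_zero, add_zero, mul_apply]
    refine Finset.sum_eq_zero fun k _ => ?_
    rcases hij with hi | hj
    · rw [hA i k (Or.inl hi), zero_mul]
    · rw [hB k j (Or.inr hj), mul_zero]
  | inv A _ hA =>
    have e1 : A.1 * (A⁻¹).1 = 1 := SLn.val_mul_inv A
    have e2 : (A⁻¹).1 * A.1 = 1 := SLn.val_inv_mul A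
    rcases hij with hi | hj
    · have e : (A⁻¹).1 - 1 = (A.1 - 1) * -(A⁻¹).1 := by
        rw [mul_neg, sub_mul, e1, one_mul, neg_sub]
      rw [e, mul_apply]
      exact Finset.sum_eq_zero fun k _ => by rw [hA i k (Or.inl hi), zero_mul]
    · have e : (A⁻¹).1 - 1 = -(A⁻¹).1 * (A.1 - 1) := by
        rw [neg_mul, mul_sub, e2, mul_one, neg_sub]
      rw [e, mul_apply]
      exact Finset.sum_eq_zero fun k _ => by rw [hA k j (Or.inr hj), mul_zero]

theorem tr_mul {S₁ S₂ : Finset ι} (hd : Disjoint S₁ S₂) {A B : SL ι K} (hA : A ∈ Tr K S₁)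
    (hB : B ∈ Tr K S₂) : (A.1 - 1) * (B.1 - 1) = 0 := by
  ext i j
  rw [mul_apply, Matrix.zero_apply]
  refine Finset.sum_eq_zero fun k _ => ?_
  by_cases hk : k ∈ S₁
  · rw [tr_supp hB k j (Or.inl (Finset.disjoint_left.1 hd hk)), mul_zero]
  · rw [tr_supp hA i k (Or.inr hk), zero_mul]

open scoped LinearAlgebra.Projectivization in
open Matrix.SpecialLinearGroup in
/-- The Iwasawa structure of the special linear group. -/
noncomputable def SLn.iwa : MulAction.IwasawaStructure (SL ι K) (ℙ K (ι → K)) where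
  T p := lineStab p.submodule
  is_comm p := by
    rw [← Projectivization.mk_rep p, Projectivization.submodule_mk]
    exact lineStab_isMulCommutative_of_span p.rep p.rep_nonzero
  is_conj g p := by rw [PSL.smul_submodule, lineStab_smul]
  is_generator := by
    rw [eq_top_iff, ← tr_univ]
    refine (closure_le _).2 ?_
    rintro _ ⟨i, j, hij, a, -, -, rfl⟩
    have h := SL2Gen.transvection_mem_lineStab hij a
    rw [← Projectivization.submodule_mk (K := K) _ (Pi.single_ne_zero_iff.2 one_ne_zero)] at h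
    exact mem_iSup_of_mem _ h

open scoped LinearAlgebra.Projectivization in
theorem normal_eq (h : 3 ≤ Fintype.card ι) (N : Subgroup (SL ι K)) [N.Normal] :
    N ≤ center (SL ι K) ∨ N = ⊤ := by
  by_cases hN : MulAction.fixedPoints N (ℙ K (ι → K)) = Set.univ
  · left
    intro g hg
    rw [← Projectivization.SL_mulAction_ker, MonoidHom.mem_ker]
    ext x
    exact Set.eq_univ_iff_forall.1 hN x ⟨g, hg⟩
  · right
    have h1 := SLn.iwa.commutator_le N hN
    rw [(sl_perfect (K := K) h).commutator_eq_top] at h1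
    exact top_le_iff.1 h1

theorem det_one_add_nil {N : Matrix ι ι K} (h : IsNilpotent N) : (1 + N).det = 1 := by
  have h1 := (Matrix.isNilpotent_charpoly_sub_pow_of_isNilpotent h.neg).eq_zero
  have h2 := Matrix.eval_charpoly (-N) 1
  rw [sub_eq_zero.1 h1] at h2
  simpa using h2.symm

theorem SLn.eq_one_of_pow {p : ℕ} [Fact p.Prime] [CharP K p] {r : K} {k : ℕ}
    (h : r ^ p ^ k = 1) : r = 1 := by
  have : (r - 1) ^ p ^ k = 0 := by rw [sub_pow_char_pow, h, one_pow, sub_self]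
  exact sub_eq_zero.1 (pow_eq_zero_iff (pow_ne_zero _ (Fact.out : p.Prime).ne_zero) |>.1 this)

theorem det_of_pel {p : ℕ} [Fact p.Prime] [CharP K p] {A : Matrix ι ι K} (h : PEl p A) :
    A.det = 1 := by
  obtain ⟨k, hk⟩ := h
  exact SLn.eq_one_of_pow (p := p) (k := k) (by rw [← det_pow, hk, det_one])

theorem center_pel {p : ℕ} [Fact p.Prime] [CharP K p] {z : SL ι K} (hz : z ∈ center (SL ι K))
    (h : PEl p z) : z = 1 := by
  obtain ⟨r, -, hr⟩ := Matrix.SpecialLinearGroup.mem_center_iff.1 hz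
  obtain ⟨k, hk⟩ := h
  rcases isEmpty_or_nonempty ι with hι | hι
  · exact SLn.eq_one z
  · have h1 : (scalar ι) (r ^ p ^ k) = scalar ι 1 := by
      rw [map_pow, hr, map_one]
      exact (Matrix.SpecialLinearGroup.coe_pow z _).symm.trans (congrArg Subtype.val hk)
    have h2 : r = 1 := SLn.eq_one_of_pow (scalar_inj.1 h1)
    apply Subtype.ext
    rw [← hr, h2, map_one]; rfl

/-- A nonzero matrix generates the unit ideal. -/
theorem one_eq_sum {B : Matrix ι ι K} (h : B ≠ 0) :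
    ∃ C D : ι → Matrix ι ι K, ∑ i, C i * B * D i = 1 := by
  obtain ⟨a, b, hab⟩ : ∃ a b, B a b ≠ 0 := by
    by_contra hc
    push Not at hc
    exact h (Matrix.ext hc)
  refine ⟨fun i => single i a (B a b)⁻¹, fun i => single b i 1, ?_⟩
  simp only [single_mul_mul_single, inv_mul_cancel₀ hab, mul_one]
  ext i j
  simp [Matrix.sum_apply, single_apply, one_apply, ite_and]

theorem cj_surjective {ι' : Type} [Fintype ι'] [DecidableEq ι'] (P : Matrix ι' ι K)
    (P' : Matrix ι ι' K) (h1 : P * P' = 1) (h2 : P' * P = 1) :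
    Function.Bijective (cj P P' h1 h2) := by
  refine Function.bijective_iff_has_inverse.2 ⟨cj P' P h2 h1, fun A => ?_, fun A => ?_⟩
  · apply Subtype.ext
    change P' * (P * A.1 * P') * P = A.1
    calc P' * (P * A.1 * P') * P = (P' * P) * A.1 * (P' * P) := by simp only [Matrix.mul_assoc]
      _ = _ := by rw [h2]; simp
  · apply Subtype.ext
    change P * (P' * A.1 * P) * P' = A.1
    calc P * (P' * A.1 * P) * P' = (P * P') * A.1 * (P * P') := by simp only [Matrix.mul_assoc]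
      _ = _ := by rw [h1]; simp

namespace SLn

/-- The transvection with direction `a` along the hyperplane `f`. -/
def tv (a f : ι → K) (h : f ⬝ᵥ a = 0) : SL ι K :=
  ⟨1 + vecMulVec a f, det_one_add_nil ⟨2, by rw [pow_two, vecMulVec_mul_vecMulVec, h]; simp⟩⟩

theorem tv_inv (a f : ι → K) (h : f ⬝ᵥ a = 0) : ((tv a f h)⁻¹).1 = 1 - vecMulVec a f := by
  have e : tv a f h * tv (-a) f (by rw [dotProduct_neg, h, neg_zero]) = 1 := by
    apply Subtype.ext
    change (1 + vecMulVec a f) * (1 + vecMulVec (-a) f) = 1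
    rw [mul_add, add_mul, add_mul, vecMulVec_mul_vecMulVec, dotProduct_neg, h, neg_vecMulVec]
    simp
  rw [inv_eq_of_mul_eq_one_right e]
  change 1 + vecMulVec (-a) f = _
  rw [neg_vecMulVec, sub_eq_add_neg]

theorem tv_mulVec (a f : ι → K) (h : f ⬝ᵥ a = 0) (v : ι → K) :
    (tv a f h).1 *ᵥ v = v + (f ⬝ᵥ v) • a := by
  change (1 + vecMulVec a f) *ᵥ v = _
  rw [add_mulVec, one_mulVec, vecMulVec_mulVec]
  simp

theorem vecMul_tv_inv (a f : ι → K) (h : f ⬝ᵥ a = 0) (w : ι → K) :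
    w ᵥ* ((tv a f h)⁻¹).1 = w - (w ⬝ᵥ a) • f := by
  rw [tv_inv, vecMul_sub, vecMul_one, vecMul_vecMulVec]

omit [DecidableEq ι] in
theorem ex_dual {v a w : ι → K} (h : ¬ ∃ c d : K, c • a + d • w = v) :
    ∃ f : ι → K, f ⬝ᵥ a = 0 ∧ f ⬝ᵥ w = 0 ∧ f ⬝ᵥ v = 1 := by
  classical
  rw [← Submodule.mem_span_pair] at h
  obtain ⟨φ, h1, h2⟩ := Submodule.exists_dual_map_eq_bot_of_notMem h inferInstance
  have key : ∀ x, (fun i => φ (Pi.single i 1)) ⬝ᵥ x = φ x := fun x => by
    rw [LinearMap.pi_apply_eq_sum_univ φ x, dotProduct]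
    refine Finset.sum_congr rfl fun i _ => ?_
    rw [smul_eq_mul, mul_comm]
    congr 2
    ext j
    simp [Pi.single_apply, eq_comm]
  have h3 : ∀ x ∈ Submodule.span K {a, w}, φ x = 0 := fun x hx => by
    have : φ x ∈ (Submodule.span K {a, w}).map φ := Submodule.mem_map_of_mem hx
    rwa [h2, Submodule.mem_bot] at this
  refine ⟨(φ v)⁻¹ • fun i => φ (Pi.single i 1), ?_, ?_, ?_⟩
  · rw [smul_dotProduct, key, h3 a (Submodule.subset_span (by simp)), smul_zero]
  · rw [smul_dotProduct, key, h3 w (Submodule.subset_span (by simp)), smul_zero]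
  · rw [smul_dotProduct, key, smul_eq_mul, inv_mul_cancel₀ h1]

omit [DecidableEq ι] in
theorem ex_orth (h : 3 ≤ Fintype.card ι) (w₁ w₂ : ι → K) :
    ∃ u : ι → K, u ≠ 0 ∧ w₁ ⬝ᵥ u = 0 ∧ w₂ ⬝ᵥ u = 0 := by
  classical
  have h1 : LinearMap.ker (Matrix.of ![w₁, w₂]).mulVecLin ≠ ⊥ :=
    LinearMap.ker_ne_bot_of_finrank_lt (by simp; omega)
  obtain ⟨u, hu, hu0⟩ := Submodule.exists_mem_ne_zero_of_ne_bot h1
  rw [LinearMap.mem_ker] at hu
  exact ⟨u, hu0, congrFun hu 0, congrFun hu 1⟩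

omit [Fintype ι] [DecidableEq ι] in
theorem exchange {v u w : ι → K} (hv : ¬ ∃ d : K, d • w = v)
    (h : ∃ c d : K, c • u + d • w = v) : ∃ c d : K, c • v + d • w = u := by
  obtain ⟨c, d, hcd⟩ := h
  have hc : c ≠ 0 := by
    rintro rfl
    exact hv ⟨d, by simpa using hcd⟩
  refine ⟨c⁻¹, -(c⁻¹ * d), ?_⟩
  rw [← hcd, smul_add, smul_smul, smul_smul, inv_mul_cancel₀ hc, one_smul, neg_smul,
    add_neg_cancel_right]

omit [DecidableEq ι] in
/-- Spreading a property along a subspace. -/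
theorem spread (P : (ι → K) → Prop) (hsub : ∀ a b, P a → P b → P (a - b)) {v w w' : ι → K}
    (hv : ¬ ∃ d : K, d • w = v)
    (h : ∀ a f : ι → K, w' ⬝ᵥ a = 0 → f ⬝ᵥ a = 0 → f ⬝ᵥ w = 0 → f ⬝ᵥ v = 1 → P a)
    (hu : ∃ u, w' ⬝ᵥ u = 0 ∧ ¬ ∃ c d : K, c • v + d • w = u) (a : ι → K) (ha : w' ⬝ᵥ a = 0) :
    P a := by
  have h1 : ∀ a, w' ⬝ᵥ a = 0 → (¬ ∃ c d : K, c • a + d • w = v) → P a := fun a ha hn => by
    obtain ⟨f, f1, f2, f3⟩ := ex_dual hn
    exact h a f ha f1 f2 f3
  by_cases hn : ∃ c d : K, c • a + d • w = v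
  · obtain ⟨u, hu1, hu2⟩ := hu
    obtain ⟨c, d, hcd⟩ := exchange hv hn
    have p1 : P u := h1 u hu1 fun hh => hu2 (exchange hv hh)
    have p2 : P (a + u) := by
      refine h1 _ (by rw [dotProduct_add, ha, hu1, add_zero]) fun hh => hu2 ?_
      obtain ⟨c', d', hcd'⟩ := exchange hv hh
      refine ⟨c' - c, d' - d, ?_⟩
      rw [← add_sub_cancel_left a u, ← hcd', ← hcd]
      module
    simpa using hsub _ _ p2 p1
  · exact h1 a ha hn

omit [DecidableEq ι] in
theorem spread_dual (h3 : 3 ≤ Fintype.card ι) (P : (ι → K) → Prop)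
    (hsub : ∀ a b, P a → P b → P (a - b)) {v w : ι → K} (hv : v ≠ 0)
    (h : ∀ a f : ι → K, w ⬝ᵥ a = 0 → f ⬝ᵥ a = 0 → f ⬝ᵥ v = 1 → P a) (a : ι → K)
    (ha : w ⬝ᵥ a = 0) : P a := by
  have hv' : ¬ ∃ d : K, d • (0 : ι → K) = v := by
    rintro ⟨d, hd⟩
    exact hv (by rw [← hd, smul_zero])
  refine spread P hsub hv' (fun a f h1 h2 _ h4 => h a f h1 h2 h4) ?_ a ha
  obtain ⟨f, -, -, hf⟩ := ex_dual (v := v) (a := 0) (w := 0) (by
    rintro ⟨c, d, hd⟩
    exact hv (by rw [← hd]; simp))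
  obtain ⟨u, hu0, hu1, hu2⟩ := ex_orth h3 w f
  refine ⟨u, hu1, ?_⟩
  rintro ⟨c, d, rfl⟩
  rw [smul_zero, add_zero] at hu0 hu2
  rw [dotProduct_smul, hf, smul_eq_mul, mul_one] at hu2
  exact hu0 (by rw [hu2, zero_smul])

omit [DecidableEq ι] in
theorem spread_pair (h3 : 3 ≤ Fintype.card ι) (P : (ι → K) → Prop)
    (hsub : ∀ a b, P a → P b → P (a - b)) {v w : ι → K} (hv : ¬ ∃ d : K, d • w = v)
    (h : ∀ a f : ι → K, f ⬝ᵥ a = 0 → f ⬝ᵥ w = 0 → f ⬝ᵥ v = 1 → P a) (a : ι → K) : P a := by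
  classical
  refine spread (w' := 0) P hsub hv (fun a f _ h2 h3 h4 => h a f h2 h3 h4) ?_ a (zero_dotProduct _)
  obtain ⟨f, hf0, hf1, hf2⟩ := ex_orth h3 v w
  obtain ⟨i, hi⟩ := Function.ne_iff.1 hf0
  refine ⟨Pi.single i 1, zero_dotProduct _, ?_⟩
  rintro ⟨c, d, hcd⟩
  have := congrArg (· ⬝ᵥ f) hcd
  simp only [add_dotProduct, smul_dotProduct, hf1, hf2, single_dotProduct] at this
  exact hi (by simpa using this.symm)

end SLn

/-- Orbits of orthogonal pairs. -/
theorem orb_dual (h : 3 ≤ Fintype.card ι) (T : (ι → K) → (ι → K) → Prop)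
    (h1 : ∀ v v' w, T v w → T v' w → T (v - v') w) (h2 : ∀ v w w', T v w → T v w' → T v (w - w'))
    (h3 : ∀ (g : SL ι K) v w, T v w → T (g.1 *ᵥ v) (w ᵥ* (g⁻¹).1)) {v₀ w₀ : ι → K}
    (hv : v₀ ≠ 0) (hw : w₀ ≠ 0) (h0 : w₀ ⬝ᵥ v₀ = 0) (hT : T v₀ w₀) (v w : ι → K)
    (hvw : w ⬝ᵥ v = 0) : T v w := by
  have A : ∀ v w, v ≠ 0 → T v w → ∀ a, w ⬝ᵥ a = 0 → T a w := fun v w hv hT =>
    SLn.spread_dual h (fun a => T a w) (fun a b => h1 a b w) hv fun a f ha hf hfv => by
      have := h3 (SLn.tv a f hf) v w hT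
      rw [SLn.tv_mulVec, SLn.vecMul_tv_inv, ha, hfv, zero_smul, sub_zero, one_smul] at this
      simpa using h1 _ _ _ this hT
  have B : ∀ v w, w ≠ 0 → T v w → ∀ b, v ⬝ᵥ b = 0 → T v b := fun v w hw hT =>
    SLn.spread_dual h (fun b => T v b) (fun a b => h2 v a b) hw fun b f hb hf hfw => by
      have := h3 (SLn.tv f b (by rw [dotProduct_comm, hf])) v w hT
      rw [SLn.tv_mulVec, SLn.vecMul_tv_inv, dotProduct_comm b, hb, dotProduct_comm w, hfw,
        zero_smul, add_zero, one_smul] at this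
      simpa using h2 _ _ _ hT this
  have C : ∀ w, w ⬝ᵥ v = 0 → T v w := fun w hvw => by
    obtain ⟨u, hu0, hu1, hu2⟩ := SLn.ex_orth h w₀ w
    exact A u w hu0 (B u w₀ hw (A v₀ w₀ hv hT u hu1) w (by rw [dotProduct_comm, hu2])) v hvw
  exact C w hvw

/-- Orbits of pairs of vectors. -/
theorem orb_pair (h : 3 ≤ Fintype.card ι) (T : (ι → K) → (ι → K) → Prop)
    (h1 : ∀ v v' w, T v w → T v' w → T (v - v') w) (h2 : ∀ v w w', T v w → T v w' → T v (w - w'))
    (h3 : ∀ (g : SL ι K) v w, T v w → T (g.1 *ᵥ v) (g.1 *ᵥ w)) {v₀ w₀ : ι → K}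
    (h0 : LinearIndependent K ![v₀, w₀]) (hT : T v₀ w₀) (v w : ι → K) : T v w := by
  have A : ∀ v w, (¬ ∃ d : K, d • w = v) → T v w → ∀ a, T a w := fun v w hv hT =>
    SLn.spread_pair h (fun a => T a w) (fun a b => h1 a b w) hv fun a f hf hfw hfv => by
      have := h3 (SLn.tv a f hf) v w hT
      rw [SLn.tv_mulVec, SLn.tv_mulVec, hfw, hfv, zero_smul, add_zero, one_smul] at this
      simpa using h1 _ _ _ this hT
  have B : ∀ v w, (¬ ∃ d : K, d • v = w) → T v w → ∀ b, T v b := fun v w hw hT =>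
    SLn.spread_pair h (fun b => T v b) (fun a b => h2 v a b) hw fun b f hf hfv hfw => by
      have := h3 (SLn.tv b f hf) v w hT
      rw [SLn.tv_mulVec, SLn.tv_mulVec, hfw, hfv, zero_smul, add_zero, one_smul] at this
      simpa using h2 _ _ _ this hT
  rw [LinearIndependent.pair_iff] at h0
  have n1 : ¬ ∃ d : K, d • w₀ = v₀ := by
    rintro ⟨d, hd⟩
    exact one_ne_zero (h0 1 (-d) (by rw [← hd]; simp)).1
  have n2 : ¬ ∃ d : K, d • v₀ = w₀ := by
    rintro ⟨d, hd⟩
    exact one_ne_zero (h0 (-d) 1 (by rw [← hd]; simp)).2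
  by_cases hn : ∃ d : K, d • v = w₀
  · obtain ⟨d, hd⟩ := hn
    have n3 : ¬ ∃ e : K, e • (v + v₀) = w₀ := by
      rintro ⟨e, he⟩
      have h4 := h0 (d * e) (e - d) (by
        calc (d * e) • v₀ + (e - d) • w₀ = d • (e • (v + v₀) - w₀) + e • (w₀ - d • v) := by module
          _ = 0 := by rw [he, hd]; simp)
      have hde : e = d := sub_eq_zero.1 h4.2
      have hd0 : d = 0 := by simpa [hde] using h4.1
      exact n2 ⟨0, by rw [← hd, hd0]; simp⟩
    simpa using h1 _ _ _ (B _ _ n3 (A _ _ n1 hT (v + v₀)) w) (B _ _ n2 hT w)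
  · exact B _ _ hn (A _ _ n1 hT v) w

variable {ι₁ ι₂ : Type} [Fintype ι₁] [DecidableEq ι₁] [Fintype ι₂] [DecidableEq ι₂]

/-- The first diagonal block. -/
def blkL (ι₂ : Type) [Fintype ι₂] [DecidableEq ι₂] : SL ι₁ K →* SL (ι₁ ⊕ ι₂) K where
  toFun A := ⟨fromBlocks A.1 0 0 1, by simp [A.2]⟩
  map_one' := Subtype.ext (by simp)
  map_mul' A B := Subtype.ext (by
    change fromBlocks (A.1 * B.1) 0 0 1 = fromBlocks A.1 0 0 1 * fromBlocks B.1 0 0 1
    simp [fromBlocks_multiply])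

/-- The second diagonal block. -/
def blkR (ι₁ : Type) [Fintype ι₁] [DecidableEq ι₁] : SL ι₂ K →* SL (ι₁ ⊕ ι₂) K where
  toFun A := ⟨fromBlocks 1 0 0 A.1, by simp [A.2]⟩
  map_one' := Subtype.ext (by simp)
  map_mul' A B := Subtype.ext (by
    change fromBlocks 1 0 0 (A.1 * B.1) = fromBlocks 1 0 0 A.1 * fromBlocks 1 0 0 B.1
    simp [fromBlocks_multiply])

theorem SLn.map_tr {κ : Type} [Fintype κ] [DecidableEq κ] (e : ι ↪ κ) (φ : SL ι K →* SL κ K)
    (h : ∀ (i j : ι) (hij : i ≠ j) (a : K), φ (SpecialLinearGroup.transvection hij a) =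
      SpecialLinearGroup.transvection (e.injective.ne hij) a) :
    φ.range = Tr K (Finset.univ.map e) := by
  rw [MonoidHom.range_eq_map, ← tr_univ, Tr, MonoidHom.map_closure, Tr]
  congr 1
  ext t
  constructor
  · rintro ⟨_, ⟨i, j, hij, a, -, -, rfl⟩, rfl⟩
    exact ⟨e i, e j, e.injective.ne hij, a, by simp, by simp, h i j hij a⟩
  · rintro ⟨i, j, hij, a, hi, hj, rfl⟩
    obtain ⟨i, -, rfl⟩ := Finset.mem_map.1 hi
    obtain ⟨j, -, rfl⟩ := Finset.mem_map.1 hj
    have hij' : i ≠ j := fun hh => hij (congrArg e hh)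
    exact ⟨_, ⟨i, j, hij', a, Finset.mem_univ _, Finset.mem_univ _, rfl⟩, h i j hij' a⟩

theorem blkL_range :
    (blkL ι₂ : SL ι₁ K →* _).range = Tr K (Finset.univ.map Function.Embedding.inl) := by
  refine SLn.map_tr _ _ fun i j hij a => Subtype.ext ?_
  change fromBlocks (1 + single i j a) 0 0 1 = 1 + single (Sum.inl i) (Sum.inl j) a
  ext (x | x) (y | y) <;> simp [one_apply, single_apply]

theorem blkR_range :
    (blkR ι₁ : SL ι₂ K →* _).range = Tr K (Finset.univ.map Function.Embedding.inr) := by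
  refine SLn.map_tr _ _ fun i j hij a => Subtype.ext ?_
  change fromBlocks 1 0 0 (1 + single i j a) = 1 + single (Sum.inr i) (Sum.inr j) a
  ext (x | x) (y | y) <;> simp [one_apply, single_apply]

theorem blkL_injective : Function.Injective (blkL ι₂ : SL ι₁ K →* _) := fun _ _ h =>
  Subtype.ext (fromBlocks_inj.1 (congrArg Subtype.val h)).1

theorem blkR_injective : Function.Injective (blkR ι₁ : SL ι₂ K →* _) := fun _ _ h =>
  Subtype.ext (fromBlocks_inj.1 (congrArg Subtype.val h)).2.2.2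

end SLn

end Pool.Agent.Lib.MP_679d9b_al.PT
end
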