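import Mathlib
import Pool.Agent.Lib.MP_679d9b_al.PT.SLn

/-!
Basic facts on the rings with involution spanned by a group over a special linear group.
-/

set_option autoImplicit false
set_option linter.unusedSectionVars false

namespace Pool.Agent.Lib.MP_679d9b_al.PT

open Subgroup Matrix
open scoped commutatorElement

namespace Basic
variable {H A : Type} [Group H] [Ring A]

theorem span_mul {s t : Set A} {I : Submodule ℤ A} (h : ∀ x ∈ s, ∀ y ∈ t, x * y ∈ I) {a b : A}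
    (ha : a ∈ Submodule.span ℤ s) (hb : b ∈ Submodule.span ℤ t) : a * b ∈ I := by
  have h1 := Submodule.mul_mem_mul ha hb
  rw [Submodule.span_mul_span] at h1
  refine Submodule.span_le.2 ?_ h1
  rintro _ ⟨x, hx, y, hy, rfl⟩
  exact h x hx y hy

theorem span_map {F : Type} [FunLike F A A] [AddMonoidHomClass F A A] (f : F) {s : Set A}
    {I : Submodule ℤ A} (h : ∀ x ∈ s, f x ∈ I) {a : A} (ha : a ∈ Submodule.span ℤ s) :
    f a ∈ I :=
  (Submodule.span_le (p := I.comap (f : A →+ A).toIntLinearMap)).2 h ha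

theorem mul_map (f : A →+* A) {I I' : Submodule ℤ A} (h : ∀ a ∈ I, f a ∈ I)
    (h' : ∀ a ∈ I', f a ∈ I') {a : A} (ha : a ∈ I * I') : f a ∈ I * I' := by
  refine Submodule.mul_induction_on ha (fun m hm n hn => ?_) fun x y hx hy => ?_
  · rw [map_mul]
    exact Submodule.mul_mem_mul (h m hm) (h' n hn)
  · rw [map_add]
    exact Submodule.add_mem _ hx hy

theorem pow_map (f : A →+* A) {I : Submodule ℤ A} (h : ∀ a ∈ I, f a ∈ I) (k : ℕ) {a : A}
    (ha : a ∈ I ^ k) : f a ∈ I ^ k := by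
  induction k generalizing a with
  | zero =>
    obtain ⟨c, rfl⟩ := Submodule.mem_one.1 ha
    simp
  | succ k ih =>
    rw [pow_succ] at ha ⊢
    exact mul_map f (fun a ha => ih ha) h ha

/-- Conjugation by a group element. -/
def cjh (ρ : H →* A) (g : H) : A →+* A where
  toFun a := ρ g * a * ρ g⁻¹
  map_one' := by rw [mul_one, ← map_mul, mul_inv_cancel, map_one]
  map_mul' a b := by
    have e : ρ g⁻¹ * ρ g = 1 := by rw [← map_mul, inv_mul_cancel, map_one]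
    calc ρ g * (a * b) * ρ g⁻¹ = ρ g * a * (ρ g⁻¹ * ρ g) * b * ρ g⁻¹ := by
          rw [e, mul_one, mul_assoc (ρ g) a b]
      _ = _ := by simp only [mul_assoc]
  map_zero' := by simp
  map_add' a b := by rw [mul_add, add_mul]

theorem cjh_rho (ρ : H →* A) (g h : H) : cjh ρ g (ρ h) = ρ (g * h * g⁻¹) := by
  rw [map_mul, map_mul]
  rfl

theorem third {ι : Type} [Fintype ι] [DecidableEq ι] (hι : 3 ≤ Fintype.card ι) (i j : ι) :
    ∃ k, i ≠ k ∧ j ≠ k := by
  obtain ⟨k, -, hk⟩ := Finset.exists_mem_notMem_of_card_lt_card (s := {i, j}) (t := Finset.univ)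
    (Finset.card_le_two.trans_lt hι)
  simp only [Finset.mem_insert, Finset.mem_singleton, not_or] at hk
  exact ⟨k, Ne.symm hk.1, Ne.symm hk.2⟩

/-- Matrices are generated as a ring by the off diagonal matrix units. -/
theorem mat_ind {ι K : Type} [Fintype ι] [DecidableEq ι] [Field K] (hι : 3 ≤ Fintype.card ι)
    {Q : Matrix ι ι K → Prop} (h0 : Q 0) (hadd : ∀ B C, Q B → Q C → Q (B + C))
    (hmul : ∀ B C, Q B → Q C → Q (B * C)) (h : ∀ i j, i ≠ j → ∀ a, Q (single i j a))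
    (B : Matrix ι ι K) : Q B := by
  refine Matrix.induction_on' B h0 hadd fun i j a => ?_
  obtain ⟨k, hi, hj⟩ := third hι i j
  simpa using hmul _ _ (h i k hi a) (h k j hj.symm 1)

theorem idem_pow {p : ℕ} [Fact p.Prime] (hp : (p : A) = 0) {x : A} (h : IsNilpotent (x * x - x)) :
    ∃ n : ℕ, x ^ (n + 1) * x ^ (n + 1) = x ^ (n + 1) := by
  obtain ⟨L, hL⟩ := h
  have hpr : p.Prime := Fact.out
  obtain ⟨r, hr⟩ := Commute.exists_add_pow_prime_pow_eq hpr (x := x) (y := x * x - x)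
    (((Commute.refl x).mul_right (Commute.refl x)).sub_right (Commute.refl x)) L
  rw [add_sub_cancel, hp, pow_eq_zero_of_le (Nat.lt_pow_self hpr.one_lt).le hL, zero_mul, zero_mul,
    zero_mul, add_zero, add_zero, (Commute.refl x).mul_pow] at hr
  exact ⟨p ^ L - 1, by rwa [Nat.sub_add_cancel (Nat.one_le_pow _ _ hpr.pos)]⟩

end Basic

section Span
variable {H A : Type} [Group H] [Ring A] {ρ : H →* A} {P S : Subgroup H}

theorem rho_mem_Ad {g : H} (hg : g ∈ S) : ρ g ∈ Ad ρ S := by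
  exact Submodule.subset_span ⟨g, hg, rfl⟩

theorem one_mem_Ad : (1 : A) ∈ Ad ρ S := by
  exact Submodule.subset_span ⟨1, S.one_mem, (map_one ρ).symm⟩

theorem Ad_mul {a b : A} (ha : a ∈ Ad ρ S) (hb : b ∈ Ad ρ S) : a * b ∈ Ad ρ S := by
  refine Basic.span_mul ?_ ha hb
  rintro _ ⟨g, hg, rfl⟩ _ ⟨h, hh, rfl⟩
  exact Submodule.subset_span ⟨g * h, S.mul_mem hg hh, (map_mul ρ g h).symm⟩

theorem sub_one_mem_Bd {g : H} (hg : g ∈ S) : ρ g - 1 ∈ Bd ρ S := by
  exact Submodule.subset_span ⟨g, hg, rfl⟩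

theorem Bd_le_Ad : Bd ρ S ≤ Ad ρ S := by
  refine Submodule.span_le.2 ?_
  rintro _ ⟨g, hg, rfl⟩
  exact Submodule.sub_mem _ (rho_mem_Ad hg) one_mem_Ad

theorem Ad_mul_Bd {a b : A} (ha : a ∈ Ad ρ S) (hb : b ∈ Bd ρ S) : a * b ∈ Bd ρ S := by
  refine Basic.span_mul ?_ ha hb
  rintro _ ⟨g, hg, rfl⟩ _ ⟨h, hh, rfl⟩
  have e : ρ g * (ρ h - 1) = (ρ (g * h) - 1) - (ρ g - 1) := by rw [map_mul]; noncomm_ring
  rw [e]
  exact Submodule.sub_mem _ (sub_one_mem_Bd (S.mul_mem hg hh)) (sub_one_mem_Bd hg)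

theorem Bd_mul_Ad {a b : A} (hb : b ∈ Bd ρ S) (ha : a ∈ Ad ρ S) : b * a ∈ Bd ρ S := by
  refine Basic.span_mul ?_ hb ha
  rintro _ ⟨g, hg, rfl⟩ _ ⟨h, hh, rfl⟩
  have e : (ρ g - 1) * ρ h = (ρ (g * h) - 1) - (ρ h - 1) := by rw [map_mul]; noncomm_ring
  rw [e]
  exact Submodule.sub_mem _ (sub_one_mem_Bd (S.mul_mem hg hh)) (sub_one_mem_Bd hh)

theorem Ad_decomp {a : A} (ha : a ∈ Ad ρ S) : ∃ c : ℤ, a - c ∈ Bd ρ S := by
  induction ha using Submodule.span_induction with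
  | mem x hx =>
    obtain ⟨g, hg, rfl⟩ := hx
    exact ⟨1, by simpa using sub_one_mem_Bd hg⟩
  | zero => exact ⟨0, by simp⟩
  | add x y _ _ hx hy =>
    obtain ⟨c, hc⟩ := hx
    obtain ⟨d, hd⟩ := hy
    exact ⟨c + d, by
      rw [Int.cast_add, ← sub_add_sub_comm]
      exact Submodule.add_mem _ hc hd⟩
  | smul r x _ hx =>
    obtain ⟨c, hc⟩ := hx
    exact ⟨r * c, by
      rw [Int.cast_mul, ← zsmul_eq_mul, ← smul_sub]
      exact Submodule.smul_mem _ r hc⟩

theorem sub_one_mem_Jd {y : H} (hy : y ∈ P) (hy' : y ∈ S) : ρ y - 1 ∈ Jd ρ P S := by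
  exact Submodule.subset_span ⟨y, hy, hy', 1, S.one_mem, by simp⟩

theorem Jd_le_Bd : Jd ρ P S ≤ Bd ρ S := by
  refine Submodule.span_le.2 ?_
  rintro _ ⟨y, -, hy, g, hg, rfl⟩
  exact Bd_mul_Ad (sub_one_mem_Bd hy) (rho_mem_Ad hg)

theorem Jd_mono {S' : Subgroup H} (h : S ≤ S') : Jd ρ P S ≤ Jd ρ P S' := by
  refine Submodule.span_mono ?_
  rintro _ ⟨y, hy, hy', g, hg, rfl⟩
  exact ⟨y, hy, h hy', g, h hg, rfl⟩

theorem Jd_mul_Ad {a j : A} (hj : j ∈ Jd ρ P S) (ha : a ∈ Ad ρ S) : j * a ∈ Jd ρ P S := by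
  refine Basic.span_mul ?_ hj ha
  rintro _ ⟨y, hy, hy', g, hg, rfl⟩ _ ⟨h, hh, rfl⟩
  exact Submodule.subset_span ⟨y, hy, hy', g * h, S.mul_mem hg hh, by rw [map_mul, mul_assoc]⟩

theorem Ad_mul_Jd [P.Normal] {a j : A} (ha : a ∈ Ad ρ S) (hj : j ∈ Jd ρ P S) :
    a * j ∈ Jd ρ P S := by
  refine Basic.span_mul ?_ ha hj
  rintro _ ⟨h, hh, rfl⟩ _ ⟨y, hy, hy', g, hg, rfl⟩
  refine Submodule.subset_span ⟨h * y * h⁻¹, Normal.conj_mem inferInstance y hy h,
    S.mul_mem (S.mul_mem hh hy') (S.inv_mem hh), h * g, S.mul_mem hh hg, ?_⟩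
  rw [sub_mul, sub_mul, mul_sub, one_mul, one_mul, ← map_mul, ← map_mul, ← map_mul, ← map_mul]
  congr 2
  group

theorem Jd_pow_mul_Ad {a j : A} {k : ℕ} (hj : j ∈ Jd ρ P S ^ (k + 1)) (ha : a ∈ Ad ρ S) :
    j * a ∈ Jd ρ P S ^ (k + 1) := by
  rw [pow_succ] at hj ⊢
  refine Submodule.mul_induction_on hj (fun m hm n hn => ?_) fun x y hx hy => ?_
  · rw [mul_assoc]
    exact Submodule.mul_mem_mul hm (Jd_mul_Ad hn ha)
  · rw [add_mul]
    exact Submodule.add_mem _ hx hy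

theorem Ad_mul_Jd_pow [P.Normal] {a j : A} {k : ℕ} (ha : a ∈ Ad ρ S)
    (hj : j ∈ Jd ρ P S ^ (k + 1)) : a * j ∈ Jd ρ P S ^ (k + 1) := by
  rw [pow_succ'] at hj ⊢
  refine Submodule.mul_induction_on hj (fun m hm n hn => ?_) fun x y hx hy => ?_
  · rw [← mul_assoc]
    exact Submodule.mul_mem_mul (Ad_mul_Jd ha hm) hn
  · rw [mul_add]
    exact Submodule.add_mem _ hx hy

theorem Jd_pow_le_Ad (k : ℕ) : Jd ρ P S ^ k ≤ Ad ρ S := by
  induction k with
  | zero => exact Submodule.one_le.2 one_mem_Ad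
  | succ k ih =>
    rw [pow_succ]
    exact Submodule.mul_le.2 fun m hm n hn => Ad_mul (ih hm) (Bd_le_Ad (Jd_le_Bd hn))

theorem Jd_pow_anti {k l : ℕ} (h : k ≤ l) : Jd ρ P S ^ (l + 1) ≤ Jd ρ P S ^ (k + 1) := by
  obtain ⟨d, rfl⟩ := Nat.exists_eq_add_of_le h
  rw [show k + d + 1 = k + 1 + d by omega, pow_add _ (k + 1) d]
  exact Submodule.mul_le.2 fun m hm n hn => Jd_pow_mul_Ad hm (Jd_pow_le_Ad d hn)

theorem Jd_pow_mul {a b : A} {k l : ℕ} (ha : a ∈ Jd ρ P S ^ k) (hb : b ∈ Jd ρ P S ^ l) :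
    a * b ∈ Jd ρ P S ^ (k + l) := by
  rw [pow_add]
  exact Submodule.mul_mem_mul ha hb

theorem conj_mem_Ad [S.Normal] (g : H) {a : A} (ha : a ∈ Ad ρ S) : ρ g * a * ρ g⁻¹ ∈ Ad ρ S := by
  refine Basic.span_map (Basic.cjh ρ g) ?_ ha
  rintro _ ⟨h, hh, rfl⟩
  rw [Basic.cjh_rho]
  exact rho_mem_Ad (Normal.conj_mem inferInstance h hh g)

theorem conj_mem_Bd [S.Normal] (g : H) {a : A} (ha : a ∈ Bd ρ S) : ρ g * a * ρ g⁻¹ ∈ Bd ρ S := by
  refine Basic.span_map (Basic.cjh ρ g) ?_ ha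
  rintro _ ⟨h, hh, rfl⟩
  rw [map_sub, Basic.cjh_rho, map_one]
  exact sub_one_mem_Bd (Normal.conj_mem inferInstance h hh g)

theorem conj_mem_Jd_pow [P.Normal] [S.Normal] (g : H) {a : A} {k : ℕ} (ha : a ∈ Jd ρ P S ^ k) :
    ρ g * a * ρ g⁻¹ ∈ Jd ρ P S ^ k := by
  refine Basic.pow_map (Basic.cjh ρ g) (fun a ha => Basic.span_map (Basic.cjh ρ g) ?_ ha) k ha
  rintro _ ⟨y, hy, hy', h, hh, rfl⟩
  rw [map_mul, map_sub, Basic.cjh_rho, Basic.cjh_rho, map_one]
  exact Submodule.subset_span ⟨_, Normal.conj_mem inferInstance y hy g,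
    Normal.conj_mem inferInstance y hy' g, _, Normal.conj_mem inferInstance h hh g, rfl⟩

theorem conj_mem_mul {I I' : Submodule ℤ A} (g : H) (h : ∀ a ∈ I, ρ g * a * ρ g⁻¹ ∈ I)
    (h' : ∀ a ∈ I', ρ g * a * ρ g⁻¹ ∈ I') {a : A} (ha : a ∈ I * I') : ρ g * a * ρ g⁻¹ ∈ I * I' := by
  exact Basic.mul_map (Basic.cjh ρ g) h h' ha

variable [StarRing A]

theorem star_mem_mul {I I' I'' I''' : Submodule ℤ A} (h : ∀ a ∈ I, star a ∈ I''')
    (h' : ∀ a ∈ I', star a ∈ I'') {a : A} (ha : a ∈ I * I') : star a ∈ I'' * I''' := by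
  refine Submodule.mul_induction_on ha (fun m hm n hn => ?_) fun x y hx hy => ?_
  · rw [star_mul]
    exact Submodule.mul_mem_mul (h' n hn) (h m hm)
  · rw [star_add]
    exact Submodule.add_mem _ hx hy

theorem star_mem_Ad (hs : ∀ g, star (ρ g) = ρ g⁻¹) {a : A} (ha : a ∈ Ad ρ S) :
    star a ∈ Ad ρ S := by
  refine Basic.span_map (starAddEquiv : A ≃+ A) ?_ ha
  rintro _ ⟨g, hg, rfl⟩
  rw [starAddEquiv_apply, hs]
  exact rho_mem_Ad (S.inv_mem hg)

theorem star_mem_Bd (hs : ∀ g, star (ρ g) = ρ g⁻¹) {a : A} (ha : a ∈ Bd ρ S) :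
    star a ∈ Bd ρ S := by
  refine Basic.span_map (starAddEquiv : A ≃+ A) ?_ ha
  rintro _ ⟨g, hg, rfl⟩
  rw [starAddEquiv_apply, star_sub, star_one, hs]
  exact sub_one_mem_Bd (S.inv_mem hg)

theorem star_mem_Jd_pow [P.Normal] (hs : ∀ g, star (ρ g) = ρ g⁻¹) {a : A} {k : ℕ}
    (ha : a ∈ Jd ρ P S ^ k) : star a ∈ Jd ρ P S ^ k := by
  induction k generalizing a with
  | zero =>
    obtain ⟨c, rfl⟩ := Submodule.mem_one.1 ha
    simp
  | succ k ih =>
    rw [pow_succ] at ha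
    rw [pow_succ']
    refine star_mem_mul (fun a ha => ih ha)
      (fun a ha => Basic.span_map (starAddEquiv : A ≃+ A) ?_ ha) ha
    rintro _ ⟨y, hy, hy', g, hg, rfl⟩
    rw [starAddEquiv_apply, star_mul, star_sub, star_one, hs, hs]
    exact Ad_mul_Jd (rho_mem_Ad (S.inv_mem hg)) (sub_one_mem_Jd (P.inv_mem hy) (S.inv_mem hy'))

end Span

namespace Basic
variable {H A : Type} [Group H] [Ring A] {ρ : H →* A} {S : Subgroup H}

theorem Ad_pow {a : A} (ha : a ∈ Ad ρ S) (n : ℕ) : a ^ n ∈ Ad ρ S := by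
  induction n with
  | zero => simpa using one_mem_Ad
  | succ n ih =>
    rw [pow_succ]
    exact Ad_mul ih ha

/-- An element which acts as the identity modulo nilpotents generates the augmentation ideal. -/
theorem gen_of {p : ℕ} [Fact p.Prime] (hp : (p : A) = 0) {f : A} (hf : f ∈ Ad ρ (Op p H))
    (hn : ∀ y ∈ Bd ρ (Op p H), IsNilpotent (y - f * y)) {b : A} (hb : b ∈ Bd ρ (Op p H)) :
    b ∈ Submodule.span ℤ {x | ∃ a ∈ Ad ρ (Op p H), ∃ a' ∈ Ad ρ (Op p H), x = a * f * a'} := by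
  set I := Submodule.span ℤ {x | ∃ a ∈ Ad ρ (Op p H), ∃ a' ∈ Ad ρ (Op p H), x = a * f * a'}
  have hr : ∀ x ∈ I, ∀ c ∈ Ad ρ (Op p H), x * c ∈ I := fun x hx c hc => by
    refine span_map (AddMonoidHom.mulRight c) ?_ hx
    rintro _ ⟨a, ha, a', ha', rfl⟩
    exact Submodule.subset_span ⟨a, ha, a' * c, Ad_mul ha' hc, mul_assoc _ _ _⟩
  refine Submodule.span_le.2 ?_ hb
  rintro _ ⟨g, hg, rfl⟩
  change ρ g - 1 ∈ I
  induction hg using closure_induction with
  | mem g hg =>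
    have hy : ρ g - 1 ∈ Bd ρ (Op p H) := sub_one_mem_Bd (subset_closure hg)
    obtain ⟨L, hL⟩ := hn _ hy
    obtain ⟨m, hm, hg⟩ := hg
    obtain ⟨N, hN, e⟩ := sub_one_eq hp (a := ρ g) ⟨m, hm, by rw [← map_pow, hg, map_one]⟩ L
    generalize ρ g - 1 = y at *
    have hy' := Bd_le_Ad hy
    have key : ∀ n : ℕ, y ^ n - (y - f * y) ^ n ∈ I := fun n => by
      induction n with
      | zero => simp
      | succ n ih =>
        have e' : y ^ (n + 1) - (y - f * y) ^ (n + 1) =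
            (y ^ n - (y - f * y) ^ n) * y + (y - f * y) ^ n * f * y := by
          rw [pow_succ, pow_succ]
          noncomm_ring
        rw [e']
        exact Submodule.add_mem _ (hr _ ih _ hy') (Submodule.subset_span
          ⟨_, Ad_pow (Submodule.sub_mem _ hy' (Ad_mul hf hy')) n, _, hy', rfl⟩)
    have := key N
    rwa [pow_eq_zero_of_le hN hL, sub_zero, ← e] at this
  | one => simp
  | mul g h _ hh ih ih' =>
    have e : ρ (g * h) - 1 = (ρ g - 1) * ρ h + (ρ h - 1) := by rw [map_mul]; noncomm_ring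
    rw [e]
    exact Submodule.add_mem _ (hr _ ih _ (rho_mem_Ad hh)) ih'
  | inv g hg ih =>
    have e : ρ g⁻¹ - 1 = -((ρ g - 1) * ρ g⁻¹) := by
      rw [sub_mul, ← map_mul, mul_inv_cancel, map_one, one_mul, neg_sub]
    rw [e]
    exact Submodule.neg_mem _ (hr _ ih _ (rho_mem_Ad ((Op p H).inv_mem hg)))

variable {ι K : Type} [Fintype ι] [DecidableEq ι] [Field K] {φ : H →* SL ι K}
  {π π' : Matrix ι ι K →+ A}

theorem tv (h : Str φ ρ π π') {g : H} {i j : ι} {hij : i ≠ j} {a : K}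
    (hg : φ g = SpecialLinearGroup.transvection hij a) :
    ρ g - 1 = π (single i j a) - π' (single i j a) := by
  rw [h.eq g, map_inv, hg, SpecialLinearGroup.transvection_inv,
    SpecialLinearGroup.transvection_coe, SpecialLinearGroup.transvection_coe, add_sub_cancel_left,
    add_sub_cancel_left, ← single_neg, map_neg]
  abel

theorem tv_mul (h : Str φ ρ π π') {i j : ι} (hij : i ≠ j) (a : K) (k : ι) :
    (π (single i k a) - π' (single i k a)) * (π (single k j 1) - π' (single k j 1)) =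
      π (single i j a) := by
  rw [sub_mul, mul_sub, mul_sub, h.orth, h.orth', ← h.mul, ← h.anti,
    single_mul_single_of_ne _ _ _ _ hij.symm, single_mul_single_same]
  simp

end Basic

section Mat
variable {ι K : Type} [Fintype ι] [DecidableEq ι] [Field K]

/-- The inverse transpose automorphism. -/
def itr (ι K : Type) [Fintype ι] [DecidableEq ι] [Field K] : SL ι K →* SL ι K where
  toFun A := ⟨(A⁻¹).1ᵀ, by rw [det_transpose, (A⁻¹).2]⟩
  map_one' := Subtype.ext (by simp)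
  map_mul' A B := Subtype.ext (by
    change ((A * B)⁻¹).1ᵀ = (A⁻¹).1ᵀ * (B⁻¹).1ᵀ
    rw [_root_.mul_inv_rev, ← transpose_mul]
    rfl)

theorem itr_coe (A : SL ι K) : (itr ι K A).1 = (A⁻¹).1ᵀ := rfl

theorem itr_itr (A : SL ι K) : itr ι K (itr ι K A) = A := by
  refine Subtype.ext ?_
  rw [itr_coe, ← map_inv, itr_coe, inv_inv, transpose_transpose]

variable {H E : Type} [Group H] [Ring E] {φ : H →* SL ι K} {ρ : H →* E}
  {π π' : Matrix ι ι K →+ E}

theorem ker_itr_comp : ((itr ι K).comp φ).ker = φ.ker := by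
  ext g
  rw [MonoidHom.mem_ker, MonoidHom.mem_ker, MonoidHom.comp_apply]
  exact ⟨fun h => by rw [← itr_itr (φ g), h, map_one], fun h => by rw [h, map_one]⟩

theorem Str.pow_sub (h : Str φ ρ π π') (g : H) (n : ℕ) :
    (ρ g - 1) ^ (n + 1) = π (((φ g).1 - 1) ^ (n + 1)) + π' (((φ g⁻¹).1 - 1) ^ (n + 1)) := by
  have e : ρ g - 1 = π ((φ g).1 - 1) + π' ((φ g⁻¹).1 - 1) := by rw [h.eq g]; abel
  induction n with
  | zero => simpa using e
  | succ n ih =>
    rw [pow_succ, ih, e, add_mul, mul_add, mul_add, h.orth, h.orth', ← h.mul, ← h.anti, ← pow_succ,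
      ← pow_succ', add_zero, zero_add]

theorem Str.mul_left (h : Str φ ρ π π') (g : H) (B : Matrix ι ι K) :
    ρ g * π B = π ((φ g).1 * B) := by
  rw [h.eq g, add_mul, add_mul, h.orth', ← h.mul, one_mul, add_zero, ← map_add, sub_mul, one_mul,
    add_sub_cancel]

theorem Str.mul_right (h : Str φ ρ π π') (g : H) (B : Matrix ι ι K) :
    π B * ρ g = π (B * (φ g).1) := by
  rw [h.eq g, mul_add, mul_add, h.orth, ← h.mul, mul_one, add_zero, ← map_add, mul_sub, mul_one,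
    add_sub_cancel]

theorem Str.mul_left' (h : Str φ ρ π π') (g : H) (B : Matrix ι ι K) :
    ρ g * π' B = π' (B * (φ g⁻¹).1) := by
  rw [h.eq g, add_mul, add_mul, h.orth, ← h.anti, one_mul, add_zero, ← map_add, mul_sub, mul_one,
    add_sub_cancel]

theorem Str.mul_right' (h : Str φ ρ π π') (g : H) (B : Matrix ι ι K) :
    π' B * ρ g = π' ((φ g⁻¹).1 * B) := by
  rw [h.eq g, mul_add, mul_add, h.orth', ← h.anti, mul_one, add_zero, ← map_add, sub_mul, one_mul,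
    add_sub_cancel]

theorem Str.inj_of_ne (h : Str φ ρ π π') (h1 : π 1 ≠ 0) : Function.Injective π := by
  refine (injective_iff_map_eq_zero π).2 fun B hB => ?_
  by_contra hne
  obtain ⟨C, D, e⟩ := one_eq_sum hne
  exact h1 (by simp [← e, map_sum, h.mul, hB])

theorem Str.inj_of_ne' (h : Str φ ρ π π') (h1 : π' 1 ≠ 0) : Function.Injective π' := by
  refine (injective_iff_map_eq_zero π').2 fun B hB => ?_
  by_contra hne
  obtain ⟨C, D, e⟩ := one_eq_sum hne
  exact h1 (by simp [← e, map_sum, h.anti, hB])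

/-- The maps `π` and `π'` are determined by the representation. -/
theorem Str.unique {π₁ π₁' : Matrix ι ι K →+ E} (h : Str φ ρ π π') (h₁ : Str φ ρ π₁ π₁')
    (hφ : Function.Surjective φ) (hι : 3 ≤ Fintype.card ι) : π = π₁ ∧ π' = π₁' := by
  have k0 : ∀ i j, i ≠ j → ∀ a : K,
      π (single i j a) - π' (single i j a) = π₁ (single i j a) - π₁' (single i j a) := by
    intro i j hij a
    obtain ⟨g, hg⟩ := hφ (SpecialLinearGroup.transvection hij a)
    rw [← Basic.tv h hg, ← Basic.tv h₁ hg]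
  have k1 : ∀ i j, i ≠ j → ∀ a : K, π (single i j a) = π₁ (single i j a) := by
    intro i j hij a
    obtain ⟨k, hi, hj⟩ := Basic.third hι i j
    rw [← Basic.tv_mul h hij a k, ← Basic.tv_mul h₁ hij a k, k0 _ _ hi, k0 _ _ hj.symm]
  refine ⟨AddMonoidHom.ext (Basic.mat_ind hι (by simp) (fun B C hB hC => by simp [hB, hC])
    (fun B C hB hC => by rw [h.mul, h₁.mul, hB, hC]) k1),
    AddMonoidHom.ext (Basic.mat_ind hι (by simp) (fun B C hB hC => by simp [hB, hC])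
    (fun B C hB hC => by rw [h.anti, h₁.anti, hB, hC]) fun i j hij a => ?_)⟩
  have := k0 i j hij a
  rwa [k1 i j hij, sub_right_inj] at this

theorem Str.flip (h : Str φ ρ π π') : Str ((itr ι K).comp φ) ρ
    (π'.comp (transposeAddEquiv ι ι K).toAddMonoidHom)
    (π.comp (transposeAddEquiv ι ι K).toAddMonoidHom) := by
  refine ⟨fun B C => ?_, fun B C => ?_, fun B C => h.orth' _ _, fun B C => h.orth _ _,
    fun g => ?_⟩
  · change π' (B * C)ᵀ = π' Bᵀ * π' Cᵀ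
    rw [transpose_mul, h.anti]
  · change π (B * C)ᵀ = π Cᵀ * π Bᵀ
    rw [transpose_mul, h.mul]
  · change ρ g = 1 + π' ((itr ι K (φ g)).1 - 1)ᵀ + π ((itr ι K (φ g⁻¹)).1 - 1)ᵀ
    rw [itr_coe, itr_coe, transpose_sub, transpose_sub, transpose_transpose, transpose_transpose,
      transpose_one, ← map_inv, ← map_inv, inv_inv, h.eq g, add_right_comm]

end Mat

section St
variable {p : ℕ} [Fact p.Prime] {ι K : Type} [Fintype ι] [DecidableEq ι] [Field K] {H : Type}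
  [Group H] [Finite H] {A E : Type} [Ring A] [StarRing A] [Ring E] {φ : H →* SL ι K}
  {ρ : H →* A} {q : A →+* E} {π π' : Matrix ι ι K →+ E}

theorem op_map (hφ : Function.Surjective φ) (hι : 3 ≤ Fintype.card ι) :
    (Op p H).map φ = ⊤ := by
  have : Finite (SL ι K) := Finite.of_surjective φ hφ
  rw [eq_top_iff, ← op_eq_top (p := p) (sl_perfect (K := K) hι)]
  refine (closure_le _).2 fun a ha => ?_
  obtain ⟨g, rfl⟩ := hφ a
  obtain ⟨b, -, hb, e⟩ := qel_lift φ (isOfFinOrder_of_finite g) ha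
  exact ⟨b, subset_closure hb, e⟩

theorem op_decomp (hφ : Function.Surjective φ) (hι : 3 ≤ Fintype.card ι) (h : H) :
    ∃ g ∈ Op p H, ∃ y, φ y = 1 ∧ h = g * y := by
  obtain ⟨g, hg, e⟩ : φ h ∈ (Op p H).map φ := by rw [op_map hφ hι]; trivial
  exact ⟨g, hg, g⁻¹ * h, by rw [map_mul, map_inv, e, inv_mul_cancel], by group⟩

theorem op_perfect (hφ : Function.Surjective φ) (hk : IsPGroup p φ.ker)
    (hι : 3 ≤ Fintype.card ι) : ⁅Op p H, Op p H⁆ = Op p H := by
  refine le_antisymm (commutator_le_left _ _) ((closure_le _).2 fun g hg => ?_)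
  obtain ⟨d, hd, e⟩ : φ g ∈ (⁅Op p H, Op p H⁆ : Subgroup H).map φ := by
    rw [map_commutator, op_map hφ hι]
    exact (sl_perfect hι).mem_commutator
  obtain ⟨k, hk⟩ := hk ⟨d⁻¹ * g, by rw [MonoidHom.mem_ker, map_mul, map_inv, e, inv_mul_cancel]⟩
  obtain ⟨m, hm, hg⟩ := hg
  have h1 : (d⁻¹ * g) ^ p ^ k = 1 := congrArg Subtype.val hk
  have h2 : QuotientGroup.mk' ⁅Op p H, Op p H⁆ (d⁻¹ * g) = QuotientGroup.mk' _ g := by
    rw [map_mul, map_inv, show QuotientGroup.mk' ⁅Op p H, Op p H⁆ d = 1 from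
      (QuotientGroup.eq_one_iff d).2 hd, inv_one, one_mul]
  refine (QuotientGroup.eq_one_iff g).1 (eq_one_of_pel_qel (p := p)
    (g := QuotientGroup.mk' ⁅Op p H, Op p H⁆ g) ⟨k, ?_⟩ ⟨m, hm, ?_⟩)
  · rw [← h2, ← map_pow, h1, map_one]
  · rw [← map_pow, hg, map_one]

/-- Lifts inside `Op p H` of the matrix parts, compatible with the involution. -/
theorem exists_lift_star (hs : ∀ g, star (ρ g) = ρ g⁻¹) (hφ : Function.Surjective φ)
    (h : Str φ ((q : A →* E).comp ρ) π π') (hι : 3 ≤ Fintype.card ι) (B : Matrix ι ι K) :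
    ∃ X ∈ Bd ρ (Op p H), q X = π B ∧ q (star X) = π' B := by
  refine Basic.mat_ind (Q := fun B => ∃ X ∈ Bd ρ (Op p H), q X = π B ∧ q (star X) = π' B) hι
    ⟨0, Submodule.zero_mem _, by simp, by simp⟩ ?_ ?_ ?_ B
  · rintro B C ⟨X, hX, h1, h2⟩ ⟨Y, hY, h3, h4⟩
    exact ⟨X + Y, Submodule.add_mem _ hX hY, by simp [h1, h3], by simp [h2, h4]⟩
  · rintro B C ⟨X, hX, h1, h2⟩ ⟨Y, hY, h3, h4⟩
    exact ⟨X * Y, Ad_mul_Bd (Bd_le_Ad hX) hY, by rw [map_mul, h1, h3, h.mul],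
      by rw [star_mul, map_mul, h2, h4, h.anti]⟩
  · intro i j hij a
    obtain ⟨k, hi, hj⟩ := Basic.third hι i j
    have key : ∀ i j (hij : i ≠ j) (a : K), ∃ X ∈ Bd ρ (Op p H),
        q X = π (single i j a) - π' (single i j a) ∧
          q (star X) = -(π (single i j a) - π' (single i j a)) := by
      intro i j hij a
      obtain ⟨g, hg, e⟩ : SpecialLinearGroup.transvection hij a ∈ (Op p H).map φ := by
        rw [op_map hφ hι]; trivial
      have e' : φ g⁻¹ = SpecialLinearGroup.transvection hij (-a) := by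
        rw [map_inv, e, SpecialLinearGroup.transvection_inv]
      refine ⟨ρ g - 1, sub_one_mem_Bd hg, by simpa using Basic.tv h e, ?_⟩
      have := Basic.tv h e'
      rw [← single_neg, map_neg, map_neg, ← neg_sub'] at this
      simpa [hs] using this
    obtain ⟨X, hX, h1, h2⟩ := key i k hi a
    obtain ⟨Y, hY, h3, h4⟩ := key k j hj.symm 1
    refine ⟨X * Y, Ad_mul_Bd (Bd_le_Ad hX) hY, by rw [map_mul, h1, h3, Basic.tv_mul h hij], ?_⟩
    rw [star_mul, map_mul, h2, h4, neg_mul_neg, sub_mul, mul_sub, mul_sub, h.orth, h.orth',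
      ← h.mul, ← h.anti, single_mul_single_of_ne _ _ _ _ hij.symm, single_mul_single_same]
    simp

namespace St

variable (h : St p φ ρ q π π')
include h

theorem mem_Ad (a : A) : a ∈ Ad ρ ⊤ := by
  rw [h.span]
  trivial

theorem q_rho (g : H) : q (ρ g) = 1 + π ((φ g).1 - 1) + π' ((φ g⁻¹).1 - 1) := by
  exact h.str.eq g

theorem q_star_congr {a b : A} (hab : q a = q b) : q (star a) = q (star b) := by
  have h1 : a - b ∈ Jd ρ φ.ker ⊤ ^ 1 := by
    rw [pow_one, ← h.ker, map_sub, hab, sub_self]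
  have h2 := star_mem_Jd_pow h.star_eq h1
  rwa [pow_one, ← h.ker, star_sub, map_sub, sub_eq_zero] at h2

theorem q_star (hι : 3 ≤ Fintype.card ι) {a : A} {B : Matrix ι ι K} (ha : q a = π B) :
    q (star a) = π' B := by
  obtain ⟨X, -, h1, h2⟩ := exists_lift_star (p := p) h.star_eq h.surj h.str hι B
  rw [← h2]
  exact h.q_star_congr (ha.trans h1.symm)

theorem q_star' (hι : 3 ≤ Fintype.card ι) {a : A} {B : Matrix ι ι K} (ha : q a = π' B) :
    q (star a) = π B := by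
  obtain ⟨X, -, h1, h2⟩ := exists_lift_star (p := p) h.star_eq h.surj h.str hι B
  rw [← h1, ← star_star X]
  exact h.q_star_congr (ha.trans h2.symm)

theorem pinj' (hι : 3 ≤ Fintype.card ι) : Function.Injective π' := by
  refine (injective_iff_map_eq_zero π').2 fun B hB => h.pinj ?_
  have := h.q_star' hι (a := 0) (B := B) (by rw [hB, map_zero])
  rw [← this, star_zero, map_zero, map_zero]

theorem lift (hι : 3 ≤ Fintype.card ι) (B : Matrix ι ι K) : ∃ X ∈ Bd ρ (Op p H), q X = π B := by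
  obtain ⟨X, hX, h1, -⟩ := exists_lift_star (p := p) h.star_eq h.surj h.str hι B
  exact ⟨X, hX, h1⟩

theorem lift' (hι : 3 ≤ Fintype.card ι) (B : Matrix ι ι K) : ∃ X ∈ Bd ρ (Op p H), q X = π' B := by
  obtain ⟨X, hX, -, h1⟩ := exists_lift_star (p := p) h.star_eq h.surj h.str hι B
  exact ⟨star X, star_mem_Bd h.star_eq hX, h1⟩

theorem q_Bd {S : Subgroup H} {b : A} (hb : b ∈ Bd ρ S) : ∃ B C, q b = π B + π' C := by
  induction hb using Submodule.span_induction with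
  | mem x hx =>
    obtain ⟨g, -, rfl⟩ := hx
    exact ⟨_, _, by rw [map_sub, map_one, h.q_rho, add_assoc, add_sub_cancel_left]⟩
  | zero => exact ⟨0, 0, by simp⟩
  | add x y _ _ hx hy =>
    obtain ⟨B, C, e⟩ := hx
    obtain ⟨B', C', e'⟩ := hy
    exact ⟨B + B', C + C', by rw [map_add, map_add, map_add, e, e', add_add_add_comm]⟩
  | smul r x _ hx =>
    obtain ⟨B, C, e⟩ := hx
    exact ⟨r • B, r • C, by rw [map_zsmul, map_zsmul, map_zsmul, e, smul_add]⟩

theorem q_eq (a : A) : ∃ (c : ℤ) (B C : Matrix ι ι K), q a = c + π B + π' C := by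
  obtain ⟨c, hc⟩ := Ad_decomp (h.mem_Ad a)
  obtain ⟨B, C, e⟩ := h.q_Bd hc
  rw [map_sub, map_intCast, sub_eq_iff_eq_add'] at e
  exact ⟨c, B, C, by rw [e, add_assoc]⟩

theorem nil_of_q {a : A} (ha : q a = 0) : IsNilpotent a := by
  obtain ⟨L, hL⟩ := h.nil
  have := Submodule.pow_mem_pow _ ((h.ker a).1 ha) L
  rw [hL] at this
  exact ⟨L, this⟩

theorem d1 : D1 p φ ρ := by
  intro a b _ _ h1 h2
  refine h.nil_of_q ?_
  have e : ∀ g, ((φ g⁻¹).1 - 1) = -((φ g⁻¹).1 * ((φ g).1 - 1)) ∧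
      ((φ g⁻¹).1 - 1) = -(((φ g).1 - 1) * (φ g⁻¹).1) := fun g => by
    have e1 : (φ g⁻¹).1 * (φ g).1 = 1 := congrArg Subtype.val (show φ g⁻¹ * φ g = 1 by simp)
    have e2 : (φ g).1 * (φ g⁻¹).1 = 1 := congrArg Subtype.val (show φ g * φ g⁻¹ = 1 by simp)
    rw [mul_sub, sub_mul, e1, e2, mul_one, one_mul, neg_sub]
    exact ⟨rfl, rfl⟩
  have h3 : ((φ b⁻¹).1 - 1) * ((φ a⁻¹).1 - 1) = 0 := by
    rw [(e b).1, (e a).2, neg_mul_neg, mul_assoc, ← mul_assoc ((φ b).1 - 1), h2, zero_mul, mul_zero]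
  rw [map_mul, map_sub, map_sub, map_one, h.q_rho, h.q_rho, add_assoc, add_assoc,
    add_sub_cancel_left, add_sub_cancel_left, add_mul, mul_add, mul_add, h.str.orth, h.str.orth',
    ← h.str.mul, ← h.str.anti, h1, h3]
  simp

theorem phi_eq_one {g : H} (hg : q (ρ g) = 1) : φ g = 1 := by
  have h1 := h.str.mul_left g 1
  rw [show ((q : A →* E).comp ρ) g = 1 from hg, one_mul, mul_one] at h1
  exact Subtype.ext (h.pinj h1).symm

/-- Elements with the same class act in the same way on the layers. -/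
theorem mul_congr_left {a b m : A} {k : ℕ} (hab : q a = q b) (hm : m ∈ Jd ρ φ.ker ⊤ ^ k) :
    a * m - b * m ∈ Jd ρ φ.ker ⊤ ^ (k + 1) := by
  rw [← sub_mul, pow_succ']
  exact Submodule.mul_mem_mul ((h.ker _).1 (by rw [map_sub, hab, sub_self])) hm

theorem mul_congr_right {a b m : A} {k : ℕ} (hab : q a = q b) (hm : m ∈ Jd ρ φ.ker ⊤ ^ k) :
    m * a - m * b ∈ Jd ρ φ.ker ⊤ ^ (k + 1) := by
  rw [← mul_sub, pow_succ]
  exact Submodule.mul_mem_mul hm ((h.ker _).1 (by rw [map_sub, hab, sub_self]))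

/-- A self-adjoint idempotent which generates the augmentation ideal of `Op p H`. -/
theorem exists_idem (hι : 3 ≤ Fintype.card ι) : ∃ f ∈ Bd ρ (Op p H), f * f = f ∧ star f = f ∧
    q f = π 1 + π' 1 ∧ ∀ b ∈ Bd ρ (Op p H),
      b ∈ Submodule.span ℤ {x | ∃ a ∈ Ad ρ (Op p H), ∃ a' ∈ Ad ρ (Op p H), x = a * f * a'} := by
  obtain ⟨e, he, h1, h2⟩ := exists_lift_star (p := p) h.star_eq h.surj h.str hι 1
  have hε : ∀ B C, (π 1 + π' 1) * (π B + π' C) = π B + π' C := fun B C => by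
    rw [add_mul, mul_add, mul_add, h.str.orth, h.str.orth', ← h.str.mul, ← h.str.anti, one_mul,
      mul_one, add_zero, zero_add]
  obtain ⟨x, hx, hs, hq⟩ : ∃ x ∈ Bd ρ (Op p H), star x = x ∧ q x = π 1 + π' 1 :=
    ⟨e + star e, Submodule.add_mem _ he (star_mem_Bd h.star_eq he),
      by rw [star_add, star_star, add_comm], by rw [map_add, h1, h2]⟩
  obtain ⟨n, hn⟩ := Basic.idem_pow h.chr
    (h.nil_of_q (a := x * x - x) (by rw [map_sub, map_mul, hq, hε, sub_self]))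
  have hf : x ^ (n + 1) ∈ Bd ρ (Op p H) := by
    rw [pow_succ]
    exact Ad_mul_Bd (Basic.Ad_pow (Bd_le_Ad hx) n) hx
  have hqf : q (x ^ (n + 1)) = π 1 + π' 1 := by
    rw [map_pow, hq]
    exact IsIdempotentElem.pow_succ_eq n (hε 1 1)
  refine ⟨x ^ (n + 1), hf, hn, by rw [star_pow, hs], hqf, fun b hb => Basic.gen_of h.chr
    (Bd_le_Ad hf) (fun y hy => h.nil_of_q ?_) hb⟩
  obtain ⟨B, C, e'⟩ := h.q_Bd hy
  rw [map_sub, map_mul, hqf, e', hε, sub_self]

/-- An element with nonzero natural and dual parts generates the class of `π 1 + π' 1`. -/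
theorem gen (hι : 3 ≤ Fintype.card ι) {x : A} {B C : Matrix ι ι K} (hB : B ≠ 0) (hC : C ≠ 0)
    (hx : π 1 * q x = π B) (hx' : π' 1 * q x = π' C) :
    ∃ y ∈ Submodule.span ℤ {w | ∃ a ∈ Bd ρ (Op p H), ∃ a' ∈ Bd ρ (Op p H), w = a * x * a'},
      q y = π 1 + π' 1 := by
  obtain ⟨C₁, D₁, e₁⟩ := one_eq_sum hB
  obtain ⟨C₂, D₂, e₂⟩ := one_eq_sum hC
  choose X hX hX' using h.lift hι
  choose Y hY hY' using h.lift' hι
  refine ⟨∑ i, X (C₁ i) * x * X (D₁ i) + ∑ i, Y (D₂ i) * x * Y (C₂ i), Submodule.add_mem _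
    (Submodule.sum_mem _ fun i _ => Submodule.subset_span ⟨_, hX _, _, hX _, rfl⟩)
    (Submodule.sum_mem _ fun i _ => Submodule.subset_span ⟨_, hY _, _, hY _, rfl⟩), ?_⟩
  have k1 : ∀ M, π M * q x = π (M * B) := fun M => by
    rw [h.str.mul, ← hx, ← mul_assoc, ← h.str.mul, mul_one]
  have k2 : ∀ M, π' M * q x = π' (C * M) := fun M => by
    rw [h.str.anti, ← hx', ← mul_assoc, ← h.str.anti, one_mul]
  rw [map_add, map_sum, map_sum, ← e₁, map_sum]
  congr 1
  · exact Finset.sum_congr rfl fun i _ => by rw [map_mul, map_mul, hX', hX', k1, ← h.str.mul]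
  · rw [e₁, ← e₂, map_sum]
    exact Finset.sum_congr rfl fun i _ => by
      rw [map_mul, map_mul, hY', hY', k2, ← h.str.anti, mul_assoc]

theorem flip (hι : 3 ≤ Fintype.card ι) : St p ((itr ι K).comp φ) ρ q
    (π'.comp (transposeAddEquiv ι ι K).toAddMonoidHom)
    (π.comp (transposeAddEquiv ι ι K).toAddMonoidHom) := by
  refine ⟨fun A => ?_, ?_, h.chr, h.inj, h.star_eq, h.span, ?_, ?_, h.str.flip,
    (h.pinj' hι).comp (transposeAddEquiv ι ι K).injective⟩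
  · obtain ⟨g, hg⟩ := h.surj (itr ι K A)
    exact ⟨g, by rw [MonoidHom.comp_apply, hg, itr_itr]⟩
  · rw [ker_itr_comp]
    exact h.pker
  · rw [ker_itr_comp]
    exact h.ker
  · rw [ker_itr_comp]
    exact h.nil

end St

end St

end Pool.Agent.Lib.MP_679d9b_al.PT
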