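import Mathlib
import Pool.Agent.Lib.MP_679d9b_al.PT.Basic

/-!
Coefficients of natural and dual modules, and simple sections.
-/

set_option autoImplicit false

namespace Pool.Agent.Lib.MP_679d9b_al.PT

open Subgroup Matrix

namespace Coef

/-- Comparison of spans through independent subfamilies. -/
theorem cdim_le {K k F F' M M' : Type} [Field K] [Field k] [Finite F] [Finite F']
    [AddCommGroup M] [Module K M] [AddCommGroup M'] [Module k M'] (S : F → M) (T : F' → M')
    (h : ∀ (κ : Type) [Fintype κ] (a : κ → F), LinearIndependent K (S ∘ a) →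
      ∃ a' : κ → F', LinearIndependent k (T ∘ a')) : cdim K S ≤ cdim k T := by
  obtain ⟨κ, a, ha, hs, hl⟩ := exists_linearIndependent' K S
  have : Finite κ := Finite.of_injective a ha
  let : Fintype κ := Fintype.ofFinite κ
  obtain ⟨a', ha'⟩ := h κ a hl
  have : Module.Finite k (Submodule.span k (Set.range T)) :=
    Module.Finite.span_of_finite k (Set.finite_range T)
  unfold cdim
  rw [← hs, finrank_span_eq_card hl, ← finrank_span_eq_card ha']
  exact Submodule.finrank_mono (Submodule.span_mono (Set.range_comp_subset_range a' T))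

section Cf

variable {ι K k V : Type} [Fintype ι] [DecidableEq ι] [Field K] [Finite K] [Field k]
  [IsAlgClosed k] [AddCommGroup V] [Module k V] [FiniteDimensional k V]
  {π : Matrix ι ι K →+ Module.End k V}

/-- A common eigenvector of the scalar matrices. -/
theorem exists_eig (hm : ∀ B C, π (B * C) = π B * π C) (h1 : π 1 ≠ 0) :
    ∃ w : V, w ≠ 0 ∧ π 1 w = w ∧ ∀ c : K, ∃ t : k, π (c • 1) w = t • w := by
  obtain ⟨z, hz⟩ := IsCyclic.exists_generator (α := Kˣ)
  let U : Submodule k V := LinearMap.range (π 1)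
  have hU : ∀ u ∈ U, π 1 u = u := by
    rintro _ ⟨v, rfl⟩
    rw [← Module.End.mul_apply, ← hm, one_mul]
  have hA : ∀ u ∈ U, π ((z : K) • 1) u ∈ U := fun u _ =>
    ⟨π ((z : K) • 1) u, by rw [← Module.End.mul_apply, ← hm, one_mul]⟩
  have : Nontrivial U := Submodule.nontrivial_iff_ne_bot.2 fun e => h1 (LinearMap.range_eq_bot.1 e)
  obtain ⟨μ, hμ⟩ := Module.End.exists_eigenvalue ((π ((z : K) • 1)).restrict hA)
  obtain ⟨w, hw⟩ := hμ.exists_hasEigenvector
  have e1 : π ((z : K) • 1) w.1 = μ • w.1 := congrArg Subtype.val hw.apply_eq_smul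
  have e2 : ∀ n : ℕ, π (((z : K) ^ n) • 1) w.1 = μ ^ n • w.1 := by
    intro n
    induction n with
    | zero => rw [pow_zero, pow_zero, one_smul, one_smul, hU _ w.2]
    | succ n ih =>
      have : ((z : K) ^ (n + 1)) • (1 : Matrix ι ι K) = (((z : K) ^ n) • 1) * ((z : K) • 1) := by
        rw [smul_mul_smul_comm, one_mul, pow_succ]
      rw [this, hm, Module.End.mul_apply, e1, map_smul, ih, smul_smul, pow_succ']
  refine ⟨w.1, fun e => hw.2 (Subtype.ext e), hU _ w.2, fun c => ?_⟩
  by_cases hc : c = 0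
  · exact ⟨0, by rw [hc, zero_smul, map_zero, zero_smul, LinearMap.zero_apply]⟩
  obtain ⟨n, hn⟩ := mem_powers_iff_mem_zpowers.2 (hz (Units.mk0 c hc))
  have : c = (z : K) ^ n := by
    have := congrArg Units.val hn
    simpa using this.symm
  exact ⟨μ ^ n, by rw [this, e2]⟩

theorem exists_hom (hm : ∀ B C, π (B * C) = π B * π C) (h1 : π 1 ≠ 0) :
    ∃ (w : V) (θ : K →+* k), w ≠ 0 ∧ π 1 w = w ∧ ∀ c : K, π (c • 1) w = θ c • w := by
  obtain ⟨w, hw, e1, h⟩ := exists_eig hm h1
  choose t ht using h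
  have inj : ∀ a b : k, a • w = b • w → a = b := fun a b e => smul_left_injective k hw e
  refine ⟨w, ⟨⟨⟨t, inj _ _ ?_⟩, fun a b => inj _ _ ?_⟩, inj _ _ ?_, fun a b => inj _ _ ?_⟩,
    hw, e1, ht⟩
  · rw [← ht, one_smul, one_smul, e1]
  · have : (a * b) • (1 : Matrix ι ι K) = (a • 1) * (b • 1) := by
      rw [smul_mul_smul_comm, one_mul]
    show t (a * b) • w = (t a * t b) • w
    rw [← ht, this, hm, Module.End.mul_apply, ht, map_smul, ht, smul_smul, mul_comm]
  · show t 0 • w = (0 : k) • w
    rw [← ht, zero_smul, map_zero, zero_smul, LinearMap.zero_apply]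
  · show t (a + b) • w = (t a + t b) • w
    rw [← ht, add_smul, map_add, LinearMap.add_apply, ht, ht, add_smul]

/-- Independent matrices give independent operators. -/
theorem indep (hm : ∀ B C, π (B * C) = π B * π C) (h1 : π 1 ≠ 0) {κ : Type} [Fintype κ]
    (s : κ → Matrix ι ι K) (T : κ → Module.End k V) (hT : ∀ f, T f * π 1 = π (s f))
    (hs : LinearIndependent K s) : LinearIndependent k T := by
  obtain ⟨w, θ, hw, e1, ht⟩ := exists_hom hm h1
  obtain ⟨a, ha⟩ : ∃ a, π (single a a 1) w ≠ 0 := by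
    by_contra hc
    push Not at hc
    apply hw
    rw [← e1, ← sum_single_one, map_sum, LinearMap.sum_apply]
    exact Finset.sum_eq_zero fun a _ => hc a
  let : Algebra K k := θ.toAlgebra
  let s' : κ → ι × ι → K := fun f x => s f x.1 x.2
  have hs' : LinearIndependent K s' := by
    rw [Fintype.linearIndependent_iff] at hs ⊢
    intro l hl
    refine hs l ?_
    ext i j
    have := congrFun hl (i, j)
    simpa [Matrix.sum_apply, s'] using this
  have hk : LinearIndependent k fun f => algebraMap K k ∘ s' f :=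
    linearIndependent_algebraMap_comp_iff.2 hs'
  rw [Fintype.linearIndependent_iff] at hk ⊢
  intro l hl
  refine hk l ?_
  funext x
  have key : ∀ f, π (single a x.1 1) (T f (π (single x.2 a 1) w)) =
      θ (s f x.1 x.2) • π (single a a 1) w := by
    intro f
    have b1 : π (single x.2 a 1) = π 1 * π (single x.2 a 1) := by rw [← hm, one_mul]
    have b2 : single a x.1 (1 : K) * (s f * single x.2 a 1) =
        single a a 1 * (s f x.1 x.2 • 1) := by
      rw [← mul_assoc, single_mul_mul_single, Matrix.mul_smul]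
      simp
    rw [b1, ← Module.End.mul_apply (T f), ← mul_assoc, hT, ← hm, ← Module.End.mul_apply, ← hm, b2,
      hm, Module.End.mul_apply, ht, map_smul]
  have b := congrArg (fun A : Module.End k V => π (single a x.1 1) (A (π (single x.2 a 1) w))) hl
  simp only [LinearMap.sum_apply, LinearMap.smul_apply, map_sum, map_smul, key, smul_smul,
    LinearMap.zero_apply, map_zero] at b
  rw [← Finset.sum_smul, smul_eq_zero] at b
  rw [Finset.sum_apply]
  exact b.resolve_right ha

end Cf

section Sec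

variable {p : ℕ} [Fact p.Prime] {k : Type} [Field k] {H : Type} [Group H]

/-- A finite `p`-group has a nonzero fixed vector in characteristic `p`. -/
theorem exists_fixed_vec [CharP k p] {V : Type} [AddCommGroup V] [Module k V] [Nontrivial V]
    {P : Type} [Group P] [Finite P] (hP : IsPGroup p P) (ω : P →* Module.End k V) :
    ∃ v : V, v ≠ 0 ∧ ∀ y, ω y v = v := by
  obtain ⟨v, hv⟩ := exists_ne (0 : V)
  have hp : ∀ x : V, p • x = 0 := fun x => by
    rw [← Nat.cast_smul_eq_nsmul k, CharP.cast_eq_zero, zero_smul]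
  let M : Submodule ℤ V := Submodule.span ℤ (Set.range fun y => ω y v)
  have hM : ∀ y, ∀ m ∈ M, ω y m ∈ M := by
    intro y m hm
    induction hm using Submodule.span_induction with
    | mem x hx =>
      obtain ⟨y', rfl⟩ := hx
      exact Submodule.subset_span ⟨y * y', by simp⟩
    | zero => rw [map_zero]; exact M.zero_mem
    | add a b _ _ ha hb => rw [map_add]; exact M.add_mem ha hb
    | smul c a _ ha => rw [map_zsmul]; exact M.smul_mem c ha
  have hf : Module.Finite ℤ M := Module.Finite.span_of_finite ℤ (Set.finite_range _)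
  have hp0 : (p : ℤ) ≠ 0 := Int.natCast_ne_zero.2 (Fact.out : p.Prime).ne_zero
  have : Finite M := Module.finite_of_fg_torsion M fun m =>
    ⟨⟨p, mem_nonZeroDivisors_of_ne_zero hp0⟩, Subtype.ext (by
      show (p : ℤ) • m.1 = 0
      rw [natCast_zsmul, hp])⟩
  let : MulAction P M :=
    { smul := fun y m => ⟨ω y m.1, hM y _ m.2⟩
      one_smul := fun m => Subtype.ext (by
        show ω 1 m.1 = m.1
        rw [map_one, Module.End.one_apply])
      mul_smul := fun a b m => Subtype.ext (by
        show ω (a * b) m.1 = ω a (ω b m.1)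
        rw [map_mul, Module.End.mul_apply]) }
  have hvM : v ∈ M := Submodule.subset_span ⟨1, by simp⟩
  have hd : p ∣ Nat.card M := by
    have : addOrderOf (⟨v, hvM⟩ : M) = p :=
      addOrderOf_eq_prime (Subtype.ext (hp v)) fun e => hv (congrArg Subtype.val e)
    rw [← this]
    exact addOrderOf_dvd_natCard _
  obtain ⟨b, hb, hne⟩ := hP.exists_fixed_point_of_prime_dvd_card_of_fixed_point M hd (a := 0)
    fun y => Subtype.ext (map_zero (ω y))
  exact ⟨b.1, fun e => hne (Subtype.ext e.symm), fun y => congrArg Subtype.val (hb y)⟩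

variable {V V' V'' : Type} [AddCommGroup V] [Module k V] [AddCommGroup V'] [Module k V']
  [AddCommGroup V''] [Module k V'']

/-- Linear relations pass from `ω` to `ω'`. -/
def Rel (ω : H →* Module.End k V) (ω' : H →* Module.End k V') : Prop :=
  ∀ (κ : Type) [Fintype κ] (l : κ → k) (g : κ → H),
    ∑ i, l i • ω (g i) = 0 → ∑ i, l i • ω' (g i) = 0

theorem Rel.one {ω : H →* Module.End k V} {ω' : H →* Module.End k V'} (h : Rel ω ω') (g : H)
    (hg : ω g = 1) : ω' g = 1 := by
  have := h (Fin 2) ![1, -1] ![g, 1] (by simp [hg])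
  simpa [← sub_eq_add_neg, sub_eq_zero] using this

theorem Rel.cdim {ω : H →* Module.End k V} {ω' : H →* Module.End k V'} (h : Rel ω ω') (F : Type)
    [Finite F] (j : F → H) : cdim k (fun f => ω' (j f)) ≤ cdim k fun f => ω (j f) := by
  refine cdim_le _ _ fun κ _ a ha => ⟨a, ?_⟩
  rw [Fintype.linearIndependent_iff] at ha ⊢
  exact fun l hl => ha l (h κ l (fun i => j (a i)) hl)

theorem rel_of_inj {ω : H →* Module.End k V} {ω' : H →* Module.End k V'} (e : V' →ₗ[k] V)
    (he : Function.Injective e) (h : ∀ g v, e (ω' g v) = ω g (e v)) : Rel ω ω' := by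
  intro κ _ l g hl
  refine LinearMap.ext fun v => he ?_
  have := congrArg (fun A : Module.End k V => A (e v)) hl
  simpa only [LinearMap.sum_apply, LinearMap.smul_apply, map_sum, map_smul, h,
    LinearMap.zero_apply, map_zero] using this

theorem rel_of_surj {ω : H →* Module.End k V} {ω' : H →* Module.End k V'} (e : V →ₗ[k] V')
    (he : Function.Surjective e) (h : ∀ g v, ω' g (e v) = e (ω g v)) : Rel ω ω' := by
  intro κ _ l g hl
  refine LinearMap.ext fun v => ?_
  obtain ⟨v, rfl⟩ := he v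
  have := congrArg (fun A : Module.End k V => e (A v)) hl
  simpa only [LinearMap.sum_apply, LinearMap.smul_apply, map_sum, map_smul, h,
    LinearMap.zero_apply, map_zero] using this

theorem pow_comm {x : Module.End k V} {y : Module.End k V'} (e : V →ₗ[k] V')
    (h : ∀ v, y (e v) = e (x v)) (n : ℕ) (v : V) : (y ^ n) (e v) = e ((x ^ n) v) := by
  induction n with
  | zero => rfl
  | succ n ih => rw [pow_succ', pow_succ', Module.End.mul_apply, Module.End.mul_apply, ih, h]

theorem nil_of_parts {x : Module.End k V} {U : Submodule k V} {y : Module.End k U}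
    {z : Module.End k (V ⧸ U)} (h1 : ∀ v, x (U.subtype v) = U.subtype (y v))
    (h2 : ∀ v, z (U.mkQ v) = U.mkQ (x v)) (hy : IsNilpotent y) (hz : IsNilpotent z) :
    IsNilpotent x := by
  obtain ⟨m, hm⟩ := hy
  obtain ⟨n, hn⟩ := hz
  refine ⟨m + n, LinearMap.ext fun v => ?_⟩
  have a : (x ^ n) v ∈ U := by
    have := pow_comm U.mkQ h2 n v
    rw [hn, LinearMap.zero_apply] at this
    exact (Submodule.Quotient.mk_eq_zero U).1 this.symm
  have b := pow_comm U.subtype h1 m ⟨_, a⟩
  rw [hm, LinearMap.zero_apply, map_zero] at b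
  rw [pow_add, Module.End.mul_apply]
  exact b

/-- A simple section on which the product stays non nilpotent. -/
theorem exists_sec (a b : H) (n : ℕ) : ∀ (V : Type) [AddCommGroup V] [Module k V]
    [FiniteDimensional k V] (ω : H →* Module.End k V), Module.finrank k V = n →
    ¬ IsNilpotent ((ω a - 1) * (ω b - 1)) →
    ∃ (V' : Type) (_ : AddCommGroup V') (_ : Module k V') (_ : FiniteDimensional k V')
      (ω' : H →* Module.End k V'), ¬ IsNilpotent ((ω' a - 1) * (ω' b - 1)) ∧
      (∀ U : Submodule k V', (∀ g, ∀ v ∈ U, ω' g v ∈ U) → U = ⊥ ∨ U = ⊤) ∧ Rel ω ω' := by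
  induction n using Nat.strong_induction_on with
  | _ n ih =>
  intro V _ _ _ ω hn h
  by_cases hs : ∀ U : Submodule k V, (∀ g, ∀ v ∈ U, ω g v ∈ U) → U = ⊥ ∨ U = ⊤
  · exact ⟨V, inferInstance, inferInstance, inferInstance, ω, h, hs, fun _ _ _ _ e => e⟩
  push Not at hs
  obtain ⟨U, hU, h0, h1⟩ := hs
  let ω₁ : H →* Module.End k U := Representation.subrepresentation ω U fun g v hv => hU g v hv
  let ω₂ : H →* Module.End k (V ⧸ U) := Representation.quotient ω U fun g v hv => hU g v hv
  have e1 : ∀ g v, U.subtype (ω₁ g v) = ω g (U.subtype v) := fun _ _ => rfl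
  have e2 : ∀ g v, ω₂ g (U.mkQ v) = U.mkQ (ω g v) := fun _ _ => rfl
  have hd := U.finrank_quotient_add_finrank
  by_cases c1 : IsNilpotent ((ω₁ a - 1) * (ω₁ b - 1))
  · by_cases c2 : IsNilpotent ((ω₂ a - 1) * (ω₂ b - 1))
    · refine (h (nil_of_parts (fun v => ?_) (fun v => ?_) c1 c2)).elim
      · simp only [Module.End.mul_apply, LinearMap.sub_apply, Module.End.one_apply, map_sub, e1]
      · simp only [Module.End.mul_apply, LinearMap.sub_apply, Module.End.one_apply, map_sub, e2]
    · have : 0 < Module.finrank k U :=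
        Nat.pos_of_ne_zero fun e => h0 (Submodule.finrank_eq_zero.1 e)
      obtain ⟨V', i1, i2, i3, ω', r1, r2, r3⟩ := ih _ (by omega) (V ⧸ U) ω₂ rfl c2
      exact ⟨V', i1, i2, i3, ω', r1, r2, fun κ _ l g e =>
        r3 κ l g (rel_of_surj U.mkQ U.mkQ_surjective e2 κ l g e)⟩
  · have := Submodule.finrank_lt h1
    obtain ⟨V', i1, i2, i3, ω', r1, r2, r3⟩ := ih _ (by omega) U ω₁ rfl c1
    exact ⟨V', i1, i2, i3, ω', r1, r2, fun κ _ l g e =>
      r3 κ l g (rel_of_inj U.subtype U.injective_subtype e1 κ l g e)⟩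

/-- Normal `p`-subgroups act trivially on simple modules. -/
theorem triv_of_simple [CharP k p] [Nontrivial V] {ω : H →* Module.End k V}
    (hs : ∀ U : Submodule k V, (∀ g, ∀ v ∈ U, ω g v ∈ U) → U = ⊥ ∨ U = ⊤) (P : Subgroup H)
    (hN : P.Normal) [Finite P] (hP : IsPGroup p P) {y : H} (hy : y ∈ P) : ω y = 1 := by
  let U : Submodule k V :=
    { carrier := {v | ∀ y ∈ P, ω y v = v}
      add_mem' := fun ha hb y hy => by rw [map_add, ha y hy, hb y hy]
      zero_mem' := fun y _ => map_zero _
      smul_mem' := fun c v hv y hy => by rw [map_smul, hv y hy] }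
  obtain ⟨v, hv, hf⟩ := exists_fixed_vec hP (ω.comp P.subtype)
  have hU : ∀ g, ∀ w ∈ U, ω g w ∈ U := fun g w hw x hx => by
    have := hw (g⁻¹ * x * g) (hN.conj_mem' x hx g)
    conv_rhs => rw [← this]
    rw [← Module.End.mul_apply, ← Module.End.mul_apply, ← map_mul, ← map_mul]
    congr 2
    group
  rcases hs U hU with h | h
  · exact (hv ((Submodule.eq_bot_iff U).1 h v fun x hx => hf ⟨x, hx⟩)).elim
  · exact LinearMap.ext fun w => (h ▸ Submodule.mem_top : w ∈ U) y hy

end Sec

end Coef

theorem cfStmt : CfStmt := by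
  intro ι K _ _ _ _ H _ k V _ _ _ _ _ φ ω π π' F _ _ σ T h hne hT
  have m1 : ∀ g, ω g * π 1 = π (φ g).1 := fun g => by
    rw [h.eq, add_mul, add_mul, one_mul, h.orth', ← h.mul, mul_one, add_zero, ← map_add,
      add_sub_cancel]
  have m2 : ∀ g, ω g * π' 1 = π' (φ g⁻¹).1 := fun g => by
    rw [h.eq, add_mul, add_mul, one_mul, h.orth, ← h.anti, one_mul, add_zero, ← map_add,
      add_sub_cancel]
  by_cases h1 : π 1 = 0
  · by_cases h2 : π' 1 = 0
    · obtain ⟨g, hg⟩ := hne
      refine (hg ?_).elim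
      have a : ∀ B, π B = 0 := fun B => by rw [← one_mul B, h.mul, h1, zero_mul]
      have b : ∀ B, π' B = 0 := fun B => by rw [← one_mul B, h.anti, h2, mul_zero]
      rw [h.eq, a, b, add_zero, add_zero]
    refine Coef.cdim_le _ _ fun κ _ a ha => ⟨fun i => (a i)⁻¹, ?_⟩
    refine Coef.indep (π := π'.comp (transposeAddEquiv ι ι K).toAddMonoidHom) (fun B C => ?_) ?_
      (fun i => (σ (a i)).1ᵀ) _ (fun i => ?_) ?_
    · show π' (B * C)ᵀ = π' Bᵀ * π' Cᵀ
      rw [transpose_mul, h.anti]
    · show π' 1ᵀ ≠ 0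
      rwa [transpose_one]
    · obtain ⟨g, e1, e2⟩ := hT (a i)⁻¹
      show T (a i)⁻¹ * π' 1ᵀ = π' (σ (a i)).1ᵀᵀ
      rw [transpose_one, transpose_transpose, e2, m2, map_inv, e1, map_inv, inv_inv]
    · exact ha.map' (transposeLinearEquiv ι ι K K).toLinearMap (LinearEquiv.ker _)
  · refine Coef.cdim_le _ _ fun κ _ a ha => ⟨a, ?_⟩
    refine Coef.indep h.mul h1 _ _ (fun i => ?_) ha
    obtain ⟨g, e1, e2⟩ := hT (a i)
    show T (a i) * π 1 = π (σ (a i)).1
    rw [e2, m1, e1]

theorem secStmt : SecStmt := by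
  intro p _ k V _ _ _ _ _ H _ ω a b h
  obtain ⟨V', i1, i2, i3, ω', r1, r2, r3⟩ := Coef.exists_sec a b _ V ω rfl h
  have : Nontrivial V' := by
    by_contra hc
    rw [not_nontrivial_iff_subsingleton] at hc
    exact r1 ⟨0, Subsingleton.elim _ _⟩
  exact ⟨V', i1, i2, i3, this, ω', r1, r2,
    fun P hN _ hP y hy => Coef.triv_of_simple r2 P hN hP hy, r3.one, fun F _ j => r3.cdim F j⟩

end Pool.Agent.Lib.MP_679d9b_al.PT
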