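import Mathlib
import Pool.Agent.Lib.MP_679d9b_al.PT.Basic

-- part Pool.Agent.Lib.MP_679d9b_al.PT.World
section

/-!
The product of matrix rings modulo families of bounded rank, and the central extension of a group
which acts on it.
-/

set_option autoImplicit false

namespace Pool.Agent.Lib.MP_679d9b_al.PT

open Subgroup Matrix Filter
open scoped commutatorElement

/-- The projective special linear group. -/
abbrev PSL (ι K : Type) [Fintype ι] [DecidableEq ι] [Field K] : Type :=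
  ProjectiveSpecialLinearGroup ι K

section Rank
variable {ι K : Type} [Fintype ι] [Field K]

theorem rank_add_le' (A B : Matrix ι ι K) : (A + B).rank ≤ A.rank + B.rank := by
  classical
  unfold Matrix.rank
  refine le_trans (Submodule.finrank_mono ?_) (Submodule.finrank_add_le_finrank_add_finrank _ _)
  rintro _ ⟨v, rfl⟩
  rw [mulVecLin_add]
  exact Submodule.add_mem_sup ⟨v, rfl⟩ ⟨v, rfl⟩

theorem rank_smul_le' (c : K) (A : Matrix ι ι K) : (c • A).rank ≤ A.rank := by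
  classical
  rw [show c • A = A * (c • 1) by simp]
  exact rank_mul_le_left _ _

theorem rank_sub_le' (A B : Matrix ι ι K) : (A - B).rank ≤ A.rank + B.rank := by
  rw [sub_eq_add_neg, ← neg_one_smul K B]
  exact (rank_add_le' _ _).trans (Nat.add_le_add_left (rank_smul_le' _ _) _)

theorem rank_smul_sl [DecidableEq ι] (A : SL ι K) {c : K} (hc : c ≠ 0) :
    (c • A.1).rank = Fintype.card ι :=
  rank_of_det_ne_zero (by rw [det_smul, A.2, mul_one]; exact pow_ne_zero _ hc)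

theorem exists_smul_of_mk_eq [DecidableEq ι] {A B : SL ι K} (h : (A : PSL ι K) = B) :
    ∃ c : K, c ≠ 0 ∧ B.1 = c • A.1 := by
  have h0 := QuotientGroup.eq.1 h
  obtain ⟨r, hr, h1⟩ := Matrix.SpecialLinearGroup.mem_center_iff.1 h0
  have h2 : B = A * (A⁻¹ * B) := by group
  have h3 : B.1 = r • A.1 := by
    rw [h2]
    change A.1 * (A⁻¹ * B).1 = r • A.1
    rw [← h1, scalar_apply, ← smul_one_eq_diagonal, Matrix.mul_smul, Matrix.mul_one]
  by_cases h0 : r = 0
  · refine ⟨1, one_ne_zero, ?_⟩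
    rcases Nat.eq_zero_or_pos (Fintype.card ι) with h4 | h4
    · have := Fintype.card_eq_zero_iff.1 h4
      exact Subsingleton.elim _ _
    · rw [h0, zero_pow h4.ne'] at hr
      exact absurd hr zero_ne_one
  · exact ⟨r, h0, h3⟩

theorem center_smul [DecidableEq ι] {A : SL ι K} (h : A ∈ center (SL ι K)) :
    ∃ c : K, c ≠ 0 ∧ A.1 = c • 1 :=
  exists_smul_of_mk_eq (A := 1) (B := A) (by
    rw [QuotientGroup.mk_one, eq_comm, QuotientGroup.eq_one_iff]; exact h)

end Rank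

section World
variable {I : Type} (U : Ultrafilter I) (n : I → ℕ) (K : I → Type) [∀ i, Field (K i)]

/-- Families of matrices. -/
abbrev Fam : Type := ∀ i, Matrix (Fin (n i)) (Fin (n i)) (K i)

/-- Families of bounded rank. -/
def bdd : Ideal (Fam n K) where
  carrier := {b | ∃ N : ℕ, ∀ᶠ i in U, (b i).rank ≤ N}
  zero_mem' := ⟨0, Eventually.of_forall fun i => by simp⟩
  add_mem' := by
    rintro a b ⟨N, h⟩ ⟨N', h'⟩
    exact ⟨N + N', by
      filter_upwards [h, h'] with i h1 h2 using (rank_add_le' _ _).trans (Nat.add_le_add h1 h2)⟩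
  smul_mem' := by
    rintro c b ⟨N, h⟩
    exact ⟨N, by filter_upwards [h] with i h1 using (rank_mul_le_right _ _).trans h1⟩

instance : (bdd U n K).IsTwoSided := ⟨by
  rintro a b ⟨N, h⟩
  exact ⟨N, by filter_upwards [h] with i h1 using (rank_mul_le_left _ _).trans h1⟩⟩

/-- Families of scalars which vanish almost everywhere. -/
def nul : Ideal (∀ i, K i) where
  carrier := {b | ∀ᶠ i in U, b i = 0}
  zero_mem' := Eventually.of_forall fun _ => rfl
  add_mem' := by
    intro a b h h'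
    filter_upwards [h, h'] with i h1 h2 using by simp [h1, h2]
  smul_mem' := by
    intro c b h
    filter_upwards [h] with i h1 using by simp [h1]

instance nul_max : (nul U K).IsMaximal := by
  rw [Ideal.isMaximal_iff]
  refine ⟨fun h => ?_, fun J x hJ hx hxJ => ?_⟩
  · obtain ⟨i, hi⟩ := Eventually.exists (show ∀ᶠ i in U, (1 : ∀ i, K i) i = 0 from h)
    exact one_ne_zero hi
  · have h1 : ∀ᶠ i in U, x i ≠ 0 := Ultrafilter.eventually_not.2 hx
    have h2 : 1 - (fun i => (x i)⁻¹) * x ∈ nul U K := by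
      filter_upwards [h1] with i hi using by simp [hi]
    simpa using J.add_mem (hJ h2) (J.mul_mem_left (fun i => (x i)⁻¹) hxJ)

/-- Scalar families. -/
def scal : (∀ i, K i) →+* Fam n K :=
  RingHom.pi fun i => (Matrix.scalar (Fin (n i))).comp (Pi.evalRingHom K i)

theorem scal_mul (l : ∀ i, K i) (b : Fam n K) (i : I) : (scal n K l * b) i = l i • b i := by
  change Matrix.scalar (Fin (n i)) (l i) * b i = _
  rw [scalar_apply, ← smul_one_eq_diagonal, Matrix.smul_mul, Matrix.one_mul]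

theorem mul_scal (l : ∀ i, K i) (b : Fam n K) (i : I) : (b * scal n K l) i = l i • b i := by
  change b i * Matrix.scalar (Fin (n i)) (l i) = _
  rw [scalar_apply, ← smul_one_eq_diagonal, Matrix.mul_smul, Matrix.mul_one]

/-- The ultraproduct of the fields. -/
def UF : Type := (∀ i, K i) ⧸ nul U K

noncomputable instance : Field (UF U K) := Ideal.Quotient.field (nul U K)

/-- The product of the matrix rings modulo bounded rank. -/
def UR : Type := Fam n K ⧸ bdd U n K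

instance : Ring (UR U n K) := Ideal.Quotient.ring (bdd U n K)

/-- The class of a family of scalars. -/
noncomputable def mkF : (∀ i, K i) →+* UF U K := Ideal.Quotient.mk (nul U K)

/-- The class of a family of matrices. -/
def mkR : Fam n K →+* UR U n K := Ideal.Quotient.mk (bdd U n K)

variable {U n K}

theorem mkF_eq_zero {b : ∀ i, K i} : mkF U K b = 0 ↔ ∀ᶠ i in U, b i = 0 :=
  Ideal.Quotient.eq_zero_iff_mem (I := nul U K)

theorem mk_eq_zero {b : Fam n K} : mkR U n K b = 0 ↔ ∃ N : ℕ, ∀ᶠ i in U, (b i).rank ≤ N :=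
  Ideal.Quotient.eq_zero_iff_mem (I := bdd U n K)

theorem mk_congr {a b : Fam n K} (h : ∀ᶠ i in U, a i = b i) : mkR U n K a = mkR U n K b := by
  rw [← sub_eq_zero, ← map_sub, mk_eq_zero]
  exact ⟨0, by filter_upwards [h] with i hi using by simp [hi]⟩

variable (U n K) in
/-- The structure map of the quotient. -/
noncomputable def smap : UF U K →+* UR U n K :=
  Ideal.Quotient.lift (nul U K) ((mkR U n K).comp (scal n K)) fun a ha => by
    rw [RingHom.comp_apply, ← map_zero (mkR U n K)]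
    refine mk_congr ?_
    filter_upwards [ha] with i hi
    rw [← mul_one (scal n K a), scal_mul, hi, zero_smul]
    rfl

noncomputable instance : Algebra (UF U K) (UR U n K) :=
  (smap U n K).toAlgebra' fun c x => by
    obtain ⟨c, rfl⟩ := Ideal.Quotient.mk_surjective (I := nul U K) c
    obtain ⟨x, rfl⟩ := Ideal.Quotient.mk_surjective (I := bdd U n K) x
    change mkR U n K (scal n K c * x) = mkR U n K (x * scal n K c)
    congr 1
    funext i
    rw [scal_mul, mul_scal]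

theorem mk_smul (l : ∀ i, K i) (b : Fam n K) :
    mkF U K l • mkR U n K b = mkR U n K fun i => l i • b i := by
  change mkR U n K (scal n K l * b) = _
  congr 1
  funext i
  rw [scal_mul]

/-- The data extracted from an approximate projective representation of unbounded degree. -/
structure World (p : ℕ) {G : Type} [Group G] (r : ∀ i, G → PSL (Fin (n i)) (K i)) : Type 1 where
  k : Type
  [fld : Field k]
  [chr : CharP k p]
  E : Type
  [rng : Ring E]
  [alg : Algebra k E]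
  cl : Fam n K →+* E
  Γ : Type
  [grp : Group Γ]
  κ : Γ →* G
  ρ : Γ →* E
  a : Γ → ∀ i, SL (Fin (n i)) (K i)
  cl_zero : ∀ b, cl b = 0 ↔ ∃ N : ℕ, ∀ᶠ i in U, (b i).rank ≤ N
  cl_a : ∀ γ, cl (fun i => (a γ i).1) = ρ γ
  a_lift : ∀ γ, ∀ᶠ i in U, (a γ i : PSL (Fin (n i)) (K i)) = r i (κ γ)
  a_mul : ∀ γ δ, ∀ᶠ i in U, a (γ * δ) i = a γ i * a δ i
  inj : Function.Injective ρ
  cen : ∀ γ, κ γ = 1 → γ ∈ center Γ ∧ (PEl p γ → γ = 1)
  surj : Function.Surjective κ
  lift : ∀ g, PEl p g → ∃ γ, PEl p γ ∧ κ γ = g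
  indep : ∀ (c : ℕ) (e : Fin c → Γ), LinearIndependent k (fun j => ρ (e j)) → ∀ N : ℕ,
    ∀ᶠ i in U, ∀ l : Fin c → K i, l ≠ 0 → N ≤ (∑ j, l j • (a (e j) i).1).rank
  big : ∀ N, ∀ᶠ i in U, N ≤ n i

attribute [instance] World.fld World.chr World.rng World.alg World.grp

theorem li_elim {k E : Type} [Field k] [Ring E] [Algebra k E] {c : ℕ} {v : Fin c → E}
    (h : LinearIndependent k v) (g : Fin c → k) (hg : ∑ i, g i • v i = 0) (i : Fin c) : g i = 0 :=
  Fintype.linearIndependent_iff.1 h g hg i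

theorem ev_pow {G : Type} [Group G] {M : I → Type} [∀ i, Group (M i)] (r : ∀ i, G → M i)
    (hmul : ∀ g h, ∀ᶠ i in U, r i (g * h) = r i g * r i h) (g : G) (m : ℕ) :
    ∀ᶠ i in U, r i (g ^ m) = r i g ^ m := by
  induction m with
  | zero =>
    filter_upwards [hmul 1 1] with i hi
    rw [pow_zero, pow_zero]
    rw [mul_one] at hi
    exact left_eq_mul.1 hi
  | succ m ih =>
    filter_upwards [ih, hmul (g ^ m) g] with i h1 h2
    rw [pow_succ, h2, h1, pow_succ]

theorem ev_inv {G : Type} [Group G] {M : I → Type} [∀ i, Group (M i)] (r : ∀ i, G → M i)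
    (hmul : ∀ g h, ∀ᶠ i in U, r i (g * h) = r i g * r i h) (g : G) :
    ∀ᶠ i in U, r i g⁻¹ = (r i g)⁻¹ := by
  filter_upwards [ev_pow r hmul g 0, hmul g⁻¹ g] with i h1 h2
  rw [pow_zero, pow_zero] at h1
  rw [inv_mul_cancel, h1] at h2
  exact eq_inv_of_mul_eq_one_left h2.symm

theorem exists_world (p : ℕ) [hp : Fact p.Prime] [∀ i, CharP (K i) p] [∀ i, Finite (K i)] {G : Type}
    [Group G] [Nontrivial G] (r : ∀ i, G → PSL (Fin (n i)) (K i))
    (hmul : ∀ g h, ∀ᶠ i in U, r i (g * h) = r i g * r i h)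
    (hnf : ∀ g, g ≠ 1 → ∀ b : ℕ, ∀ᶠ i in U, ∀ (A : SL (Fin (n i)) (K i)) (l : K i),
      (A : PSL (Fin (n i)) (K i)) = r i g → b < (A.1 - l • 1).rank) :
    Nonempty (World (U := U) p r) := by
  classical
  have hbig : ∀ N, ∀ᶠ i in U, N ≤ n i := fun N => by
    obtain ⟨g, hg⟩ := exists_ne (1 : G)
    filter_upwards [hnf g hg N] with i hi
    obtain ⟨A, hA⟩ := QuotientGroup.mk_surjective (r i g)
    exact (hi A 0 hA).le.trans (rank_le_width _)
  have hchr : CharP (UF U K) p := (CharP.charP_iff_prime_eq_zero hp.out).2 (by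
    rw [← map_natCast (mkF U K), mkF_eq_zero]
    exact Eventually.of_forall fun i => by simp)
  let mk := mkR U n K
  let Γ : Subgroup (G × (UR U n K)ˣ) :=
    { carrier := {x | ∃ a : ∀ i, SL (Fin (n i)) (K i), mk (fun i => (a i).1) = x.2 ∧
        ∀ᶠ i in U, (a i : PSL (Fin (n i)) (K i)) = r i x.1}
      one_mem' := ⟨1, map_one mk, by
        filter_upwards [ev_pow r hmul 1 0] with i hi
        rw [pow_zero, pow_zero] at hi
        exact hi.symm⟩
      mul_mem' := by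
        rintro x y ⟨a, h1, h2⟩ ⟨b, h3, h4⟩
        refine ⟨a * b, ?_, ?_⟩
        · rw [Prod.snd_mul, Units.val_mul, ← h1, ← h3, ← map_mul]
          rfl
        · filter_upwards [h2, h4, hmul x.1 y.1] with i a1 a2 a3
          rw [Prod.fst_mul, a3, ← a1, ← a2]
          rfl
      inv_mem' := by
        rintro x ⟨a, h1, h2⟩
        refine ⟨a⁻¹, ?_, ?_⟩
        · rw [Prod.snd_inv, Units.eq_inv_of_mul_eq_one_right (a := mk fun i => (a⁻¹ i).1)]
          rw [← h1, ← map_mul, ← map_one mk]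
          congr 1
          funext i
          exact congrArg Subtype.val (inv_mul_cancel (a i))
        · filter_upwards [h2, ev_inv r hmul x.1] with i a1 a2
          rw [Prod.fst_inv, a2, ← a1]
          rfl }
  choose a ha1 ha2 using fun γ : Γ => γ.2
  let κ : Γ →* G := (MonoidHom.fst _ _).comp Γ.subtype
  let ρ : Γ →* UR U n K := (Units.coeHom _).comp ((MonoidHom.snd _ _).comp Γ.subtype)
  have huniq : ∀ (b c : ∀ i, SL (Fin (n i)) (K i)), mk (fun i => (b i).1) = mk (fun i => (c i).1) →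
      (∀ᶠ i in U, (b i : PSL (Fin (n i)) (K i)) = c i) → ∀ᶠ i in U, b i = c i := by
    intro b c h1 h2
    rw [← sub_eq_zero, ← map_sub, mk_eq_zero] at h1
    obtain ⟨N, hN⟩ := h1
    filter_upwards [h2, hN, hbig (N + 1)] with i a1 a2 a3
    obtain ⟨l, -, hl⟩ := exists_smul_of_mk_eq a1
    by_cases h : 1 - l = 0
    · refine Subtype.ext ?_
      rw [hl, ← sub_eq_zero.1 h, one_smul]
    · have a4 := rank_smul_sl (b i) h
      rw [sub_smul, one_smul, ← hl, Fintype.card_fin] at a4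
      change ((b i).1 - (c i).1).rank ≤ N at a2
      omega
  have hmul' : ∀ γ δ, ∀ᶠ i in U, a (γ * δ) i = a γ i * a δ i := fun γ δ => by
    refine huniq _ (a γ * a δ) ?_ ?_
    · rw [ha1, Subgroup.coe_mul, Prod.snd_mul, Units.val_mul, ← ha1, ← ha1, ← map_mul]
      rfl
    · filter_upwards [ha2 (γ * δ), ha2 γ, ha2 δ, hmul γ.1.1 δ.1.1] with i a1 a2 a3 a4
      rw [a1, Subgroup.coe_mul, Prod.fst_mul, a4, ← a2, ← a3]
      rfl
  have hinj : Function.Injective ρ := by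
    rw [injective_iff_map_eq_one]
    intro γ h
    have h1 : γ.1.2 = 1 := Units.ext h
    have h2 := ha1 γ
    rw [h1, Units.val_one, ← map_one mk, ← sub_eq_zero, ← map_sub, mk_eq_zero] at h2
    obtain ⟨N, hN⟩ := h2
    refine Subtype.ext (Prod.ext ?_ h1)
    by_contra h3
    obtain ⟨i, a1, a2, a3⟩ := (hN.and ((hnf _ h3 N).and (ha2 γ))).exists
    have a4 := a2 _ 1 a3
    rw [one_smul] at a4
    exact absurd a1 (not_le.2 a4)
  have hsurj : ∀ (g : G) (b : ∀ i, SL (Fin (n i)) (K i)),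
      (∀ᶠ i in U, (b i : PSL (Fin (n i)) (K i)) = r i g) →
      ∃ γ : Γ, κ γ = g ∧ ρ γ = mk fun i => (b i).1 := fun g b hb => by
    let β : (∀ i, SL (Fin (n i)) (K i)) →* Fam n K :=
      { toFun := fun b i => (b i).1, map_one' := rfl, map_mul' := fun _ _ => rfl }
    exact ⟨⟨(g, ((mk : _ →* _).comp β).toHomUnits b), b, rfl, hb⟩, rfl, rfl⟩
  refine ⟨⟨UF U K, UR U n K, mk, Γ, κ, ρ, a, fun b => mk_eq_zero, ha1, ha2, hmul', hinj, fun γ hγ => ?_,
    fun g => ?_, fun g ⟨e, he⟩ => ?_, fun c e he N => ?_, hbig⟩⟩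
  · have h1 : ∀ᶠ i in U, a γ i ∈ center (SL (Fin (n i)) (K i)) := by
      filter_upwards [ha2 γ, ev_pow r hmul 1 0] with i a1 a2
      rw [pow_zero, pow_zero] at a2
      rw [show γ.1.1 = 1 from hγ, a2] at a1
      exact (QuotientGroup.eq_one_iff _).1 a1
    refine ⟨mem_center_iff.2 fun δ => hinj ?_, fun ⟨e, he⟩ => hinj ?_⟩
    · change ((δ * γ).1.2 : UR U n K) = (γ * δ).1.2
      rw [← ha1, ← ha1]
      refine mk_congr ?_
      filter_upwards [h1, hmul' δ γ, hmul' γ δ] with i a1 a2 a3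
      rw [a2, a3, mem_center_iff.1 a1]
    · change (γ.1.2 : UR U n K) = (1 : Γ).1.2
      rw [← ha1, ← ha1]
      refine mk_congr ?_
      have h2 := ev_pow (fun i γ => a γ i) hmul' γ
      filter_upwards [h1, h2 0, h2 (p ^ e)] with i a1 a2 a3
      rw [pow_zero, pow_zero] at a2
      rw [he, a2] at a3
      rw [a2, center_pel a1 ⟨e, a3.symm⟩]
  · choose b hb using fun i => QuotientGroup.mk_surjective (r i g)
    obtain ⟨γ, h, -⟩ := hsurj g b (Eventually.of_forall hb)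
    exact ⟨γ, h⟩
  · have h1 : ∀ i, ∃ b : SL (Fin (n i)) (K i), r i g ^ p ^ e = 1 →
        (b : PSL (Fin (n i)) (K i)) = r i g ∧ b ^ p ^ e = 1 := fun i => by
      by_cases h : r i g ^ p ^ e = 1
      · obtain ⟨A, hA⟩ := QuotientGroup.mk_surjective (r i g)
        obtain ⟨b, -, ⟨e', h2⟩, h3⟩ := pel_lift (p := p) (QuotientGroup.mk' (center _))
          (isOfFinOrder_of_finite A) ⟨e, by rw [QuotientGroup.mk'_apply, hA, h]⟩
        have h4 : (b : PSL (Fin (n i)) (K i)) = r i g := h3.trans hA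
        refine ⟨b, fun _ => ⟨h4, center_pel (p := p) ((QuotientGroup.eq_one_iff _).1 ?_)
          ⟨e', by rw [← pow_mul, mul_comm, pow_mul, h2, one_pow]⟩⟩⟩
        rw [QuotientGroup.mk_pow, h4, h]
      · exact ⟨1, fun h' => absurd h' h⟩
    choose b hb using h1
    have h2 : ∀ᶠ i in U, r i g ^ p ^ e = 1 := by
      filter_upwards [ev_pow r hmul g (p ^ e), ev_pow r hmul g 0] with i a1 a2
      rw [pow_zero, pow_zero] at a2
      rw [← a1, he, a2]
    obtain ⟨γ, h3, h4⟩ := hsurj g b (h2.mono fun i hi => (hb i hi).1)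
    refine ⟨γ, ⟨e, hinj ?_⟩, h3⟩
    rw [map_pow, h4, ← map_pow, map_one, ← map_one mk]
    refine mk_congr (h2.mono fun i hi => ?_)
    exact congrArg Subtype.val (hb i hi).2
  · by_contra h
    have h1 := Ultrafilter.eventually_not.2 h
    have h2 : ∀ i, ∃ l : Fin c → K i, (¬ ∀ l : Fin c → K i, l ≠ 0 →
        N ≤ (∑ j, l j • (a (e j) i).1).rank) → l ≠ 0 ∧ (∑ j, l j • (a (e j) i).1).rank ≤ N :=
      fun i => by
        by_cases h : ∀ l : Fin c → K i, l ≠ 0 → N ≤ (∑ j, l j • (a (e j) i).1).rank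
        · exact ⟨0, fun h' => absurd h h'⟩
        · push Not at h
          obtain ⟨l, h3, h4⟩ := h
          exact ⟨l, fun _ => ⟨h3, h4.le⟩⟩
    choose l hl using h2
    have h3 := li_elim he
      (fun j => mkF U K fun i => l i j) (by
        have : ∀ j, (mkF U K fun i => l i j) • ρ (e j) =
            mk fun i => l i j • (a (e j) i).1 := fun j => by
          rw [← mk_smul]
          exact congrArg _ (ha1 (e j)).symm
        simp_rw [this]
        rw [← map_sum, mk_eq_zero]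
        exact ⟨N, h1.mono fun i hi => by simpa [Finset.sum_apply] using (hl i hi).2⟩)
    have h4 : ∀ᶠ i in U, ∀ j, l i j = 0 := eventually_all.2 fun j => mkF_eq_zero.1 (h3 j)
    obtain ⟨i, a1, a2⟩ := (h1.and h4).exists
    exact (hl i a1).1 (funext a2)

end World

end Pool.Agent.Lib.MP_679d9b_al.PT
end

-- part Pool.Agent.Lib.MP_679d9b_al.PT.Level
section

/-!
One level of the cover: the pullback to the special linear group and the local analysis over one
isotypic component.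
-/

set_option autoImplicit false
set_option linter.unusedSectionVars false

namespace Pool.Agent.Lib.MP_679d9b_al.PT

open Subgroup Matrix Filter
open scoped commutatorElement

section Central
variable {p : ℕ} [Fact p.Prime]

/-- In a central extension of a finite `p`-group the `p`-elements form a subgroup. -/
theorem pel_mul_of_center {D : Type} [Group D] [(center D).FiniteIndex]
    (hD : ∀ d : D, ∃ k, d ^ p ^ k ∈ center D) {a b : D} (ha : PEl p a) (hb : PEl p b) :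
    PEl p (a * b) := by
  have h1 : IsPGroup p (D ⧸ center D) := fun d => by
    obtain ⟨d, rfl⟩ := QuotientGroup.mk_surjective d
    obtain ⟨k, hk⟩ := hD d
    exact ⟨k, by rw [← QuotientGroup.mk_pow, QuotientGroup.eq_one_iff]; exact hk⟩
  obtain ⟨e, he⟩ := IsPGroup.iff_card.1 h1
  obtain ⟨k, hk⟩ := ha
  obtain ⟨l, hl⟩ := hb
  let τ := MonoidHom.transferCenterPow D
  have h2 : τ (a * b) ^ p ^ (k + l) = 1 := by
    have hc : Commute (τ a) (τ b) := Subtype.ext (mem_center_iff.1 (τ b).2 _)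
    rw [map_mul, hc.mul_pow, ← map_pow, ← map_pow, pow_add, pow_mul, hk, mul_comm (p ^ k), pow_mul,
      hl]
    simp
  refine ⟨e + (k + l), ?_⟩
  have h3 := congrArg Subtype.val h2
  rw [Subgroup.coe_pow, MonoidHom.transferCenterPow_apply, index_eq_card, he] at h3
  rw [pow_add, pow_mul]
  exact h3

/-- Finite `p`-subgroups lift to central extensions without `p`-torsion in the kernel. -/
theorem exists_plift {Γ G : Type} [Group Γ] [Group G] (κ : Γ →* G)
    (hc : ∀ γ, κ γ = 1 → γ ∈ center Γ ∧ (PEl p γ → γ = 1))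
    (hl : ∀ g, PEl p g → ∃ γ, PEl p γ ∧ κ γ = g) (F : Subgroup G) [Finite F] (hF : IsPGroup p F) :
    ∃ l : F →* Γ, ∀ f, κ (l f) = f ∧ PEl p (l f) := by
  have hp : ∀ f : F, PEl p (f : G) := fun f => by
    obtain ⟨k, hk⟩ := hF f
    exact ⟨k, congrArg Subtype.val hk⟩
  choose l h1 h2 using fun f : F => hl f (hp f)
  let D := F.comap κ
  have hz : ∀ d : D, κ d = 1 → d ∈ center D := fun d hd =>
    mem_center_iff.2 fun e => Subtype.ext (mem_center_iff.1 (hc d hd).1 e)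
  have : (center D).FiniteIndex := by
    have : (κ.comp D.subtype).ker.FiniteIndex := by
      have : Finite (κ.comp D.subtype).range :=
        Finite.of_injective (fun x => (⟨x.1, by obtain ⟨_, d, rfl⟩ := x; exact d.2⟩ : F))
          fun x y h => Subtype.ext (congrArg (fun z : F => (z : G)) h)
      infer_instance
    exact finiteIndex_of_le (H := (κ.comp D.subtype).ker) fun d hd => hz d hd
  have hD : ∀ d : D, ∃ k, d ^ p ^ k ∈ center D := fun d => by
    obtain ⟨k, hk⟩ := hp ⟨κ d, d.2⟩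
    exact ⟨k, hz _ (by rw [Subgroup.coe_pow, map_pow]; exact hk)⟩
  have hm : ∀ a b : Γ, κ a ∈ F → κ b ∈ F → PEl p a → PEl p b → PEl p (a * b) :=
    fun a b ha hb ⟨k, hk⟩ ⟨m, hm⟩ => by
      obtain ⟨e, he⟩ := pel_mul_of_center hD (a := ⟨a, ha⟩) (b := ⟨b, hb⟩) ⟨k, Subtype.ext hk⟩
        ⟨m, Subtype.ext hm⟩
      exact ⟨e, congrArg Subtype.val he⟩
  have hmem : ∀ f, κ (l f) ∈ F := fun f => (h2 f).symm ▸ f.2
  refine ⟨MonoidHom.mk' l fun f g => ?_, fun f => ⟨h2 f, h1 f⟩⟩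
  have h3 : κ ((l (f * g))⁻¹ * (l f * l g)) = 1 := by simp [h2]
  refine inv_mul_eq_one.1 ((hc _ h3).2 (hm _ _ ?_ ?_ ?_ (hm _ _ (hmem f) (hmem g) (h1 f) (h1 g))))
  · rw [map_inv]
    exact F.inv_mem (hmem _)
  · rw [map_mul]
    exact F.mul_mem (hmem f) (hmem g)
  · obtain ⟨k, hk⟩ := h1 (f * g)
    exact ⟨k, by rw [inv_pow, hk, inv_one]⟩

theorem commute_lift {Γ G : Type} [Group Γ] [Group G] {κ : Γ →* G}
    (hc : ∀ γ, κ γ = 1 → γ ∈ center Γ ∧ (PEl p γ → γ = 1)) {a b : Γ} (ha : PEl p a)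
    (h : Commute (κ a) (κ b)) : Commute a b := by
  have h1 : κ ⁅a, b⁆ = 1 := by
    rw [map_commutatorElement, commutatorElement_eq_one_iff_commute]
    exact h
  exact commute_of_pel ha (hc _ h1).1 (hc _ h1).2

/-- The perfect normal supplement in a central extension. -/
theorem exists_supp {T H S : Type} [Group T] [Group H] [Group S] [Finite H] (τ : T →* H)
    (hτ : Function.Surjective τ) (hc : τ.ker ≤ center T) (ψ : T →* S) (hS : Group.IsPerfect S)
    (M R : Subgroup H) [R.Normal] (hR : ⁅R, R⁆ = R) (hM : ∀ g, ψ g = 1 → τ g ∈ M)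
    (hp : IsPGroup p (⁅M, R⁆ : Subgroup H)) (hs : (R.comap τ).map ψ = ⊤) :
    ∃ R' : Subgroup T, R'.Normal ∧ Finite R' ∧ ⁅R', R'⁆ = R' ∧ R'.map ψ = ⊤ ∧
      IsPGroup p (⁅ψ.ker, R'⁆ : Subgroup T) := by
  let D := R.comap τ
  have hmap : (⁅D, D⁆ : Subgroup T).map τ = R := by
    rw [map_commutator, map_comap_eq_self_of_surjective hτ, hR]
  have hcomm : ∀ a b a' b' : T, τ a = τ a' → τ b = τ b' → ⁅a, b⁆ = ⁅a', b'⁆ := by
    intro a b a' b' h1 h2
    have h3 := mem_center_iff.1 (hc (show a'⁻¹ * a ∈ τ.ker by simp [MonoidHom.mem_ker, h1]))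
    have h4 := mem_center_iff.1 (hc (show b'⁻¹ * b ∈ τ.ker by simp [MonoidHom.mem_ker, h2]))
    rw [← mul_inv_cancel_left a' a, ← mul_inv_cancel_left b' b]
    generalize a'⁻¹ * a = y at h3
    generalize b'⁻¹ * b = z at h4
    rw [(comm_mul_central (show Commute (a' * y) z from h4 _) (show Commute b' z from h4 _)).1,
      (comm_mul_central (show Commute a' y from h3 _) (show Commute b' y from h3 _)).2]
  have hfin : Finite (⁅D, D⁆ : Subgroup T) := by
    have : Finite (commutatorSet D) := by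
      choose σ hσ using hτ
      refine Set.Finite.of_finite_image (f := fun x : D => (x : T)) ?_ Subtype.val_injective.injOn
      refine (Set.finite_range fun x : H × H => ⁅σ x.1, σ x.2⁆).subset ?_
      rintro _ ⟨_, ⟨a, b, rfl⟩, rfl⟩
      exact ⟨(τ a, τ b), hcomm _ _ _ _ (hσ _) (hσ _)⟩
    rw [← map_subtype_commutator]
    exact Finite.of_surjective _ (MonoidHom.subgroupMap_surjective _ _)
  have hperf : ⁅(⁅D, D⁆ : Subgroup T), ⁅D, D⁆⁆ = ⁅D, D⁆ := by
    refine le_antisymm (commutator_le_left _ _) (commutator_le.2 fun a ha b hb => ?_)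
    obtain ⟨a', ha', h1⟩ : τ a ∈ (⁅D, D⁆ : Subgroup T).map τ := hmap.symm ▸ ha
    obtain ⟨b', hb', h2⟩ : τ b ∈ (⁅D, D⁆ : Subgroup T).map τ := hmap.symm ▸ hb
    rw [← hcomm _ _ _ _ h1 h2]
    exact commutator_mem_commutator ha' hb'
  refine ⟨⁅D, D⁆, inferInstance, hfin, hperf, ?_, cenp _ _ τ.ker hperf hc fun g hg => ?_⟩
  · rw [map_commutator, hs]
    exact hS.commutator_eq_top
  · have h1 : τ g ∈ (⁅M, R⁆ : Subgroup H) := by
      have h2 := mem_map_of_mem τ hg
      rw [map_commutator, hmap] at h2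
      exact commutator_mono (map_le_iff_le_comap.2 fun y hy => hM y hy) le_rfl h2
    obtain ⟨k, hk⟩ := hp ⟨_, h1⟩
    exact ⟨k, by rw [MonoidHom.mem_ker, map_pow]; exact congrArg Subtype.val hk⟩

/-- A minimal normal supplement is perfect. -/
theorem exists_perfect {H S : Type} [Group H] [Group S] [Finite H] (φ : H →* S)
    (R : Subgroup H) [R.Normal] (hR : R.map φ = ⊤) :
    ∃ R' : Subgroup H, R'.Normal ∧ R' ≤ R ∧ R'.map φ = ⊤ ∧ (Group.IsPerfect S → ⁅R', R'⁆ = R') := by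
  obtain ⟨R', ⟨h1, h2, h3⟩, hmin⟩ := exists_minimal_of_wellFoundedLT
    (fun X : Subgroup H => X.Normal ∧ X ≤ R ∧ X.map φ = ⊤) ⟨R, inferInstance, le_rfl, hR⟩
  refine ⟨R', h1, h2, h3, fun hS => le_antisymm (commutator_le_left _ _) (hmin
    ⟨inferInstance, (commutator_le_left _ _).trans h2, ?_⟩ (commutator_le_left _ _))⟩
  rw [map_commutator, h3]
  exact hS.commutator_eq_top

end Central

section Pull
variable {Γ G ι K : Type} [Group Γ] [Group G] [Fintype ι] [DecidableEq ι] [Field K] (κ : Γ →* G)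
  {H : Subgroup G} (φ : H →* PSL ι K)

/-- The pullback of a level. -/
def Pb : Subgroup (Γ × SL ι K) where
  carrier := {x | ∃ h : κ x.1 ∈ H, φ ⟨κ x.1, h⟩ = x.2}
  one_mem' := ⟨by simp, (congrArg φ (Subtype.ext κ.map_one)).trans φ.map_one⟩
  mul_mem' := by
    rintro x y ⟨h1, h2⟩ ⟨h3, h4⟩
    refine ⟨by simpa using H.mul_mem h1 h3, ?_⟩
    rw [Prod.snd_mul, QuotientGroup.mk_mul, ← h2, ← h4, ← φ.map_mul]
    exact congrArg φ (Subtype.ext (κ.map_mul _ _))
  inv_mem' := by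
    rintro x ⟨h1, h2⟩
    refine ⟨by simpa using h1, ?_⟩
    rw [Prod.snd_inv, QuotientGroup.mk_inv, ← h2, ← φ.map_inv]
    exact congrArg φ (Subtype.ext (κ.map_inv _))

/-- The first projection. -/
def Pb.fst : Pb κ φ →* Γ := (MonoidHom.fst _ _).comp (Pb κ φ).subtype

/-- The second projection. -/
def Pb.snd : Pb κ φ →* SL ι K := (MonoidHom.snd _ _).comp (Pb κ φ).subtype

/-- The projection to the level. -/
def Pb.toH : Pb κ φ →* H := (κ.comp (Pb.fst κ φ)).codRestrict H fun x => x.2.1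

theorem Pb.ext' {x y : Pb κ φ} (h1 : Pb.fst κ φ x = Pb.fst κ φ y)
    (h2 : Pb.snd κ φ x = Pb.snd κ φ y) : x = y := Subtype.ext (Prod.ext h1 h2)

theorem Pb.compat (x : Pb κ φ) : φ (Pb.toH κ φ x) = Pb.snd κ φ x := x.2.2

theorem Pb.snd_center {x : Pb κ φ} (h : κ (Pb.fst κ φ x) = 1) :
    Pb.snd κ φ x ∈ center (SL ι K) := by
  have h1 := Pb.compat κ φ x
  rw [show Pb.toH κ φ x = 1 from Subtype.ext h, map_one, eq_comm] at h1
  exact (QuotientGroup.eq_one_iff _).1 h1

theorem Pb.center (hc : ∀ γ, κ γ = 1 → γ ∈ center Γ) {x : Pb κ φ} (h : κ (Pb.fst κ φ x) = 1) :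
    x ∈ center (Pb κ φ) :=
  mem_center_iff.2 fun y => Pb.ext' κ φ
    (by rw [map_mul, map_mul]; exact mem_center_iff.1 (hc _ h) _)
    (by rw [map_mul, map_mul]; exact mem_center_iff.1 (Pb.snd_center κ φ h) _)

theorem Pb.exists_supp {p : ℕ} [Fact p.Prime] [Finite H] (hκ : Function.Surjective κ)
    (hc : ∀ γ, κ γ = 1 → γ ∈ Subgroup.center Γ) (hι : 3 ≤ Fintype.card ι) (R : Subgroup H)
    [R.Normal] (hs : R.map φ = ⊤) (hp : IsPGroup p (⁅φ.ker, R⁆ : Subgroup H)) :
    ∃ R' : Subgroup (Pb κ φ), R'.Normal ∧ Finite R' ∧ ⁅R', R'⁆ = R' ∧ R'.map (Pb.snd κ φ) = ⊤ ∧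
      IsPGroup p (⁅(Pb.snd κ φ).ker, R'⁆ : Subgroup (Pb κ φ)) := by
  have hS := sl_perfect (K := K) hι
  obtain ⟨R0, h1, h2, h3, h4⟩ := exists_perfect φ R hs
  refine PT.exists_supp (Pb.toH κ φ) (fun h => ?_)
    (fun x hx => Pb.center κ φ hc (congrArg Subtype.val hx)) _ hS φ.ker R0 (h4 inferInstance)
    (fun g hg => ?_) (hp.to_le (commutator_mono le_rfl h2)) (eq_top_iff.2 fun A _ => ?_)
  · obtain ⟨γ, hγ⟩ := hκ h
    obtain ⟨A, hA⟩ := QuotientGroup.mk_surjective (φ h)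
    exact ⟨⟨(γ, A), hγ ▸ h.2, (congrArg φ (Subtype.ext hγ)).trans hA.symm⟩, Subtype.ext hγ⟩
  · rw [MonoidHom.mem_ker, Pb.compat, hg, QuotientGroup.mk_one]
  · obtain ⟨h, hh, hA⟩ : (A : PSL ι K) ∈ R0.map φ := h3 ▸ mem_top _
    obtain ⟨γ, hγ⟩ := hκ h
    refine ⟨⟨(γ, A), hγ ▸ h.2, (congrArg φ (Subtype.ext hγ)).trans hA⟩, ?_, rfl⟩
    have h5 : (⟨κ γ, hγ ▸ h.2⟩ : H) ∈ R0 := by
      rw [show (⟨κ γ, hγ ▸ h.2⟩ : H) = h from Subtype.ext hγ]
      exact hh
    exact h5

end Pull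

section Loc
variable {p : ℕ} [Fact p.Prime] {ι K : Type} [Fintype ι] [DecidableEq ι] [Field K]
  {S η : Matrix ι ι K} {o : ℕ} (M : Model p S η o)

include M in
theorem Model.idem : η * η = η := by
  rw [← M.one, ← map_mul, one_mul]

theorem Model.ext_pow {C : Matrix M.ι' M.ι' M.K'} {A : Matrix ι ι K} (h : M.ext C = A * η)
    (hA : Commute A η) (n : ℕ) : M.ext ((C - 1) ^ n) = (A - 1) ^ n * η := by
  induction n with
  | zero => simp [M.one]
  | succ n ih =>
    rw [pow_succ, map_mul, ih, map_sub, h, M.one, pow_succ, mul_assoc, mul_assoc, mul_sub, sub_mul,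
      ← mul_assoc η, ← hA.eq, mul_assoc A, M.idem, one_mul]

theorem Model.le_rank (ho : o ≠ 0) {C : Matrix M.ι' M.ι' M.K'} {N : ℕ}
    (h : o * N ≤ (M.ext C).rank) : N ≤ C.rank :=
  Nat.le_of_mul_le_mul_left (h.trans (M.rk C)) (Nat.pos_of_ne_zero ho)

theorem Model.le_card (ho : o ≠ 0) {B : Matrix ι ι K} (hB : Commute S B) {N : ℕ}
    (h : o * N ≤ (B * η).rank) : N ≤ Fintype.card M.ι' := by
  obtain ⟨C, hC⟩ := M.res B hB
  exact (M.le_rank ho (hC ▸ h)).trans (rank_le_card_width C)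

theorem mix_pow {R : Type} [Ring R] {η A : R} (h : η * η = η) (hA : Commute A η) (n : ℕ) :
    (η + A * (1 - η)) ^ n = η + A ^ n * (1 - η) := by
  induction n with
  | zero => simp
  | succ n ih =>
    have h1 : η * (1 - η) = 0 := by rw [mul_sub, h, mul_one, sub_self]
    have h2 : (1 - η) * η = 0 := by rw [sub_mul, h, one_mul, sub_self]
    have h3 : (1 - η) * (1 - η) = 1 - η := by rw [mul_sub, h2, mul_one, sub_zero]
    have h4 : (1 - η) * A = A * (1 - η) := ((Commute.one_right A).sub_right hA).symm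
    rw [pow_succ, ih, add_mul, mul_add, mul_add, h, ← mul_assoc η, ← hA.eq, mul_assoc A, h1,
      mul_assoc _ _ η, h2, mul_assoc (A ^ n), ← mul_assoc (1 - η), h4, mul_assoc A, h3, pow_succ]
    simp [mul_assoc]

theorem pow_mem_of_sup {T : Type} [Group T] {R Q : Subgroup T} [R.Normal] (hQ : IsPGroup p Q)
    {g : T} (hg : g ∈ R ⊔ Q) : ∃ k, g ^ p ^ k ∈ R := by
  obtain ⟨r, hr, y, hy, rfl⟩ := mem_sup_of_normal_left.1 hg
  obtain ⟨k, hk⟩ := hQ ⟨y, hy⟩
  refine ⟨k, (QuotientGroup.eq_one_iff _).1 ?_⟩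
  rw [QuotientGroup.mk_pow, QuotientGroup.mk_mul, (QuotientGroup.eq_one_iff r).2 hr, one_mul,
    ← QuotientGroup.mk_pow, show y ^ p ^ k = 1 from congrArg Subtype.val hk, QuotientGroup.mk_one]

theorem mem_of_qel {T : Type} [Group T] {R : Subgroup T} {g : T} (hg : QEl p g) {k : ℕ}
    (h : g ^ p ^ k ∈ R) : g ∈ R := by
  obtain ⟨m, hm, h1⟩ := hg
  have h2 : (p ^ k).Coprime (orderOf g) :=
    (Nat.Coprime.pow_left k hm.symm).coprime_dvd_right (orderOf_dvd_of_pow_eq_one h1)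
  obtain ⟨e, he⟩ := exists_pow_eq_self_of_coprime h2
  exact he ▸ R.pow_mem h e

/-- The local analysis over one component in the case of degree one. -/
theorem loc_two (hC : CompStmt) (hK : CoreStmt) [Finite K] [CharP K p] {T : Type} [Group T]
    (φ : T →* SL ι K) (R Q : Subgroup T) [R.Normal] [Finite R] [Finite Q] (s : T)
    (M : Model p (φ s).1 η o) {E : Type} [Ring E] (hE : (p : E) = 0) (ρ : T →* E)
    (hk1 : ∀ g, ρ g = 1 → φ g ∈ center (SL ι K)) (hk2 : ∀ g, ρ g = 1 → φ g = 1 → g = 1)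
    (hι : 3 ≤ Fintype.card ι) (hR : R.map φ = ⊤) (hp : IsPGroup p (⁅φ.ker, R⁆ : Subgroup T))
    (hQ : IsPGroup p Q) (ho : o.Coprime p) (hs : ∀ g, Commute (s ^ o) g)
    (hsQ : ∀ y ∈ Q, Commute s y)
    (hd : ∀ g₁ ∈ R, ∀ g₂ ∈ R, ((φ g₁).1 - 1) * ((φ g₂).1 - 1) = 0 →
      ((φ g₂).1 - 1) * ((φ g₁).1 - 1) = 0 → IsNilpotent ((ρ g₁ - 1) * (ρ g₂ - 1)))
    (hd' : (∀ g ∈ R, ρ g = 1) ∨ ∀ g ∈ R, ρ g = 1 → φ g = 1) {u : T} (hu : u ∈ Q) (e d : ℕ)
    (he : (ρ u - 1) ^ (e + 1) = 0) (hr : o * (2 * (d + e) + 6) ≤ (((φ u).1 - 1) ^ e * η).rank) :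
    ∃ (H : Subgroup T) (hQH : Q ≤ H) (ψ : H →* SL M.ι' M.K'), Finite H ∧
      (∀ g ∈ H, Commute s g) ∧ Function.Injective (ρ.comp H.subtype) ∧
      (∀ g : H, M.ext (ψ g).1 = (φ g).1 * η) ∧ CoreOut p ψ (ρ.comp H.subtype) ⟨u, hQH hu⟩ e d := by
  have ho0 : o ≠ 0 := by
    rintro rfl
    exact (Fact.out : p.Prime).ne_one (by simpa using ho)
  have hcm : ∀ g, Commute s g → Commute (φ s).1 (φ g).1 := fun g h =>
    congrArg Subtype.val (h.map φ).eq
  have hd2 : ∀ g ∈ R, ρ g = 1 → φ g = 1 := hd'.resolve_left fun h => by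
    have : Nontrivial ι := Fintype.one_lt_card_iff_nontrivial.1 (by omega)
    obtain ⟨i, j, hij⟩ := exists_pair_ne ι
    obtain ⟨g, hg, h1⟩ : Matrix.SpecialLinearGroup.transvection hij (1 : K) ∈ R.map φ :=
      hR ▸ mem_top _
    exact one_ne_zero ((Matrix.SpecialLinearGroup.transvection_mem_center_iff hij 1).1
      (h1 ▸ hk1 g (h g hg)))
  have hker : ∀ g ∈ R, φ g = 1 → PEl p g := fun g hg h => by
    obtain ⟨n, hn⟩ := hd g hg g hg (by simp [h]) (by simp [h])
    obtain ⟨k, hk⟩ := pel_of_nil hE ⟨2 * n, by rw [pow_mul, pow_two, hn]⟩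
    exact ⟨k, hk2 _ (by rw [map_pow, hk]) (by rw [map_pow, h, one_pow])⟩
  obtain ⟨H, ψ, h1, h2, h3, h4, h5, h6, h7⟩ := hC p ι K T φ R Q s o η M hR hp hQ ho hs hsQ
    (le_trans (by omega) (M.le_card ho0
      (((hcm u (hsQ u hu)).sub_right (Commute.one_right _)).pow_right e) hr))
  have hη : ∀ g ∈ H, Commute (φ g).1 η := fun g hg => M.cen _ (hcm g (h5 g hg))
  have hinj : Function.Injective (ρ.comp H.subtype) := by
    rw [injective_iff_map_eq_one]
    intro g hg
    obtain ⟨k, hk⟩ := pow_mem_of_sup hQ (h3 g.2)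
    have a1 : ρ g = 1 := hg
    refine Subtype.ext (hk2 _ a1 (center_pel (p := p) (hk1 _ a1) ⟨k, ?_⟩))
    rw [← map_pow]
    exact hd2 _ hk (by rw [map_pow, a1, one_pow])
  refine ⟨H, h2, ψ, h1, h5, hinj, h6, hK p _ _ H E ψ _ h4 (fun g => ?_) hE hinj
    (fun τ₁ τ₂ q1 q2 z1 z2 => ?_) _ e d he (M.le_rank ho0 ?_)⟩
  · obtain ⟨y, hy, a1⟩ := h7 g.1 g.1.2
    have a2 := h6 g.1
    rw [show ψ g.1 = 1 from g.2, Matrix.SpecialLinearGroup.coe_one, M.one] at a2
    obtain ⟨k, hk⟩ := hQ ⟨y, hy⟩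
    have a3 : φ ((g.1 : T) ^ p ^ k) = 1 := by
      refine Subtype.ext ?_
      rw [map_pow, Matrix.SpecialLinearGroup.coe_pow,
        show (φ g.1).1 = η + (φ y).1 * (1 - η) by rw [← a1, mul_sub, ← a2]; simp,
        mix_pow M.idem (hη y (h2 hy)), ← Matrix.SpecialLinearGroup.coe_pow, ← map_pow,
        show y ^ p ^ k = 1 from congrArg Subtype.val hk]
      simp
    obtain ⟨l, hl⟩ := pow_mem_of_sup hQ ((R ⊔ Q).pow_mem (h3 g.1.2) (p ^ k))
    obtain ⟨m, hm⟩ := hker _ hl (by rw [map_pow, a3, one_pow])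
    exact ⟨k + l + m, Subtype.ext (Subtype.ext (by
      rw [pow_add, pow_add, pow_mul, pow_mul]; exact hm))⟩
  · have key : ∀ τ : H, QEl p τ → (τ : T) ∈ R ∧ (φ τ).1 - 1 = M.ext ((ψ τ).1 - 1) := by
      rintro τ ⟨m, hm, a0⟩
      have a0' : (τ : T) ^ m = 1 := congrArg Subtype.val a0
      obtain ⟨k, hk⟩ := pow_mem_of_sup hQ (h3 τ.2)
      refine ⟨mem_of_qel ⟨m, hm, a0'⟩ hk, ?_⟩
      obtain ⟨y, hy, a1⟩ := h7 τ τ.2
      obtain ⟨l, hl⟩ := hQ ⟨y, hy⟩
      have a2 : η + (φ τ).1 * (1 - η) = 1 := eq_one_of_pel_qel (p := p)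
        ⟨l, by
          rw [a1, mix_pow M.idem (hη y (h2 hy)), ← Matrix.SpecialLinearGroup.coe_pow, ← map_pow,
            show y ^ p ^ l = 1 from congrArg Subtype.val hl]
          simp⟩
        ⟨m, hm, by
          rw [mix_pow M.idem (hη τ τ.2), ← Matrix.SpecialLinearGroup.coe_pow, ← map_pow, a0']
          simp⟩
      rw [map_sub, h6, M.one]
      rw [mul_sub, mul_one] at a2
      rw [← a2]
      abel
    obtain ⟨b1, b2⟩ := key τ₁ q1
    obtain ⟨b3, b4⟩ := key τ₂ q2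
    exact hd τ₁ b1 τ₂ b3 (by rw [b2, b4, ← map_mul, z1, map_zero])
      (by rw [b2, b4, ← map_mul, z2, map_zero])
  · rw [M.ext_pow (h6 _) (hη u (h2 hu))]
    exact hr

end Loc

end Pool.Agent.Lib.MP_679d9b_al.PT
end

-- part Pool.Agent.Lib.MP_679d9b_al.PT.Main
section

/-!
The global argument: chains of centralizers in a group with a cover by projective special linear
groups of unbounded degree.
-/

set_option autoImplicit false
set_option linter.unusedSectionVars false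

namespace Pool.Agent.Lib.MP_679d9b_al.PT

open Subgroup Matrix Filter
open scoped commutatorElement

/-- One level of the cover. -/
structure Lv (p : ℕ) (G : Type) [Group G] : Type 1 where
  H : Subgroup G
  n : ℕ
  K : Type
  [fld : Field K]
  [fin : Finite K]
  [chr : CharP K p]
  φ : H →* PSL (Fin n) K
  R : Subgroup H
  [finH : Finite H]
  [nrm : R.Normal]
  surj : R.map φ = ⊤
  cen : IsPGroup p (⁅φ.ker, R⁆ : Subgroup H)

attribute [instance] Lv.fld Lv.fin Lv.chr Lv.finH Lv.nrm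

open Classical in
/-- The map of a level, extended by the identity element. -/
noncomputable def Lv.r {p : ℕ} {G : Type} [Group G] (L : Lv p G) (g : G) : PSL (Fin L.n) L.K :=
  if h : g ∈ L.H then L.φ ⟨g, h⟩ else 1

theorem Lv.r_eq {p : ℕ} {G : Type} [Group G] (L : Lv p G) {g : G} (h : g ∈ L.H) :
    L.r g = L.φ ⟨g, h⟩ := dif_pos h

theorem not_noChain {G : Type} [Group G] {x : G} {d : ℕ} (g g' : Fin (d + 1) → G)
    (h1 : ∀ k, Commute x (g k) ∧ Commute x (g' k)) (h2 : ∀ k l, k ≠ l → Commute (g k) (g' l))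
    (h3 : ∀ k, ¬ Commute (g k) (g' k)) : ¬ Alt.NoChain x d := fun h =>
  h ℕ (fun k i => i = k) (fun i => {y | ∃ l : Fin (d + 1), l.1 < i ∧ y = g l}) 0 rfl
    fun k hk i hi => by
      subst hi
      refine ⟨i + 1, rfl, fun y ⟨l, a1, a2⟩ => ⟨l, by omega, a2⟩, g' ⟨i, by omega⟩, (h1 _).2, ?_,
        g ⟨i, by omega⟩, ⟨⟨i, by omega⟩, by simp, rfl⟩, (h1 _).1, h3 _⟩
      rintro _ ⟨l, a1, rfl⟩
      exact h2 _ _ fun e => by simp [e] at a1

theorem noChain_sub {G C : Type} [Group G] [Group C] (μ : C →* G) (hμ : Function.Injective μ)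
    {x : G} {u : C} (hx : ∀ c, Commute u c → Commute x (μ c)) {d : ℕ} (h : Alt.NoChain x d) :
    Alt.NoChain u d := by
  intro ι Ok Sub i0 h0 step
  refine h ι Ok (fun i => μ '' Sub i) i0 h0 fun k hk i hi => ?_
  obtain ⟨i', h1, h2, v, hv, h3, w, hw, hxw, hwv⟩ := step k hk i hi
  refine ⟨i', h1, Set.image_mono h2, μ v, hx v hv, ?_, μ w, ⟨w, hw, rfl⟩, hx w hxw,
    fun h => hwv (hμ (by rw [map_mul, map_mul]; exact h))⟩
  rintro _ ⟨y, hy, rfl⟩
  exact (h3 y hy).map μ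

theorem exists_indep {k E F : Type} [Field k] [AddCommGroup E] [Module k E] [Finite F]
    (T : F → E) : ∃ e : Fin (cdim k T) → F, LinearIndependent k fun j => T (e j) := by
  obtain ⟨b, hb, hs, hl⟩ := exists_linearIndependent k (Set.range T)
  have hf : b.Finite := (Set.finite_range T).subset hb
  let _ := hf.fintype
  have h1 : Fintype.card b = cdim k T := by
    rw [linearIndependent_iff_card_eq_finrank_span.1 hl, Subtype.range_coe, Set.finrank, hs, cdim]
  choose f hf using fun x : b => hb x.2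
  let e := (Fintype.equivFinOfCardEq h1).symm
  refine ⟨fun j => f (e j), ?_⟩
  simp_rw [hf]
  exact hl.comp e e.injective

theorem sum_ne_zero_of_cdim {k E F : Type} [Field k] [AddCommGroup E] [Module k E] [Fintype F]
    [Nonempty F] (T : F → E) (h : ¬ cdim k T < Nat.card F) : ∑ f, T f ≠ 0 := by
  have h1 : LinearIndependent k T := by
    rw [linearIndependent_iff_card_eq_finrank_span]
    rw [Nat.card_eq_fintype_card, not_lt] at h
    exact le_antisymm h (finrank_range_le_card T)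
  intro h2
  exact one_ne_zero (Fintype.linearIndependent_iff.1 h1 (fun _ => 1) (by simpa using h2)
    (Classical.arbitrary F))

section Main
variable {p : ℕ} [Fact p.Prime] {G : Type} [Group G] {I : Type} {U : Ultrafilter I}
  {L : I → Lv p G} (W : World (U := U) (n := fun i => (L i).n) (K := fun i => (L i).K) p
    fun i => (L i).r) (hL : ∀ g, ∀ᶠ i in U, g ∈ (L i).H)

/-- The pullback at level `i`. -/
abbrev World.T (i : I) : Type := Pb W.κ (L i).φ

/-- The first projection at level `i`. -/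
abbrev World.f (i : I) : W.T i →* W.Γ := Pb.fst W.κ (L i).φ

/-- The second projection at level `i`. -/
abbrev World.g (i : I) : W.T i →* SL (Fin (L i).n) (L i).K := Pb.snd W.κ (L i).φ

namespace World

theorem chrE : (p : W.E) = 0 := by
  rw [← map_natCast (algebraMap W.k W.E), CharP.cast_eq_zero, map_zero]

theorem ne_zero {b : Fam (fun i => (L i).n) fun i => (L i).K} (h : W.cl b ≠ 0) (N : ℕ) :
    ∀ᶠ i in U, N ≤ (b i).rank := by
  have h1 : ¬ ∀ᶠ i in U, (b i).rank ≤ N := fun h1 => h ((W.cl_zero b).2 ⟨N, h1⟩)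
  exact (Ultrafilter.eventually_not.2 h1).mono fun i hi => (not_le.1 hi).le

theorem congr {a b : Fam (fun i => (L i).n) fun i => (L i).K} (h : ∀ᶠ i in U, a i = b i) :
    W.cl a = W.cl b := by
  rw [← sub_eq_zero, ← map_sub, W.cl_zero]
  exact ⟨0, h.mono fun i hi => by simp [hi]⟩

theorem one_ne : (1 : W.E) ≠ 0 := fun h => by
  obtain ⟨N, hN⟩ := (W.cl_zero 1).1 (by rw [map_one, h])
  obtain ⟨i, h1, h2⟩ := (hN.and (W.big (N + 1))).exists
  rw [Pi.one_apply, rank_one, Fintype.card_fin] at h1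
  omega

theorem ev_comm {γ δ : W.Γ} (h : Commute γ δ) : ∀ᶠ i in U, Commute (W.a γ i) (W.a δ i) := by
  filter_upwards [W.a_mul γ δ, W.a_mul δ γ] with i h1 h2
  rw [Commute, SemiconjBy, ← h1, ← h2, h.eq]

include hL

theorem ev_el (γ : W.Γ) : ∀ᶠ i in U, ∃ x : W.T i, W.f i x = γ ∧ W.g i x = W.a γ i := by
  filter_upwards [hL (W.κ γ), W.a_lift γ] with i h1 h2
  exact ⟨⟨(γ, W.a γ i), h1, ((L i).r_eq h1).symm.trans h2.symm⟩, rfl, rfl⟩

theorem ev_hom {F : Type} [Group F] [Finite F] (l : F →* W.Γ) :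
    ∀ᶠ i in U, ∃ j : F →* W.T i, ∀ y, W.f i (j y) = l y ∧ W.g i (j y) = W.a (l y) i := by
  filter_upwards [eventually_all.2 fun y => W.ev_el hL (l y),
    eventually_all.2 fun y => eventually_all.2 fun z => W.a_mul (l y) (l z)] with i h1 h2
  choose j h3 h4 using h1
  exact ⟨MonoidHom.mk' j fun y z => Pb.ext' _ _ (by rw [map_mul, h3, h3, h3, map_mul])
    (by rw [map_mul, h4, h4, h4, map_mul, h2]), fun y => ⟨h3 y, h4 y⟩⟩

/-- The common data at almost all levels. -/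
theorem ev_level {F : Type} [Group F] [Finite F] (l : F →* W.Γ) (s : W.Γ) {o : ℕ}
    (ho : W.κ s ^ o = 1) (hs : ∀ y, Commute s (l y)) :
    ∀ᶠ i in U, 3 ≤ Fintype.card (Fin (L i).n) ∧ ∃ (j : F →* W.T i) (s' : W.T i)
      (R : Subgroup (W.T i)), (∀ y, W.f i (j y) = l y ∧ W.g i (j y) = W.a (l y) i) ∧
      W.f i s' = s ∧ W.g i s' = W.a s i ∧ (∀ g, Commute (s' ^ o) g) ∧
      (∀ y ∈ j.range, Commute s' y) ∧ R.Normal ∧ Finite R ∧ ⁅R, R⁆ = R ∧ R.map (W.g i) = ⊤ ∧
      IsPGroup p (⁅(W.g i).ker, R⁆ : Subgroup (W.T i)) := by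
  filter_upwards [W.big 3, W.ev_hom hL l, W.ev_el hL s,
    eventually_all.2 fun y => W.ev_comm (hs y)] with i h1 ⟨j, hj⟩ ⟨s', a1, a2⟩ h2
  have h3 : 3 ≤ Fintype.card (Fin (L i).n) := by simpa using h1
  obtain ⟨R, hR⟩ := Pb.exists_supp W.κ (L i).φ W.surj (fun γ h => (W.cen γ h).1) h3 (L i).R
    (L i).surj (L i).cen
  refine ⟨h3, j, s', R, hj, a1, a2, fun g => ?_, ?_, hR⟩
  · exact (mem_center_iff.1 (Pb.center W.κ _ (fun γ h => (W.cen γ h).1)
      (by rw [map_pow, map_pow, a1, ho])) g).symm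
  · rintro _ ⟨y, rfl⟩
    exact Pb.ext' _ _ (by rw [map_mul, map_mul, a1, (hj y).1, (hs y).eq])
      (by rw [map_mul, map_mul, a2, (hj y).2, (h2 y).eq])

/-- The families of isotypic components. -/
theorem exists_comp (hP : PrimStmt) (s : W.Γ) {o : ℕ} (ho : W.κ s ^ o = 1) (hop : o.Coprime p) :
    ∃ η : Fin o → Fam (fun i => (L i).n) fun i => (L i).K, ∑ j, W.cl (η j) = 1 ∧
      (∀ j, ∀ᶠ i in U, Nonempty (Model p (W.a s i).1 (η j i) o)) ∧
      ∀ j γ, Commute s γ → Commute (W.ρ γ) (W.cl (η j)) := by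
  have h1 : ∀ i, ∃ η : Fin o → Matrix (Fin (L i).n) (Fin (L i).n) (L i).K,
      (∃ x : W.T i, W.f i x = s ∧ W.g i x = W.a s i) →
        ∑ j, η j = 1 ∧ ∀ j, Nonempty (Model p (W.a s i).1 (η j) o) := fun i => by
    by_cases h : ∃ x : W.T i, W.f i x = s ∧ W.g i x = W.a s i
    · obtain ⟨x, a1, a2⟩ := h
      obtain ⟨c, hc, a3⟩ := center_smul (Pb.snd_center W.κ (L i).φ (x := x ^ o)
        (by rw [map_pow, map_pow, a1, ho]))
      rw [map_pow, a2] at a3
      obtain ⟨η, hη⟩ := hP p _ _ (W.a s i).1 o c hop hc a3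
      exact ⟨η, fun _ => hη⟩
    · exact ⟨0, fun h' => absurd h' h⟩
  choose η hη using h1
  have h2 := (W.ev_el hL s).mono fun i hi => hη i hi
  refine ⟨fun j i => η i j, ?_, fun j => h2.mono fun i hi => hi.2 j, fun j γ h => ?_⟩
  · rw [← map_sum, ← map_one W.cl]
    exact W.congr (h2.mono fun i hi => by simpa [Finset.sum_apply] using hi.1)
  · rw [← W.cl_a, Commute, SemiconjBy, ← map_mul, ← map_mul]
    refine W.congr ?_
    filter_upwards [h2, W.ev_comm h] with i a1 a2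
    obtain ⟨M⟩ := a1.2 j
    exact M.cen _ (congrArg Subtype.val a2.eq)

theorem case_one (hP : PrimStmt) (hC : CompStmt) (h1 : CaseOneStmt) {u s : G} (hu : PEl p u)
    (hs : QEl p s) (hus : Commute u s)
    (h : ∀ F : Subgroup W.Γ, Finite F → IsPGroup p F → ¬ cdim W.k (fun f : F => W.ρ f) < Nat.card F)
    (d : ℕ) : ¬ Alt.NoChain (u * s) d := by
  classical
  obtain ⟨o, hop, ho⟩ := hs
  obtain ⟨s, rfl⟩ := W.surj s
  have ho0 : o ≠ 0 := by
    rintro rfl
    exact (Fact.out : p.Prime).ne_one (by simpa using hop)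
  obtain ⟨η, e1, e2, e3⟩ := W.exists_comp hL hP s ho hop
  let C := centralizer ({W.κ s} : Set G)
  have hC' : ∀ c : C, Commute (c : G) (W.κ s) := fun c => mem_centralizer_singleton_iff.1 c.2
  obtain ⟨k, hk⟩ := hu
  refine fun hno => h1 p C ⟨u, mem_centralizer_singleton_iff.2 hus⟩ d ⟨k, Subtype.ext hk⟩
    (fun F hF hFp _ N => ?_) (noChain_sub C.subtype C.subtype_injective
      (fun c hc => Commute.mul_left (congrArg Subtype.val hc.eq) (hC' c).symm) hno)
  have : Finite (F.map C.subtype) := Finite.of_surjective _ (MonoidHom.subgroupMap_surjective _ _)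
  obtain ⟨l0, hl0⟩ := exists_plift W.κ W.cen W.lift (F.map C.subtype) (hFp.map _)
  let l : F →* W.Γ := l0.comp (C.subtype.subgroupMap F)
  have hl : ∀ f, W.κ (l f) = f ∧ PEl p (l f) := fun f => hl0 _
  have hli : Function.Injective l := fun a b hab =>
    Subtype.ext (Subtype.ext (by rw [← (hl a).1, hab, (hl b).1]))
  have hls : ∀ f, Commute s (l f) := fun f =>
    (commute_lift W.cen (hl f).2 (by rw [(hl f).1]; exact hC' f)).symm
  let _ := Fintype.ofFinite F
  have hfin : Finite l.range := Finite.of_surjective _ l.rangeRestrict_surjective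
  let _ := Fintype.ofFinite l.range
  have h2 := sum_ne_zero_of_cdim _ (h l.range hfin (hFp.of_surjective _ l.rangeRestrict_surjective))
  rw [← (MonoidHom.ofInjective hli).toEquiv.sum_comp] at h2
  have h3 : ∃ j, W.cl (fun i => (∑ f, (W.a (l f) i).1) * η j i) ≠ 0 := by
    by_contra hh
    push Not at hh
    refine h2 ?_
    rw [← mul_one (∑ _, _), ← e1, Finset.mul_sum]
    refine Finset.sum_eq_zero fun j _ => Eq.trans ?_ (hh j)
    have : ∀ f, W.ρ ((MonoidHom.ofInjective hli).toEquiv f : l.range) =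
      W.cl fun i => (W.a (l f) i).1 := fun f => (W.cl_a _).symm
    simp_rw [this]
    rw [← map_sum, ← map_mul]
    congr 1
    funext i
    simp [Finset.sum_apply]
  obtain ⟨j, hj⟩ := h3
  obtain ⟨i, ⟨-, jj, s', R, a1, a2, a3, a4, a5, _, _, -, a6, a7⟩, b1, b2⟩ :=
    ((W.ev_level hL l s ho hls).and ((W.ne_zero hj (o * (N + 2))).and (e2 j))).exists
  rw [← a3] at b2
  obtain ⟨M⟩ := b2
  have : Finite jj.range := Finite.of_surjective _ jj.rangeRestrict_surjective
  simp_rw [← fun f => (a1 f).2] at b1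
  obtain ⟨H, ψ, c1, c2, -, c4, c5, c6, -⟩ := hC p _ _ _ (W.g i) R jj.range s' o _ M a6 a7
    (hFp.of_surjective _ jj.rangeRestrict_surjective) hop a4 a5
    (le_trans (by omega) (M.le_card ho0 (Commute.sum_right _ _ _ fun f _ =>
      congrArg Subtype.val ((a5 _ ⟨f, rfl⟩).map (W.g i)).eq) b1))
  refine ⟨H, inferInstance, c1, M.K', inferInstance, inferInstance, inferInstance, M.ι',
    inferInstance, inferInstance, ψ, (W.κ.comp ((W.f i).comp H.subtype)).codRestrict C fun g => ?_,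
    jj.codRestrict H fun f => c2 ⟨f, rfl⟩, c4, fun f => Subtype.ext ?_, fun g hg => ?_, ?_⟩
  · refine mem_centralizer_singleton_iff.2 ?_
    rw [← a2]
    exact (((c5 g g.2).map (W.f i)).map W.κ).symm
  · exact (congrArg W.κ (a1 f).1).trans (hl f).1
  · obtain ⟨c, -, hc⟩ := center_smul (Pb.snd_center W.κ (L i).φ (x := g) (congrArg Subtype.val hg))
    refine mem_center_iff.2 fun B => Subtype.ext (M.inj ?_)
    change M.ext (B.1 * (ψ g).1) = M.ext ((ψ g).1 * B.1)
    have m1 := map_mul M.ext B.1 1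
    have m2 := map_mul M.ext 1 B.1
    rw [M.one, mul_one] at m1
    rw [M.one, one_mul] at m2
    rw [map_mul, map_mul, c6, hc, smul_mul_assoc, one_mul, smul_mul_assoc, mul_smul_comm, ← m1,
      ← m2]
  · refine le_trans (by omega) (M.le_rank ho0 (N := N + 2) ?_)
    rw [finsum_eq_sum_of_fintype, map_sum]
    simp_rw [c6]
    rw [← Finset.sum_mul]
    exact b1

/-- The local analysis at almost all levels. -/
theorem ev_loc (hD : DichStmt) (hC : CompStmt) (hK : CoreStmt) (F : Subgroup W.Γ) [Finite F]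
    (hF : IsPGroup p F) (hc : cdim W.k (fun f : F => W.ρ f) < Nat.card F) {s : W.Γ} {o : ℕ}
    (ho : W.κ s ^ o = 1) (hop : o.Coprime p) {η : Fam (fun i => (L i).n) fun i => (L i).K}
    (hη : ∀ᶠ i in U, Nonempty (Model p (W.a s i).1 (η i) o)) (Q : Subgroup W.Γ) [Finite Q]
    (hQ : IsPGroup p Q) (hs : ∀ y ∈ Q, Commute s y) {u : W.Γ} (hu : u ∈ Q) (e d : ℕ)
    (he : (W.ρ u - 1) ^ (e + 1) = 0) (hne : (W.ρ u - 1) ^ e * W.cl η ≠ 0) :
    ∀ᶠ i in U, ∃ (H : Type) (_ : Group H) (_ : Finite H) (μ : H →* W.Γ) (j : Q →* H)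
      (S : Matrix (Fin (L i).n) (Fin (L i).n) (L i).K) (M : Model p S (η i) o)
      (ψ : H →* SL M.ι' M.K'), Function.Injective μ ∧ (∀ y, μ (j y) = y) ∧
      (∀ g, Commute s (μ g)) ∧ (∀ y, M.ext (ψ (j y)).1 = (W.a y i).1 * η i) ∧
      (∀ y : Q, Commute (W.a y i).1 (η i)) ∧ CoreOut p ψ (W.ρ.comp μ) (j ⟨u, hu⟩) e d := by
  obtain ⟨N, hN⟩ := hD p (Nat.card F)
  obtain ⟨ε, hε⟩ := exists_indep (k := W.k) fun f : F => W.ρ f
  have h1 : W.cl (fun i => ((W.a u i).1 - 1) ^ e * η i) ≠ 0 := by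
    rwa [← W.cl_a, ← map_one W.cl, ← map_sub, ← map_pow, ← map_mul] at hne
  have h2 : ∀ f : F, ∀ᶠ i in U, f ≠ 1 → N ≤ ((W.a f i).1 - 1).rank := fun f => by
    by_cases hf : f = 1
    · exact Eventually.of_forall fun i h => absurd hf h
    · refine (W.ne_zero (b := fun i => (W.a f i).1 - 1) (fun h => hf (Subtype.ext (W.inj ?_))) N).mono
        fun i hi _ => hi
      rw [← W.cl_a, OneMemClass.coe_one, map_one, ← sub_eq_zero, ← map_one W.cl, ← map_sub]
      exact h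
  filter_upwards [W.ev_level hL Q.subtype s ho fun y => hs y y.2, W.ev_hom hL F.subtype, hη,
    W.ne_zero h1 (o * (2 * (d + e) + 6)), eventually_all.2 h2, W.big N,
    W.indep _ (fun j => ε j) hε N]
    with i ⟨a0, j, s', R, a1, a2, a3, a4, a5, _, _, a8, a6, a7⟩ ⟨jF, b1⟩ b2 b3 b4 b5 b6
  rw [← a3] at b2
  obtain ⟨M⟩ := b2
  have hji : Function.Injective jF := fun a b h =>
    Subtype.ext ((b1 a).1.symm.trans ((congrArg _ h).trans (b1 b).1))
  let eF := MonoidHom.ofInjective hji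
  have : Finite jF.range := Finite.of_surjective _ jF.rangeRestrict_surjective
  have : Finite j.range := Finite.of_surjective _ j.rangeRestrict_surjective
  have hcard : Nat.card jF.range = Nat.card F := (Nat.card_congr eF.toEquiv).symm
  have hcd : cdim W.k (fun f : jF.range => (W.ρ.comp (W.f i)) f) =
      cdim W.k fun f : F => W.ρ f := by
    unfold cdim
    have : (fun f : jF.range => (W.ρ.comp (W.f i)) f) ∘ eF = fun f : F => W.ρ f :=
      funext fun f => congrArg W.ρ (b1 f).1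
    rw [← eF.surjective.range_comp, this]
  obtain ⟨d1, d2⟩ := hN _ _ (W.T i) (W.g i) R jF.range W.k W.E (W.ρ.comp (W.f i)) a6 a8 a7
    (hF.of_surjective _ jF.rangeRestrict_surjective) hcard.le (by rw [hcd, hcard]; exact hc) (by
      rw [hcd]
      refine ⟨by simpa using b5, fun f hf => ?_, fun k => eF (ε k), fun l hl => ?_⟩
      · obtain ⟨f, rfl⟩ := eF.surjective f
        have := b4 f fun h => hf (by rw [h, map_one])
        rwa [show W.a f i = W.g i (jF f) from (b1 f).2.symm] at this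
      · have := b6 l hl
        simp_rw [show ∀ k, W.a (ε k) i = W.g i (jF (ε k)) from fun k => (b1 _).2.symm] at this
        exact this)
  have hf1 : ∀ g, W.ρ (W.f i g) = 1 → W.f i g = 1 := fun g hg => W.inj (hg.trans (map_one _).symm)
  obtain ⟨H, c0, ψ, c1, c2, c3, c4, c5⟩ := loc_two hC hK (W.g i) R j.range s' M W.chrE
    (W.ρ.comp (W.f i)) (fun g hg => Pb.snd_center _ _ (by rw [hf1 g hg, map_one]))
    (fun g hg hg' => Pb.ext' _ _ ((hf1 g hg).trans (map_one _).symm) (hg'.trans (map_one _).symm))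
    a0 a6 a7 (hQ.of_surjective _ j.rangeRestrict_surjective) hop a4 a5 d1 d2
    (u := j ⟨u, hu⟩) ⟨_, rfl⟩ e d
    (by rw [MonoidHom.comp_apply, (a1 _).1]; exact he) (by rw [(a1 _).2]; exact b3)
  refine ⟨H, inferInstance, c1, (W.f i).comp H.subtype, j.codRestrict H fun y => c0 ⟨y, rfl⟩, _, M,
    ψ, fun a b h => c3 (congrArg W.ρ h), fun y => (a1 y).1, fun g => ?_, fun y => ?_, fun y => ?_,
    c5⟩
  · rw [← a2]
    exact (c2 g g.2).map (W.f i)
  · rw [c4]
    exact congrArg (fun A => A.1 * η i) (a1 y).2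
  · refine M.cen _ ?_
    rw [show W.a y i = W.g i (j y) from (a1 y).2.symm]
    exact congrArg Subtype.val ((a5 _ ⟨y, rfl⟩).map (W.g i)).eq

end World

/-- Adjoining an element of a normal `p`-subgroup. -/
theorem adjoin_p {H Γ : Type} [Group H] [Finite H] [Group Γ] (μ : H →* Γ) {Q : Subgroup Γ}
    (hQ : IsPGroup p Q) (j : Q →* H) (hj : ∀ y, μ (j y) = y) {N : Subgroup H} [N.Normal]
    (hN : IsPGroup p N) {w : H} (hw : w ∈ N) {s u : Γ} (hs : ∀ g, Commute s (μ g))
    (hu : ∀ y ∈ Q, Commute u y) (huw : Commute u (μ w)) :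
    ∃ Q' : Subgroup Γ, Finite Q' ∧ IsPGroup p Q' ∧ Q ≤ Q' ∧ μ w ∈ Q' ∧
      ∀ y ∈ Q', Commute s y ∧ Commute u y := by
  have h1 : IsPGroup p (j.range ⊔ N : Subgroup H) :=
    (hQ.of_surjective _ j.rangeRestrict_surjective).to_sup_of_normal_right hN
  refine ⟨(j.range ⊔ N).map μ ⊓ centralizer {u}, ?_, (h1.map μ).to_inf_left, fun y hy =>
    ⟨⟨j ⟨y, hy⟩, mem_sup_left ⟨_, rfl⟩, hj _⟩, mem_centralizer_singleton_iff.2 (hu y hy).symm⟩,
    ⟨⟨w, mem_sup_right hw, rfl⟩, mem_centralizer_singleton_iff.2 huw.symm⟩, ?_⟩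
  · have : Finite ((j.range ⊔ N).map μ) :=
      Finite.of_surjective _ (MonoidHom.subgroupMap_surjective _ _)
    exact Finite.of_injective _ (inclusion_injective inf_le_left)
  · rintro _ ⟨⟨g, -, rfl⟩, h⟩
    exact ⟨hs g, (mem_centralizer_singleton_iff.1 h).symm⟩

namespace World
include hL

theorem case_two (hD : DichStmt) (hP : PrimStmt) (hC : CompStmt) (hK : CoreStmt) {u s : G}
    (hu : PEl p u) (hs : QEl p s) (hus : Commute u s) (F : Subgroup W.Γ) [Finite F]
    (hF : IsPGroup p F) (hc : cdim W.k (fun f : F => W.ρ f) < Nat.card F) (d : ℕ) :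
    ¬ Alt.NoChain (u * s) d := by
  classical
  intro hno
  obtain ⟨o, hop, ho⟩ := hs
  obtain ⟨s, rfl⟩ := W.surj s
  obtain ⟨u, hu', rfl⟩ := W.lift u hu
  replace hu := hu'
  have hus' : Commute s u := (commute_lift W.cen hu hus).symm
  obtain ⟨η, e1, e2, e3⟩ := W.exists_comp hL hP s ho hop
  have hsplit : ∀ x : W.E, x ≠ 0 → ∃ j, x * W.cl (η j) ≠ 0 := fun x hx => by
    by_contra hh
    push Not at hh
    exact hx (by rw [← mul_one x, ← e1, Finset.mul_sum]; exact Finset.sum_eq_zero fun j _ => hh j)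
  obtain ⟨e, he, hne⟩ : ∃ e, (W.ρ u - 1) ^ (e + 1) = 0 ∧ (W.ρ u - 1) ^ e ≠ 0 := by
    have h1 : ∃ n, (W.ρ u - 1) ^ n = 0 := nil_of_pel W.chrE (by
      obtain ⟨k, hk⟩ := hu
      exact ⟨k, by rw [← map_pow, hk, map_one]⟩)
    have h2 := Nat.find_spec h1
    have h3 : Nat.find h1 ≠ 0 := fun h => W.one_ne (by rwa [h, pow_zero] at h2)
    exact ⟨Nat.find h1 - 1, by rwa [Nat.sub_add_cancel (Nat.pos_of_ne_zero h3)],
      Nat.find_min h1 (by omega)⟩
  have hx : ∀ γ, Commute s γ → Commute u γ → Commute (W.κ u * W.κ s) (W.κ γ) :=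
    fun γ h1 h2 => (h2.map W.κ).mul_left (h1.map W.κ)
  have hα : ∀ (H : Type) [Group H] (μ : H →* W.Γ) (v : H), Function.Injective μ → μ v = u →
      (∀ g, Commute s (μ g)) → ¬ Alpha p v d := by
    rintro H _ μ v h1 rfl h2 ⟨g, g', a1, a2, a3⟩
    refine not_noChain (fun k => W.κ (μ (g k))) (fun k => W.κ (μ (g' k)))
      (fun k => ⟨hx _ (h2 _) ((a1 k).2.1.map μ), hx _ (h2 _) ((a1 k).2.2.map μ)⟩)
      (fun k l h => ((a2 k l h).map μ).map W.κ) (fun k h => a3 k (h1 ?_)) hno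
    obtain ⟨m, hm⟩ := (a1 k).1
    rw [map_mul, map_mul]
    exact commute_lift W.cen ⟨m, by rw [← map_pow, hm, map_one]⟩ h
  obtain ⟨k0, hk0⟩ := hu
  refine hno (Subgroup W.Γ)
    (fun _ Y => Finite Y ∧ IsPGroup p Y ∧ u ∈ Y ∧ ∀ y ∈ Y, Commute s y ∧ Commute u y)
    (fun Y => W.κ '' Y) (zpowers u) ⟨(finite_zpowers.2 (isOfFinOrder_iff_pow_eq_one.2
      ⟨p ^ k0, pow_pos (Fact.out : p.Prime).pos k0, hk0⟩)).to_subtype, isPGroup_zpowers hk0,
      mem_zpowers u, by
        rintro _ ⟨z, rfl⟩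
        exact ⟨hus'.zpow_right z, (Commute.refl u).zpow_right z⟩⟩ ?_
  rintro _ - Y ⟨y1, y2, y3, y4⟩
  obtain ⟨j0, hj0⟩ := hsplit _ hne
  obtain ⟨i, H, _, _, μ, j, S, M, ψ, a1, a2, a3, -, -, a6⟩ := (W.ev_loc hL hD hC hK F hF hc ho hop
    (e2 j0) Y y2 (fun y hy => (y4 y hy).1) y3 e d he hj0).exists
  obtain ⟨N, _, n2, n3, -, n5⟩ := a6.resolve_left (hα H μ _ a1 (a2 _) a3)
  obtain ⟨w, w1, w2, w3⟩ := exists_fixed N j.range n2
    (y2.of_surjective _ j.rangeRestrict_surjective) n3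
  have w4 : ∀ y ∈ Y, Commute y (μ w) := fun y hy => by
    have := (w3 _ ⟨⟨y, hy⟩, rfl⟩).map μ
    rwa [a2] at this
  obtain ⟨Y', z1, z2, z3, z4, z5⟩ := adjoin_p μ y2 j a2 n2 w1 a3 (fun y hy => (y4 y hy).2) (w4 u y3)
  obtain ⟨j1, hj1⟩ := hsplit (W.ρ (μ w) - 1) fun h =>
    w2 (a1 (W.inj (by rw [map_one, map_one]; exact sub_eq_zero.1 h)))
  have hfree := n5 W.E (RingHom.id _) w w1 (W.cl (η j1)) (fun g => e3 j1 _ (a3 g)) hj1
  simp only [RingHom.id_apply, MonoidHom.comp_apply, a2] at hfree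
  have hfr : ∀ᶠ i in U, ((W.a (μ w) i).1 - 1) * η j1 i ≠ 0 ∧ ∀ γ : Matrix _ _ (L i).K,
      γ * ((W.a (μ w) i).1 - 1) * η j1 i ≠ ((W.a u i).1 - 1) ^ e * η j1 i := by
    refine Eventually.and (Ultrafilter.eventually_not.2 fun h => hj1 ?_) ?_
    · rw [← W.cl_a, ← map_one W.cl, ← map_sub, ← map_mul, ← map_zero W.cl]
      exact W.congr h
    · by_contra h
      have h1 := Ultrafilter.eventually_not.2 h
      have h2 : ∀ i, ∃ γ : Matrix _ _ (L i).K, (¬ ∀ γ : Matrix _ _ (L i).K,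
          γ * ((W.a (μ w) i).1 - 1) * η j1 i ≠ ((W.a u i).1 - 1) ^ e * η j1 i) →
          γ * ((W.a (μ w) i).1 - 1) * η j1 i = ((W.a u i).1 - 1) ^ e * η j1 i := fun i => by
        by_cases h : ∀ γ : Matrix _ _ (L i).K,
          γ * ((W.a (μ w) i).1 - 1) * η j1 i ≠ ((W.a u i).1 - 1) ^ e * η j1 i
        · exact ⟨0, fun h' => absurd h h'⟩
        · push Not at h
          obtain ⟨γ, hγ⟩ := h
          exact ⟨γ, fun _ => hγ⟩
      choose γ hγ using h2
      refine hfree (W.cl γ) ?_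
      rw [← W.cl_a, ← W.cl_a, ← map_one W.cl, ← map_sub, ← map_sub, ← map_pow, ← map_mul,
        ← map_mul, ← map_mul]
      exact W.congr (h1.mono hγ)
  obtain ⟨i', ⟨H', _, _, μ', j', S', M', ψ', b1, b2, b3, b4, b5, b6⟩, f1, f2⟩ :=
    ((W.ev_loc hL hD hC hK F hF hc ho hop (e2 j1) Y' z2 (fun y hy => (z5 y hy).1) (z3 y3) e d he
      (by simpa using (hfree 0).symm)).and hfr).exists
  obtain ⟨N', _, m2, -, m4, -⟩ := b6.resolve_left (hα H' μ' _ b1 (b2 _) b3)
  obtain ⟨a, c1, c2, c3⟩ := m4 (j' ⟨μ w, z4⟩) (Commute.map (Subtype.ext (w4 u y3).eq) j')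
    (fun h => f1 (by
      have := b4 ⟨μ w, z4⟩
      rw [h, Matrix.SpecialLinearGroup.coe_one, M'.one] at this
      rw [sub_mul, ← this, one_mul, sub_self]))
    (fun γ h => f2 (M'.ext γ) (by
      have := congrArg M'.ext h
      rw [map_mul, M'.ext_pow (b4 _) (b5 _), map_sub, b4, M'.one] at this
      rw [← this, mul_assoc, sub_mul, one_mul]))
  have c4 : Commute u (μ' a) := by
    have := c2.map μ'
    rwa [b2] at this
  obtain ⟨Y'', v1, v2, v3, v4, v5⟩ := adjoin_p μ' z2 j' b2 m2 c1 b3 (fun y hy => (z5 y hy).2) c4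
  refine ⟨Y'', ⟨v1, v2, v3 (z3 y3), v5⟩, Set.image_mono (z3.trans v3), W.κ (μ w),
    hx _ (a3 w) (w4 u y3), ?_, W.κ (μ' a), ⟨_, v4, rfl⟩, hx _ (b3 a) c4, fun h => c3 (b1 ?_)⟩
  · rintro _ ⟨y, hy, rfl⟩
    exact (w4 y hy).map W.κ
  · obtain ⟨m, hm⟩ := v2 ⟨_, v4⟩
    rw [map_mul, map_mul, b2]
    exact (commute_lift W.cen ⟨m, congrArg Subtype.val hm⟩ h).symm

end World

end Main

theorem main (hD : DichStmt) (hP : PrimStmt) (hC : CompStmt) (h1 : CaseOneStmt) (hF : FinStmt)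
    (hK : CoreStmt) {p : ℕ} [Fact p.Prime] {G : Type} [Group G] [IsSimpleGroup G] (hlf : Alt.LF G)
    (hcov : ∀ F : Subgroup G, Finite F → ∃ L : Lv p G, F ≤ L.H ∧ ∀ f ∈ F, L.r f = 1 → f = 1)
    (x : G) (d : ℕ) (hx : Alt.NoChain x d) : Finitary G := by
  classical
  choose L h2 h3 using fun i : Finset G => hcov (closure (i : Set G)) (hlf i)
  let U : Ultrafilter (Finset G) := Ultrafilter.of atTop
  have hU : ∀ g : G, ∀ᶠ i in U, g ∈ closure ((i : Finset G) : Set G) := fun g =>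
    (Ultrafilter.of_le atTop) ((eventually_ge_atTop ({g} : Finset G)).mono fun i hi =>
      subset_closure (hi (Finset.mem_singleton_self g)))
  have hL : ∀ g, ∀ᶠ i in U, g ∈ (L i).H := fun g => (hU g).mono fun i hi => h2 i hi
  have hmul : ∀ g h, ∀ᶠ i in U, (L i).r (g * h) = (L i).r g * (L i).r h := fun g h => by
    filter_upwards [hL g, hL h] with i a1 a2
    rw [(L i).r_eq a1, (L i).r_eq a2, (L i).r_eq (mul_mem a1 a2), ← map_mul]
    rfl
  let B : Subgroup G :=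
    { carrier := {g | ∃ b : ℕ, ∀ᶠ i in U, ∃ (A : SL (Fin (L i).n) (L i).K) (l : (L i).K),
        (A : PSL (Fin (L i).n) (L i).K) = (L i).r g ∧ (A.1 - l • 1).rank ≤ b}
      one_mem' := ⟨0, (ev_pow (fun i => (L i).r) hmul 1 0).mono fun i hi =>
        ⟨1, 1, by simpa using hi.symm, by simp⟩⟩
      mul_mem' := by
        rintro g h ⟨b, hb⟩ ⟨c, hc⟩
        refine ⟨b + c, ?_⟩
        filter_upwards [hb, hc, hmul g h] with i ⟨A, l, a1, a2⟩ ⟨C, m, a3, a4⟩ a5
        refine ⟨A * C, l * m, by rw [a5, ← a1, ← a3]; rfl, ?_⟩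
        rw [show (A * C).1 - (l * m) • 1 = (A.1 - l • 1) * C.1 + l • (C.1 - m • 1) by
          simp [sub_mul, smul_sub, smul_smul]]
        exact (rank_add_le' _ _).trans (Nat.add_le_add ((rank_mul_le_left _ _).trans a2)
          ((rank_smul_le' _ _).trans a4))
      inv_mem' := by
        rintro g ⟨b, hb⟩
        refine ⟨b, ?_⟩
        filter_upwards [hb, ev_inv (fun i => (L i).r) hmul g] with i ⟨A, l, a1, a2⟩ a3
        refine ⟨A⁻¹, l⁻¹, by rw [a3, ← a1]; rfl, ?_⟩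
        by_cases hl : l = 0
        · have := rank_smul_sl A one_ne_zero
          rw [hl, zero_smul, sub_zero] at a2
          rw [one_smul] at this
          exact (rank_le_card_width _).trans (this ▸ a2)
        · have a4 : A.1 * (A⁻¹).1 = 1 := congrArg Subtype.val (mul_inv_cancel A)
          rw [show (A⁻¹).1 - l⁻¹ • 1 = (-l⁻¹) • ((A.1 - l • 1) * (A⁻¹).1) by
            rw [sub_mul, a4, smul_mul_assoc, one_mul, smul_sub, smul_smul]
            simp [hl, sub_eq_add_neg, add_comm]]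
          exact (rank_smul_le' _ _).trans ((rank_mul_le_left _ _).trans a2) }
  have hB : B.Normal := ⟨by
    rintro g ⟨b, hb⟩ h
    refine ⟨b, ?_⟩
    filter_upwards [hb, hmul (h * g) h⁻¹, hmul h g, ev_inv (fun i => (L i).r) hmul h]
      with i ⟨A, l, a1, a2⟩ a3 a4 a5
    obtain ⟨C, hC⟩ := QuotientGroup.mk_surjective ((L i).r h)
    refine ⟨C * A * C⁻¹, l, by rw [a3, a4, a5, ← a1, ← hC]; rfl, ?_⟩
    have a6 : C.1 * (C⁻¹).1 = 1 := congrArg Subtype.val (mul_inv_cancel C)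
    rw [show (C * A * C⁻¹).1 - l • 1 = C.1 * (A.1 - l • 1) * (C⁻¹).1 by
      rw [mul_sub, sub_mul, mul_smul_comm, mul_one, smul_mul_assoc, a6]
      rfl]
    exact (rank_mul_le_left _ _).trans ((rank_mul_le_right _ _).trans a2)⟩
  rcases hB.eq_bot_or_eq_top with h | h
  · exfalso
    obtain ⟨W⟩ := exists_world (U := U) p (fun i => (L i).r) hmul fun g hg b => by
      have a1 : g ∉ B := by rw [h]; exact hg
      have a2 := Ultrafilter.eventually_not.2 fun h' => a1 ⟨b, h'⟩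
      exact a2.mono fun i hi A l hA => not_le.1 fun h' => hi ⟨A, l, hA, h'⟩
    obtain ⟨X, _, hX⟩ := hlf.exists_fin (Set.finite_singleton x)
    obtain ⟨u, a1, s, a2, a3, a4, rfl⟩ := exists_pq (p := p) (g := x)
      ((X.subtype.isOfFinOrder (isOfFinOrder_of_finite (⟨x, hX rfl⟩ : X))))
    have hus : Commute u s := by
      obtain ⟨m, hm⟩ := a1
      obtain ⟨n, hn⟩ := a2
      rw [← hm]
      nth_rewrite 2 [← hn]
      exact (Commute.refl _).zpow_zpow m n
    by_cases hc : ∃ F : Subgroup W.Γ, Finite F ∧ IsPGroup p F ∧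
        cdim W.k (fun f : F => W.ρ f) < Nat.card F
    · obtain ⟨F, _, b1, b2⟩ := hc
      exact W.case_two hL hD hP hC hK a3 a4 hus F b1 b2 d hx
    · exact W.case_one hL hP hC h1 a3 a4 hus (fun F b1 b2 b3 => hc ⟨F, b1, b2, b3⟩) d hx
  · exact hF G _ U _ _ (fun i => (L i).r) hmul
      (fun g hg => (hU g).mono fun i hi e => hg (h3 i g hi e))
      fun g => show g ∈ B from h ▸ mem_top g

end Pool.Agent.Lib.MP_679d9b_al.PT
end
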