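import Mathlib
import Pool.Agent.Lib.MP_679d9b_al.PT.Basic

/-!
The local analysis inside a ring with involution.
-/

set_option autoImplicit false

namespace Pool.Agent.Lib.MP_679d9b_al.PT

open Subgroup Matrix

namespace Core

section Ring
variable {A : Type} [Ring A]

theorem comm_Nn {t : A} {s : ℕ} (h : t ^ (s + 1) = 0) (r : A) : Commute t (Nn t s r) := by
  have key : t * Nn t s r - Nn t s r * t = ∑ i ∈ Finset.range (s + 1),
      (t ^ (i + 1) * r * t ^ (s + 1 - (i + 1)) - t ^ i * r * t ^ (s + 1 - i)) := by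
    unfold Nn
    rw [Finset.mul_sum, Finset.sum_mul, ← Finset.sum_sub_distrib]
    refine Finset.sum_congr rfl fun i hi => ?_
    have hi' : i ≤ s := Nat.lt_succ_iff.mp (Finset.mem_range.mp hi)
    have e1 : s + 1 - (i + 1) = s - i := by omega
    have e2 : s + 1 - i = (s - i) + 1 := by omega
    rw [e1, e2, pow_succ' t i, pow_succ t (s - i)]
    simp only [mul_assoc]
  rw [Finset.sum_range_sub (fun i => t ^ i * r * t ^ (s + 1 - i))] at key
  simp only [h, zero_mul, Nat.sub_zero, mul_zero, sub_zero] at key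
  exact sub_eq_zero.mp key

theorem pow_mul_Nn {t : A} {s : ℕ} (h : t ^ (s + 1) = 0) (r : A) :
    t ^ s * Nn t s r = t ^ s * r * t ^ s := by
  unfold Nn
  rw [Finset.sum_range_succ', mul_add, Finset.mul_sum, Finset.sum_eq_zero]
  · simp [mul_assoc]
  · intro i _
    have : t ^ s * t ^ (i + 1) = 0 := by
      rw [← pow_add, show s + (i + 1) = (s + 1) + i by omega, pow_add, h, zero_mul]
    rw [← mul_assoc, ← mul_assoc, this, zero_mul, zero_mul]

theorem Nn_mul {t c : A} (hc : Commute t c) (s : ℕ) (r : A) :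
    Nn t s (r * c) = Nn t s r * c := by
  unfold Nn
  rw [Finset.sum_mul]
  refine Finset.sum_congr rfl fun i _ => ?_
  simp only [mul_assoc]
  rw [(hc.pow_left (s - i)).eq]

theorem mem_of_one_sub {X : Set A} (hX : ∀ a, ∀ x ∈ X, a * x ∈ X) {j m : A}
    (hj : IsNilpotent j) (h : m - j * m ∈ X) : m ∈ X := by
  obtain ⟨v, hv⟩ := (IsNilpotent.isUnit_one_sub hj).exists_left_inv
  have : m = v * (m - j * m) := by
    rw [show m - j * m = (1 - j) * m by noncomm_ring, ← mul_assoc, hv, one_mul]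
  rw [this]
  exact hX _ _ h

end Ring

section Mat
variable {ι K : Type} [Fintype ι] [DecidableEq ι] [Field K]

theorem mul_inv_coe (g : SL ι K) : g.1 * (g⁻¹).1 = 1 :=
  congrArg Subtype.val (mul_inv_cancel g)

theorem inv_mul_coe (g : SL ι K) : (g⁻¹).1 * g.1 = 1 :=
  congrArg Subtype.val (inv_mul_cancel g)

theorem unit_coe (g : SL ι K) : IsUnit g.1 :=
  ⟨⟨g.1, (g⁻¹).1, mul_inv_coe g, inv_mul_coe g⟩, rfl⟩

theorem cm {H : Type} [Group H] (φ : H →* SL ι K) (a b : H) :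
    (φ a).1 * (φ b).1 = (φ (a * b)).1 :=
  (congrArg Subtype.val (map_mul φ a b)).symm

theorem c1 {H : Type} [Group H] (φ : H →* SL ι K) : (φ 1).1 = 1 :=
  congrArg Subtype.val (map_one φ)

theorem comm_coe {H : Type} [Group H] (φ : H →* SL ι K) {a b : H} (h : Commute a b) :
    Commute (φ a).1 (φ b).1 := by
  rw [Commute, SemiconjBy, cm, cm, h.eq]

theorem inv_sub_pow (g : SL ι K) (s : ℕ) :
    ((g⁻¹).1 - 1) ^ s = (-(g⁻¹).1) ^ s * (g.1 - 1) ^ s := by
  have hc : Commute (-(g⁻¹).1) (g.1 - 1) := by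
    refine Commute.neg_left (Commute.sub_right ?_ (Commute.one_right _))
    rw [Commute, SemiconjBy, mul_inv_coe, inv_mul_coe]
  rw [← hc.mul_pow]
  congr 1
  rw [neg_mul, mul_sub, inv_mul_coe, mul_one, neg_sub]

theorem sub_pow_eq (g : SL ι K) (s : ℕ) :
    (g.1 - 1) ^ s = (-g.1) ^ s * ((g⁻¹).1 - 1) ^ s := by
  have := inv_sub_pow g⁻¹ s
  rwa [inv_inv] at this

theorem rank_flip (g : SL ι K) (s : ℕ) :
    ((g.1 - 1) ^ s).rank ≤ (((itr ι K g).1 - 1) ^ s).rank := by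
  have e : ((itr ι K g).1 - 1) ^ s = (((g⁻¹).1 - 1) ^ s)ᵀ := by
    rw [itr_coe, transpose_pow, transpose_sub, transpose_one]
  rw [e, rank_transpose, sub_pow_eq]
  exact rank_mul_le_right _ _

end Mat

section St
variable {p : ℕ} [Fact p.Prime] {ι K : Type} [Fintype ι] [DecidableEq ι] [Field K] {H : Type}
  [Group H] [Finite H] {A E : Type} [Ring A] [StarRing A] [Ring E] {φ : H →* SL ι K}
  {ρ : H →* A} {q : A →+* E} {π π' : Matrix ι ι K →+ E}

theorem pel_of (h : St p φ ρ q π π') {g : H} (hg : IsNilpotent (ρ g - 1)) : PEl p g := by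
  obtain ⟨k, hk⟩ := pel_of_nil h.chr hg
  exact ⟨k, h.inj (by rw [map_pow, hk, map_one])⟩

theorem comm_of (h : St p φ ρ q π π') {u g : H} (hg : Commute (ρ u) (ρ g)) : Commute u g :=
  h.inj (by rw [map_mul, map_mul, hg.eq])

theorem comm_star (h : St p φ ρ q π π') {u : H} {X : A} (hX : Commute (ρ u) X) :
    Commute (ρ u) (star X) := by
  have h1 : star X * ρ u⁻¹ = ρ u⁻¹ * star X := by
    rw [← h.star_eq, ← star_mul, ← star_mul, hX.eq]
  have h2 : ρ u * ρ u⁻¹ = 1 := by rw [← map_mul, mul_inv_cancel, map_one]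
  have h3 : ρ u⁻¹ * ρ u = 1 := by rw [← map_mul, inv_mul_cancel, map_one]
  calc ρ u * star X = ρ u * star X * (ρ u⁻¹ * ρ u) := by rw [h3, mul_one]
    _ = ρ u * (star X * ρ u⁻¹) * ρ u := by simp only [mul_assoc]
    _ = star X * ρ u := by rw [h1, ← mul_assoc, h2, one_mul]

theorem ql (h : St p φ ρ q π π') (g : H) (B : Matrix ι ι K) :
    q (ρ g) * π B = π ((φ g).1 * B) := h.str.mul_left g B

theorem qr (h : St p φ ρ q π π') (g : H) (B : Matrix ι ι K) :
    π B * q (ρ g) = π (B * (φ g).1) := h.str.mul_right g B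

theorem ql' (h : St p φ ρ q π π') (g : H) (B : Matrix ι ι K) :
    q (ρ g) * π' B = π' (B * (φ g⁻¹).1) := h.str.mul_left' g B

theorem qr' (h : St p φ ρ q π π') (g : H) (B : Matrix ι ι K) :
    π' B * q (ρ g) = π' ((φ g⁻¹).1 * B) := h.str.mul_right' g B

theorem pl (h : St p φ ρ q π π') (g : H) (n : ℕ) (B : Matrix ι ι K) :
    q ((ρ g - 1) ^ n) * π B = π (((φ g).1 - 1) ^ n * B) := by
  induction n with
  | zero => simp
  | succ n ih =>
    rw [pow_succ', map_mul, mul_assoc, ih, map_sub, map_one, sub_mul, ql h, one_mul, ← map_sub,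
      pow_succ', mul_assoc, sub_mul, one_mul]

theorem pr (h : St p φ ρ q π π') (g : H) (n : ℕ) (B : Matrix ι ι K) :
    π B * q ((ρ g - 1) ^ n) = π (B * ((φ g).1 - 1) ^ n) := by
  induction n with
  | zero => simp
  | succ n ih =>
    rw [pow_succ, map_mul, ← mul_assoc, ih, map_sub, map_one, mul_sub, qr h, mul_one, ← map_sub,
      pow_succ, ← mul_assoc, mul_sub, mul_one]

theorem pl' (h : St p φ ρ q π π') (g : H) (n : ℕ) (B : Matrix ι ι K) :
    q ((ρ g - 1) ^ n) * π' B = π' (B * ((φ g⁻¹).1 - 1) ^ n) := by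
  induction n with
  | zero => simp
  | succ n ih =>
    rw [pow_succ', map_mul, mul_assoc, ih, map_sub, map_one, sub_mul, ql' h, one_mul, ← map_sub,
      pow_succ, ← mul_assoc, mul_sub, mul_one]

theorem pr' (h : St p φ ρ q π π') (g : H) (n : ℕ) (B : Matrix ι ι K) :
    π' B * q ((ρ g - 1) ^ n) = π' (((φ g⁻¹).1 - 1) ^ n * B) := by
  induction n with
  | zero => simp
  | succ n ih =>
    rw [pow_succ, map_mul, ← mul_assoc, ih, map_sub, map_one, mul_sub, qr' h, mul_one, ← map_sub,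
      pow_succ', mul_assoc, sub_mul, one_mul]

theorem tb_nil (h : St p φ ρ q π π') {u : H} {s : ℕ} (hu : (ρ u - 1) ^ (s + 1) = 0) :
    ((φ u).1 - 1) ^ (s + 1) = 0 := by
  have := pl h u (s + 1) 1
  rw [hu, map_zero, zero_mul, mul_one] at this
  exact h.pinj (by rw [← this, map_zero])

theorem q_Nn (h : St p φ ρ q π π') (u : H) (s : ℕ) {b : A} {r : Matrix ι ι K} (hb : q b = π r) :
    q (Nn (ρ u - 1) s b) = π (Nn ((φ u).1 - 1) s r) := by
  unfold Nn
  rw [map_sum, map_sum]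
  refine Finset.sum_congr rfl fun i _ => ?_
  rw [map_mul, map_mul, hb, pl h, pr h]

theorem comm_NN {u : H} {s : ℕ} (hu : (ρ u - 1) ^ (s + 1) = 0) (e : ℕ) (b : A) :
    Commute (ρ u) (Nn (ρ u - 1) s b * ρ u⁻¹ ^ e) := by
  refine Commute.mul_right ?_ (Commute.pow_right ?_ _)
  · have := (comm_Nn hu b).add_left (Commute.one_left _)
    rwa [sub_add_cancel] at this
  · exact ((Commute.refl u).inv_right).map ρ

theorem lift_comm (h : St p φ ρ q π π') (hι : 3 ≤ Fintype.card ι) {u : H} {s e : ℕ}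
    (hu : (ρ u - 1) ^ (s + 1) = 0)
    (he : ∀ b ∈ Bd ρ (Op p H), Nn (ρ u - 1) s b * ρ u⁻¹ ^ e ∈ Bd ρ (Op p H)) {ξ : Matrix ι ι K}
    (hξ : ∃ r, ξ = Nn ((φ u).1 - 1) s r) :
    ∃ X ∈ Bd ρ (Op p H), q X = π ξ ∧ Commute (ρ u) X := by
  obtain ⟨r, rfl⟩ := hξ
  obtain ⟨b, hb, hq⟩ := h.lift hι (r * (φ (u ^ e)).1)
  refine ⟨_, he b hb, ?_, comm_NN hu e b⟩
  have hc : Commute ((φ u).1 - 1) (φ (u ^ e)).1 :=
    Commute.sub_left (comm_coe φ ((Commute.refl u).pow_right e)) (Commute.one_left _)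
  rw [map_mul, q_Nn h u s hq, ← map_pow, qr h, Nn_mul hc, mul_assoc, cm, inv_pow, mul_inv_cancel,
    c1, mul_one]

/-- Products through a factor of class zero vanish in the first case. -/
theorem zero_of (h3 : ∀ a ∈ Ad ρ (Op p H), q a = 0 → a ∈ Jd ρ φ.ker (Op p H))
    (h0 : Bd ρ (Op p H) * Jd ρ φ.ker (Op p H) * Bd ρ (Op p H) = ⊥) {x w w' y : A}
    (hx : x ∈ Bd ρ (Op p H)) (hw : w ∈ Bd ρ (Op p H)) (hw' : w' ∈ Bd ρ (Op p H))
    (hy : y ∈ Bd ρ (Op p H)) (hq : q w * q w' = 0) : x * w * (w' * y) = 0 := by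
  have : x * (w * w') * y ∈ Bd ρ (Op p H) * Jd ρ φ.ker (Op p H) * Bd ρ (Op p H) :=
    Submodule.mul_mem_mul (Submodule.mul_mem_mul hx
      (h3 _ (Ad_mul (Bd_le_Ad hw) (Bd_le_Ad hw')) (by rw [map_mul, hq]))) hy
  rw [h0, Submodule.mem_bot] at this
  rw [← this]
  simp only [mul_assoc]

theorem cross (h : St p φ ρ q π π') (hι : 3 ≤ Fintype.card ι)
    (h3 : ∀ a ∈ Ad ρ (Op p H), q a = 0 → a ∈ Jd ρ φ.ker (Op p H))
    (h0 : Bd ρ (Op p H) * Jd ρ φ.ker (Op p H) * Bd ρ (Op p H) = ⊥) {X C Y X' C' Y' : A}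
    (hX : X ∈ Bd ρ (Op p H)) (hC : C ∈ Bd ρ (Op p H)) (hY : Y ∈ Bd ρ (Op p H))
    (hX' : X' ∈ Bd ρ (Op p H)) (hC' : C' ∈ Bd ρ (Op p H)) (hY' : Y' ∈ Bd ρ (Op p H))
    {a b a' b' : Matrix ι ι K} (qX : q X = π a) (qY : q Y = π b) (qX' : q X' = π a')
    (qY' : q Y' = π b') (e1 : b * a' = 0) (e2 : b' * a = 0) :
    (X * C * Y - star (X * C * Y)) * (X' * C' * Y' - star (X' * C' * Y')) = 0 := by
  have sB : ∀ {a : A}, a ∈ Bd ρ (Op p H) → star a ∈ Bd ρ (Op p H) := star_mem_Bd h.star_eq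
  have mB : ∀ {a b : A}, a ∈ Bd ρ (Op p H) → b ∈ Bd ρ (Op p H) → a * b ∈ Bd ρ (Op p H) :=
    fun ha hb => Ad_mul_Bd (Bd_le_Ad ha) hb
  have z1 := zero_of h3 h0 (mB hX hC) hY hX' (mB hC' hY')
    (by rw [qY, qX', ← h.str.mul, e1, map_zero])
  have z2 := zero_of h3 h0 (mB hX hC) hY (sB hY') (mB (sB hC') (sB hX'))
    (by rw [qY, h.q_star hι qY', h.str.orth])
  have z3 := zero_of h3 h0 (mB (sB hY) (sB hC)) (sB hX) hX' (mB hC' hY')
    (by rw [qX', h.q_star hι qX, h.str.orth'])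
  have z4 := zero_of h3 h0 (mB (sB hY) (sB hC)) (sB hX) (sB hY') (mB (sB hC') (sB hX'))
    (by rw [h.q_star hι qX, h.q_star hι qY', ← h.str.anti, e2, map_zero])
  simp only [star_mul, mul_assoc, sub_mul, mul_sub] at z1 z2 z3 z4 ⊢
  rw [z1, z2, z3, z4]
  simp

theorem q_diff (h : St p φ ρ q π π') (hι : 3 ≤ Fintype.card ι) {X C Y : A}
    {a b c : Matrix ι ι K} (qX : q X = π a) (qC : q C = π c) (qY : q Y = π b) (e1 : a * c = c)
    (e2 : c * b = c) : q (X * C * Y - star (X * C * Y)) = π c - π' c := by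
  have : q (X * C * Y) = π c := by
    rw [map_mul, map_mul, qX, qC, qY, ← h.str.mul, ← h.str.mul, e1, e2]
  rw [map_sub, this, h.q_star hι this]

theorem diff_mul (h : St p φ ρ q π π') (c c' : Matrix ι ι K) :
    (π c - π' c) * (π c' - π' c') = π (c * c') + π' (c' * c) := by
  rw [sub_mul, mul_sub, mul_sub, h.str.orth, h.str.orth', h.str.mul, h.str.anti]
  simp

end St

section Alpha
variable {p : ℕ} [Fact p.Prime] {ι K : Type} [Fintype ι] [DecidableEq ι] [Field K] [Finite K]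
  [CharP K p] {H : Type} [Group H] [Finite H] {A E : Type} [Ring A] [StarRing A] [Ring E]
  {φ : H →* SL ι K} {ρ : H →* A} {q : A →+* E} {π π' : Matrix ι ι K →+ E}

theorem card_le {B : Matrix ι ι K} {n : ℕ} (h : n ≤ B.rank) : n ≤ Fintype.card ι :=
  h.trans (rank_le_card_width B)

theorem ne_of_rank {B : Matrix ι ι K} {n : ℕ} (h : n + 1 ≤ B.rank) : B ≠ 0 := by
  rintro rfl
  rw [rank_zero] at h
  omega

theorem alpha (h1 : BigStmt) (h2 : StarStmt) (h3 : BlockStmt) (h : St p φ ρ q π π') (u : H)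
    (s d : ℕ) (hu : (ρ u - 1) ^ (s + 1) = 0)
    (hr : 2 * (d + s) + 6 ≤ (((φ u).1 - 1) ^ s).rank)
    (h0 : Bd ρ (Op p H) * Jd ρ φ.ker (Op p H) * Bd ρ (Op p H) = ⊥) : Alpha p u d := by
  have hι6 : 6 ≤ Fintype.card ι := card_le (le_trans (by omega) hr)
  have hι : 3 ≤ Fintype.card ι := by omega
  obtain ⟨b1, -, b3⟩ := h1 p ι K H A E φ ρ q π π' h hι6
  obtain ⟨e, he⟩ := h2 p ι K H A E φ ρ q π π' h hι s u hu
    (ne_of_rank (n := 0) (le_trans (by omega) hr))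
  have he' := (he ⊥ (by simp +contextual)).1
  obtain ⟨θ, t1, t2, t3, t4⟩ := h3 ι K ((φ u).1 - 1) s ((d + 1) + (d + 1)) (tb_nil h hu)
    (le_trans (by omega) hr)
  choose X XB Xq Xc using fun a b => lift_comm h hι hu he' (t1 a b)
  have key : ∀ a b, a ≠ b → ∃ g, ρ g = 1 + X a a * X a b * X b b - star (X a a * X a b * X b b) :=
    fun a b hab => b1 h0 _ (XB a a) _ (XB a b) _ (XB b b) _ _ _ (Xq a a) (Xq a b) (Xq b b)
      (t2 _ _ _) (t2 _ _ _) (t3 _ _ _ _ hab.symm)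
  have hne : ∀ k l : Fin (d + 1), Fin.castAdd (d + 1) k ≠ Fin.natAdd (d + 1) l := by
    intro k l hkl
    have := congrArg Fin.val hkl
    simp only [Fin.val_castAdd, Fin.val_natAdd] at this
    omega
  choose G hG using key
  have hG' : ∀ a b (hab : a ≠ b),
      ρ (G a b hab) - 1 = X a a * X a b * X b b - star (X a a * X a b * X b b) := by
    intro a b hab
    rw [hG]
    abel
  have hq : ∀ a b (hab : a ≠ b), q (ρ (G a b hab) - 1) = π (θ a b) - π' (θ a b) := by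
    intro a b hab
    rw [hG']
    exact q_diff h hι (Xq a a) (Xq a b) (Xq b b) (t2 _ _ _) (t2 _ _ _)
  have hcu : ∀ a b (hab : a ≠ b), Commute u (G a b hab) := by
    intro a b hab
    have c := ((Xc a a).mul_right (Xc a b)).mul_right (Xc b b)
    refine comm_of h ?_
    rw [hG]
    exact ((Commute.one_right _).add_right c).sub_right (comm_star h c)
  have hz : ∀ a b (hab : a ≠ b) a' b' (hab' : a' ≠ b'), b ≠ a' → b' ≠ a →
      (ρ (G a b hab) - 1) * (ρ (G a' b' hab') - 1) = 0 := by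
    intro a b hab a' b' hab' n1 n2
    rw [hG', hG']
    exact cross h hι b3 h0 (XB _ _) (XB _ _) (XB _ _) (XB _ _) (XB _ _) (XB _ _) (Xq _ _) (Xq _ _)
      (Xq _ _) (Xq _ _) (t3 _ _ _ _ n1) (t3 _ _ _ _ n2)
  refine ⟨fun k => G _ _ (hne k k), fun k => G _ _ (hne k k).symm, fun k => ⟨?_, hcu _ _ _,
    hcu _ _ _⟩, fun k l hkl => ?_, fun k hc => ?_⟩
  · refine pel_of h (IsNilpotent.of_pow (m := 2) (h.nil_of_q ?_))
    rw [pow_two, map_mul, hq, diff_mul h, t3 _ _ _ _ (hne k k).symm, map_zero, map_zero, add_zero]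
  · have n1 : Fin.natAdd (d + 1) k ≠ Fin.natAdd (d + 1) l := fun e => hkl (by
      have := congrArg Fin.val e
      simp only [Fin.val_natAdd] at this
      exact Fin.ext (by omega))
    have n2 : Fin.castAdd (d + 1) l ≠ Fin.castAdd (d + 1) k := fun e => hkl (by
      have := congrArg Fin.val e
      simp only [Fin.val_castAdd] at this
      exact Fin.ext (by omega))
    have c : Commute (ρ (G _ _ (hne k k)) - 1) (ρ (G _ _ (hne l l).symm) - 1) := by
      rw [Commute, SemiconjBy, hz _ _ _ _ _ _ n1 n2, hz _ _ _ _ _ _ n2 n1]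
    refine comm_of h ?_
    have := (c.add_left (Commute.one_left _)).add_right (Commute.one_right _)
    rwa [sub_add_cancel, sub_add_cancel] at this
  · have c : Commute (ρ (G _ _ (hne k k)) - 1) (ρ (G _ _ (hne k k).symm) - 1) :=
      ((hc.map ρ).sub_left (Commute.one_left _)).sub_right (Commute.one_right _)
    have c' := congrArg (fun x => π 1 * q x) c.eq
    simp only [map_mul, hq, diff_mul h, t2, mul_add, h.str.orth, add_zero, ← h.str.mul,
      one_mul] at c'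
    have c'' := h.pinj c'
    refine t4 (Fin.castAdd (d + 1) k) ?_
    rw [← t2 _ (Fin.castAdd (d + 1) k) _]
    nth_rewrite 2 [c'']
    rw [t3 _ _ _ _ (hne k k), mul_zero]

end Alpha

section Ideal
variable {H A : Type} [Group H] [Ring A] {ρ : H →* A} {P S : Subgroup H} {k : ℕ}

/-- The last nonzero layer. -/
abbrev II (ρ : H →* A) (P S : Subgroup H) (k : ℕ) : Submodule ℤ A :=
  Bd ρ S * Jd ρ P S ^ (k + 1) * Bd ρ S

theorem I_mem {b j b' : A} (hb : b ∈ Bd ρ S) (hj : j ∈ Jd ρ P S ^ (k + 1)) (hb' : b' ∈ Bd ρ S) :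
    b * j * b' ∈ II ρ P S k :=
  Submodule.mul_mem_mul (Submodule.mul_mem_mul hb hj) hb'

theorem I_ind {T : A → Prop}
    (h0 : ∀ b ∈ Bd ρ S, ∀ j ∈ Jd ρ P S ^ (k + 1), ∀ b' ∈ Bd ρ S, T (b * j * b'))
    (hadd : ∀ x y, T x → T y → T (x + y)) {m : A} (hm : m ∈ II ρ P S k) : T m :=
  Submodule.mul_induction_on hm (fun x hx b' hb' =>
    Submodule.mul_induction_on (C := fun x => T (x * b')) hx
      (fun b hb j hj => h0 b hb j hj b' hb')
      (fun x y hx hy => by rw [add_mul]; exact hadd _ _ hx hy)) hadd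

theorem I_left {a m : A} (ha : a ∈ Ad ρ S) (hm : m ∈ II ρ P S k) : a * m ∈ II ρ P S k := by
  refine I_ind (T := fun m => a * m ∈ II ρ P S k) (fun b hb j hj b' hb' => ?_)
    (fun x y hx hy => ?_) hm
  · rw [← mul_assoc, ← mul_assoc]
    exact I_mem (Ad_mul_Bd ha hb) hj hb'
  · rw [mul_add]
    exact add_mem hx hy

theorem I_right {a m : A} (hm : m ∈ II ρ P S k) (ha : a ∈ Ad ρ S) : m * a ∈ II ρ P S k := by
  refine I_ind (T := fun m => m * a ∈ II ρ P S k) (fun b hb j hj b' hb' => ?_)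
    (fun x y hx hy => ?_) hm
  · rw [mul_assoc]
    exact I_mem hb hj (Bd_mul_Ad hb' ha)
  · rw [add_mul]
    exact add_mem hx hy

theorem I_le [P.Normal] {m : A} (hm : m ∈ II ρ P S k) : m ∈ Jd ρ P S ^ (k + 1) :=
  I_ind (T := fun m => m ∈ Jd ρ P S ^ (k + 1))
    (fun _ hb _ hj _ hb' => Jd_pow_mul_Ad (Ad_mul_Jd_pow (Bd_le_Ad hb) hj) (Bd_le_Ad hb'))
    (fun _ _ hx hy => add_mem hx hy) hm

theorem I_mul [P.Normal] (h0 : II ρ P S (k + 1) = ⊥) {m m' : A} (hm : m ∈ II ρ P S k)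
    (hm' : m' ∈ II ρ P S k) : m * m' = 0 := by
  refine I_ind (T := fun m => m * m' = 0) (fun b hb j hj b' hb' => ?_)
    (fun x y hx hy => by rw [add_mul, hx, hy, add_zero]) hm
  refine I_ind (T := fun m' => b * j * b' * m' = 0) (fun c hc j' hj' c' hc' => ?_)
    (fun x y hx hy => by rw [mul_add, hx, hy, add_zero]) hm'
  have h1 : b' * c * j' ∈ Jd ρ P S ^ (0 + 1) :=
    Jd_pow_anti (Nat.zero_le k) (Ad_mul_Jd_pow (Ad_mul (Bd_le_Ad hb') (Bd_le_Ad hc)) hj')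
  have h2 : b * (j * (b' * c * j')) * c' ∈ II ρ P S (k + 1) := I_mem hb (Jd_pow_mul hj h1) hc'
  rw [h0, Submodule.mem_bot] at h2
  rw [← h2]
  simp only [mul_assoc]

theorem I_conj [P.Normal] [S.Normal] (g : H) {m : A} (hm : m ∈ II ρ P S k) :
    ρ g * m * ρ g⁻¹ ∈ II ρ P S k :=
  conj_mem_mul g (fun _ ha => conj_mem_mul g (fun _ => conj_mem_Bd g)
    (fun _ => conj_mem_Jd_pow g) ha) (fun _ => conj_mem_Bd g) hm

theorem I_star [StarRing A] [P.Normal] (hs : ∀ g, star (ρ g) = ρ g⁻¹) {m : A}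
    (hm : m ∈ II ρ P S k) : star m ∈ II ρ P S k := by
  refine I_ind (T := fun m => star m ∈ II ρ P S k) (fun b hb j hj b' hb' => ?_)
    (fun x y hx hy => ?_) hm
  · rw [star_mul, star_mul, ← mul_assoc]
    exact I_mem (star_mem_Bd hs hb') (star_mem_Jd_pow hs hj) (star_mem_Bd hs hb)
  · rw [star_add]
    exact add_mem hx hy

theorem I_span [P.Normal] {f : A} (hf : ∀ b ∈ Bd ρ S,
      b ∈ Submodule.span ℤ {x | ∃ a ∈ Ad ρ S, ∃ a' ∈ Ad ρ S, x = a * f * a'})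
    (X : Submodule ℤ A) (hl : ∀ a, ∀ x ∈ X, a * x ∈ X) (hr : ∀ a, ∀ x ∈ X, x * a ∈ X)
    (hX : ∀ j ∈ Jd ρ P S ^ (k + 1), f * j * f ∈ X) : II ρ P S k ≤ X := by
  intro m hm
  refine I_ind (T := fun m => m ∈ X) (fun b hb j hj b' hb' => ?_)
    (fun x y hx hy => add_mem hx hy) hm
  have h1 := hf b hb
  have h2 := hf b' hb'
  clear hb hb' hm
  induction h1 using Submodule.span_induction with
  | mem x hx =>
    obtain ⟨a, ha, a', ha', rfl⟩ := hx
    induction h2 using Submodule.span_induction with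
    | mem y hy =>
      obtain ⟨c, hc, c', hc', rfl⟩ := hy
      have := hr c' _ (hl a _ (hX _ (Jd_pow_mul_Ad (Ad_mul_Jd_pow ha' hj) hc)))
      simpa only [mul_assoc] using this
    | zero => simp
    | add x y _ _ hx hy => rw [mul_add]; exact add_mem hx hy
    | smul c x _ hx => rw [mul_smul_comm]; exact X.smul_mem c hx
  | zero => simp
  | add x y _ _ hx hy => rw [add_mul, add_mul]; exact add_mem hx hy
  | smul c x _ hx => rw [smul_mul_assoc, smul_mul_assoc]; exact X.smul_mem c hx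

theorem Jd_pow_mono {S' : Subgroup H} (h : S ≤ S') (k : ℕ) : Jd ρ P S ^ k ≤ Jd ρ P S' ^ k := by
  induction k with
  | zero => simp
  | succ k ih =>
    rw [Submodule.pow_succ, Submodule.pow_succ]
    exact mul_le_mul' ih (Jd_mono h)

theorem exists_last {T : ℕ → Prop} (h0 : T 0) {L : ℕ} (hL : ¬ T L) : ∃ l, T l ∧ ¬ T (l + 1) := by
  by_contra hc
  push Not at hc
  refine hL ?_
  clear hL
  induction L with
  | zero => exact h0
  | succ L ih => exact hc L ih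

end Ideal

section Beta
variable {p : ℕ} [Fact p.Prime] {ι K : Type} [Fintype ι] [DecidableEq ι] [Field K]
  {H : Type} [Group H] [Finite H] {A E : Type} [Ring A] [StarRing A] [Ring E]
  {φ : H →* SL ι K} {ρ : H →* A} {q : A →+* E} {π π' : Matrix ι ι K →+ E} {l : ℕ}

theorem Wl (h : St p φ ρ q π π') (a : A) {m : A} (hm : m ∈ Jd ρ φ.ker ⊤ ^ (l + 1)) :
    a * m ∈ Jd ρ φ.ker ⊤ ^ (l + 1) := Ad_mul_Jd_pow (h.mem_Ad a) hm

theorem Wr (h : St p φ ρ q π π') (a : A) {m : A} (hm : m ∈ Jd ρ φ.ker ⊤ ^ (l + 1)) :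
    m * a ∈ Jd ρ φ.ker ⊤ ^ (l + 1) := Jd_pow_mul_Ad hm (h.mem_Ad a)

theorem congr2 (h : St p φ ρ q π π') {a b c d m : A} (hab : q a = q b) (hcd : q c = q d)
    (hm : m ∈ Jd ρ φ.ker ⊤ ^ (l + 1)) (h1 : b * m * d ∈ Jd ρ φ.ker ⊤ ^ (l + 2)) :
    a * m * c ∈ Jd ρ φ.ker ⊤ ^ (l + 2) := by
  have e1 := Wr h c (h.mul_congr_left hab hm)
  have e2 := h.mul_congr_right hcd (Wl h b hm)
  have := add_mem (add_mem e1 e2) h1
  rwa [sub_mul, sub_add_sub_cancel, sub_add_cancel] at this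

theorem zero_left (h : St p φ ρ q π π') {a m : A} (ha : q a = 0)
    (hm : m ∈ Jd ρ φ.ker ⊤ ^ (l + 1)) (c : A) : a * m * c ∈ Jd ρ φ.ker ⊤ ^ (l + 2) :=
  congr2 h (b := 0) (d := c) (by rw [ha, map_zero]) rfl hm (by simp)

theorem gen_pi (h : St p φ ρ q π π') (hι : 3 ≤ Fintype.card ι) {x : A} {B : Matrix ι ι K}
    (hx : q x = π B) (hB : B ≠ 0) : ∃ c d : ι → A, (∀ i, c i ∈ Bd ρ (Op p H)) ∧
      (∀ i, d i ∈ Bd ρ (Op p H)) ∧ q (∑ i, c i * x * d i) = π 1 := by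
  obtain ⟨C, D, hCD⟩ := one_eq_sum hB
  choose c hc qc using fun i => h.lift hι (C i)
  choose d hd qd using fun i => h.lift hι (D i)
  refine ⟨c, d, hc, hd, ?_⟩
  rw [← hCD, map_sum, map_sum]
  refine Finset.sum_congr rfl fun i _ => ?_
  rw [map_mul, map_mul, qc, qd, hx, h.str.mul, h.str.mul]

theorem gen_pi' (h : St p φ ρ q π π') (hι : 3 ≤ Fintype.card ι) {x : A} {B : Matrix ι ι K}
    (hx : q x = π' B) (hB : B ≠ 0) : ∃ c d : ι → A, (∀ i, c i ∈ Bd ρ (Op p H)) ∧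
      (∀ i, d i ∈ Bd ρ (Op p H)) ∧ q (∑ i, c i * x * d i) = π' 1 := by
  obtain ⟨C, D, hCD⟩ := one_eq_sum hB
  choose c hc qc using fun i => h.lift' hι (D i)
  choose d hd qd using fun i => h.lift' hι (C i)
  refine ⟨c, d, hc, hd, ?_⟩
  rw [← hCD, map_sum, map_sum]
  refine Finset.sum_congr rfl fun i _ => ?_
  rw [map_mul, map_mul, qc, qd, hx, h.str.anti, h.str.anti, mul_assoc]

theorem expand (h : St p φ ρ q π π') {k : ℕ}
    (hl : II ρ φ.ker (Op p H) k ≤ Jd ρ φ.ker ⊤ ^ (l + 1)) {m e e' x x' : A}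
    (hm : m ∈ II ρ φ.ker (Op p H) k) (hne : e * m * e' ∉ Jd ρ φ.ker ⊤ ^ (l + 2))
    (hx : ∃ c d : ι → A, (∀ i, c i ∈ Bd ρ (Op p H)) ∧ (∀ i, d i ∈ Bd ρ (Op p H)) ∧
      q (∑ i, c i * x * d i) = q e)
    (hx' : ∃ c d : ι → A, (∀ i, c i ∈ Bd ρ (Op p H)) ∧ (∀ i, d i ∈ Bd ρ (Op p H)) ∧
      q (∑ i, c i * x' * d i) = q e') :
    ∃ m₁ ∈ II ρ φ.ker (Op p H) k, x * m₁ * x' ∉ Jd ρ φ.ker ⊤ ^ (l + 2) := by
  obtain ⟨c, d, -, hd, hq⟩ := hx
  obtain ⟨c', d', hc', -, hq'⟩ := hx'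
  by_contra hc
  push Not at hc
  refine hne (congr2 h hq.symm hq'.symm (hl hm) ?_)
  rw [Finset.sum_mul, Finset.sum_mul]
  refine Submodule.sum_mem _ fun i _ => ?_
  rw [Finset.mul_sum]
  refine Submodule.sum_mem _ fun j _ => ?_
  have := Wr h (d' j) (Wl h (c i)
    (hc _ (I_right (I_left (Bd_le_Ad (hd i)) hm) (Bd_le_Ad (hc' j)))))
  simpa only [mul_assoc] using this

/-- The final step of the non commutation argument. -/
theorem not_comm (h : St p φ ρ q π π') {a z : H} {X m Y L R Θ : A}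
    (hm : m ∈ Jd ρ φ.ker ⊤ ^ (l + 1)) (ha : ρ a = 1 + X * m * Y - star (X * m * Y))
    (q1 : q (L * ρ z * X) = q Θ) (q2 : q (L * ρ z * star Y) = 0) (q3 : q (L * X) = 0)
    (q4 : q (L * star Y) = 0) (hne : Θ * m * (Y * R) ∉ Jd ρ φ.ker ⊤ ^ (l + 2)) :
    ¬ Commute z a := by
  intro hc
  have hm' := star_mem_Jd_pow h.star_eq hm
  have e := (hc.map ρ).eq
  rw [ha, star_mul, star_mul] at e
  have e' : L * ρ z * X * m * (Y * R) = L * ρ z * star Y * star m * (star X * R) +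
      L * X * m * (Y * ρ z * R) - L * star Y * star m * (star X * ρ z * R) := by
    have := congrArg (fun w => L * w * R) e
    simp only [mul_sub, mul_add, sub_mul, add_mul, mul_assoc, mul_one, one_mul] at this ⊢
    linear_combination (norm := abel1) this
  refine hne (congr2 h q1.symm rfl hm ?_)
  rw [e']
  exact sub_mem (add_mem (zero_left h q2 hm' _) (zero_left h q3 hm _)) (zero_left h q4 hm' _)

variable [Finite K] [CharP K p]

theorem nc_main (h1 : BigStmt) (h2 : StarStmt) (h4 : NcStmt) (h : St p φ ρ q π π') (u : H)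
    (s : ℕ) (hu : (ρ u - 1) ^ (s + 1) = 0) (hr : 2 * s + 6 ≤ (((φ u).1 - 1) ^ s).rank) {k : ℕ}
    (hk : II ρ φ.ker (Op p H) (k + 1) = ⊥)
    (hl : II ρ φ.ker (Op p H) k ≤ Jd ρ φ.ker ⊤ ^ (l + 1)) {m f e : A}
    (hm : m ∈ II ρ φ.ker (Op p H) k) (hf : q f = π 1 + π' 1) (he : q e = π 1)
    (hne : e * m * f ∉ Jd ρ φ.ker ⊤ ^ (l + 2)) {z : H} (hz : Commute (φ u).1 (φ z).1)
    (hz1 : φ z ≠ 1)
    (hγ : ∀ γ : Matrix ι ι K, Commute γ (φ z).1 → γ * ((φ z).1 - 1) ≠ ((φ u).1 - 1) ^ s) :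
    ∃ a, ρ a - 1 ∈ II ρ φ.ker (Op p H) k ∧ Commute u a ∧ ¬ Commute z a := by
  have hι6 : 6 ≤ Fintype.card ι := card_le (le_trans (by omega) hr)
  have hι : 3 ≤ Fintype.card ι := by omega
  obtain ⟨-, b2, -⟩ := h1 p ι K H A E φ ρ q π π' h hι6
  obtain ⟨n, hn⟩ := h2 p ι K H A E φ ρ q π π' h hι s u hu
    (ne_of_rank (n := 0) (le_trans (by omega) hr))
  obtain ⟨hn1, hn2⟩ := hn (Jd ρ φ.ker (Op p H) ^ (k + 1)) (fun g _ => conj_mem_Jd_pow g)
  obtain ⟨θ, ξ, ψ, ξ', γ, ξ'', ψ', n1, n2, n3, n4, n5, n6, n7, n8, n9, n10, n11⟩ :=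
    h4 ι K ((φ u).1 - 1) (φ z).1 ((φ z)⁻¹).1 s (tb_nil h hu) (le_trans (by omega) hr)
      (inv_mul_coe _) (hz.sub_left (Commute.one_left _)) (fun e => hz1 (Subtype.ext e)) hγ
  obtain ⟨X, XB, Xq, Xc⟩ := lift_comm h hι hu hn1 n1
  obtain ⟨Y, YB, Yq, Yc⟩ := lift_comm h hι hu hn1 n2
  obtain ⟨Y', YB', Yq', Yc'⟩ := lift_comm h hι hu hn1 n3
  obtain ⟨Θ, -, Θq⟩ := h.lift hι θ
  obtain ⟨L, -, Lq⟩ := h.lift hι (γ * ψ)
  have hP : q (Θ * (ρ u - 1) ^ s) = π (θ * ((φ u).1 - 1) ^ s) := by rw [map_mul, Θq, pr h]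
  have hP0 : θ * ((φ u).1 - 1) ^ s ≠ 0 := by
    rwa [← (n4.pow_left s).eq]
  have gP := gen_pi h hι hP hP0
  rw [← he] at gP
  have q1 : q (L * ρ z * X) = q (Θ * (ρ u - 1) ^ s) := by
    rw [hP, map_mul, map_mul, Lq, Xq, qr h, ← h.str.mul, n9]
  have q3 : q (L * X) = 0 := by
    rw [map_mul, Lq, Xq, ← h.str.mul, mul_assoc, n6, mul_zero, map_zero]
  -- the common end of both cases
  have fin : ∀ (W R e' : A) (ζ : Matrix ι ι K), W ∈ Bd ρ (Op p H) → Commute (ρ u) W →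
      (q W = π ζ ∧ ζ * ξ = 0 ∨ q W = π' ζ) → q (L * ρ z * star W) = 0 → q (L * star W) = 0 →
      e * m * e' ∉ Jd ρ φ.ker ⊤ ^ (l + 2) →
      (∃ c d : ι → A, (∀ i, c i ∈ Bd ρ (Op p H)) ∧ (∀ i, d i ∈ Bd ρ (Op p H)) ∧
        q (∑ i, c i * ((ρ u - 1) ^ s * (ρ u⁻¹ ^ n * (W * R))) * d i) = q e') →
      ∃ a, ρ a - 1 ∈ II ρ φ.ker (Op p H) k ∧ Commute u a ∧ ¬ Commute z a := by
    intro W R e' ζ WB Wc Wq q2 q4 hne' gP'
    obtain ⟨m₁, hm₁, hne₁⟩ := expand h hl hm hne' gP gP'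
    have hM := hn2 m₁ hm₁
    obtain ⟨a, ha⟩ := b2 k hk X XB W WB _ (I_le hM) ξ ζ Xq Wq
    have hN := I_right (I_left (Bd_le_Ad XB) hM) (Bd_le_Ad WB)
    have hc := (Xc.mul_right (comm_NN hu n m₁)).mul_right Wc
    refine ⟨a, ?_, comm_of h ?_, not_comm h (R := R) (hl hM) ha q1 q2 q3 q4 ?_⟩
    · rw [ha, add_sub_assoc, add_sub_cancel_left]
      exact sub_mem hN (I_star h.star_eq hN)
    · rw [ha]
      exact ((Commute.one_right _).add_right hc).sub_right (comm_star h hc)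
    · rw [mul_assoc Θ, ← mul_assoc ((ρ u - 1) ^ s), pow_mul_Nn hu]
      simpa only [mul_assoc] using hne₁
  have hsum : q f = q (e + star e) := by rw [map_add, hf, he, h.q_star hι he]
  have hcase : e * m * e ∉ Jd ρ φ.ker ⊤ ^ (l + 2) ∨ e * m * star e ∉ Jd ρ φ.ker ⊤ ^ (l + 2) := by
    by_contra hc
    push Not at hc
    refine hne (congr2 h rfl hsum (hl hm) ?_)
    rw [mul_add]
    exact add_mem hc.1 hc.2
  have hcn : Commute ((φ u).1 - 1) (φ (u⁻¹ ^ n)).1 :=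
    Commute.sub_left (comm_coe φ ((Commute.refl u).inv_right.pow_right n)) (Commute.one_left _)
  rcases hcase with hc | hc
  · obtain ⟨R, -, Rq⟩ := h.lift hι ξ''
    refine fin Y R e ψ YB Yc (Or.inl ⟨Yq, n6⟩) ?_ ?_ hc ?_
    · rw [map_mul, map_mul, Lq, qr h, h.q_star hι Yq, h.str.orth]
    · rw [map_mul, Lq, h.q_star hι Yq, h.str.orth]
    · rw [he]
      refine gen_pi h hι (B := ((φ u).1 - 1) ^ s * ((φ (u⁻¹ ^ n)).1 * θ)) ?_ ?_
      · rw [map_mul, map_mul, map_mul, Yq, Rq, ← h.str.mul, n10, ← map_pow ρ, ql h, pl h]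
      · intro h0
        refine n5 ?_
        rw [← mul_assoc, (hcn.pow_left s).eq, mul_assoc] at h0
        exact (unit_coe _).mul_right_eq_zero.mp h0
  · obtain ⟨R, -, Rq⟩ := h.lift' hι (ψ' * (φ z).1)
    have Wq := h.q_star hι Yq'
    refine fin (star Y') R (star e) ξ' (star_mem_Bd h.star_eq YB') (comm_star h Yc') (Or.inr Wq)
      ?_ ?_ hc ?_
    · rw [star_star, map_mul, map_mul, Lq, qr h, Yq', ← h.str.mul, mul_assoc γ, mul_assoc γ, n8,
        mul_zero, map_zero]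
    · rw [star_star, map_mul, Lq, Yq', ← h.str.mul, mul_assoc γ, n7, mul_zero, map_zero]
    · rw [h.q_star hι he]
      refine gen_pi' h hι (B := θ * (φ (u⁻¹ ^ n)⁻¹).1 * ((φ u⁻¹).1 - 1) ^ s) ?_ ?_
      · rw [map_mul, map_mul, map_mul, Wq, Rq, ← h.str.anti, n11, ← map_pow ρ, ql' h, pl' h]
      · have hc1 : Commute (((φ u).1 - 1) ^ s) ((φ (u⁻¹ ^ n)⁻¹).1 * (-(φ u⁻¹).1) ^ s) := by
          refine Commute.pow_left (Commute.sub_left (Commute.mul_right (comm_coe φ ?_)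
            (Commute.pow_right (Commute.neg_right (comm_coe φ ?_)) _)) (Commute.one_left _)) _
          · exact ((Commute.refl u).inv_right.pow_right n).inv_right
          · exact (Commute.refl u).inv_right
        have hc2 := inv_sub_pow (φ u) s
        rw [← map_inv φ u] at hc2
        rw [hc2, mul_assoc θ, ← mul_assoc _ _ (((φ u).1 - 1) ^ s), ← hc1.eq, ← mul_assoc]
        intro h0
        exact hP0 (((unit_coe _).mul ((unit_coe (φ u⁻¹)).neg.pow s)).mul_left_eq_zero.mp h0)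

/-- The non commutation statement in both sign cases. -/
theorem nc (h1 : BigStmt) (h2 : StarStmt) (h4 : NcStmt) (h : St p φ ρ q π π') (u : H)
    (s : ℕ) (hu : (ρ u - 1) ^ (s + 1) = 0) (hr : 2 * s + 6 ≤ (((φ u).1 - 1) ^ s).rank) {k : ℕ}
    (hk : II ρ φ.ker (Op p H) (k + 1) = ⊥) (hk' : II ρ φ.ker (Op p H) k ≠ ⊥) {z : H}
    (hz : Commute (φ u).1 (φ z).1) (hz1 : φ z ≠ 1)
    (hγ : ∀ γ : Matrix ι ι K, γ * ((φ z).1 - 1) ≠ ((φ u).1 - 1) ^ s) :
    ∃ a, ρ a - 1 ∈ II ρ φ.ker (Op p H) k ∧ Commute u a ∧ ¬ Commute z a := by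
  have hι6 : 6 ≤ Fintype.card ι := card_le (le_trans (by omega) hr)
  have hι : 3 ≤ Fintype.card ι := by omega
  obtain ⟨L, hL⟩ := h.nil
  obtain ⟨l, hl, hl'⟩ := exists_last
    (T := fun l => II ρ φ.ker (Op p H) k ≤ Jd ρ φ.ker ⊤ ^ (l + 1)) (L := L)
    (fun m hm => Jd_pow_anti (Nat.zero_le k) (Jd_pow_mono le_top _ (I_le hm)))
    (fun hc => hk' (by rwa [Submodule.pow_succ, hL, Submodule.bot_mul, le_bot_iff] at hc))
  obtain ⟨f, fB, ff, -, fq, fs⟩ := h.exists_idem hι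
  obtain ⟨j, hj, hne⟩ : ∃ j ∈ Jd ρ φ.ker (Op p H) ^ (k + 1),
      f * j * f ∉ Jd ρ φ.ker ⊤ ^ (l + 2) := by
    by_contra hc
    push Not at hc
    exact hl' (I_span fs _ (fun a _ => Wl h a) (fun a _ => Wr h a) hc)
  have hm : f * j * f ∈ II ρ φ.ker (Op p H) k := I_mem fB hj fB
  obtain ⟨e, -, he⟩ := h.lift hι 1
  have he' := h.q_star hι he
  have hcase : e * (f * j * f) * f ∉ Jd ρ φ.ker ⊤ ^ (l + 2) ∨
      star e * (f * j * f) * f ∉ Jd ρ φ.ker ⊤ ^ (l + 2) := by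
    by_contra hc
    push Not at hc
    have := congr2 h (a := f) (b := e + star e) (c := f) (d := f)
      (by rw [map_add, fq, he, he']) rfl (hl hm)
      (by rw [add_mul, add_mul]; exact add_mem hc.1 hc.2)
    refine hne ?_
    rwa [← mul_assoc, ← mul_assoc, ff, mul_assoc _ f f, ff] at this
  rcases hcase with hc | hc
  · exact nc_main h1 h2 h4 h u s hu hr hk hl hm fq he hc hz hz1 fun γ _ => hγ γ
  · have hK : ((itr ι K).comp φ).ker = φ.ker := ker_itr_comp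
    have := nc_main (l := l) (k := k) (m := f * j * f) (f := f) (e := star e) (z := z) h1 h2 h4
      (h.flip hι) u s hu (hr.trans (rank_flip _ _)) (by rwa [hK]) (by rwa [hK]) (by rwa [hK])
      (by rw [fq, add_comm]; simp) (by rw [he']; simp) (by rwa [hK]) ?_ ?_ ?_
    · rwa [hK] at this
    · change Commute ((φ u)⁻¹).1ᵀ ((φ z)⁻¹).1ᵀ
      have hc : Commute (φ u) (φ z) := Subtype.ext hz.eq
      have hc' : ((φ z)⁻¹).1 * ((φ u)⁻¹).1 = ((φ u)⁻¹).1 * ((φ z)⁻¹).1 :=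
        congrArg Subtype.val hc.inv_inv.symm.eq
      rw [Commute, SemiconjBy, ← transpose_mul, ← transpose_mul, hc']
    · intro h0
      have : z ∈ ((itr ι K).comp φ).ker := h0
      rw [hK] at this
      exact hz1 this
    · intro γ hc h0
      change Commute γ ((φ z)⁻¹).1ᵀ at hc
      change γ * (((φ z)⁻¹).1ᵀ - 1) = (((φ u)⁻¹).1ᵀ - 1) ^ s at h0
      rw [(hc.sub_right (Commute.one_right _)).eq] at h0
      have hc' := congrArg transpose h0
      rw [transpose_mul, transpose_pow, transpose_sub, transpose_sub, transpose_transpose,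
        transpose_transpose, transpose_one] at hc'
      have e1 := inv_sub_pow (φ z) 1
      rw [pow_one, pow_one, pow_one] at e1
      refine hγ ((-(φ u).1) ^ s * γᵀ * -((φ z)⁻¹).1) ?_
      rw [sub_pow_eq (φ u) s, ← hc', e1]
      simp only [mul_assoc]

/-- The freeness statement. -/
theorem free (h : St p φ ρ q π π') (hι : 3 ≤ Fintype.card ι) (u : H) (s : ℕ)
    (hs : ((φ u).1 - 1) ^ s ≠ 0) {k : ℕ} (hk : II ρ φ.ker (Op p H) (k + 1) = ⊥) {F : Type}
    [Ring F] (χ : A →+* F) {m : A} (hm : m ∈ II ρ φ.ker (Op p H) k) {η : F}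
    (hη : ∀ g, Commute (χ (ρ g)) η) (h0 : χ m * η ≠ 0) (γ : F) :
    γ * χ m * η ≠ χ (ρ u - 1) ^ s * η := by
  intro hγ
  have hc : ∀ a, Commute (χ a) η := by
    intro a
    have ha := h.mem_Ad a
    induction ha using Submodule.span_induction with
    | mem x hx => obtain ⟨g, -, rfl⟩ := hx; exact hη g
    | zero => simp
    | add x y _ _ hx hy => rw [map_add]; exact hx.add_left hy
    | smul c x _ hx => rw [map_zsmul]; exact hx.smul_left c
  let X : Submodule ℤ A :=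
    { carrier := {a | χ a * η = 0}
      add_mem' := fun {a b} ha hb => by
        change χ (a + b) * η = 0
        rw [map_add, add_mul, ha, hb, add_zero]
      zero_mem' := by simp
      smul_mem' := fun c a ha => by
        change χ (c • a) * η = 0
        rw [map_zsmul, smul_mul_assoc, ha, smul_zero] }
  have hl : ∀ a, ∀ x ∈ X, a * x ∈ X := fun a x hx => by
    change χ (a * x) * η = 0
    rw [map_mul, mul_assoc, hx, mul_zero]
  have hr : ∀ a, ∀ x ∈ X, x * a ∈ X := fun a x hx => by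
    change χ (x * a) * η = 0
    rw [map_mul, mul_assoc, (hc a).eq, ← mul_assoc, hx, zero_mul]
  have ht : ∀ i ∈ II ρ φ.ker (Op p H) k, (ρ u - 1) ^ s * i ∈ X := fun i hi => by
    change χ ((ρ u - 1) ^ s * i) * η = 0
    rw [map_mul, map_pow, mul_assoc, (hc i).eq, ← mul_assoc, ← hγ, mul_assoc, ← (hc i).eq,
      mul_assoc, ← mul_assoc (χ m), ← map_mul, I_mul hk hm hi, map_zero, zero_mul, mul_zero]
  have hs' : ((φ u⁻¹).1 - 1) ^ s ≠ 0 := by
    intro e
    refine hs ?_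
    rw [sub_pow_eq, ← map_inv φ u, e, mul_zero]
  obtain ⟨y, hy, yq⟩ := h.gen hι (x := (ρ u - 1) ^ s) hs hs' (by rw [pr h, one_mul])
    (by rw [pr' h, mul_one])
  have hy' : ∀ i ∈ II ρ φ.ker (Op p H) k, y * i ∈ X := by
    intro i hi
    clear yq
    induction hy using Submodule.span_induction with
    | mem x hx =>
      obtain ⟨a, -, a', ha', rfl⟩ := hx
      have := hl a _ (ht _ (I_left (Bd_le_Ad ha') hi))
      simpa only [mul_assoc] using this
    | zero => simp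
    | add x y _ _ hx hy => rw [add_mul]; exact add_mem hx hy
    | smul c x _ hx => rw [smul_mul_assoc]; exact X.smul_mem c hx
  obtain ⟨f, fB, ff, -, fq, fs⟩ := h.exists_idem hι
  refine h0 (I_span fs X hl hr (fun j hj => ?_) hm)
  refine mem_of_one_sub (X := (X : Set A)) hl (h.nil_of_q (a := f - y) ?_) ?_
  · rw [map_sub, fq, yq, sub_self]
  · rw [sub_mul, ← mul_assoc f, ← mul_assoc f, ff, sub_sub_cancel]
    exact hy' _ (I_mem fB hj fB)

end Beta

end Core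

open _root_.Pool.Agent.Lib.MP_679d9b_al.PT.Core in
theorem coreStStmt (h1 : BigStmt) (h2 : StarStmt) (h3 : BlockStmt) (h4 : NcStmt) :
    CoreStStmt := by
  intro p _ ι K _ _ _ _ _ H _ _ A E _ _ _ φ ρ q π π' h u s d hu hr
  by_cases h0 : Bd ρ (Op p H) * Jd ρ φ.ker (Op p H) * Bd ρ (Op p H) = ⊥
  · exact Or.inl (alpha h1 h2 h3 h u s d hu hr h0)
  right
  have hr' : 2 * s + 6 ≤ (((φ u).1 - 1) ^ s).rank := le_trans (by omega) hr
  have hι : 3 ≤ Fintype.card ι := card_le (le_trans (by omega) hr)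
  obtain ⟨L, hL⟩ := h.nil
  obtain ⟨k, hk', hk⟩ := exists_last (T := fun k => II ρ φ.ker (Op p H) k ≠ ⊥) (L := L)
    (by simpa [II] using h0) (by
      refine not_not.mpr (le_bot_iff.mp fun m hm => ?_)
      have := Jd_pow_mono le_top _ (I_le hm)
      rwa [Submodule.pow_succ, hL, Submodule.bot_mul] at this)
  rw [not_not] at hk
  let N : Subgroup H :=
    { carrier := {g | ρ g - 1 ∈ II ρ φ.ker (Op p H) k}
      mul_mem' := fun {a b} ha hb => by
        change ρ (a * b) - 1 ∈ II ρ φ.ker (Op p H) k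
        have : ρ (a * b) - 1 = (ρ a - 1) * (ρ b - 1) + (ρ a - 1) + (ρ b - 1) := by
          rw [map_mul]; noncomm_ring
        rw [this, I_mul hk ha hb, zero_add]
        exact add_mem ha hb
      one_mem' := by simp
      inv_mem' := fun {a} ha => by
        change ρ a⁻¹ - 1 ∈ II ρ φ.ker (Op p H) k
        have := I_star h.star_eq ha
        rwa [star_sub, star_one, h.star_eq] at this }
  refine ⟨N, ⟨fun a ha g => ?_⟩, fun a => ?_, ?_, fun z hz hz1 hγ => ?_,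
    fun F _ χ w hw η hη hne γ => ?_⟩
  · change ρ (g * a * g⁻¹) - 1 ∈ II ρ φ.ker (Op p H) k
    have := I_conj g ha
    rwa [mul_sub, sub_mul, mul_one, ← map_mul, ← map_mul, ← map_mul, mul_inv_cancel,
      map_one] at this
  · obtain ⟨n, hn⟩ := pel_of h (g := a.1) ⟨2, by rw [pow_two]; exact I_mul hk a.2 a.2⟩
    exact ⟨n, Subtype.ext hn⟩
  · obtain ⟨θ, t1, t2, t3, t4⟩ := h3 ι K ((φ u).1 - 1) s 2 (tb_nil h hu) (le_trans (by omega) hr)
    have hd : (1 + θ 0 1).det = 1 :=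
      det_one_add_nil ⟨2, by rw [pow_two]; exact t3 _ _ _ _ (by decide)⟩
    obtain ⟨z, hz⟩ := h.surj ⟨1 + θ 0 1, hd⟩
    have hz' : (φ z).1 - 1 = θ 0 1 := by rw [hz]; exact add_sub_cancel_left _ _
    refine (nc h1 h2 h4 h u s hu hr' hk hk' (z := z) ?_ ?_ ?_).elim fun a ha hN => ?_
    · obtain ⟨r, hr⟩ := t1 0 1
      have := comm_Nn (tb_nil h hu) r
      rw [← hr, ← hz'] at this
      have := (this.add_left (Commute.one_left _)).add_right (Commute.one_right _)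
      rwa [sub_add_cancel, sub_add_cancel] at this
    · intro e
      refine t4 0 ?_
      have e' : (φ z).1 = 1 := congrArg Subtype.val e
      rw [← t2 0 1 0, ← hz', e', sub_self, zero_mul, mul_zero]
    · intro γ e
      refine t4 0 ?_
      rw [← e, hz', mul_assoc, t3 _ _ _ _ (by decide), mul_zero]
    · have : a ∈ N := ha.1
      rw [hN, Subgroup.mem_bot] at this
      exact ha.2.2 (this ▸ Commute.one_right z)
  · exact nc h1 h2 h4 h u s hu hr' hk hk' (comm_coe φ hz) hz1 hγ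
  · exact free h hι u s (ne_of_rank (n := 0) (le_trans (by omega) hr)) hk χ hw hη hne γ

end Pool.Agent.Lib.MP_679d9b_al.PT
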