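import Pool.Agent.Lib.MP_679d9b_al.PT.Basic
import Mathlib

-- part Pool.Agent.Lib.MP_679d9b_al.PT.Claim
section

/-!
Failure of degree one raises the dimension of the span of a `p`-group.
-/

set_option autoImplicit false

namespace Pool.Agent.Lib.MP_679d9b_al.PT

open Subgroup Matrix
open scoped commutatorElement

namespace Claim

section Gen
variable {p : ℕ} {H G : Type} [Group H] [Group G] {φ : H →* G}

lemma pel_map {M N : Type} [Monoid M] [Monoid N] (ψ : M →* N) {g : M} (h : PEl p g) :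
    PEl p (ψ g) := h.imp fun k hk => by rw [← map_pow, hk, map_one]

lemma pel_inv {g : H} (h : PEl p g) : PEl p g⁻¹ := h.imp fun k hk => by rw [inv_pow, hk, inv_one]

lemma pel_comm {a b : H} (ha : PEl p a) (hb : PEl p b) (h : Commute a b) : PEl p (a * b) := by
  obtain ⟨k, hk⟩ := ha
  obtain ⟨l, hl⟩ := hb
  refine ⟨k + l, ?_⟩
  rw [h.mul_pow, pow_add, pow_mul, hk, one_pow, one_mul, mul_comm, pow_mul, hl, one_pow]

lemma pel_conj (g : H) {v : H} (h : PEl p v) : PEl p (g * v * g⁻¹) :=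
  pel_map (MulAut.conj g).toMonoidHom h

lemma comm_le {C Y : Subgroup H} (h : ∀ c ∈ C, ∃ y ∈ Y, y⁻¹ * c ∈ center H) : ⁅C, C⁆ ≤ ⁅Y, Y⁆ := by
  have e : ∀ y z w : H, z ∈ center H → ⁅y * z, w⁆ = ⁅y, w⁆ := fun y z w hz => by
    rw [commutatorElement_def, commutatorElement_def, mul_assoc y z, ← mem_center_iff.1 hz w]
    group
  refine commutator_le.2 fun c hc d hd => ?_
  obtain ⟨y, hy, hz⟩ := h c hc
  obtain ⟨w, hw, hz'⟩ := h d hd
  rw [← mul_inv_cancel_left y c, e _ _ _ hz, ← commutatorElement_inv, ← mul_inv_cancel_left w d,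
    e _ _ _ hz', commutatorElement_inv]
  exact commutator_mem_commutator hy hw

lemma map_Y (hφ : Function.Surjective φ) {T : Subgroup G} (hT : ⁅T, T⁆ = T) :
    (⁅T.comap φ, T.comap φ⁆ : Subgroup H).map φ = T := by
  rw [map_commutator, map_comap_eq_self_of_surjective hφ, hT]

variable (hk : ∀ y, φ y = 1 → y ∈ center H ∧ QEl p y)
include hk

lemma perfect_Y (hφ : Function.Surjective φ) {T : Subgroup G} (hT : ⁅T, T⁆ = T) :
    Group.IsPerfect (⁅T.comap φ, T.comap φ⁆ : Subgroup H) := by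
  refine isPerfect_iff.2 (le_antisymm (commutator_le.2 fun a ha b hb => ?_)
    (comm_le fun c hc => ?_))
  · exact mul_mem (mul_mem (mul_mem ha hb) (inv_mem ha)) (inv_mem hb)
  · obtain ⟨y, hy, e⟩ : φ c ∈ (⁅T.comap φ, T.comap φ⁆ : Subgroup H).map φ := by
      rw [map_Y hφ hT]; exact hc
    exact ⟨y, hy, (hk _ (by rw [map_mul, map_inv, e, inv_mul_cancel])).1⟩

lemma commute_Y {T₁ T₂ : Subgroup G} (h : ∀ a ∈ T₁, ∀ b ∈ T₂, Commute a b) {a b : H}
    (ha : a ∈ (⁅T₁.comap φ, T₁.comap φ⁆ : Subgroup H))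
    (hb : b ∈ (⁅T₂.comap φ, T₂.comap φ⁆ : Subgroup H)) : Commute a b := by
  have h1 : ⁅T₁.comap φ, T₂.comap φ⁆ ≤ center H := commutator_le.2 fun a ha b hb =>
    (hk _ (by rw [map_commutatorElement]; exact (h _ ha _ hb).commutator_eq)).1
  have h2 : ⁅⁅T₁.comap φ, T₂.comap φ⁆, T₁.comap φ⁆ = ⊥ :=
    commutator_eq_bot_iff_le_centralizer.2 (h1.trans (center_le_centralizer _))
  have h3 := commutator_commutator_eq_bot_of_rotate h2 (by rwa [commutator_comm (T₂.comap φ)])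
  have h4 : b ∈ T₂.comap φ := (commutator_le.2 fun a ha b hb =>
    mul_mem (mul_mem (mul_mem ha hb) (inv_mem ha)) (inv_mem hb)) hb
  exact (commutator_eq_bot_iff_le_centralizer.1 h3 ha b h4).symm

lemma restrict {G₁ : Type} [Group G₁] {e : G₁ →* G} (he : Function.Injective e) {Y : Subgroup H}
    (hY : Y.map φ = e.range) : ∃ ψ : Y →* G₁, Function.Surjective ψ ∧ (∀ y, e (ψ y) = φ y) ∧
      ∀ y, ψ y = 1 → y ∈ center Y ∧ QEl p y := by
  have h1 : ∀ y : Y, ∃ a, e a = φ y := fun y => by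
    have : φ y ∈ e.range := hY ▸ mem_map_of_mem φ y.2
    exact this
  choose f hf using h1
  refine ⟨MonoidHom.mk' f fun a b => he (by simp [hf]), fun a => ?_, hf, fun y hy => ?_⟩
  · obtain ⟨y, hy, h⟩ : e a ∈ Y.map φ := hY ▸ ⟨a, rfl⟩
    exact ⟨⟨y, hy⟩, he ((hf _).trans h)⟩
  · have h2 : f y = 1 := hy
    obtain ⟨h3, m, h4, h5⟩ := hk y (by rw [← hf, h2, map_one])
    exact ⟨mem_center_iff.2 fun g => Subtype.ext (mem_center_iff.1 h3 g), m, h4, Subtype.ext h5⟩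

variable [Fact p.Prime]

lemma uniq {g g' : H} (hg : PEl p g) (hg' : PEl p g') (h : φ g = φ g') : g = g' := by
  obtain ⟨h1, h2⟩ := hk (g⁻¹ * g') (by rw [map_mul, map_inv, h, inv_mul_cancel])
  have h3 : Commute g⁻¹ g' := by
    have h4 : Commute g (g⁻¹ * g') := mem_center_iff.1 h1 g
    have := ((Commute.refl g).mul_right h4).inv_left
    rwa [mul_inv_cancel_left] at this
  exact inv_mul_eq_one.1 (eq_one_of_pel_qel (pel_comm (pel_inv hg) hg' h3) h2)

variable [Finite H]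

lemma pmul (U : Subgroup G) (hU : ∀ A ∈ U, PEl p A) {a b : H} (ha : PEl p a) (hb : PEl p b)
    (ha' : φ a ∈ U) (hb' : φ b ∈ U) : PEl p (a * b) :=
  pel_mul (U.comap φ) φ.ker (fun z hz d _ => (mem_center_iff.1 (hk z hz).1 d).symm)
    (fun d hd => (hU _ hd).imp fun k h => by rw [MonoidHom.mem_ker, map_pow, h]) ha' hb' ha hb

lemma lift_hom {F : Type} [Group F] (hF : IsPGroup p F) (Y : Subgroup H) (τ : F →* G)
    (h : ∀ f, τ f ∈ Y.map φ) : ∃ γ : F →* H, ∀ f, γ f ∈ Y ∧ PEl p (γ f) ∧ φ (γ f) = τ f := by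
  have h1 : ∀ f, ∃ g, g ∈ Y ∧ PEl p g ∧ φ g = τ f := fun f => by
    obtain ⟨y, hy, e⟩ := h f
    obtain ⟨a, ha, h2, h3⟩ := pel_lift φ (isOfFinOrder_of_finite y) (e ▸ pel_map τ (hF f))
    exact ⟨a, zpowers_le.2 hy ha, h2, h3.trans e⟩
  choose γ h2 h3 h4 using h1
  refine ⟨MonoidHom.mk' γ fun a b => uniq hk (h3 _) (pmul hk τ.range ?_ (h3 a) (h3 b)
    ⟨a, (h4 a).symm⟩ ⟨b, (h4 b).symm⟩) (by simp [h4]), fun f => ⟨h2 f, h3 f, h4 f⟩⟩
  rintro _ ⟨f, rfl⟩
  exact pel_map τ (hF f)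

end Gen

lemma eq_one_of_ker {p : ℕ} [Fact p.Prime] {ι K : Type} [Fintype ι] [DecidableEq ι] [Field K]
    [CharP K p] {H M : Type} [Group H] [Monoid M] {φ : H →* SL ι K}
    (hk : ∀ y, φ y = 1 → y ∈ center H ∧ QEl p y) (hφ : Function.Surjective φ)
    (hH : Group.IsPerfect H) (hι : 3 ≤ Fintype.card ι) (ω : H →* M) {b : H} (hb : ω b ≠ 1) {g : H}
    (hg : ω g = 1) (hg' : PEl p (φ g)) : φ g = 1 := by
  have : (ω.ker.map φ).Normal := Normal.map inferInstance φ hφ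
  rcases normal_eq hι (ω.ker.map φ) with h | h
  · exact center_pel (h (mem_map_of_mem φ hg)) hg'
  · have h1 : ⁅(⊤ : Subgroup H), ⊤⁆ ≤ ⁅ω.ker, ω.ker⁆ := comm_le fun c _ => by
      obtain ⟨y, hy, e⟩ : φ c ∈ ω.ker.map φ := h ▸ mem_top _
      exact ⟨y, hy, (hk _ (by rw [map_mul, map_inv, e, inv_mul_cancel])).1⟩
    exact absurd (commutator_le_left _ _ (h1 Group.IsPerfect.mem_commutator)) hb

lemma cdim_le {k : Type} [Field k] {F M N : Type} [Finite F] [AddCommGroup M] [Module k M]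
    [AddCommGroup N] [Module k N] (L : M →ₗ[k] N) (T : F → M) :
    cdim k (fun f => L (T f)) ≤ cdim k T := by
  have : Module.Finite k (Submodule.span k (Set.range T)) :=
    Module.Finite.span_of_finite k (Set.finite_range T)
  unfold cdim
  rw [Set.range_comp' L T, ← Submodule.map_span]
  exact Submodule.finrank_map_le _ _

lemma cdim_le_card {k : Type} [Field k] {F M : Type} [Finite F] [AddCommGroup M] [Module k M]
    (T : F → M) : cdim k T ≤ Nat.card F := by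
  have := Fintype.ofFinite F
  rw [Nat.card_eq_fintype_card]
  exact finrank_range_le_card T

section Lo
variable {ι₁ ι₂ K : Type} [Fintype ι₁] [DecidableEq ι₁] [Fintype ι₂] [DecidableEq ι₂] [Field K]

/-- Lower block triangular matrices with given diagonal blocks. -/
def Lo (A : SL (ι₁ ⊕ ι₂) K) (a : SL ι₁ K) (d : SL ι₂ K) : Prop :=
  ∃ B, A.1 = fromBlocks a.1 0 B d.1

variable {A A' : SL (ι₁ ⊕ ι₂) K} {a a' : SL ι₁ K} {d d' : SL ι₂ K}

lemma Lo.one : Lo (1 : SL (ι₁ ⊕ ι₂) K) 1 1 := ⟨0, fromBlocks_one.symm⟩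

lemma Lo.mul (h : Lo A a d) (h' : Lo A' a' d') : Lo (A * A') (a * a') (d * d') := by
  obtain ⟨B, h⟩ := h
  obtain ⟨B', h'⟩ := h'
  refine ⟨B * a'.1 + d.1 * B', ?_⟩
  change A.1 * A'.1 = fromBlocks (a.1 * a'.1) 0 _ (d.1 * d'.1)
  rw [h, h', fromBlocks_multiply]
  simp

lemma Lo.pow (h : Lo A a d) (n : ℕ) : Lo (A ^ n) (a ^ n) (d ^ n) := by
  induction n with
  | zero => simpa using Lo.one
  | succ n ih => simpa only [pow_succ] using ih.mul h

lemma Lo.inv (h : Lo A a d) : Lo A⁻¹ a⁻¹ d⁻¹ := by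
  obtain ⟨B, h⟩ := h
  have e1 : a.1 * (a⁻¹).1 = 1 := congrArg Subtype.val (mul_inv_cancel a)
  have e2 : d.1 * (d⁻¹).1 = 1 := congrArg Subtype.val (mul_inv_cancel d)
  have e3 : (A⁻¹).1 * A.1 = 1 := congrArg Subtype.val (inv_mul_cancel A)
  refine ⟨-((d⁻¹).1 * (B * (a⁻¹).1)), left_inv_eq_right_inv e3 ?_⟩
  rw [h, fromBlocks_multiply, ← fromBlocks_one, Matrix.mul_neg d.1, ← Matrix.mul_assoc d.1, e1, e2]
  simp

lemma Lo.pel {p : ℕ} [CharP K p] (h : Lo A a d) {k : ℕ} (ha : a ^ p ^ k = 1) (hd : d ^ p ^ k = 1) :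
    PEl p A := by
  obtain ⟨B, h1⟩ := h.pow (p ^ k)
  rw [ha, hd] at h1
  have h2 : ∀ n : ℕ, ((A ^ p ^ k) ^ n).1 = fromBlocks 1 0 (n • B) 1 := fun n => by
    induction n with
    | zero => simp
    | succ n ih =>
      rw [pow_succ]
      change ((A ^ p ^ k) ^ n).1 * (A ^ p ^ k).1 = _
      rw [ih, h1, fromBlocks_multiply]
      simp [add_smul]
  refine ⟨k + 1, Subtype.ext ?_⟩
  rw [pow_succ, pow_mul, h2, ← Nat.cast_smul_eq_nsmul K, CharP.cast_eq_zero, zero_smul,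
    fromBlocks_one]
  rfl

/-- The matrices with diagonal blocks given by one element of `F`. -/
def UF {F : Type} [Group F] (σ₁ : F →* SL ι₁ K) (σ₂ : F →* SL ι₂ K) :
    Subgroup (SL (ι₁ ⊕ ι₂) K) where
  carrier := {A | ∃ f, Lo A (σ₁ f) (σ₂ f)}
  one_mem' := ⟨1, by simpa using Lo.one⟩
  mul_mem' := fun ⟨f, h⟩ ⟨f', h'⟩ => ⟨f * f', by simpa only [map_mul] using h.mul h'⟩
  inv_mem' := fun ⟨f, h⟩ => ⟨f⁻¹, by simpa only [map_inv] using h.inv⟩

lemma UF_pel {p : ℕ} [CharP K p] {F : Type} [Group F] (hF : IsPGroup p F) (σ₁ : F →* SL ι₁ K)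
    (σ₂ : F →* SL ι₂ K) : ∀ A ∈ UF σ₁ σ₂, PEl p A := by
  rintro A ⟨f, h⟩
  obtain ⟨k, hk⟩ := hF f
  exact h.pel (k := k) (by rw [← map_pow, hk, map_one]) (by rw [← map_pow, hk, map_one])

lemma lo_L (a : SL ι₁ K) : Lo (blkL ι₂ a) a 1 := ⟨0, rfl⟩

lemma lo_R (d : SL ι₂ K) : Lo (blkR ι₁ d) 1 d := ⟨0, rfl⟩

lemma commute_LR (a : SL ι₁ K) (d : SL ι₂ K) : Commute (blkL ι₂ a) (blkR ι₁ d) := by
  refine Subtype.ext ?_
  change fromBlocks a.1 0 0 1 * fromBlocks 1 0 0 d.1 = fromBlocks 1 0 0 d.1 * fromBlocks a.1 0 0 1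
  simp [fromBlocks_multiply]

end Lo

variable (p : ℕ) [Fact p.Prime] (K : Type) [Field K] [Finite K] [CharP K p] (k : Type) [Field k]
  [IsAlgClosed k] [CharP k p] (F : Type) [Group F] [Finite F] (c : ℕ)

/-- The first inductive statement. -/
def A (r : ℕ) : Prop :=
  ∀ (ι : Type) [Fintype ι] [DecidableEq ι] (H : Type) [Group H] [Finite H] (φ : H →* SL ι K)
    (V : Type) [AddCommGroup V] [Module k V] [FiniteDimensional k V] (ω : H →* Module.End k V)
    (σ : F →* SL ι K) (T : F → Module.End k V),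
    Function.Surjective φ → Group.IsPerfect H → (∀ y, φ y = 1 → y ∈ center H ∧ QEl p y) →
    (∃ g, ω g ≠ 1) → Good K c r ι σ → (∀ f, ∃ g, PEl p g ∧ φ g = σ f ∧ T f = ω g) →
    min c r ≤ cdim k T

/-- The second inductive statement. -/
def A' (r : ℕ) : Prop :=
  ∀ (ι₁ ι₂ : Type)
    [Fintype ι₁] [DecidableEq ι₁] [Fintype ι₂] [DecidableEq ι₂] (H : Type) [Group H] [Finite H]
    (φ : H →* SL (ι₁ ⊕ ι₂) K) (V : Type) [AddCommGroup V] [Module k V] [FiniteDimensional k V]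
    (ω : H →* Module.End k V) (σ : F →* SL (ι₁ ⊕ ι₂) K) (σ₁ : F →* SL ι₁ K) (σ₂ : F →* SL ι₂ K)
    (T : F → Module.End k V), Function.Surjective φ → Group.IsPerfect H →
    (∀ y, φ y = 1 → y ∈ center H ∧ QEl p y) → 3 ≤ Fintype.card ι₁ → 3 ≤ Fintype.card ι₂ →
    Function.Injective σ₂ → (∀ f, ∃ B, (σ f).1 = fromBlocks (σ₁ f).1 0 B (σ₂ f).1) →
    Good K c r ι₁ σ₁ → (∀ f, ∃ g, PEl p g ∧ φ g = σ f ∧ T f = ω g) →
    ¬ Deg1 p φ ω (Finset.univ.map Function.Embedding.inl)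
      (Finset.univ.map Function.Embedding.inr) →
    min (Nat.card F) (min c r + 1) ≤ cdim k T

variable {p K k F c}

theorem step1 (h1 : StructStmt) (h2 : CfStmt) {r : ℕ} (h : A' p K k F c r) :
    A p K k F c (r + 1) := by
  intro ι _ _ H _ _ φ V _ _ _ ω σ T hφ hH hk hω hG hT
  obtain ⟨hc, ι₁, ι₂, _, _, _, _, P, P', σ₁, σ₂, e1, e2, c1, c2, hi, hB, hG⟩ := hG
  have hb := cj_surjective P P' e1 e2
  have hφ' : Function.Surjective ((cj P P' e1 e2).comp φ) := hb.2.comp hφ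
  have hk' : ∀ y, (cj P P' e1 e2).comp φ y = 1 → y ∈ center H ∧ QEl p y := fun y hy =>
    hk y (hb.1 (hy.trans (map_one _).symm))
  have hT' : ∀ f, ∃ g, PEl p g ∧ (cj P P' e1 e2).comp φ g = (cj P P' e1 e2).comp σ f ∧
      T f = ω g := fun f => (hT f).imp fun g hg => ⟨hg.1, congrArg (cj P P' e1 e2) hg.2.1, hg.2.2⟩
  by_cases hd : Deg1 p ((cj P P' e1 e2).comp φ) ω (Finset.univ.map Function.Embedding.inl)
      (Finset.univ.map Function.Embedding.inr)
  · obtain ⟨π, π', hs⟩ := h1 p _ K H _ _ ω _ _ hφ' hH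
      (by rw [← map_natCast (algebraMap k (Module.End k V)), CharP.cast_eq_zero, map_zero])
      (fun y g hy => (Commute.map (mem_center_iff.1 (hk' y hy).1 g) ω).symm)
      (by simp [Finset.disjoint_left]) (by simpa using c1) (by simpa using c2) hd
    have h3 := h2 _ K H k V _ ω π π' F ((cj P P' e1 e2).comp σ) T hs hω
      fun f => (hT' f).imp fun g hg => hg.2
    have h4 := cdim_le ((mulRightLinearMap ι K P).comp (mulLeftLinearMap _ K P'))
      fun f => (((cj P P' e1 e2).comp σ) f).1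
    have h5 : ∀ f, (mulRightLinearMap ι K P).comp (mulLeftLinearMap _ K P')
        (((cj P P' e1 e2).comp σ) f).1 = (σ f).1 := fun f => by
      change P' * (P * (σ f).1 * P') * P = _
      simp only [Matrix.mul_assoc, e2, Matrix.mul_one]
      rw [← Matrix.mul_assoc, e2, Matrix.one_mul]
    simp only [h5] at h4
    omega
  · have h3 := h ι₁ ι₂ H _ V ω ((cj P P' e1 e2).comp σ) σ₁ σ₂ T hφ' hH hk' c1 c2 hi hB hG hT' hd
    have h4 := cdim_le_card (k := K) fun f => (σ f).1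
    omega

theorem step2 (h3 : TensStmt) (h4 : SecStmt) (hF : IsPGroup p F) {r : ℕ} (h : A p K k F c r) :
    A' p K k F c r := by
  intro ι₁ ι₂ _ _ _ _ H _ _ φ V _ _ _ ω σ σ₁ σ₂ T hφ _ hk c1 c2 hi hB hG hT hd
  set H₁ := Ys φ (Finset.univ.map Function.Embedding.inl)
  set H₂ := Ys φ (Finset.univ.map Function.Embedding.inr)
  have t1 := tr_perfect (K := K) (S := Finset.univ.map (Function.Embedding.inl : ι₁ ↪ ι₁ ⊕ ι₂))
    (by simpa using c1)
  have t2 := tr_perfect (K := K) (S := Finset.univ.map (Function.Embedding.inr : ι₂ ↪ ι₁ ⊕ ι₂))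
    (by simpa using c2)
  have m1 : H₁.map φ = (blkL ι₂).range := (map_Y hφ t1).trans blkL_range.symm
  have m2 : H₂.map φ = (blkR ι₁).range := (map_Y hφ t2).trans blkR_range.symm
  have p1 : Group.IsPerfect H₁ := perfect_Y hk hφ t1
  have p2 : Group.IsPerfect H₂ := perfect_Y hk hφ t2
  have hc : ∀ a ∈ H₁, ∀ b ∈ H₂, Commute a b := fun a ha b hb => commute_Y hk (by
    rw [← blkL_range, ← blkR_range]
    rintro _ ⟨a, rfl⟩ _ ⟨d, rfl⟩
    exact commute_LR a d) ha hb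
  obtain ⟨φ₁, s1, f1, k1⟩ := restrict hk blkL_injective m1
  obtain ⟨φ₂, s2, f2, k2⟩ := restrict hk blkR_injective m2
  obtain ⟨γ₁, g1⟩ := lift_hom hk hF H₁ ((blkL ι₂).comp σ₁) fun f => m1 ▸ ⟨_, rfl⟩
  obtain ⟨γ₂, g2⟩ := lift_hom hk hF H₂ ((blkR ι₁).comp σ₂) fun f => m2 ▸ ⟨_, rfl⟩
  let V₀ : Subgroup H :=
    { carrier := {g | PEl p g ∧ Lo (φ g) 1 1}
      one_mem' := ⟨⟨0, by simp⟩, by simpa using Lo.one⟩
      mul_mem' := fun {a b} ha hb => ⟨pmul hk (UF (1 : F →* _) 1) (UF_pel hF _ _) ha.1 hb.1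
        ⟨1, ha.2⟩ ⟨1, hb.2⟩, by simpa using ha.2.mul hb.2⟩
      inv_mem' := fun {a} ha => ⟨pel_inv ha.1, by simpa using ha.2.inv⟩ }
  have cj0 : ∀ g a d, Lo (φ g) a d → ∀ v ∈ V₀, g * v * g⁻¹ ∈ V₀ := fun g a d hg v hv =>
    ⟨pel_conj g hv.1, by simpa using (hg.mul hv.2).mul hg.inv⟩
  have lo : ∀ a ∈ H₁, ∀ b ∈ H₂, ∃ x y, Lo (φ (a * b)) x y := fun a ha b hb =>
    ⟨_, _, by
      rw [map_mul, ← f1 ⟨a, ha⟩, ← f2 ⟨b, hb⟩]
      exact (lo_L _).mul (lo_R _)⟩
  let Ha : Subgroup H :=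
    { carrier := {g | ∃ v ∈ V₀, ∃ a ∈ H₁, ∃ b ∈ H₂, g = v * (a * b)}
      one_mem' := ⟨1, one_mem _, 1, one_mem _, 1, one_mem _, by simp⟩
      mul_mem' := by
        rintro _ _ ⟨v, hv, a, ha, b, hb, rfl⟩ ⟨v', hv', a', ha', b', hb', rfl⟩
        obtain ⟨x, y, hl⟩ := lo a ha b hb
        refine ⟨_, mul_mem hv (cj0 _ _ _ hl v' hv'), _, mul_mem ha ha', _, mul_mem hb hb', ?_⟩
        rw [← (hc a' ha' b hb).symm.mul_mul_mul_comm]
        group
      inv_mem' := by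
        rintro _ ⟨v, hv, a, ha, b, hb, rfl⟩
        obtain ⟨x, y, hl⟩ := lo _ (inv_mem ha) _ (inv_mem hb)
        refine ⟨_, cj0 _ _ _ hl _ (inv_mem hv), _, inv_mem ha, _, inv_mem hb, ?_⟩
        rw [(hc a ha b hb).eq]
        group }
  have l1 : H₁ ≤ Ha := fun a ha => ⟨1, one_mem _, a, ha, 1, one_mem _, by simp⟩
  have l2 : H₂ ≤ Ha := fun b hb => ⟨1, one_mem _, 1, one_mem _, b, hb, by simp⟩
  have l0 : V₀ ≤ Ha := fun v hv => ⟨v, hv, 1, one_mem _, 1, one_mem _, by simp⟩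
  simp only [Deg1, not_forall] at hd
  obtain ⟨a, ha, b, hb, -, -, hab⟩ := hd
  obtain ⟨V', _, _, _, _, ω', n1, n2, n3, -, n4⟩ :=
    h4 p k V Ha (ω.comp Ha.subtype) ⟨a, l1 ha⟩ ⟨b, l2 hb⟩ hab
  have z0 : ∀ v (hv : v ∈ V₀), ω' ⟨v, l0 hv⟩ = 1 := fun v hv =>
    n3 (V₀.comap Ha.subtype) ⟨by
      rintro v hv ⟨_, w, hw, a, ha, b, hb, rfl⟩
      obtain ⟨x, y, hl⟩ := lo a ha b hb
      exact cj0 (w * (a * b)) _ _ (by rw [map_mul]; exact hw.2.mul hl) _ hv⟩
      inferInstance (fun g => g.2.1.imp fun k hk => Subtype.ext (Subtype.ext hk)) _ hv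
  let ω₁ : H₁ →* Module.End k V' := ω'.comp (inclusion l1)
  let ω₂ : H₂ →* Module.End k V' := ω'.comp (inclusion l2)
  have dec : ∀ (g : Ha) v a b, v ∈ V₀ → ∀ (ha : a ∈ H₁) (hb : b ∈ H₂), (g : H) = v * (a * b) →
      ω' g = ω₁ ⟨a, ha⟩ * ω₂ ⟨b, hb⟩ := fun g v a b hv ha hb e => by
    have : g = ⟨v, l0 hv⟩ * (⟨a, l1 ha⟩ * ⟨b, l2 hb⟩) := Subtype.ext e
    rw [this, map_mul, map_mul, z0 v hv, one_mul]
    rfl
  have o1 : ω₁ ⟨a, ha⟩ ≠ 1 := fun e => n1 (by
    rw [show ω' ⟨a, l1 ha⟩ = 1 from e, sub_self, zero_mul]; exact IsNilpotent.zero)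
  have o2 : ω₂ ⟨b, hb⟩ ≠ 1 := fun e => n1 (by
    rw [show ω' ⟨b, l2 hb⟩ = 1 from e, sub_self, mul_zero]; exact IsNilpotent.zero)
  let T₁ : F →* Module.End k V' := ω₁.comp (γ₁.codRestrict H₁ fun f => (g1 f).1)
  let T₂ : F →* Module.End k V' := ω₂.comp (γ₂.codRestrict H₂ fun f => (g2 f).1)
  have a1 := h ι₁ H₁ φ₁ V' ω₁ σ₁ T₁ s1 p1 k1 ⟨_, o1⟩ hG fun f =>
    ⟨⟨γ₁ f, (g1 f).1⟩, (g1 f).2.1.imp fun k hk => Subtype.ext hk,
      blkL_injective ((f1 _).trans (g1 f).2.2), rfl⟩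
  have a2 := h3 p k V' (MonoidHom.mrange ω₁) (MonoidHom.mrange ω₂) F T₁ T₂ hF
    (by
      rintro _ ⟨a, rfl⟩ _ ⟨b, rfl⟩
      exact Commute.map (x := inclusion l1 a) (y := inclusion l2 b)
        (Subtype.ext (hc a a.2 b b.2)) ω')
    (fun U u1 u2 => n2 U (by
      rintro ⟨_, w, hw, a, ha, b, hb, rfl⟩ v hv
      rw [dec _ w a b hw ha hb rfl]
      exact u1 _ ⟨_, rfl⟩ _ (u2 _ ⟨_, rfl⟩ v hv)))
    (fun f => ⟨_, rfl⟩) (fun f => ⟨_, rfl⟩)
    ((injective_iff_map_eq_one T₂).2 fun f hf => by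
      have e : φ₂ ⟨γ₂ f, (g2 f).1⟩ = σ₂ f := blkR_injective ((f2 _).trans (g2 f).2.2)
      have := eq_one_of_ker k2 s2 p2 c2 ω₂ o2 (g := ⟨γ₂ f, (g2 f).1⟩) hf
        (e ▸ pel_map σ₂ (hF f))
      exact hi (by rw [← e, this, map_one]))
  choose g q1 q2 q3 using hT
  have hv : ∀ f, g f * (γ₁ f * γ₂ f)⁻¹ ∈ V₀ := fun f => by
    have b1 : Lo (φ (g f)) (σ₁ f) (σ₂ f) := q2 f ▸ hB f
    have b2 : Lo (φ (γ₁ f * γ₂ f)) (σ₁ f) (σ₂ f) := by
      rw [map_mul, (g1 f).2.2, (g2 f).2.2]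
      simpa using (lo_L (σ₁ f)).mul (lo_R (σ₂ f))
    exact ⟨pmul hk (UF σ₁ σ₂) (UF_pel hF _ _) (q1 f)
      (pel_inv (pel_comm (g1 f).2.1 (g2 f).2.1 (hc _ (g1 f).1 _ (g2 f).1))) ⟨f, b1⟩
      (by rw [map_inv]; exact inv_mem ⟨f, b2⟩), by
        rw [map_mul, map_inv]; simpa using b1.mul b2.inv⟩
  have a3 := n4 F fun f => ⟨g f, _, hv f, _, (g1 f).1, _, (g2 f).1, (inv_mul_cancel_right _ _).symm⟩
  have e1 : ∀ f m, ω' ⟨g f, m⟩ = T₁ f * T₂ f := fun f m =>
    dec _ _ _ _ (hv f) (g1 f).1 (g2 f).1 (inv_mul_cancel_right _ _).symm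
  have e2 : ∀ f m, ω.comp Ha.subtype ⟨g f, m⟩ = T f := fun f m => (q3 f).symm
  simp only [e1, e2] at a3
  exact (min_le_min_left _ (Nat.succ_le_succ a1)).trans (a2.trans a3)

end Claim

theorem claimStmt (h1 : StructStmt) (h2 : CfStmt) (h3 : TensStmt) (h4 : SecStmt) : ClaimStmt := by
  intro p _ K _ _ _ k _ _ _ F _ _ c r ι₁ ι₂ _ _ _ _ H _ _ φ V _ _ _ ω σ σ₁ σ₂ T hF
  have h : ∀ r, Claim.A p K k F c r := fun r => by
    induction r with
    | zero => intro _ _ _ _ _ _ _ _ _ _ _ _ _ _ _ _ _ _ _ _; simp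
    | succ r ih => exact Claim.step1 h1 h2 (Claim.step2 h3 h4 hF ih)
  exact Claim.step2 h3 h4 hF (h r) ι₁ ι₂ H φ V ω σ σ₁ σ₂ T

end Pool.Agent.Lib.MP_679d9b_al.PT
end

-- part Pool.Agent.Lib.MP_679d9b_al.PT.Dich
section

/-!
Degree one modulo a nilpotent ideal, and the dichotomy.
-/

set_option autoImplicit false
set_option linter.unusedSectionVars false

namespace Pool.Agent.Lib.MP_679d9b_al.PT

open Subgroup Matrix
open scoped commutatorElement TensorProduct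

namespace Dich

section Quot
variable {p : ℕ} [Fact p.Prime] {H E : Type} [Group H] [Ring E]

/-- The quotient of the ring spanned by `ρ` by the nilpotent ideal of a normal `p`-subgroup. -/
theorem ring_quot [Finite H] (hp : (p : E) = 0) (ρ : H →* E) (P : Subgroup H) [P.Normal]
    (hP : IsPGroup p P) :
    ∃ (A B : Type) (_ : Ring A) (_ : Ring B) (v : A →+* E) (q : A →+* B) (ρA : H →* A),
      Function.Injective v ∧ (∀ g, v (ρA g) = ρ g) ∧ (∀ y ∈ P, q (ρA y) = 1) ∧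
      ∀ x, IsNilpotent (q x) → IsNilpotent x := by
  let A := Subring.closure (Set.range ρ)
  let ρA : H →* A := ρ.codRestrict A fun g => Subring.subset_closure ⟨g, rfl⟩
  have hA : ∀ a : A, a ∈ Ad ρA ⊤ := by
    rintro ⟨a, ha⟩
    induction ha using Subring.closure_induction with
    | mem x hx =>
      obtain ⟨g, rfl⟩ := hx
      exact rho_mem_Ad (ρ := ρA) (mem_top g)
    | zero => exact (Ad ρA ⊤).zero_mem
    | one => exact one_mem_Ad
    | add x y _ _ hx hy => exact (Ad ρA ⊤).add_mem hx hy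
    | neg x _ hx => exact (Ad ρA ⊤).neg_mem hx
    | mul x y _ _ hx hy => exact Ad_mul hx hy
  let I : Ideal A :=
    { carrier := Jd ρA P ⊤
      add_mem' := fun ha hb => (Jd ρA P ⊤).add_mem ha hb
      zero_mem' := (Jd ρA P ⊤).zero_mem
      smul_mem' := fun c _ hx => Ad_mul_Jd (hA c) hx }
  have : I.IsTwoSided := ⟨fun b ha => Jd_mul_Ad ha (hA b)⟩
  have hpA : (p : A) = 0 := Subtype.ext (by simpa using hp)
  obtain ⟨L, hL⟩ := nil_aug hpA ρA P hP
  refine ⟨A, A ⧸ I, inferInstance, inferInstance, A.subtype, Ideal.Quotient.mk I, ρA,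
    Subtype.val_injective, fun _ => rfl, fun y hy => ?_, fun x ⟨n, hn⟩ => ?_⟩
  · have h1 : ρA y - 1 ∈ I := sub_one_mem_Jd hy (mem_top y)
    rw [← Ideal.Quotient.eq_zero_iff_mem, map_sub, map_one, sub_eq_zero] at h1
    exact h1
  · rw [← map_pow, Ideal.Quotient.eq_zero_iff_mem] at hn
    have h1 : (x ^ n) ^ L ∈ Jd ρA P ⊤ ^ L := Submodule.pow_mem_pow (Jd ρA P ⊤) hn L
    rw [hL, Submodule.mem_bot, ← pow_mul] at h1
    exact ⟨_, h1⟩

theorem nil_of_inj {A B : Type} [Ring A] [Ring B] (v : A →+* B) (hv : Function.Injective v)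
    {x : A} (h : IsNilpotent (v x)) : IsNilpotent x := by
  obtain ⟨n, hn⟩ := h
  exact ⟨n, hv (by rw [map_pow, hn, map_zero])⟩

theorem qel_map {M M' : Type} [Monoid M] [Monoid M'] (ψ : M →* M') {g : M} (h : QEl p g) :
    QEl p (ψ g) := by
  obtain ⟨m, h1, h2⟩ := h
  exact ⟨m, h1, by rw [← map_pow, h2, map_one]⟩

theorem pel_map {M M' : Type} [Monoid M] [Monoid M'] (ψ : M →* M') {g : M} (h : PEl p g) :
    PEl p (ψ g) := by
  obtain ⟨m, h2⟩ := h
  exact ⟨m, by rw [← map_pow, h2, map_one]⟩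

theorem commute_of_comm {M : Type} [Monoid M] (ψ : H →* M) {y g : H} (h : ψ ⁅y, g⁆ = 1) :
    Commute (ψ y) (ψ g) := by
  have : y * g = ⁅y, g⁆ * (g * y) := by simp [commutatorElement_def, mul_assoc]
  change ψ y * ψ g = ψ g * ψ y
  rw [← map_mul, this, map_mul, h, one_mul, map_mul]

/-- Pull back of the `p`-group condition along an injective map. -/
theorem pgroup_comm {T : Type} [Group T] (i : H →* T) (hi : Function.Injective i)
    {N R : Subgroup H} {N' R' : Subgroup T} (h1 : N.map i ≤ N') (h2 : R.map i ≤ R')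
    (h : IsPGroup p (⁅N', R'⁆ : Subgroup T)) : IsPGroup p (⁅N, R⁆ : Subgroup H) := by
  rintro ⟨x, hx⟩
  have h3 : i x ∈ (⁅N', R'⁆ : Subgroup T) := by
    have := mem_map_of_mem i hx
    rw [map_commutator] at this
    exact commutator_mono h1 h2 this
  obtain ⟨k, hk⟩ := h ⟨i x, h3⟩
  refine ⟨k, Subtype.ext (hi ?_)⟩
  simpa using congrArg Subtype.val hk

end Quot

section Mat
variable {ι K : Type} [Fintype ι] [DecidableEq ι] [Field K]

theorem inv_sub_mul {A B : SL ι K} (h : (A.1 - 1) * (B.1 - 1) = 0) :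
    ((A⁻¹).1 - 1) * ((B⁻¹).1 - 1) = 0 := by
  have a : (A⁻¹).1 * A.1 = 1 := congrArg Subtype.val (inv_mul_cancel A)
  have b : B.1 * (B⁻¹).1 = 1 := congrArg Subtype.val (mul_inv_cancel B)
  have e1 : (A⁻¹).1 - 1 = -((A⁻¹).1 * (A.1 - 1)) := by rw [mul_sub, a, mul_one, neg_sub]
  have e2 : (B⁻¹).1 - 1 = -((B.1 - 1) * (B⁻¹).1) := by rw [sub_mul, b, one_mul, neg_sub]
  rw [e1, e2, neg_mul_neg, mul_assoc, ← mul_assoc (A.1 - 1), h, zero_mul, mul_zero]

theorem cj_sub_mul {ι' : Type} [Fintype ι'] [DecidableEq ι'] (P : Matrix ι' ι K)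
    (P' : Matrix ι ι' K) (h1 : P * P' = 1) (h2 : P' * P = 1) {A B : SL ι K}
    (h : (A.1 - 1) * (B.1 - 1) = 0) :
    ((cj P P' h1 h2 A).1 - 1) * ((cj P P' h1 h2 B).1 - 1) = 0 := by
  have e : ∀ C : SL ι K, (cj P P' h1 h2 C).1 - 1 = P * (C.1 - 1) * P' := fun C => by
    change P * C.1 * P' - 1 = _
    rw [Matrix.mul_sub, Matrix.sub_mul, Matrix.mul_one, h1]
  rw [e, e]
  calc P * (A.1 - 1) * P' * (P * (B.1 - 1) * P')
      = P * ((A.1 - 1) * (P' * P) * (B.1 - 1)) * P' := by simp only [Matrix.mul_assoc]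
    _ = 0 := by rw [h2, Matrix.mul_one, h, Matrix.mul_zero, Matrix.zero_mul]

theorem ys_map {H H' : Type} [Group H] [Group H'] (π : H →* H') (φ : H' →* SL ι K)
    (S : Finset ι) {a : H} (h : a ∈ Ys (φ.comp π) S) : π a ∈ Ys φ S := by
  have h1 := mem_map_of_mem π h
  have h2 : ((Tr K S).comap (φ.comp π)).map π ≤ (Tr K S).comap φ := by
    rintro _ ⟨x, hx, rfl⟩
    exact hx
  unfold Ys at h1
  rw [map_commutator] at h1
  exact commutator_mono h2 h2 h1

end Mat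

section Dim

theorem cdim_semi {k kb W M F : Type} [Field k] [Field kb] [Algebra k kb] [AddCommGroup W]
    [Module k W] [AddCommGroup M] [Module kb M] [Finite F] (T : F → W) (Λ : W →+ M)
    (hΛ : ∀ (l : k) w, Λ (l • w) = algebraMap k kb l • Λ w) :
    cdim kb (fun f => Λ (T f)) ≤ cdim k T := by
  have : FiniteDimensional k (Submodule.span k (Set.range T)) :=
    FiniteDimensional.span_of_finite k (Set.finite_range T)
  let b := Module.finBasis k (Submodule.span k (Set.range T))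
  let b' : Fin (cdim k T) → M := fun i => Λ (b i)
  have : FiniteDimensional kb (Submodule.span kb (Set.range b')) :=
    FiniteDimensional.span_of_finite kb (Set.finite_range b')
  have h1 : Submodule.span kb (Set.range fun f => Λ (T f)) ≤ Submodule.span kb (Set.range b') := by
    rw [Submodule.span_le]
    rintro _ ⟨f, rfl⟩
    have h2 := congrArg Subtype.val (b.sum_repr ⟨T f, Submodule.subset_span ⟨f, rfl⟩⟩)
    simp only [Submodule.coe_sum, Submodule.coe_smul] at h2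
    change Λ (T f) ∈ _
    rw [← h2, map_sum]
    refine Submodule.sum_mem _ fun i _ => ?_
    rw [hΛ]
    exact Submodule.smul_mem _ _ (Submodule.subset_span ⟨i, rfl⟩)
  have h3 := finrank_range_le_card (R := kb) b'
  rw [Fintype.card_fin] at h3
  exact (Submodule.finrank_mono h1).trans h3

theorem cdim_inj {k W M F : Type} [Field k] [AddCommGroup W] [Module k W] [AddCommGroup M]
    [Module k M] (T : F → W) (v : W →ₗ[k] M) (hv : Function.Injective v) :
    cdim k T = cdim k fun f => v (T f) := by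
  unfold cdim
  rw [(Submodule.equivMapOfInjective v hv _).finrank_eq, Submodule.map_span, ← Set.range_comp]
  rfl

theorem rep_of_alg {k kb W D H : Type} [Field k] [Field kb] [Algebra k kb] [Ring W] [Algebra k W]
    [Ring D] [Algebra kb D] [Group H] (ρ : H →* W) (u : W →+* D) (hu : Function.Injective u)
    (hs : ∀ (l : k) w, u (l • w) = algebraMap k kb l • u w) :
    ∃ ω : H →* Module.End kb D,
      (∀ a b, IsNilpotent ((ω a - 1) * (ω b - 1)) → IsNilpotent ((ρ a - 1) * (ρ b - 1))) ∧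
      ∀ (F : Type) [Finite F] (j : F → H), cdim kb (fun f => ω (j f)) ≤ cdim k fun f => ρ (j f) := by
  let Λ : W →+* Module.End kb D := (Algebra.lmul kb D : D →+* _).comp u
  have hΛ : Function.Injective Λ := Algebra.lmul_injective.comp hu
  refine ⟨(Λ : W →* _).comp ρ, fun a b h => nil_of_inj Λ hΛ ?_, fun F _ j =>
    cdim_semi (fun f => ρ (j f)) Λ.toAddMonoidHom fun l w => ?_⟩
  · rw [map_mul, map_sub, map_sub, map_one]
    exact h
  · change Algebra.lmul kb D (u (l • w)) = algebraMap k kb l • Algebra.lmul kb D (u w)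
    rw [hs, map_smul]

/-- A finite group in an algebra acts on a finite dimensional space over the algebraic closure. -/
theorem exists_rep {k E H : Type} [Field k] [Ring E] [Algebra k E] [Group H] [Finite H]
    (kb : Type) [Field kb] [Algebra k kb] (ρ : H →* E) :
    ∃ (V : Type) (_ : AddCommGroup V) (_ : Module kb V) (_ : FiniteDimensional kb V)
      (ω : H →* Module.End kb V),
      (∀ a b, IsNilpotent ((ω a - 1) * (ω b - 1)) → IsNilpotent ((ρ a - 1) * (ρ b - 1))) ∧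
      ∀ (F : Type) [Finite F] (j : F → H), cdim kb (fun f => ω (j f)) ≤ cdim k fun f => ρ (j f) := by
  let W := Algebra.adjoin k (Set.range ρ)
  have : FiniteDimensional k W := by
    have h1 : Subalgebra.toSubmodule W = Submodule.span k (Set.range ρ) := by
      rw [Algebra.adjoin_eq_span, ← MonoidHom.coe_mrange, Submonoid.closure_eq]
    have h2 : FiniteDimensional k (Subalgebra.toSubmodule W) := by
      rw [h1]
      exact FiniteDimensional.span_of_finite k (Set.finite_range ρ)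
    exact h2
  let ρW : H →* W := ρ.codRestrict W fun g => Algebra.subset_adjoin ⟨g, rfl⟩
  obtain ⟨ω, w1, w2⟩ := rep_of_alg (k := k) (kb := kb) ρW
    ((Algebra.TensorProduct.includeRight : W →ₐ[k] kb ⊗[k] W) : W →+* kb ⊗[k] W)
    (Algebra.TensorProduct.includeRight_injective (algebraMap k kb).injective) fun l w => by
      change (1 : kb) ⊗ₜ[k] (l • w) = algebraMap k kb l • ((1 : kb) ⊗ₜ[k] w)
      rw [TensorProduct.tmul_smul, algebraMap_smul]
  refine ⟨kb ⊗[k] W, inferInstance, inferInstance, inferInstance, ω, fun a b h => ?_,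
    fun F _ j => (w2 F j).trans
      (cdim_inj (fun f => ρW (j f)) W.val.toLinearMap Subtype.val_injective).le⟩
  have h1 := (w1 a b h).map W.val
  rw [map_mul, map_sub, map_sub, map_one] at h1
  exact h1

end Dim

section Core

theorem core (h3 : ClaimStmt) {p : ℕ} [Fact p.Prime] {K : Type} [Field K] [Finite K] [CharP K p]
    {k : Type} [Field k] [IsAlgClosed k] [CharP k p] {F : Type} [Group F] [Finite F] {c r : ℕ}
    {ι₁ ι₂ : Type} [Fintype ι₁] [DecidableEq ι₁] [Fintype ι₂] [DecidableEq ι₂] {T R : Type}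
    [Group T] [Finite T] [Group R] [Finite R] (i : R →* T) [i.range.Normal] (j : F →* T)
    (φ : T →* SL (ι₁ ⊕ ι₂) K) {V : Type} [AddCommGroup V] [Module k V] [FiniteDimensional k V]
    (ω : T →* Module.End k V) (σ₁ : F →* SL ι₁ K) (σ₂ : F →* SL ι₂ K) (hF : IsPGroup p F)
    (hφ : Function.Surjective (φ.comp i)) (hR : Group.IsPerfect R)
    (hT : ∀ g, ∃ n, g ^ p ^ n ∈ i.range) (hk : IsPGroup p (⁅φ.ker, i.range⁆ : Subgroup T))
    (hω : ∀ P : Subgroup T, P.Normal → Finite P → IsPGroup p P → ∀ y ∈ P, ω y = 1)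
    (c1 : 3 ≤ Fintype.card ι₁) (c2 : 3 ≤ Fintype.card ι₂) (hσ : Function.Injective σ₂)
    (hb : ∀ f, ∃ B, (φ (j f)).1 = fromBlocks (σ₁ f).1 0 B (σ₂ f).1) (hg : Good K c r ι₁ σ₁)
    (hd : ¬ Deg1 p (φ.comp i) (ω.comp i) (Finset.univ.map Function.Embedding.inl)
      (Finset.univ.map Function.Embedding.inr)) :
    min (Nat.card F) (min c r + 1) ≤ cdim k fun f => ω (j f) := by
  obtain ⟨P, hP, mP⟩ := exists_pk (p := p) φ.ker i.range (fun g _ => hT g) hk
  have pP : IsPGroup p P := fun ⟨g, hg⟩ => by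
    obtain ⟨n, hn⟩ := ((mP g).1 hg).2
    exact ⟨n, Subtype.ext hn⟩
  have t1 : ∀ y, φ y = 1 → PEl p y → ω y = 1 := fun y h1 h2 =>
    hω P hP inferInstance pP y ((mP y).2 ⟨h1, h2⟩)
  have t2 : ∀ y s, φ y = 1 → ω ⁅y, i s⁆ = 1 := fun y s h1 => by
    have h2 : ⁅y, i s⁆ ∈ (⁅φ.ker, i.range⁆ : Subgroup T) :=
      commutator_mem_commutator h1 ⟨s, rfl⟩
    obtain ⟨n, hn⟩ := hk ⟨_, h2⟩
    refine t1 _ ?_ ⟨n, congrArg Subtype.val hn⟩
    rw [map_commutatorElement, h1, commutatorElement_one_left]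
  have zk : ∀ n, φ n = 1 → ∀ a ∈ zpowers n, φ a = 1 := fun n hn a ha =>
    (zpowers_le.2 (show n ∈ φ.ker from hn)) ha
  let ψ : R →* SL (ι₁ ⊕ ι₂) K × (Module.End k V)ˣ := (φ.comp i).prod (ω.toHomUnits.comp i)
  let π := ψ.rangeRestrict
  have hπ : Function.Surjective π := ψ.rangeRestrict_surjective
  have : Finite ψ.range := Finite.of_surjective π hπ
  let φb : ψ.range →* SL (ι₁ ⊕ ι₂) K := (MonoidHom.fst _ _).comp ψ.range.subtype
  let ωb : ψ.range →* Module.End k V :=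
    (Units.coeHom _).comp ((MonoidHom.snd _ _).comp ψ.range.subtype)
  have e1 : ∀ s, φb (π s) = φ (i s) := fun _ => rfl
  have e2 : ∀ s, ωb (π s) = ω (i s) := fun _ => rfl
  have e3 : ∀ s, φ (i s) = 1 → ω (i s) = 1 → π s = 1 := fun s a b =>
    Subtype.ext (Prod.ext a (Units.ext b))
  refine h3 p K k F c r ι₁ ι₂ ψ.range φb V ωb (φ.comp j) σ₁ σ₂ _ hF (fun A => ?_)
    (Group.IsPerfect.ofSurjective hπ) (fun y hy => ?_) c1 c2 hσ hb hg (fun f => ?_)
    fun hd' => hd fun a ha b hb' qa qb => ?_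
  · obtain ⟨s, hs⟩ := hφ A
    exact ⟨π s, hs⟩
  · obtain ⟨s, rfl⟩ := hπ y
    rw [e1] at hy
    constructor
    · rw [mem_center_iff]
      intro g
      obtain ⟨s', rfl⟩ := hπ g
      refine (commute_of_comm π (e3 _ ?_ ?_)).symm
      · rw [map_commutatorElement, map_commutatorElement, hy, commutatorElement_one_left]
      · rw [map_commutatorElement]
        exact t2 _ _ hy
    · obtain ⟨a, ha, b, -, pa, qb, rfl⟩ := exists_pq (p := p) (isOfFinOrder_of_finite s)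
      have h1 : φ (i a) = 1 := (zpowers_le.2 (show _ ∈ (φ.comp i).ker from hy)) ha
      rw [map_mul, e3 a h1 (t1 _ h1 (pel_map i pa)), one_mul]
      exact qel_map π qb
  · obtain ⟨s0, hs0⟩ := hφ (φ (j f))
    have pf : PEl p f := hF f
    obtain ⟨s, -, ps, hs⟩ := pel_lift (p := p) (φ.comp i) (isOfFinOrder_of_finite s0)
      (by rw [hs0]; exact pel_map φ (pel_map j pf))
    have hs' : φ (i s) = φ (j f) := hs.trans hs0
    refine ⟨π s, pel_map π ps, hs', ?_⟩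
    rw [e2]
    have hn : φ (j f * (i s)⁻¹) = 1 := by rw [map_mul, map_inv, hs', mul_inv_cancel]
    obtain ⟨a, ha, b, hb', pa, qb, hab⟩ :=
      exists_pq (p := p) (isOfFinOrder_of_finite (j f * (i s)⁻¹))
    have h1 : ω (j f) = ω b * ω (i s) := by
      rw [mul_inv_eq_iff_eq_mul.1 hab, map_mul, map_mul, t1 a (zk _ hn a ha) pa, one_mul]
    have h2 : Commute (ω b) (ω (i s)) := commute_of_comm ω (t2 b s (zk _ hn b hb'))
    obtain ⟨n1, hn1⟩ := pel_map ω (pel_map j pf)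
    obtain ⟨n2, hn2⟩ := pel_map ω (pel_map i ps)
    have h4 : PEl p (ω b) := by
      refine ⟨n1 + n2, ?_⟩
      have a1 : ω (j f) ^ p ^ (n1 + n2) = 1 := by rw [pow_add, pow_mul, hn1, one_pow]
      have a2 : ω (i s) ^ p ^ (n1 + n2) = 1 := by rw [pow_add, mul_comm, pow_mul, hn2, one_pow]
      rwa [h1, h2.mul_pow, a2, mul_one] at a1
    rw [h1, eq_one_of_pel_qel h4 (qel_map ω qb), one_mul]
  · exact hd' (π a) (ys_map π φb _ ha) (π b) (ys_map π φb _ hb') (qel_map π qa) (qel_map π qb)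

end Core

end Dich

open Dich

theorem strnStmt (h : StructStmt) : StrnStmt := by
  intro p _ ι K _ _ _ H _ _ E _ φ ρ S₁ S₂ hφ hH hp hk hd c1 c2 hD
  obtain ⟨A, B, _, _, v, q, ρA, hv, e1, e2, e3⟩ := ring_quot hp ρ _ hk
  have hpA : (p : A) = 0 := hv (by rw [map_natCast, hp, map_zero])
  have up : ∀ a b, IsNilpotent ((q (ρA a) - 1) * (q (ρA b) - 1)) →
      IsNilpotent ((ρ a - 1) * (ρ b - 1)) := fun a b hn => by
    have h1 := (e3 ((ρA a - 1) * (ρA b - 1)) (by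
      simpa only [map_mul, map_sub, map_one] using hn)).map v
    simpa only [map_mul, map_sub, map_one, e1] using h1
  obtain ⟨π, π', hs⟩ := h p ι K H B φ ((q : A →* B).comp ρA) S₁ S₂ hφ hH
    (by rw [← map_natCast q, hpA, map_zero])
    (fun y g hy => commute_of_comm _ (e2 _ (commutator_mem_commutator hy (mem_top g)))) hd c1 c2
    fun a ha b hb qa qb => by
      have h1 := (nil_of_inj v hv (x := (ρA a - 1) * (ρA b - 1)) (by
        simpa only [map_mul, map_sub, map_one, e1] using hD a ha b hb qa qb)).map q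
      rw [map_mul, map_sub, map_sub, map_one] at h1
      exact h1
  have eq : ∀ g, q (ρA g) - 1 = π ((φ g).1 - 1) + π' ((φ g⁻¹).1 - 1) := fun g => by
    have := hs.eq g
    rw [add_assoc] at this
    exact sub_eq_of_eq_add' this
  refine ⟨fun g₁ g₂ a b => up _ _ ?_, ?_⟩
  · have b' := inv_sub_mul b
    rw [← map_inv, ← map_inv] at b'
    rw [eq, eq, add_mul, mul_add, mul_add, ← hs.mul, hs.orth, hs.orth', ← hs.anti, a, b']
    simp
  have one : ∀ g, ρ g = 1 → π ((φ g).1 - 1) + π' ((φ g⁻¹).1 - 1) = 0 := fun g hg => by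
    rw [← eq, hv (show v (ρA g) = v 1 by rw [e1, hg, map_one]), map_one, sub_self]
  by_cases h1 : π 1 = 0
  · by_cases h2 : π' 1 = 0
    · left
      have z1 : ∀ C, π C = 0 := fun C => by rw [← one_mul C, hs.mul, h1, zero_mul]
      have z2 : ∀ C, π' C = 0 := fun C => by rw [← one_mul C, hs.anti, h2, mul_zero]
      have h3 : (⊤ : Subgroup H) ≤ ρ.toHomUnits.ker := by
        refine le_of_qel (p := p) (Subgroup.commutator_eq_self (H := ⊤)) fun g _ hg => ?_
        have h4 : IsNilpotent (ρ g - 1) := by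
          have h5 := (e3 (ρA g - 1) (by
            rw [map_sub, map_one, eq, z1, z2, add_zero]; exact IsNilpotent.zero)).map v
          simpa only [map_sub, map_one, e1] using h5
        exact Units.ext (eq_one_of_pel_qel (pel_of_nil hp h4) (qel_map ρ hg))
      exact fun g => congrArg Units.val (h3 (mem_top g))
    · right
      intro g hg
      have h3 := congrArg (π' 1 * ·) (one g hg)
      simp only [mul_add, hs.orth', ← hs.anti, zero_add, mul_one, mul_zero] at h3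
      have h4 : (φ g⁻¹).1 - 1 = 0 := hs.inj_of_ne' h2 (by rw [h3, map_zero])
      have h5 : φ g⁻¹ = 1 := Subtype.ext (sub_eq_zero.1 h4)
      rwa [map_inv, inv_eq_one] at h5
  · right
    intro g hg
    have h3 := congrArg (π 1 * ·) (one g hg)
    simp only [mul_add, hs.orth, ← hs.mul, add_zero, one_mul, mul_zero] at h3
    have h4 : (φ g).1 - 1 = 0 := hs.inj_of_ne h1 (by rw [h3, map_zero])
    exact Subtype.ext (sub_eq_zero.1 h4)

theorem dichStmt (h1 : StructStmt) (h2 : SectStmt) (h3 : ClaimStmt) (h4 : SecStmt) :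
    DichStmt := by
  intro p _ m
  obtain ⟨N, hN⟩ := h2 p m (m + 1)
  refine ⟨N, fun ι K _ _ _ _ _ T _ φ R F _ _ _ k E _ _ _ _ ρ hφ hR hk hF hm hc hrk => ?_⟩
  obtain ⟨-, ι₁, ι₂, _, _, _, _, P, P', σ₁, σ₂, e1, e2, c1, c2, hσ, hb, hg⟩ :=
    hN F K _ ι _ hF hm hrk
  let φ' : T →* SL (ι₁ ⊕ ι₂) K := (cj P P' e1 e2).comp φ
  have bij := cj_surjective P P' e1 e2
  have ker : ∀ g, φ' g = 1 → φ g = 1 := fun g hg => bij.1 (by rw [map_one]; exact hg)
  have sur : Function.Surjective (φ'.comp R.subtype) := fun A => by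
    obtain ⟨B, rfl⟩ := bij.2 A
    obtain ⟨g, hg, rfl⟩ : B ∈ R.map φ := hφ ▸ mem_top B
    exact ⟨⟨g, hg⟩, rfl⟩
  have per : Group.IsPerfect R := Subgroup.isPerfect_iff.2 hR
  have hp : (p : E) = 0 := by rw [← map_natCast (algebraMap k E), CharP.cast_eq_zero, map_zero]
  have hD : Deg1 p (φ'.comp R.subtype) (ρ.comp R.subtype) (Finset.univ.map Function.Embedding.inl)
      (Finset.univ.map Function.Embedding.inr) := by
    intro a ha b hb' qa qb
    by_contra hn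
    have : Finite (R ⊔ F : Subgroup T) := by
      have : ((R ⊔ F : Subgroup T) : Set T).Finite := by
        rw [normal_mul]
        exact (Set.toFinite (R : Set T)).mul (Set.toFinite (F : Set T))
      exact this
    let i : R →* (R ⊔ F : Subgroup T) := inclusion le_sup_left
    let j : F →* (R ⊔ F : Subgroup T) := inclusion le_sup_right
    have ri : i.range = R.subgroupOf (R ⊔ F) := inclusion_range _
    have : i.range.Normal := ri ▸ inferInstance
    obtain ⟨V, _, _, _, ω, w1, w2⟩ :=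
      exists_rep (k := k) (AlgebraicClosure k) (ρ.comp (R ⊔ F).subtype)
    obtain ⟨V', _, _, _, _, ω', s1, -, s2, -, s3⟩ :=
      h4 p (AlgebraicClosure k) V (R ⊔ F : Subgroup T) ω (i a) (i b) fun h => hn (w1 _ _ h)
    have key := core h3 i j (φ'.comp (R ⊔ F).subtype) ω' σ₁ σ₂ hF sur per (fun g => ?_) ?_ s2 c1 c2
      hσ hb hg fun hd => s1 (hd a ha b hb' qa qb)
    · have k1 := (s3 F j).trans (w2 F j)
      have k2 : (cdim k fun f : F => (ρ.comp (R ⊔ F).subtype) (j f)) = cdim k fun f : F => ρ f :=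
        rfl
      omega
    · have hg' : (g : T) ∈ ((R ⊔ F : Subgroup T) : Set T) := g.2
      rw [normal_mul] at hg'
      obtain ⟨r, hr, f, hf, e⟩ := hg'
      obtain ⟨n, hn'⟩ := hF ⟨f, hf⟩
      refine ⟨n, ?_⟩
      rw [ri, mem_subgroupOf, ← QuotientGroup.eq_one_iff]
      have a1 : ((g : T) : T ⧸ R) = (f : T ⧸ R) := by
        rw [← e, QuotientGroup.mk_mul, (QuotientGroup.eq_one_iff r).2 hr, one_mul]
      have a2 : f ^ p ^ n = 1 := congrArg Subtype.val hn'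
      rw [SubgroupClass.coe_pow, QuotientGroup.mk_pow, a1, ← QuotientGroup.mk_pow, a2,
        QuotientGroup.mk_one]
    · refine pgroup_comm (R ⊔ F).subtype Subtype.val_injective ?_ ?_ hk
      · rintro _ ⟨x, hx, rfl⟩
        exact ker _ hx
      · rintro _ ⟨_, ⟨x, rfl⟩, rfl⟩
        exact x.2
  obtain ⟨r1, r2⟩ := strnStmt h1 p (ι₁ ⊕ ι₂) K R E (φ'.comp R.subtype) (ρ.comp R.subtype) _ _ sur
    per hp (by
      refine pgroup_comm R.subtype Subtype.val_injective ?_ ?_ hk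
      · rintro _ ⟨x, hx, rfl⟩
        exact ker _ hx
      · rintro _ ⟨x, -, rfl⟩
        exact x.2) (by
      rw [Finset.disjoint_left]
      intro x hx hx'
      obtain ⟨a, -, rfl⟩ := Finset.mem_map.1 hx
      obtain ⟨b, -, e⟩ := Finset.mem_map.1 hx'
      exact Sum.inr_ne_inl e) (by simpa using c1) (by simpa using c2) hD
  refine ⟨fun g₁ a₁ g₂ a₂ b₁ b₂ => r1 ⟨g₁, a₁⟩ ⟨g₂, a₂⟩ (cj_sub_mul P P' e1 e2 b₁)
    (cj_sub_mul P P' e1 e2 b₂), r2.imp (fun h g hg => h ⟨g, hg⟩) fun h g hg e => ker g (h ⟨g, hg⟩ e)⟩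

end Pool.Agent.Lib.MP_679d9b_al.PT
end
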