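import Pool.Agent.Lib.MP_679d9b_al.PT.Basic

/-!
Ultraproducts of almost representations of bounded rank give finitary linear representations.
-/

set_option autoImplicit false

namespace Pool.Agent.Lib.MP_679d9b_al.PT

open Filter Matrix

namespace FinU

section Ultra

variable {I : Type} (U : Ultrafilter I) (K : I → Type) [∀ i, Field (K i)] (V : I → Type)
  [∀ i, AddCommGroup (V i)] [∀ i, Module (K i) (V i)]

/-- Families of scalars that vanish almost everywhere. -/
def nullI : Ideal (∀ i, K i) where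
  carrier := {a | ∀ᶠ i in U, a i = 0}
  add_mem' := fun {a b} ha hb => by
    filter_upwards [ha, hb] with i h1 h2
    rw [Pi.add_apply, h1, h2, add_zero]
  zero_mem' := Eventually.of_forall fun _ => rfl
  smul_mem' := fun c {a} ha => by
    filter_upwards [ha] with i h1
    rw [smul_eq_mul, Pi.mul_apply, h1, mul_zero]

theorem nullI_max : (nullI U K).IsMaximal := by
  refine Ideal.isMaximal_iff.2 ⟨fun h => ?_, fun J x hJ hx hxJ => ?_⟩
  · obtain ⟨i, hi⟩ := Eventually.exists (f := (U : Filter I)) h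
    exact one_ne_zero (α := K i) hi
  · have h1 : ∀ᶠ i in U, x i ≠ 0 := Ultrafilter.eventually_not.2 hx
    have h2 : (1 - (fun i => (x i)⁻¹) * x : ∀ i, K i) ∈ nullI U K := by
      filter_upwards [h1] with i hi
      rw [Pi.sub_apply, Pi.mul_apply, Pi.one_apply, inv_mul_cancel₀ hi, sub_self]
    have h3 := J.add_mem (hJ h2) (J.mul_mem_left (fun i => (x i)⁻¹) hxJ)
    rwa [sub_add_cancel] at h3

/-- Families of vectors that vanish almost everywhere. -/
def nullM : Submodule (∀ i, K i) (∀ i, V i) where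
  carrier := {v | ∀ᶠ i in U, v i = 0}
  add_mem' := fun {a b} ha hb => by
    filter_upwards [ha, hb] with i h1 h2
    rw [Pi.add_apply, h1, h2, add_zero]
  zero_mem' := Eventually.of_forall fun _ => rfl
  smul_mem' := fun c {a} ha => by
    filter_upwards [ha] with i h1
    rw [Pi.smul_apply', h1, smul_zero]

theorem torsion :
    Module.IsTorsionBySet (∀ i, K i) ((∀ i, V i) ⧸ nullM U K V) (nullI U K) := by
  intro x a
  obtain ⟨v, rfl⟩ := Submodule.Quotient.mk_surjective _ x
  rw [← Submodule.Quotient.mk_smul, Submodule.Quotient.mk_eq_zero]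
  filter_upwards [a.2] with i hi
  rw [Pi.smul_apply', hi, zero_smul]

theorem mk_eq {v w : ∀ i, V i} :
    (Submodule.Quotient.mk v : (∀ i, V i) ⧸ nullM U K V) = Submodule.Quotient.mk w ↔
      ∀ᶠ i in U, v i = w i := by
  rw [Submodule.Quotient.eq]
  exact eventually_congr (Eventually.of_forall fun i => sub_eq_zero)

variable {K V}

/-- A family of linear maps acting on families of vectors. -/
def piMap (f : ∀ i, V i →ₗ[K i] V i) : (∀ i, V i) →ₗ[∀ i, K i] ∀ i, V i where
  toFun v i := f i (v i)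
  map_add' v w := funext fun i => map_add (f i) (v i) (w i)
  map_smul' c v := funext fun i => map_smul (f i) (c i) (v i)

/-- The induced map on the quotient. -/
def qMap (f : ∀ i, V i →ₗ[K i] V i) :
    ((∀ i, V i) ⧸ nullM U K V) →ₗ[∀ i, K i] (∀ i, V i) ⧸ nullM U K V :=
  (nullM U K V).mapQ (nullM U K V) (piMap f) fun v hv => by
    filter_upwards [hv] with i hi
    change f i (v i) = 0
    rw [hi, map_zero]

theorem qMap_mk (f : ∀ i, V i →ₗ[K i] V i) (v : ∀ i, V i) :
    qMap U f (Submodule.Quotient.mk v) = Submodule.Quotient.mk fun i => f i (v i) := rfl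

end Ultra

theorem exists_span {K V : Type} [Field K] [AddCommGroup V] [Module K V] [FiniteDimensional K V]
    (S : Submodule K V) (b : ℕ) (h : Module.finrank K S ≤ b) :
    ∃ v : Fin b → V, ∀ x ∈ S, ∃ c : Fin b → K, ∑ j, c j • v j = x := by
  let B := Module.finBasis K S
  let v : Fin b → V := fun j => if hj : j.val < Module.finrank K S then (B ⟨j, hj⟩ : V) else 0
  refine ⟨v, fun x hx => (Submodule.mem_span_range_iff_exists_fun K).1 ?_⟩
  rw [show x = S.subtype (∑ j, B.repr ⟨x, hx⟩ j • B j) by rw [B.sum_repr]; rfl, map_sum]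
  refine Submodule.sum_mem _ fun j _ => ?_
  rw [map_smul]
  refine Submodule.smul_mem _ _ (Submodule.subset_span ⟨⟨j, j.2.trans_le h⟩, ?_⟩)
  simp only [v, dif_pos j.2]
  rfl

theorem ultra (G : Type) [Group G] (I : Type) (U : Ultrafilter I) (K : I → Type)
    [∀ i, Field (K i)] (V : I → Type) [∀ i, AddCommGroup (V i)] [∀ i, Module (K i) (V i)]
    [∀ i, FiniteDimensional (K i) (V i)] (ρ : ∀ i, G → V i →ₗ[K i] V i)
    (hm : ∀ g h, ∀ᶠ i in U, ∀ x, ρ i (g * h) x = ρ i g (ρ i h x))
    (h1 : ∀ᶠ i in U, ∀ x, ρ i 1 x = x)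
    (hb : ∀ g, ∃ b : ℕ, ∀ᶠ i in U,
      Module.finrank (K i) (LinearMap.range (ρ i g - LinearMap.id)) ≤ b)
    (hne : ∀ g, g ≠ 1 → ∀ᶠ i in U, ∃ x, ρ i g x ≠ x) : Finitary G := by
  classical
  have := nullI_max U K
  let fK : Field ((∀ i, K i) ⧸ nullI U K) := Ideal.Quotient.field _
  let mV : Module ((∀ i, K i) ⧸ nullI U K) ((∀ i, V i) ⧸ nullM U K V) := (torsion U K V).module
  have sm : ∀ (c : ∀ i, K i) (x : (∀ i, V i) ⧸ nullM U K V),
      Ideal.Quotient.mk (nullI U K) c • x = c • x := (torsion U K V).mk_smul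
  let S : G → ((∀ i, V i) ⧸ nullM U K V) →ₗ[(∀ i, K i) ⧸ nullI U K] (∀ i, V i) ⧸ nullM U K V :=
    fun g =>
      { toFun := qMap U fun i => ρ i g
        map_add' := map_add _
        map_smul' := fun c x => by
          obtain ⟨c, rfl⟩ := Ideal.Quotient.mk_surjective c
          rw [RingHom.id_apply, sm, sm, map_smul] }
  have Smk : ∀ g v, S g (Submodule.Quotient.mk v) =
      Submodule.Quotient.mk fun i => ρ i g (v i) := fun _ _ => rfl
  have Smul : ∀ g h x, S (g * h) x = S g (S h x) := fun g h x => by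
    obtain ⟨v, rfl⟩ := Submodule.Quotient.mk_surjective _ x
    rw [Smk, Smk, Smk, mk_eq]
    filter_upwards [hm g h] with i hi using hi _
  have Sone : ∀ x, S 1 x = x := fun x => by
    obtain ⟨v, rfl⟩ := Submodule.Quotient.mk_surjective _ x
    rw [Smk, mk_eq]
    filter_upwards [h1] with i hi using hi _
  let E : G → ((∀ i, V i) ⧸ nullM U K V) ≃ₗ[(∀ i, K i) ⧸ nullI U K] (∀ i, V i) ⧸ nullM U K V :=
    fun g => LinearEquiv.ofLinearMap (S g) (S g⁻¹)
      (LinearMap.ext fun x => by
        rw [LinearMap.comp_apply, ← Smul, mul_inv_cancel, Sone, LinearMap.id_apply])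
      (LinearMap.ext fun x => by
        rw [LinearMap.comp_apply, ← Smul, inv_mul_cancel, Sone, LinearMap.id_apply])
  refine ⟨_, fK, _, inferInstance, mV,
    MonoidHom.mk' E fun g h => LinearEquiv.ext fun x => Smul g h x, ?_, fun g => ?_⟩
  · refine (injective_iff_map_eq_one _).2 fun g hg => ?_
    by_contra hg1
    let v : ∀ i, V i := fun i => if h : ∃ x, ρ i g x ≠ x then h.choose else 0
    have h2 : S g (Submodule.Quotient.mk v) = Submodule.Quotient.mk v :=
      LinearEquiv.congr_fun hg (Submodule.Quotient.mk v)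
    rw [Smk, mk_eq] at h2
    obtain ⟨i, k1, k2⟩ := (h2.and (hne g hg1)).exists
    simp only [v, dif_pos k2] at k1
    exact k2.choose_spec k1
  · obtain ⟨b, hb⟩ := hb g
    have hv : ∀ i, ∃ v : Fin b → V i,
        Module.finrank (K i) (LinearMap.range (ρ i g - LinearMap.id)) ≤ b →
          ∀ x, ∃ c : Fin b → K i, ∑ j, c j • v j = ρ i g x - x := fun i => by
      by_cases h : Module.finrank (K i) (LinearMap.range (ρ i g - LinearMap.id)) ≤ b
      · obtain ⟨v, hv⟩ := exists_span _ b h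
        exact ⟨v, fun _ x => hv _ ⟨x, rfl⟩⟩
      · exact ⟨0, fun k => absurd k h⟩
    choose v hv using hv
    let w : Fin b → (∀ i, V i) ⧸ nullM U K V := fun j => Submodule.Quotient.mk fun i => v i j
    have : FiniteDimensional ((∀ i, K i) ⧸ nullI U K)
        (Submodule.span ((∀ i, K i) ⧸ nullI U K) (Set.range w)) :=
      FiniteDimensional.span_of_finite _ (Set.finite_range w)
    refine Submodule.finiteDimensional_of_le
      (S₂ := Submodule.span ((∀ i, K i) ⧸ nullI U K) (Set.range w)) ?_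
    rintro _ ⟨x, rfl⟩
    obtain ⟨x, rfl⟩ := Submodule.Quotient.mk_surjective _ x
    have hc : ∀ i, ∃ c : Fin b → K i,
        Module.finrank (K i) (LinearMap.range (ρ i g - LinearMap.id)) ≤ b →
          ∑ j, c j • v i j = ρ i g (x i) - x i := fun i => by
      by_cases h : Module.finrank (K i) (LinearMap.range (ρ i g - LinearMap.id)) ≤ b
      · obtain ⟨c, hc⟩ := hv i h (x i)
        exact ⟨c, fun _ => hc⟩
      · exact ⟨0, fun k => absurd k h⟩
    choose c hc using hc
    refine (Submodule.mem_span_range_iff_exists_fun _).2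
      ⟨fun j => Ideal.Quotient.mk (nullI U K) fun i => c i j, ?_⟩
    have e1 : ∑ j, Ideal.Quotient.mk (nullI U K) (fun i => c i j) • w j =
        (nullM U K V).mkQ (∑ j, (fun i => c i j : ∀ i, K i) • (fun i => v i j : ∀ i, V i)) := by
      rw [map_sum]
      exact Finset.sum_congr rfl fun j _ => by rw [sm, map_smul]; rfl
    rw [e1]
    change Submodule.Quotient.mk _ =
      S g (Submodule.Quotient.mk x) - Submodule.Quotient.mk x
    rw [Smk, ← Submodule.Quotient.mk_sub, mk_eq]
    filter_upwards [hb] with i hi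
    rw [Finset.sum_apply]
    exact hc i hi

section Rank

variable {n : ℕ} {K : Type} [Field K]

theorem rank_add (A B : Matrix (Fin n) (Fin n) K) : (A + B).rank ≤ A.rank + B.rank := by
  unfold Matrix.rank
  rw [Matrix.mulVecLin_add]
  refine le_trans (Submodule.finrank_mono ?_) (Submodule.finrank_add_le_finrank_add_finrank _ _)
  rintro _ ⟨x, rfl⟩
  exact Submodule.add_mem_sup ⟨x, rfl⟩ ⟨x, rfl⟩

theorem rank_smul (c : K) (A : Matrix (Fin n) (Fin n) K) : (c • A).rank ≤ A.rank := by
  rw [← Matrix.one_mul A, ← Matrix.smul_mul, Matrix.one_mul]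
  exact Matrix.rank_mul_le_right _ _

theorem scal_zero {c : K} (h : (c • (1 : Matrix (Fin n) (Fin n) K)).rank < n) : c = 0 := by
  by_contra hc
  have h1 := rank_smul c⁻¹ (c • (1 : Matrix (Fin n) (Fin n) K))
  rw [smul_smul, inv_mul_cancel₀ hc, one_smul, Matrix.rank_one, Fintype.card_fin] at h1
  omega

theorem val_mul (A B : SL (Fin n) K) : (A * B).1 = A.1 * B.1 := rfl

theorem val_one : (1 : SL (Fin n) K).1 = 1 := rfl

theorem scal_of_eq {A B : SL (Fin n) K}
    (h : (A : Matrix.ProjectiveSpecialLinearGroup (Fin n) K) = B) : ∃ z : K, B.1 = z • A.1 := by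
  have h0 : A⁻¹ * B ∈ Subgroup.center (SL (Fin n) K) := QuotientGroup.eq.1 h
  obtain ⟨z, -, hz⟩ := Matrix.SpecialLinearGroup.mem_center_iff.1 h0
  replace hz : Matrix.scalar (Fin n) z = (A⁻¹ * B).1 := hz
  refine ⟨z, ?_⟩
  have h1 : B.1 = A.1 * (A⁻¹ * B).1 := by
    rw [← val_mul, mul_inv_cancel_left]
  rw [h1, ← hz, Matrix.scalar_apply, ← Matrix.smul_one_eq_diagonal, Matrix.mul_smul,
    Matrix.mul_one]

theorem eq_one_of_comm {A : SL (Fin n) K} (h : ∀ X : Matrix (Fin n) (Fin n) K, A.1 * X = X * A.1) :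
    (A : Matrix.ProjectiveSpecialLinearGroup (Fin n) K) = 1 :=
  (QuotientGroup.eq_one_iff A).2
    (Subgroup.mem_center_iff.2 fun B => Subtype.ext (h B.1).symm)

/-- Conjugation by an element of the special linear group. -/
def conj (A : SL (Fin n) K) : Matrix (Fin n) (Fin n) K →ₗ[K] Matrix (Fin n) (Fin n) K where
  toFun X := A.1 * X * (A⁻¹).1
  map_add' X Y := by rw [Matrix.mul_add, Matrix.add_mul]
  map_smul' c X := by rw [Matrix.mul_smul, Matrix.smul_mul, RingHom.id_apply]

theorem conj_apply (A : SL (Fin n) K) (X : Matrix (Fin n) (Fin n) K) :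
    conj A X = A.1 * X * (A⁻¹).1 := rfl

theorem inv_mul_val (A : SL (Fin n) K) : (A⁻¹).1 * A.1 = 1 := by
  rw [← val_mul, inv_mul_cancel]
  rfl

theorem mul_inv_val (A : SL (Fin n) K) : A.1 * (A⁻¹).1 = 1 := by
  rw [← val_mul, mul_inv_cancel]
  rfl

theorem conj_mul (A B : SL (Fin n) K) (X : Matrix (Fin n) (Fin n) K) :
    conj (A * B) X = conj A (conj B X) := by
  simp only [conj_apply, _root_.mul_inv_rev, val_mul, Matrix.mul_assoc]

theorem conj_congr {A B : SL (Fin n) K}
    (h : (A : Matrix.ProjectiveSpecialLinearGroup (Fin n) K) = B)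
    (X : Matrix (Fin n) (Fin n) K) : conj A X = conj B X := by
  have h1 : (1 : SL (Fin n) K) = ((A⁻¹ * B : SL (Fin n) K) :
      Matrix.ProjectiveSpecialLinearGroup (Fin n) K) := by
    rw [QuotientGroup.mk_mul, QuotientGroup.mk_inv, h, inv_mul_cancel, QuotientGroup.mk_one]
  obtain ⟨z, hz⟩ := scal_of_eq h1
  have h2 : conj (A⁻¹ * B) X = X := by
    have h3 : (A⁻¹ * B).1 * X = X * (A⁻¹ * B).1 := by
      rw [hz, val_one, Matrix.smul_mul, Matrix.mul_smul, Matrix.one_mul,
        Matrix.mul_one]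
    rw [conj_apply, h3, Matrix.mul_assoc, mul_inv_val, Matrix.mul_one]
  rw [← mul_inv_cancel_left A B, conj_mul, h2]

theorem ne_zero_of_rank {A : SL (Fin n) K} {l : K} {b : ℕ} (h : (A.1 - l • 1).rank ≤ b)
    (hb : b < n) : l ≠ 0 := by
  rintro rfl
  rw [zero_smul, sub_zero, Matrix.rank_of_det_ne_zero (by rw [A.2]; exact one_ne_zero),
    Fintype.card_fin] at h
  omega

theorem rank_norm {A : SL (Fin n) K} {l : K} {b : ℕ} (h : (A.1 - l • 1).rank ≤ b) (hl : l ≠ 0) :
    (l⁻¹ • A.1 - 1).rank ≤ b := by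
  rw [show l⁻¹ • A.1 - 1 = l⁻¹ • (A.1 - l • 1) by
    rw [smul_sub, smul_smul, inv_mul_cancel₀ hl, one_smul]]
  exact (rank_smul _ _).trans h

theorem eq_of_rank {P Q S : Matrix (Fin n) (Fin n) K} {c : K} {b1 b2 b3 : ℕ}
    (hP : (P - 1).rank ≤ b1) (hQ : (Q - 1).rank ≤ b2) (hS : (S - 1).rank ≤ b3)
    (h : S = c • (P * Q)) (hn : b1 + b2 + b3 < n) : S = P * Q := by
  have e : (c - 1) • (1 : Matrix (Fin n) (Fin n) K) =
      (S - 1) + (-c) • ((P - 1) * Q + (Q - 1)) := by
    rw [h, Matrix.sub_mul, Matrix.one_mul]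
    module
  have h1 := rank_add (S - 1) ((-c) • ((P - 1) * Q + (Q - 1)))
  have h2 := rank_smul (-c) ((P - 1) * Q + (Q - 1))
  have h3 := rank_add ((P - 1) * Q) (Q - 1)
  have h4 := Matrix.rank_mul_le_left (P - 1) Q
  have h5 : c - 1 = 0 := scal_zero (n := n) (by rw [e]; omega)
  rw [h, sub_eq_zero.1 h5, one_smul]

end Rank

end FinU

theorem finStmt : FinStmt := by
  classical
  intro G _ I U n K _ r hm hne hb
  choose b hb using hb
  have hA : ∀ i g, ∃ (A : SL (Fin (n i)) (K i)) (l : K i),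
      (A : Matrix.ProjectiveSpecialLinearGroup (Fin (n i)) (K i)) = r i g ∧
      ((∃ (A : SL (Fin (n i)) (K i)) (l : K i),
        (A : Matrix.ProjectiveSpecialLinearGroup (Fin (n i)) (K i)) = r i g ∧
          (A.1 - l • 1).rank ≤ b g) → (A.1 - l • 1).rank ≤ b g) := fun i g => by
    by_cases h : ∃ (A : SL (Fin (n i)) (K i)) (l : K i),
        (A : Matrix.ProjectiveSpecialLinearGroup (Fin (n i)) (K i)) = r i g ∧
          (A.1 - l • 1).rank ≤ b g
    · obtain ⟨A, l, h1, h2⟩ := h
      exact ⟨A, l, h1, fun _ => h2⟩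
    · obtain ⟨A, h1⟩ := QuotientGroup.mk_surjective (r i g)
      exact ⟨A, 0, h1, fun k => absurd k h⟩
  choose A l hA hl using hA
  have hr : ∀ g, ∀ᶠ i in U, ((A i g).1 - l i g • 1).rank ≤ b g := fun g =>
    (hb g).mono fun i hi => hl i g hi
  have hmul : ∀ g h, ∀ᶠ i in U, ((A i g * A i h : SL (Fin (n i)) (K i)) :
      Matrix.ProjectiveSpecialLinearGroup (Fin (n i)) (K i)) = A i (g * h) := fun g h =>
    (hm g h).mono fun i hi => by rw [QuotientGroup.mk_mul, hA, hA, hA, hi]
  have hone : ∀ᶠ i in U, ((1 : SL (Fin (n i)) (K i)) :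
      Matrix.ProjectiveSpecialLinearGroup (Fin (n i)) (K i)) = A i 1 :=
    (hm 1 1).mono fun i hi => by
      rw [mul_one] at hi
      rw [hA, QuotientGroup.mk_one]
      exact (left_eq_mul.1 hi).symm
  by_cases hB : ∃ B : ℕ, ∀ᶠ i in U, n i ≤ B
  · obtain ⟨B, hB⟩ := hB
    refine FinU.ultra G I U K (fun i => Matrix (Fin (n i)) (Fin (n i)) (K i))
      (fun i g => FinU.conj (A i g)) (fun g h => ?_) ?_ (fun g => ⟨B * B, ?_⟩) fun g hg => ?_
    · filter_upwards [hmul g h] with i hi X
      rw [← FinU.conj_mul, FinU.conj_congr hi]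
    · filter_upwards [hone] with i hi X
      rw [← FinU.conj_congr hi, FinU.conj_apply, inv_one, FinU.val_one,
        Matrix.one_mul, Matrix.mul_one]
    · filter_upwards [hB] with i hi
      refine (Submodule.finrank_le _).trans ?_
      rw [Module.finrank_matrix, Module.finrank_self, mul_one, Fintype.card_fin]
      exact Nat.mul_le_mul hi hi
    · filter_upwards [hne g hg] with i hi
      by_contra hX
      push Not at hX
      refine hi (hA i g ▸ FinU.eq_one_of_comm fun X => ?_)
      have := congrArg (· * (A i g).1) (hX X)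
      simp only [FinU.conj_apply] at this
      rwa [Matrix.mul_assoc, FinU.inv_mul_val, Matrix.mul_one] at this
  · have hN : ∀ B : ℕ, ∀ᶠ i in U, B < n i := fun B =>
      (Ultrafilter.eventually_not.2 fun h => hB ⟨B, h⟩).mono fun i hi => not_le.1 hi
    have h0 : ∀ g, ∀ᶠ i in U, l i g ≠ 0 := fun g => by
      filter_upwards [hr g, hN (b g)] with i h1 h2 using FinU.ne_zero_of_rank h1 h2
    have hP : ∀ g, ∀ᶠ i in U, ((l i g)⁻¹ • (A i g).1 - 1).rank ≤ b g := fun g => by
      filter_upwards [hr g, h0 g] with i h1 h2 using FinU.rank_norm h1 h2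
    refine FinU.ultra G I U K (fun i => Fin (n i) → K i)
      (fun i g => Matrix.mulVecLin ((l i g)⁻¹ • (A i g).1)) (fun g h => ?_) ?_
      (fun g => ⟨b g, ?_⟩) fun g hg => ?_
    · filter_upwards [hmul g h, hP g, hP h, hP (g * h), h0 g, h0 h,
        hN (b g + b h + b (g * h))] with i hi k1 k2 k3 k4 k5 k6 x
      obtain ⟨z, hz⟩ := FinU.scal_of_eq hi
      have e := FinU.eq_of_rank (c := (l i (g * h))⁻¹ * z * l i g * l i h) k1 k2 k3 (by
        rw [hz, FinU.val_mul, Matrix.smul_mul, Matrix.mul_smul, smul_smul,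
          smul_smul, smul_smul]
        congr 1
        field_simp) k6
      rw [e, Matrix.mulVecLin_mul, LinearMap.comp_apply]
    · filter_upwards [hone, hP 1, hN (b 1)] with i hi k1 k2 x
      obtain ⟨z, hz⟩ := FinU.scal_of_eq hi
      have e : (l i 1)⁻¹ • (A i 1).1 - 1 = ((l i 1)⁻¹ * z - 1) • 1 := by
        rw [hz, FinU.val_one, smul_smul, sub_smul, one_smul]
      have h2 : (l i 1)⁻¹ * z - 1 = 0 := FinU.scal_zero (n := n i) (by rw [← e]; omega)
      rw [h2, zero_smul, sub_eq_zero] at e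
      rw [e, Matrix.mulVecLin_one, LinearMap.id_apply]
    · filter_upwards [hP g] with i hi
      have e : Matrix.mulVecLin ((l i g)⁻¹ • (A i g).1) - LinearMap.id =
          Matrix.mulVecLin ((l i g)⁻¹ • (A i g).1 - 1) := LinearMap.ext fun x => by
        rw [LinearMap.sub_apply, Matrix.mulVecLin_apply, Matrix.mulVecLin_apply,
          Matrix.sub_mulVec, Matrix.one_mulVec, LinearMap.id_apply]
      rw [e]
      exact hi
    · filter_upwards [hne g hg, h0 g] with i hi k1
      by_contra hX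
      push Not at hX
      have e : (l i g)⁻¹ • (A i g).1 = 1 := by
        apply Matrix.toLin'.injective
        rw [Matrix.toLin'_one]
        exact LinearMap.ext hX
      have e2 : (A i g).1 = l i g • 1 := by
        rw [← e, smul_smul, mul_inv_cancel₀ k1, one_smul]
      refine hi (hA i g ▸ FinU.eq_one_of_comm fun X => ?_)
      rw [e2, Matrix.smul_mul, Matrix.mul_smul, Matrix.one_mul, Matrix.mul_one]

end Pool.Agent.Lib.MP_679d9b_al.PT
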