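import Mathlib
import Pool.Agent.Lib.MP_679d9b_al.PT.Basic

/-!
The graded root theorem.  All computations are done in the associated graded ring of the
filtration by the powers of the kernel ideal.
-/

set_option autoImplicit false

namespace Pool.Agent.Lib.MP_679d9b_al.PT

open Subgroup Matrix
open scoped commutatorElement

namespace GR

section Graded
variable {A : Type} [Ring A] [StarRing A]

/-- A multiplicative filtration which is stable under the involution. -/
structure Filt (F : ℕ → AddSubgroup A) : Prop where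
  zero : ∀ a, a ∈ F 0
  anti : ∀ i, F (i + 1) ≤ F i
  mul : ∀ {i j : ℕ} {a b : A}, a ∈ F i → b ∈ F j → a * b ∈ F (i + j)
  star : ∀ {i : ℕ} {a : A}, a ∈ F i → star a ∈ F i

variable {F : ℕ → AddSubgroup A}

/-- The Rees ring. -/
def rees (hF : Filt F) : Subring (PowerSeries A) where
  carrier := {P | ∀ i, PowerSeries.coeff i P ∈ F i}
  mul_mem' := by
    intro P Q hP hQ i
    rw [PowerSeries.coeff_mul]
    refine AddSubgroup.sum_mem _ fun x hx => ?_
    rw [← Finset.HasAntidiagonal.mem_antidiagonal.1 hx]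
    exact hF.mul (hP _) (hQ _)
  one_mem' := by
    intro i
    rw [PowerSeries.coeff_one]
    split_ifs with h
    · rw [h]; exact hF.zero _
    · exact zero_mem _
  add_mem' := by
    intro P Q hP hQ i
    rw [map_add]
    exact add_mem (hP i) (hQ i)
  zero_mem' := by
    intro i
    rw [map_zero]
    exact zero_mem _
  neg_mem' := by
    intro P hP i
    rw [map_neg]
    exact neg_mem (hP i)

/-- The involution of the Rees ring. -/
noncomputable def rst (hF : Filt F) (P : rees hF) : rees hF :=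
  ⟨PowerSeries.mk fun i => star (PowerSeries.coeff i P.1), fun i => by
    rw [PowerSeries.coeff_mk]; exact hF.star (P.2 i)⟩

theorem coeff_rst (hF : Filt F) (P : rees hF) (i : ℕ) :
    PowerSeries.coeff i (rst hF P).1 = star (PowerSeries.coeff i P.1) :=
  PowerSeries.coeff_mk i fun i => star (PowerSeries.coeff i P.1)

theorem rst_rst (hF : Filt F) (P : rees hF) : rst hF (rst hF P) = P :=
  Subtype.ext (PowerSeries.ext fun i => by rw [coeff_rst, coeff_rst, star_star])

theorem rst_add (hF : Filt F) (P Q : rees hF) : rst hF (P + Q) = rst hF P + rst hF Q :=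
  Subtype.ext (PowerSeries.ext fun i => by
    rw [Subring.coe_add, map_add, coeff_rst, coeff_rst, coeff_rst, Subring.coe_add, map_add,
      star_add])

theorem rst_mul (hF : Filt F) (P Q : rees hF) : rst hF (P * Q) = rst hF Q * rst hF P :=
  Subtype.ext (PowerSeries.ext fun i => by
    rw [Subring.coe_mul, PowerSeries.coeff_mul, coeff_rst, Subring.coe_mul, PowerSeries.coeff_mul,
      star_sum, ← Finset.Nat.sum_antidiagonal_swap]
    refine Finset.sum_congr rfl fun x _ => ?_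
    rw [star_mul, coeff_rst, coeff_rst]
    rfl)

/-- The ideal of series with coefficients one step deeper. -/
noncomputable def idl (hF : Filt F) : TwoSidedIdeal (rees hF) :=
  TwoSidedIdeal.mk' {P | ∀ i, PowerSeries.coeff i P.1 ∈ F (i + 1)}
    (fun i => by rw [Subring.coe_zero, map_zero]; exact zero_mem _)
    (fun {P Q} hP hQ i => by rw [Subring.coe_add, map_add]; exact add_mem (hP i) (hQ i))
    (fun {P} hP i => by rw [Subring.coe_neg, map_neg]; exact neg_mem (hP i))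
    (fun {P Q} hQ i => by
      rw [Subring.coe_mul, PowerSeries.coeff_mul]
      refine AddSubgroup.sum_mem _ fun x hx => ?_
      rw [← Finset.HasAntidiagonal.mem_antidiagonal.1 hx, add_assoc]
      exact hF.mul (P.2 _) (hQ _))
    (fun {P Q} hP i => by
      rw [Subring.coe_mul, PowerSeries.coeff_mul]
      refine AddSubgroup.sum_mem _ fun x hx => ?_
      rw [← Finset.HasAntidiagonal.mem_antidiagonal.1 hx, add_right_comm]
      exact hF.mul (hP _) (Q.2 _))

theorem idl_rel (hF : Filt F) (P Q : rees hF) : (idl hF).ringCon P Q ↔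
    ∀ i, PowerSeries.coeff i P.1 - PowerSeries.coeff i Q.1 ∈ F (i + 1) := by
  rw [TwoSidedIdeal.rel_iff, idl, TwoSidedIdeal.mem_mk']
  simp only [Set.mem_ofPred_eq, AddSubgroupClass.coe_sub, map_sub]

/-- The homogeneous series. -/
noncomputable def mon (hF : Filt F) (i : ℕ) (a : A) (h : a ∈ F i) : rees hF :=
  ⟨PowerSeries.monomial i a, fun j => by
    rw [PowerSeries.coeff_monomial]
    split_ifs with e
    · rw [e]; exact h
    · exact zero_mem _⟩

/-- The maps to the associated graded ring. -/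
structure GrD {G : Type} [Ring G] [StarRing G] (F : ℕ → AddSubgroup A) (κ : A →+* G)
    (τ : ℕ → A → G) : Prop where
  filt : Filt F
  zero : ∀ a, τ 0 a = κ a
  add : ∀ i a b, a ∈ F i → b ∈ F i → τ i (a + b) = τ i a + τ i b
  mul : ∀ i j a b, a ∈ F i → b ∈ F j → τ (i + j) (a * b) = τ i a * τ j b
  inv : ∀ i a, a ∈ F i → τ i (star a) = star (τ i a)
  ker : ∀ i a, a ∈ F i → (τ i a = 0 ↔ a ∈ F (i + 1))

/-- The associated graded ring. -/
theorem exists_gr (hF : Filt F) : ∃ (G : Type) (_ : Ring G) (_ : StarRing G) (κ : A →+* G)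
    (τ : ℕ → A → G), GrD F κ τ := by
  classical
  let c := (idl hF).ringCon
  let st : c.Quotient → c.Quotient := Quotient.map' (rst hF) (fun P Q h => by
    have h' := (idl_rel hF P Q).1 h
    refine (idl_rel hF _ _).2 fun i => ?_
    rw [coeff_rst, coeff_rst, ← star_sub]
    exact hF.star (h' i))
  have hst : ∀ P : rees hF, st (P : c.Quotient) = (rst hF P : c.Quotient) := fun _ => rfl
  let S : StarRing c.Quotient :=
    { star := st
      star_involutive := fun x => by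
        obtain ⟨P, rfl⟩ := c.mk'_surjective x
        change st (st (P : c.Quotient)) = (P : c.Quotient)
        rw [hst, hst, rst_rst]
      star_mul := fun x y => by
        obtain ⟨P, rfl⟩ := c.mk'_surjective x
        obtain ⟨Q, rfl⟩ := c.mk'_surjective y
        change st ((P * Q : rees hF) : c.Quotient) = st (Q : c.Quotient) * st (P : c.Quotient)
        rw [hst, hst, hst, rst_mul, RingCon.coe_mul]
      star_add := fun x y => by
        obtain ⟨P, rfl⟩ := c.mk'_surjective x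
        obtain ⟨Q, rfl⟩ := c.mk'_surjective y
        change st ((P + Q : rees hF) : c.Quotient) = st (P : c.Quotient) + st (Q : c.Quotient)
        rw [hst, hst, hst, rst_add, RingCon.coe_add] }
  let τ : ℕ → A → c.Quotient := fun i a => if h : a ∈ F i then (mon hF i a h : c.Quotient) else 0
  have hτ : ∀ i a (h : a ∈ F i), τ i a = (mon hF i a h : c.Quotient) := fun i a h => dif_pos h
  have hadd : ∀ i a b, a ∈ F i → b ∈ F i → τ i (a + b) = τ i a + τ i b := by
    intro i a b ha hb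
    rw [hτ _ _ ha, hτ _ _ hb, hτ _ _ (add_mem ha hb), ← RingCon.coe_add]
    congr 1
    exact Subtype.ext (map_add _ _ _)
  have hmul : ∀ i j a b, a ∈ F i → b ∈ F j → τ (i + j) (a * b) = τ i a * τ j b := by
    intro i j a b ha hb
    rw [hτ _ _ ha, hτ _ _ hb, hτ _ _ (hF.mul ha hb), ← RingCon.coe_mul]
    congr 1
    exact Subtype.ext (PowerSeries.monomial_mul_monomial _ _ _ _).symm
  have hone : τ 0 1 = 1 := by
    rw [hτ _ _ (hF.zero _), ← RingCon.coe_one]
    congr 1
    exact Subtype.ext (by simp [mon])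
  let κ : A →+* c.Quotient := RingHom.mk'
    { toFun := τ 0
      map_one' := hone
      map_mul' := fun a b => hmul 0 0 a b (hF.zero _) (hF.zero _) }
    fun a b => hadd 0 a b (hF.zero _) (hF.zero _)
  refine ⟨c.Quotient, inferInstance, S, κ, τ, hF, fun _ => rfl, hadd, hmul, fun i a ha => ?_,
    fun i a ha => ?_⟩
  · change _ = st (τ i a)
    rw [hτ _ _ ha, hτ _ _ (hF.star ha), hst]
    congr 1
    refine Subtype.ext (PowerSeries.ext fun j => ?_)
    rw [coeff_rst]
    simp only [mon, PowerSeries.coeff_monomial]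
    split_ifs <;> simp
  · rw [hτ _ _ ha, ← RingCon.coe_zero, RingCon.eq, idl_rel]
    simp only [mon, PowerSeries.coeff_monomial, Subring.coe_zero, map_zero, sub_zero]
    constructor
    · intro h
      simpa using h i
    · intro h j
      split_ifs with e
      · rw [e]; exact h
      · exact zero_mem _

variable {G : Type} [Ring G] [StarRing G] {κ : A →+* G} {τ : ℕ → A → G}

theorem Filt.left (hF : Filt F) {i : ℕ} (a : A) {m : A} (h : m ∈ F i) : a * m ∈ F i := by
  simpa using hF.mul (hF.zero a) h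

theorem Filt.right (hF : Filt F) {i : ℕ} (a : A) {m : A} (h : m ∈ F i) : m * a ∈ F i :=
  hF.mul h (hF.zero a)

theorem Filt.one (hF : Filt F) {i : ℕ} {m : A} (h : m ∈ F (i + 1)) : m ∈ F 1 := by
  induction i with
  | zero => exact h
  | succ i ih => exact ih (hF.anti _ h)

namespace GrD
variable (hG : GrD F κ τ)
include hG

theorem tz (i : ℕ) : τ i 0 = 0 := (hG.ker i 0 (zero_mem _)).2 (zero_mem _)

theorem neg {i : ℕ} {a : A} (h : a ∈ F i) : τ i (-a) = -τ i a := by
  rw [eq_neg_iff_add_eq_zero, ← hG.add _ _ _ (neg_mem h) h, neg_add_cancel, hG.tz]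

theorem sub {i : ℕ} {a b : A} (h : a ∈ F i) (h' : b ∈ F i) : τ i (a - b) = τ i a - τ i b := by
  rw [sub_eq_add_neg, hG.add _ _ _ h (neg_mem h'), hG.neg h', sub_eq_add_neg]

theorem left {i : ℕ} (a : A) {m : A} (h : m ∈ F i) : τ i (a * m) = κ a * τ i m := by
  simpa [hG.zero] using hG.mul 0 i a m (hG.filt.zero a) h

theorem right {i : ℕ} (a : A) {m : A} (h : m ∈ F i) : τ i (m * a) = τ i m * κ a := by
  simpa [hG.zero] using hG.mul i 0 m a h (hG.filt.zero a)

theorem kz (a : A) : κ a = 0 ↔ a ∈ F 1 := by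
  rw [← hG.zero]; exact hG.ker 0 a (hG.filt.zero a)

theorem ks (a : A) : κ (star a) = star (κ a) := by
  rw [← hG.zero, ← hG.zero]; exact hG.inv 0 a (hG.filt.zero a)

/-- Preimages of subgroups of a layer. -/
def pre (i : ℕ) (T : AddSubgroup G) : AddSubgroup A where
  carrier := {m | m ∈ F i ∧ τ i m ∈ T}
  add_mem' := fun h h' => ⟨add_mem h.1 h'.1, by
    rw [hG.add _ _ _ h.1 h'.1]; exact add_mem h.2 h'.2⟩
  zero_mem' := ⟨zero_mem _, by rw [hG.tz]; exact zero_mem _⟩
  neg_mem' := fun h => ⟨neg_mem h.1, by rw [hG.neg h.1]; exact neg_mem h.2⟩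

/-- The layers. -/
def Mg (i : ℕ) : AddSubgroup G where
  carrier := {x | ∃ m ∈ F i, x = τ i m}
  add_mem' := by
    rintro _ _ ⟨m, h, rfl⟩ ⟨m', h', rfl⟩
    exact ⟨m + m', add_mem h h', (hG.add _ _ _ h h').symm⟩
  zero_mem' := ⟨0, zero_mem _, (hG.tz i).symm⟩
  neg_mem' := by
    rintro _ ⟨m, h, rfl⟩
    exact ⟨-m, neg_mem h, (hG.neg h).symm⟩

variable {H : Type} [Group H] (ρ : H →* A)

theorem k_one {i : ℕ} {y : H} (h : ρ y - 1 ∈ F (i + 1)) : κ (ρ y) = 1 ∧ κ (ρ y⁻¹) = 1 := by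
  have h1 : κ (ρ y) = 1 := by
    rw [← sub_eq_zero, ← map_one κ, ← map_sub, hG.kz]
    exact hG.filt.one h
  refine ⟨h1, ?_⟩
  rw [← mul_one (κ _), ← h1, ← map_mul, ← map_mul, inv_mul_cancel, map_one, map_one, h1]

theorem t_inv {i : ℕ} {y : H} (h : ρ y - 1 ∈ F (i + 1)) :
    ρ y⁻¹ - 1 ∈ F (i + 1) ∧ τ (i + 1) (ρ y⁻¹ - 1) = -τ (i + 1) (ρ y - 1) := by
  have e : ρ y⁻¹ - 1 = -(ρ y⁻¹ * (ρ y - 1)) := by
    rw [mul_sub, ← map_mul, inv_mul_cancel, map_one, mul_one, neg_sub]
  rw [e, hG.neg (hG.filt.left _ h), hG.left _ h, (hG.k_one ρ h).2, one_mul]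
  exact ⟨neg_mem (hG.filt.left _ h), rfl⟩

/-- The leading terms of the group elements. -/
def Lg (i : ℕ) : AddSubgroup G where
  carrier := {x | ∃ y, ρ y - 1 ∈ F (i + 1) ∧ x = τ (i + 1) (ρ y - 1)}
  add_mem' := by
    rintro _ _ ⟨y, h, rfl⟩ ⟨y', h', rfl⟩
    have e : ρ (y * y') - 1 = ρ y - 1 + ρ y * (ρ y' - 1) := by
      rw [map_mul]; noncomm_ring
    refine ⟨y * y', e ▸ add_mem h (hG.filt.left _ h'), ?_⟩
    rw [e, hG.add _ _ _ h (hG.filt.left _ h'), hG.left _ h', (hG.k_one ρ h).1, one_mul]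
  zero_mem' := ⟨1, by simp, by simp [hG.tz]⟩
  neg_mem' := by
    rintro _ ⟨y, h, rfl⟩
    exact ⟨y⁻¹, (hG.t_inv ρ h).1, (hG.t_inv ρ h).2.symm⟩

theorem Lg_le (i : ℕ) : hG.Lg ρ i ≤ hG.Mg (i + 1) := by
  rintro _ ⟨y, h, rfl⟩
  exact ⟨_, h, rfl⟩

theorem Lg_conj {i : ℕ} (g : H) {l : G} (hl : l ∈ hG.Lg ρ i) :
    κ (ρ g) * l * κ (ρ g⁻¹) ∈ hG.Lg ρ i := by
  obtain ⟨y, h, rfl⟩ := hl
  have e : ρ (g * y * g⁻¹) - 1 = ρ g * (ρ y - 1) * ρ g⁻¹ := by
    rw [mul_sub, sub_mul, mul_one, ← map_mul, ← map_mul, ← map_mul, mul_inv_cancel, map_one]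
  refine ⟨g * y * g⁻¹, e ▸ hG.filt.right _ (hG.filt.left _ h), ?_⟩
  rw [e, hG.right _ (hG.filt.left _ h), hG.left _ h]

theorem Lg_comm {j : ℕ} {l l' : G} (hl : l ∈ hG.Lg ρ 0) (hl' : l' ∈ hG.Lg ρ j) :
    l * l' - l' * l ∈ hG.Lg ρ (j + 1) := by
  obtain ⟨y, h, rfl⟩ := hl
  obtain ⟨y', h', rfl⟩ := hl'
  have e : ρ (y * y' * y⁻¹ * y'⁻¹) - 1 =
      ((ρ y - 1) * (ρ y' - 1) - (ρ y' - 1) * (ρ y - 1)) * ρ y⁻¹ * ρ y'⁻¹ := by
    have e1 : (ρ y - 1) * (ρ y' - 1) - (ρ y' - 1) * (ρ y - 1) = ρ y * ρ y' - ρ y' * ρ y := by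
      noncomm_ring
    rw [e1, sub_mul, sub_mul]
    simp only [← map_mul, mul_inv_cancel_right, mul_inv_cancel, map_one]
  have m1 := hG.filt.mul h h'
  have m2 := hG.filt.mul h' h
  have t1 := hG.mul _ _ _ _ h h'
  have t2 := hG.mul _ _ _ _ h' h
  rw [show 0 + 1 + (j + 1) = j + 1 + 1 by omega] at m1 t1
  have m3 := sub_mem m1 m2
  refine ⟨y * y' * y⁻¹ * y'⁻¹, e ▸ hG.filt.right _ (hG.filt.right _ m3), ?_⟩
  rw [e, hG.right _ (hG.filt.right _ m3), hG.right _ m3, (hG.k_one ρ h).2, (hG.k_one ρ h').2,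
    mul_one, mul_one, hG.sub m1 m2, t1, t2]

end GrD

end Graded

section Rng
variable {G : Type} [Ring G] [StarRing G]

/-- The skew part. -/
def D (n : G) : G := n - star n

theorem D_add (a b : G) : D (a + b) = D a + D b := by
  simp only [D, star_add]; abel

theorem D_sub (a b : G) : D (a - b) = D a - D b := by
  simp only [D, star_sub]; abel

theorem D_neg (a : G) : D (-a) = -D a := by
  simp only [D, star_neg]; abel

theorem D_zero : D (0 : G) = 0 := by simp [D]

theorem D_sum {α : Type} (s : Finset α) (f : α → G) : D (∑ x ∈ s, f x) = ∑ x ∈ s, D (f x) := by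
  simp only [D, star_sum, Finset.sum_sub_distrib]

/-- Skew elements such that conjugation by `1 + Z` preserves `L`. -/
def Adm (L : AddSubgroup G) (Z : G) : Prop :=
  star Z = -Z ∧ ∀ l ∈ L, Z * l - l * Z - Z * l * Z ∈ L

variable {L : AddSubgroup G}

theorem Adm.base {Z₁ Z₂ l : G} (h₁ : Adm L Z₁) (h₂ : Adm L Z₂) (h : Z₁ * Z₂ = 0)
    (h' : Z₂ * Z₁ = 0) (hl : l ∈ L) (hs : star l = -l) : D (Z₁ * l * Z₂) ∈ L := by
  have e1 : ∀ x, Z₂ * (Z₁ * x) = 0 := fun x => by rw [← mul_assoc, h', zero_mul]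
  have := neg_mem (h₂.2 _ (h₁.2 l hl))
  convert this using 1
  simp only [D, star_mul, h₁.1, h₂.1, hs, mul_sub, sub_mul, mul_assoc, h, e1, mul_zero,
    mul_neg, neg_mul]
  abel

theorem Adm.left {Z n : G} (h₁ : Adm L Z) (hn : D n ∈ L) (h : n * Z = 0) : D (Z * n) ∈ L := by
  have h' : Z * star n = 0 := by
    have := congrArg star h
    rwa [star_mul, h₁.1, star_zero, neg_mul, neg_eq_zero] at this
  convert h₁.2 _ hn using 1
  simp only [D, star_mul, h₁.1, mul_sub, sub_mul, mul_assoc, h, h', mul_zero, zero_mul, mul_neg]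
  abel

theorem Adm.right {Z n : G} (h₁ : Adm L Z) (hn : D n ∈ L) (h : Z * n = 0) : D (n * Z) ∈ L := by
  have h' : star n * Z = 0 := by
    have := congrArg star h
    rwa [star_mul, h₁.1, star_zero, mul_neg, neg_eq_zero] at this
  have h2 : D (star n) ∈ L := by
    convert neg_mem hn using 1
    simp [D]
  convert h₁.left h2 h' using 1
  simp only [D, star_mul, h₁.1, star_star, mul_neg, neg_mul]
  abel

end Rng

section Abs
variable {ι K G : Type} [Fintype ι] [DecidableEq ι] [Field K] [Ring G] [StarRing G]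

/-- Two orthogonal copies of the matrix ring which are interchanged by the involution. -/
structure Pr (P : Bool → Matrix ι ι K →+ G) : Prop where
  mul : ∀ s B C, P s B * P s C = P s (B * C)
  orth : ∀ s t B C, s ≠ t → P s B * P t C = 0
  inv : ∀ s B, star (P s B) = P (!s) Bᵀ

/-- The image of the special linear group. -/
def gam (P : Bool → Matrix ι ι K →+ G) (s : Bool) (g : SL ι K) : G :=
  1 + P s (g.1 - 1) + P (!s) ((itr ι K g).1 - 1)

/-- Invariant groups of skew elements. -/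
structure Lie (P : Bool → Matrix ι ι K →+ G) (L : AddSubgroup G) : Prop where
  conj : ∀ s g, ∀ l ∈ L, gam P s g * l * gam P s g⁻¹ ∈ L
  skew : ∀ l ∈ L, star l = -l

variable {P : Bool → Matrix ι ι K →+ G} {L : AddSubgroup G}

omit [DecidableEq ι] in
theorem Pr.zero (hP : Pr P) {s t : Bool} {B C : Matrix ι ι K} (h : B * C = 0) :
    P s B * P t C = 0 := by
  by_cases e : s = t
  · rw [e, hP.mul, h, map_zero]
  · exact hP.orth _ _ _ _ e

theorem Pr.gam_mul (hP : Pr P) (s : Bool) (g : SL ι K) (B : Matrix ι ι K) :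
    gam P s g * P s B = P s (g.1 * B) := by
  rw [gam, add_mul, add_mul, hP.mul, hP.orth _ _ _ _ (Bool.not_ne_self s), sub_mul, map_sub]
  simp

theorem Pr.mul_gam (hP : Pr P) (s : Bool) (g : SL ι K) (B : Matrix ι ι K) :
    P s B * gam P s g = P s (B * g.1) := by
  rw [gam, mul_add, mul_add, hP.mul, hP.orth _ _ _ _ (Bool.not_ne_self s).symm, mul_sub, map_sub]
  simp

theorem Pr.gam_mul' (hP : Pr P) (s : Bool) (g : SL ι K) (B : Matrix ι ι K) :
    gam P s g * P (!s) B = P (!s) ((itr ι K g).1 * B) := by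
  rw [gam, add_mul, add_mul, hP.mul, hP.orth _ _ _ _ (Bool.not_ne_self s).symm, sub_mul, map_sub]
  simp

theorem Pr.mul_gam' (hP : Pr P) (s : Bool) (g : SL ι K) (B : Matrix ι ι K) :
    P (!s) B * gam P s g = P (!s) (B * (itr ι K g).1) := by
  rw [gam, mul_add, mul_add, hP.mul, hP.orth _ _ _ _ (Bool.not_ne_self s), mul_sub, map_sub]
  simp

theorem Pr.gam_gam (hP : Pr P) (s : Bool) (g h : SL ι K) :
    gam P s (g * h) = gam P s g * gam P s h := by
  conv_rhs => rw [gam.eq_1 P s h, mul_add, mul_add, hP.gam_mul, hP.gam_mul', mul_one, gam]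
  have e : ∀ a b : SL ι K, (a * b).1 = a.1 * b.1 := fun _ _ => rfl
  rw [gam, map_mul, e, e]
  simp only [mul_sub, map_sub, mul_one]
  abel

/-- The skew element of a transvection. -/
def Zt (P : Bool → Matrix ι ι K →+ G) (s : Bool) (i j : ι) (c : K) : G :=
  P s (single i j c) - P (!s) (single j i c)

omit [StarRing G] in
theorem gam_tv (s : Bool) {i j : ι} (h : i ≠ j) (c : K) :
    gam P s (SpecialLinearGroup.transvection h c) = 1 + Zt P s i j c := by
  rw [gam, itr_coe, SpecialLinearGroup.transvection_inv, SpecialLinearGroup.transvection_coe,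
    SpecialLinearGroup.transvection_coe, Zt, transpose_add, transpose_one, transpose_single,
    add_sub_cancel_left, add_sub_cancel_left, ← single_neg, map_neg]
  abel

theorem adm (hP : Pr P) (hL : Lie P L) (s : Bool) {i j : ι} (h : i ≠ j) :
    Adm L (Zt P s i j 1) := by
  refine ⟨by simp [Zt, hP.inv], fun l hl => ?_⟩
  have h1 := hL.conj s (SpecialLinearGroup.transvection h 1) l hl
  have h2 : Zt P s i j (-1) = -Zt P s i j 1 := by
    simp only [Zt, ← single_neg, map_neg]; abel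
  rw [SpecialLinearGroup.transvection_inv, gam_tv, gam_tv, h2] at h1
  convert sub_mem h1 hl using 1
  noncomm_ring

theorem Zt_zero (hP : Pr P) (s t : Bool) {i j k l : ι} (h1 : i ≠ k) (h2 : i ≠ l) (h3 : j ≠ k)
    (h4 : j ≠ l) : Zt P s i j 1 * Zt P t k l 1 = 0 := by
  simp only [Zt, mul_sub, sub_mul]
  rw [hP.zero (single_mul_single_of_ne _ _ _ _ h3 _), hP.zero (single_mul_single_of_ne _ _ _ _ h1 _),
    hP.zero (single_mul_single_of_ne _ _ _ _ h4 _), hP.zero (single_mul_single_of_ne _ _ _ _ h2 _)]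
  simp

theorem Zt_mul (hP : Pr P) (s : Bool) {i j k : ι} (h : i ≠ k) :
    Zt P s i j 1 * Zt P s j k 1 = P s (single i k 1) := by
  simp only [Zt, mul_sub, sub_mul]
  rw [hP.mul, hP.orth _ _ _ _ (Bool.not_ne_self s), hP.orth _ _ _ _ (Bool.not_ne_self s).symm,
    hP.zero (single_mul_single_of_ne _ _ _ _ h _), single_mul_single_same]
  simp

theorem fresh {ι : Type} [Fintype ι] (S : Finset ι) (h : S.card < Fintype.card ι) : ∃ x, x ∉ S := by
  obtain ⟨x, -, hx⟩ := Finset.exists_mem_notMem_of_card_lt_card (s := S) (t := Finset.univ) h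
  exact ⟨x, hx⟩

theorem k0 (hP : Pr P) (hL : Lie P L) (hι : 6 ≤ Fintype.card ι) (s t : Bool) {a b : ι}
    (hab : a ≠ b) : ∃ i j, i ≠ j ∧ ∀ l ∈ L,
      D (P s (vecMulVec (Pi.single a 1) (Pi.single i 1)) * l *
        P t (vecMulVec (Pi.single j 1) (Pi.single b 1))) ∈ L := by
  obtain ⟨c, hc⟩ := fresh {a, b} (lt_of_le_of_lt Finset.card_le_two (by omega))
  obtain ⟨d, hd⟩ := fresh {a, b, c} (lt_of_le_of_lt Finset.card_le_three (by omega))
  obtain ⟨i, hi⟩ := fresh {a, b, c, d} (lt_of_le_of_lt Finset.card_le_four (by omega))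
  obtain ⟨j, hj⟩ := fresh {a, b, c, d, i} (lt_of_le_of_lt Finset.card_le_five (by omega))
  simp only [Finset.mem_insert, Finset.mem_singleton, not_or, ← ne_eq] at hc hd hi hj
  refine ⟨i, j, hj.2.2.2.2.symm, fun l hl => ?_⟩
  have h0 := (adm hP hL s hi.2.2.1.symm).base (adm hP hL t hj.2.2.2.1)
    (Zt_zero hP _ _ hj.2.2.1.symm hd.2.2.symm hj.2.2.2.2.symm hi.2.2.2)
    (Zt_zero hP _ _ hj.2.2.1 hj.2.2.2.2 hd.2.2 hi.2.2.2.symm) hl (hL.skew l hl)
  have h1 := (adm hP hL s hc.1.symm).left h0 (by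
    rw [mul_assoc, Zt_zero hP _ _ hj.1 hj.2.2.1 hd.1 hd.2.2, mul_zero])
  have h2 := (adm hP hL t hd.2.1).right h1 (by
    rw [← mul_assoc, Zt_zero hP _ _ hd.1 hd.2.2 hab.symm hc.2.symm, zero_mul])
  rw [← single_eq_single_vecMulVec_single, ← single_eq_single_vecMulVec_single,
    ← Zt_mul hP s (j := c) hi.1.symm, ← Zt_mul hP t (j := d) hj.2.1]
  simpa only [mul_assoc] using h2

/-- The first kind of root elements. -/
theorem k1 (hP : Pr P) (hL : Lie P L) (hι : 6 ≤ Fintype.card ι) (s t : Bool) {a b : ι}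
    (hab : a ≠ b) {B C : Matrix ι ι K} (hBC : s = t → B * C = 0) {l : G} (hl : l ∈ L) :
    D (P s (single a a 1 * B) * l * P t (C * single b b 1)) ∈ L := by
  obtain ⟨i, j, hij, h0⟩ := k0 hP hL hι s t hab
  have e1 : single a a 1 * B = vecMulVec (Pi.single a 1) (B a) := by
    ext x y
    by_cases h : x = a
    · simp [h, vecMulVec_apply]
    · simp [h, vecMulVec_apply, single_mul_apply_of_ne]
  have e2 : C * single b b 1 = vecMulVec (fun x => C x b) (Pi.single b 1) := by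
    ext x y
    by_cases h : y = b
    · simp [h, vecMulVec_apply]
    · simp [h, vecMulVec_apply, mul_single_apply_of_ne]
  rw [e1, e2]
  by_cases e : s = t
  · subst e
    refine orb_dual (by omega) (fun v w => ∀ l ∈ L, D (P s (vecMulVec (Pi.single a 1) w) * l *
      P s (vecMulVec v (Pi.single b 1))) ∈ L) (fun v v' w h h' l hl => ?_)
      (fun v w w' h h' l hl => ?_) (fun g v w h l hl => ?_) (by simp) (by simp)
      (by simp [hij.symm]) h0 _ _ ?_ l hl
    · rw [sub_vecMulVec, map_sub, mul_sub, D_sub]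
      exact sub_mem (h l hl) (h' l hl)
    · rw [vecMulVec_sub, map_sub, sub_mul, sub_mul, D_sub]
      exact sub_mem (h l hl) (h' l hl)
    · have := h _ (hL.conj s g⁻¹ l hl)
      rw [← vecMulVec_mul, ← mul_vecMulVec, ← hP.gam_mul, ← hP.mul_gam]
      simpa only [inv_inv, mul_assoc] using this
    · exact congrFun (congrFun (hBC rfl) a) b
  · obtain rfl : s = !t := by cases s <;> cases t <;> simp_all
    refine orb_pair (by omega) (fun v w => ∀ l ∈ L, D (P (!t) (vecMulVec (Pi.single a 1) v) * l *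
      P t (vecMulVec w (Pi.single b 1))) ∈ L) (fun v v' w h h' l hl => ?_)
      (fun v w w' h h' l hl => ?_) (fun g v w h l hl => ?_) ?_ h0 _ _ l hl
    · rw [vecMulVec_sub, map_sub, sub_mul, sub_mul, D_sub]
      exact sub_mem (h l hl) (h' l hl)
    · rw [sub_vecMulVec, map_sub, mul_sub, D_sub]
      exact sub_mem (h l hl) (h' l hl)
    · have := h _ (hL.conj t g⁻¹ l hl)
      have e3 : g.1ᵀ = (itr ι K g⁻¹).1 := by rw [itr_coe, inv_inv]
      rw [← mul_vecMulVec, ← vecMul_transpose, ← vecMulVec_mul, e3, ← hP.gam_mul, ← hP.mul_gam']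
      simpa only [inv_inv, mul_assoc] using this
    · rw [LinearIndependent.pair_iff]
      intro x y hxy
      have h1 := congrFun hxy i
      have h2 := congrFun hxy j
      simp [hij, hij.symm] at h1 h2
      exact ⟨h1, h2⟩

/-- Elements all of whose off diagonal root parts lie in `L`. -/
def RR (P : Bool → Matrix ι ι K →+ G) (L : AddSubgroup G) : AddSubgroup G where
  carrier := {m | ∀ (s t : Bool) (a b : ι), a ≠ b → ∀ B C,
    D (P s (single a a 1 * B) * m * P t (C * single b b 1)) ∈ L}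
  add_mem' := by
    intro m m' h h' s t a b hab B C
    rw [mul_add, add_mul, D_add]
    exact add_mem (h s t a b hab B C) (h' s t a b hab B C)
  zero_mem' := by
    intro s t a b _ B C
    rw [mul_zero, zero_mul, D_zero]
    exact zero_mem _
  neg_mem' := by
    intro m h s t a b hab B C
    rw [mul_neg, neg_mul, D_neg]
    exact neg_mem (h s t a b hab B C)

theorem P_mul_RR (hP : Pr P) (u : Bool) (B' : Matrix ι ι K) {m : G} (h : m ∈ RR P L) :
    P u B' * m ∈ RR P L := by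
  intro s t a b hab B C
  rw [← mul_assoc]
  by_cases e : s = u
  · rw [← e, hP.mul, mul_assoc (single a a 1)]
    exact h s t a b hab _ C
  · rw [hP.orth _ _ _ _ e, zero_mul, zero_mul, D_zero]
    exact zero_mem _

theorem RR_mul_P (hP : Pr P) (u : Bool) (B' : Matrix ι ι K) {m : G} (h : m ∈ RR P L) :
    m * P u B' ∈ RR P L := by
  intro s t a b hab B C
  rw [← mul_assoc, mul_assoc _ (P u B')]
  by_cases e : u = t
  · rw [e, hP.mul, ← mul_assoc B']
    exact h s t a b hab B _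
  · rw [hP.orth _ _ _ _ e, mul_zero, D_zero]
    exact zero_mem _

theorem gam_mul_RR (hP : Pr P) (s : Bool) (g : SL ι K) {m : G} (h : m ∈ RR P L) :
    gam P s g * m ∈ RR P L := by
  rw [gam, add_mul, add_mul, one_mul]
  exact add_mem (add_mem h (P_mul_RR hP _ _ h)) (P_mul_RR hP _ _ h)

theorem RR_mul_gam (hP : Pr P) (s : Bool) (g : SL ι K) {m : G} (h : m ∈ RR P L) :
    m * gam P s g ∈ RR P L := by
  rw [gam, mul_add, mul_add, mul_one]
  exact add_mem (add_mem h (RR_mul_P hP _ _ h)) (RR_mul_P hP _ _ h)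

theorem comm_idem (hP : Pr P) (hL : Lie P L) (hι : 6 ≤ Fintype.card ι) (u : Bool)
    {ε : Matrix ι ι K} (hε : ε * ε = ε) {l : G} (hl : l ∈ L) : l * P u ε - P u ε * l ∈ RR P L := by
  have a1 : ∀ s B, P s B * (1 - P u ε) = P s (B * if s = u then 1 - ε else 1) := by
    intro s B
    split_ifs with e
    · rw [← e, mul_sub, mul_sub, hP.mul, map_sub, mul_one, mul_one]
    · rw [mul_sub, hP.orth _ _ _ _ e]; simp
  have a2 : ∀ s B, (1 - P u ε) * P s B = P s ((if s = u then 1 - ε else 1) * B) := by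
    intro s B
    split_ifs with e
    · rw [← e, sub_mul, sub_mul, hP.mul, map_sub, one_mul, one_mul]
    · rw [sub_mul, hP.orth _ _ _ _ (Ne.symm e)]; simp
  have a3 : ∀ s B, P s B * P u ε = P s (B * if s = u then ε else 0) := by
    intro s B
    split_ifs with e
    · rw [← e, hP.mul]
    · rw [hP.orth _ _ _ _ e]; simp
  have a4 : ∀ s B, P u ε * P s B = P s ((if s = u then ε else 0) * B) := by
    intro s B
    split_ifs with e
    · rw [← e, hP.mul]
    · rw [hP.orth _ _ _ _ (Ne.symm e)]; simp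
  have h1 : (1 - P u ε) * l * P u ε ∈ RR P L := by
    intro s t a b hab B C
    have := k1 hP hL hι s t hab (B := B * if s = u then 1 - ε else 1)
      (C := (if t = u then ε else 0) * C) (fun e => by
        rw [← e]
        split_ifs
        · rw [mul_assoc, ← mul_assoc _ ε, sub_mul, hε]; simp
        · simp) hl
    rw [← mul_assoc, ← a1, mul_assoc _ C, ← a4] at this
    simpa only [mul_assoc] using this
  have h2 : P u ε * l * (1 - P u ε) ∈ RR P L := by
    intro s t a b hab B C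
    have := k1 hP hL hι s t hab (B := B * if s = u then ε else 0)
      (C := (if t = u then 1 - ε else 1) * C) (fun e => by
        rw [← e]
        split_ifs
        · rw [mul_assoc, ← mul_assoc ε, mul_sub, hε]; simp
        · simp) hl
    rw [← mul_assoc, ← a3, mul_assoc _ C, ← a2] at this
    simpa only [mul_assoc] using this
  convert sub_mem h1 h2 using 1
  noncomm_ring

/-- Modulo `RR` the elements of `L` commute with the special linear group. -/
theorem comm_gam (hP : Pr P) (hL : Lie P L) (hι : 6 ≤ Fintype.card ι) (s : Bool) {l : G}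
    (hl : l ∈ L) (g : SL ι K) : l * gam P s g - gam P s g * l ∈ RR P L := by
  have : Nontrivial ι := Fintype.one_lt_card_iff_nontrivial.1 (by omega)
  have h1 : ∀ u (i j : ι) (c : K), i ≠ j → l * P u (single i j c) - P u (single i j c) * l ∈
      RR P L := by
    intro u i j c h
    have e1 := comm_idem hP hL hι u (ε := single i i 1 + single i j c) (by
      simp [mul_add, add_mul, single_mul_single_of_ne _ _ _ _ h.symm]) hl
    have e2 := comm_idem hP hL hι u (ε := single i i 1) (by simp) hl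
    convert sub_mem e1 e2 using 1
    rw [map_add]
    noncomm_ring
  refine tv_induction (fun g => l * gam P s g - gam P s g * l ∈ RR P L) (fun i j h c => ?_)
    (fun g g' h h' => ?_) g
  · convert sub_mem (h1 s i j c h) (h1 (!s) j i c h.symm) using 1
    rw [gam_tv, Zt]
    noncomm_ring
  · convert add_mem (RR_mul_gam hP s g' h) (gam_mul_RR hP s g h') using 1
    rw [hP.gam_gam]
    noncomm_ring

/-- The matrix units. -/
abbrev ee (P : Bool → Matrix ι ι K →+ G) (s : Bool) (a : ι) : G := P s (single a a 1)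

/-- The idempotent. -/
def ff (P : Bool → Matrix ι ι K →+ G) : G := P true 1 + P false 1

theorem Pr.ff_mul (hP : Pr P) (s : Bool) (B : Matrix ι ι K) : ff P * P s B = P s B := by
  cases s <;> simp [ff, add_mul, hP.mul, hP.orth]

theorem Pr.mul_ff (hP : Pr P) (s : Bool) (B : Matrix ι ι K) : P s B * ff P = P s B := by
  cases s <;> simp [ff, mul_add, hP.mul, hP.orth]

theorem Pr.star_ff (hP : Pr P) : star (ff P) = ff P := by
  simp [ff, hP.inv, add_comm]

theorem Pr.ff_ff (hP : Pr P) : ff P * ff P = ff P := by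
  nth_rewrite 2 [ff]
  rw [mul_add, hP.ff_mul, hP.ff_mul, ff]

theorem Pr.co_gam (hP : Pr P) (s : Bool) (g : SL ι K) : (1 - ff P) * gam P s g = 1 - ff P := by
  simp only [gam, mul_add, sub_mul, hP.ff_mul, one_mul, mul_one, sub_self, add_zero]

/-- Decomposition of the idempotent through a fixed index. -/
theorem Pr.ff_eq (hP : Pr P) (c : ι) : ff P = ∑ x : Bool × ι,
    P x.1 (single x.2 c 1) * ee P x.1 c * (ee P x.1 c * P x.1 (single c x.2 1)) := by
  simp only [hP.mul, single_mul_single_same, mul_one, Fintype.sum_prod_type, ← map_sum,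
    sum_single_one, Fintype.sum_bool, ff]

theorem Pr.co_ff (hP : Pr P) (c : ℤ) (B C : Matrix ι ι K) :
    (1 - ff P) * (c + P true B + P false C) * ff P = 0 ∧
      ff P * (c + P true B + P false C) * (1 - ff P) = 0 := by
  have e : ff P * (c : G) = c * ff P := (Int.cast_commute c _).symm
  constructor <;> simp only [mul_add, add_mul, sub_mul, mul_sub, one_mul, mul_one, hP.ff_mul,
    hP.mul_ff, e, mul_assoc, hP.ff_ff, sub_self, add_zero]

/-- Subgroups which are stable under the two matrix rings. -/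
structure Bim (P : Bool → Matrix ι ι K →+ G) (M : AddSubgroup G) : Prop where
  left : ∀ s B, ∀ m ∈ M, P s B * m ∈ M
  right : ∀ s B, ∀ m ∈ M, m * P s B ∈ M

/-- Root elements of the first kind. -/
def R0 (P : Bool → Matrix ι ι K →+ G) (L : AddSubgroup G) : AddSubgroup G where
  carrier := {m | ∀ (s t : Bool) (a b : ι), a ≠ b → D (ee P s a * m * ee P t b) ∈ L}
  add_mem' := by
    intro m m' h h' s t a b hab
    rw [mul_add, add_mul, D_add]
    exact add_mem (h s t a b hab) (h' s t a b hab)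
  zero_mem' := by
    intro s t a b _
    rw [mul_zero, zero_mul, D_zero]
    exact zero_mem _
  neg_mem' := by
    intro m h s t a b hab
    rw [mul_neg, neg_mul, D_neg]
    exact neg_mem (h s t a b hab)

theorem RR_le : RR P L ≤ R0 P L := fun m h s t a b hab => by
  simpa using h s t a b hab 1 1

/-- Root elements of the second kind. -/
def S0 (P : Bool → Matrix ι ι K →+ G) (L : AddSubgroup G) : AddSubgroup G where
  carrier := {m | ∃ l ∈ L, (1 - ff P) * l * ff P = (1 - ff P) * m * ff P}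
  add_mem' := by
    rintro m m' ⟨l, h, e⟩ ⟨l', h', e'⟩
    exact ⟨l + l', add_mem h h', by rw [mul_add, add_mul, e, e', mul_add, add_mul]⟩
  zero_mem' := ⟨0, zero_mem _, rfl⟩
  neg_mem' := by
    rintro m ⟨l, h, e⟩
    exact ⟨-l, neg_mem h, by rw [mul_neg, neg_mul, e, mul_neg, neg_mul]⟩

theorem Pr.ee_ne (hP : Pr P) (s t : Bool) {a b : ι} (h : a ≠ b) (x : G) :
    ee P s a * (ee P t b * x) = 0 := by
  rw [← mul_assoc, hP.zero (single_mul_single_of_ne _ _ _ _ h _), zero_mul]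

theorem Pr.star_ee (hP : Pr P) (s : Bool) (a : ι) : star (ee P s a) = ee P (!s) a := by
  rw [hP.inv, transpose_single]

variable {M₁ M₂ L₁ L₂ : AddSubgroup G}

theorem thru (hP : Pr P) (hι : 6 ≤ Fintype.card ι) (hM₁ : Bim P M₁) (hM₂ : Bim P M₂)
    (hR₁ : M₁ ≤ R0 P L₁) (hR₂ : M₂ ≤ R0 P L₂)
    (hc : ∀ l₁ ∈ L₁, ∀ l₂ ∈ L₂, l₁ * l₂ - l₂ * l₁ ∈ L) {m₁ m₂ : G} (h₁ : m₁ ∈ M₁) (h₂ : m₂ ∈ M₂) :
    m₁ * ff P * m₂ ∈ R0 P L := by
  intro s t a b hab
  obtain ⟨c, hc'⟩ := fresh {a, b} (lt_of_le_of_lt Finset.card_le_two (by omega))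
  simp only [Finset.mem_insert, Finset.mem_singleton, not_or, ← ne_eq] at hc'
  rw [hP.ff_eq c, Finset.mul_sum, Finset.sum_mul, Finset.mul_sum, Finset.sum_mul, D_sum]
  refine sum_mem fun x _ => ?_
  have := hc _ (hR₁ (hM₁.right x.1 (single x.2 c 1) _ h₁) s x.1 a c hc'.1.symm) _
    (hR₂ (hM₂.left x.1 (single c x.2 1) _ h₂) x.1 t c b hc'.2)
  convert this using 1
  simp only [D, star_mul, hP.star_ee, mul_sub, sub_mul, mul_assoc, hP.ee_ne _ _ hab,
    hP.ee_ne _ _ hab.symm, hP.ee_ne _ _ hc'.1, hP.ee_ne _ _ hc'.1.symm, hP.ee_ne _ _ hc'.2,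
    hP.ee_ne _ _ hc'.2.symm, mul_zero]
  abel

/-- The inductive step. -/
theorem step (hP : Pr P) (hι : 6 ≤ Fintype.card ι) (hL : Lie P L) (hM₁ : Bim P M₁)
    (hM₂ : Bim P M₂) (hs : ∀ m ∈ M₁, star m ∈ M₁) (hs' : ∀ l ∈ L₁, star l = -l) (hl₁ : L₁ ≤ M₁)
    (hl₂ : L₂ ≤ M₂) (hR₁ : M₁ ≤ R0 P L₁) (hR₂ : M₂ ≤ R0 P L₂)
    (hS₁ : M₁ ≤ S0 P L₁) (hS₂ : M₂ ≤ S0 P L₂)
    (h0 : ∀ m ∈ M₁, (1 - ff P) * m * (1 - ff P) = 0)
    (hc : ∀ l₁ ∈ L₁, ∀ l₂ ∈ L₂, l₁ * l₂ - l₂ * l₁ ∈ L) {m₁ m₂ : G} (h₁ : m₁ ∈ M₁) (h₂ : m₂ ∈ M₂) :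
    m₁ * m₂ ∈ R0 P L ⊓ S0 P L := by
  have hc' : ∀ l₂ ∈ L₂, ∀ l₁ ∈ L₁, l₂ * l₁ - l₁ * l₂ ∈ L := fun l₂ h₂ l₁ h₁ => by
    rw [← neg_sub]; exact neg_mem (hc _ h₁ _ h₂)
  have f1 := hP.ff_mul
  have f2 := hP.mul_ff
  have f3 := hP.ff_ff
  have f4 := hP.star_ff
  have hff := hP.ff_eq
  generalize hf : ff P = f at f1 f2 f3 f4 hff h0
  have g1 : ∀ s B x, f * (P s B * x) = P s B * x := fun s B x => by rw [← mul_assoc, f1]
  have g2 : ∀ s B x, P s B * (f * x) = P s B * x := fun s B x => by rw [← mul_assoc, f2]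
  have g3 : ∀ x, f * (f * x) = f * x := fun x => by rw [← mul_assoc, f3]
  refine AddSubgroup.mem_inf.2 ⟨?_, ?_⟩
  · intro s t a b hab
    obtain ⟨l₁, k₁, e₁⟩ := hS₁ (hs _ (hM₁.left s (single a a 1) _ h₁))
    obtain ⟨l₂, k₂, e₂⟩ := hS₂ h₂
    rw [hf] at e₁ e₂
    have e₃ := congrArg star e₁
    simp only [star_mul, star_star, star_sub, star_one, f4, hs' _ k₁] at e₃
    have t0 := k1 hP hL hι s t hab (B := single a a 1) (C := single b b 1)
      (fun _ => single_mul_single_of_ne _ _ _ _ hab _) (hc' _ k₂ _ k₁)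
    have t1 := thru hP hι hM₁ hM₂ hR₁ hR₂ hc (hl₁ k₁) (hl₂ k₂) s t a b hab
    have t2 := thru hP hι hM₂ hM₁ hR₂ hR₁ hc' (hl₂ k₂) (hl₁ k₁) s t a b hab
    have t3 := thru hP hι hM₁ hM₂ hR₁ hR₂ hc h₁ h₂ s t a b hab
    rw [single_mul_single_same, single_mul_single_same, mul_one] at t0
    rw [hf] at t1 t2 t3
    have u1 : (1 - f) * l₁ * ee P t b = 0 := by
      rw [ee, ← f1, ← mul_assoc, e₁, mul_assoc, f1, star_mul, hP.star_ee, mul_assoc, mul_assoc,
        hP.zero (single_mul_single_of_ne _ _ _ _ hab _), mul_zero, mul_zero]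
    have u2 : (1 - f) * l₂ * ee P t b = (1 - f) * m₂ * ee P t b := by
      rw [ee, ← f1, ← mul_assoc, e₂, ← mul_assoc]
    have u3 : ee P s a * l₁ * (1 - f) = -(ee P s a * m₁ * (1 - f)) := by
      have := congrArg (fun x => ee P s a * x) e₃
      simp only [g2, ← mul_assoc, hP.mul, single_mul_single_same, mul_one, mul_neg,
        neg_mul] at this
      rw [← this, neg_neg]
    have u4 : ∀ x, (1 - f) * ((1 - f) * x) = (1 - f) * x := fun x => by
      simp only [mul_sub, sub_mul, one_mul, g3]; abel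
    have u5 : ee P s a * l₁ * (1 - f) * l₂ * ee P t b =
        -(ee P s a * m₁ * (1 - f) * m₂ * ee P t b) := by
      calc _ = ee P s a * l₁ * (1 - f) * ((1 - f) * l₂ * ee P t b) := by
            simp only [mul_assoc, u4]
        _ = _ := by rw [u2, u3]; simp only [mul_assoc, u4, neg_mul]
    have u6 : ee P s a * l₂ * (1 - f) * l₁ * ee P t b = 0 := by
      rw [mul_assoc, mul_assoc, ← mul_assoc (1 - f), u1, mul_zero]
    convert add_mem (add_mem (sub_mem t0 t2) t1) t3 using 1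
    rw [← D_sub, ← D_add, ← D_add]
    congr 1
    simp only [mul_sub, sub_mul, mul_one, mul_assoc] at u5 u6 ⊢
    linear_combination (norm := abel) u5 - u6
  · have e0 : (1 - f) * (m₁ * m₂) * f = ∑ y : Bool × ι, (1 - f) * m₁ * f * m₂ * ee P y.1 y.2 := by
      have e1 : ∑ y : Bool × ι, ee P y.1 y.2 = f := by
        simp only [Fintype.sum_prod_type, ← map_sum, sum_single_one, Fintype.sum_bool, ← hf, ff]
      have e2 := congrArg (fun x => x * m₂ * f) (h0 _ h₁)
      rw [← Finset.mul_sum, e1]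
      simp only [mul_sub, sub_mul, mul_one, one_mul, mul_assoc, zero_mul] at e2 ⊢
      linear_combination (norm := abel) e2
    let T : AddSubgroup G := L.map ((AddMonoidHom.mulRight f).comp (AddMonoidHom.mulLeft (1 - f)))
    suffices H : (1 - f) * (m₁ * m₂) * f ∈ T by
      obtain ⟨l, k, e⟩ := H
      exact ⟨l, k, by rw [hf]; exact e⟩
    rw [e0]
    refine sum_mem fun y _ => ?_
    obtain ⟨c, hc'⟩ := fresh {y.2} (by rw [Finset.card_singleton]; omega)
    rw [Finset.mem_singleton, ← ne_eq] at hc'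
    nth_rewrite 2 [hff c]
    rw [Finset.mul_sum, Finset.sum_mul, Finset.sum_mul]
    refine sum_mem fun x _ => ?_
    obtain ⟨l₁, k₁, e₁⟩ := hS₁ (hM₁.right x.1 (single c c 1) _
      (hM₁.right x.1 (single x.2 c 1) _ h₁))
    rw [hf] at e₁
    refine ⟨_, hc _ k₁ _ (hR₂ (hM₂.left x.1 (single c x.2 1) _ h₂) x.1 y.1 c y.2 hc'), ?_⟩
    have e₂ : ∀ s B z, (1 - f) * (l₁ * (P s B * z)) =
        (1 - f) * (m₁ * (P x.1 (single x.2 c 1) * (ee P x.1 c * (P s B * z)))) := fun s B z => by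
      have := congrArg (fun w => w * (P s B * z)) e₁
      simpa only [mul_assoc, g1] using this
    have e₃ : ∀ s B z, (1 - f) * (P s B * z) = 0 := fun s B z => by
      rw [sub_mul, one_mul, g1, sub_self]
    change (1 - f) * _ * f = _
    simp only [D, star_mul, hP.star_ee, mul_sub, sub_mul (_ * _),
      mul_assoc, e₂, e₃, f2, hP.ee_ne _ _ hc', mul_zero, sub_zero]

end Abs

section Inst
variable {p : ℕ} [Fact p.Prime] {ι K : Type} [Fintype ι] [DecidableEq ι] [Field K] {H : Type}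
  [Group H] [Finite H] {A E : Type} [Ring A] [StarRing A] [Ring E] {φ : H →* SL ι K}
  {ρ : H →* A} {q : A →+* E} {π π' : Matrix ι ι K →+ E}

/-- The filtration by powers. -/
def Fl (J : Submodule ℤ A) : ℕ → AddSubgroup A
  | 0 => ⊤
  | i + 1 => (J ^ (i + 1)).toAddSubgroup

theorem filt (h : St p φ ρ q π π') : Filt (Fl (Jd ρ φ.ker ⊤)) where
  zero := fun _ => trivial
  anti := fun i => by
    cases i with
    | zero => exact le_top
    | succ i => exact Jd_pow_anti (Nat.le_succ i)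
  mul := fun {i j a b} ha hb => by
    cases i with
    | zero =>
      cases j with
      | zero => trivial
      | succ j => rw [zero_add]; exact Ad_mul_Jd_pow (h.mem_Ad a) hb
    | succ i =>
      cases j with
      | zero => exact Jd_pow_mul_Ad ha (h.mem_Ad b)
      | succ j => exact Jd_pow_mul (k := i + 1) (l := j + 1) ha hb
  star := fun {i a} ha => by
    cases i with
    | zero => trivial
    | succ i => exact star_mem_Jd_pow h.star_eq ha

omit [StarRing A] in
theorem mem_one {J : Submodule ℤ A} {a : A} : a ∈ Fl J 1 ↔ a ∈ J := by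
  change a ∈ J ^ (0 + 1) ↔ _
  rw [zero_add, pow_one]

variable {G : Type} [Ring G] [StarRing G] {κ : A →+* G} {τ : ℕ → A → G}

theorem exists_pr (h : St p φ ρ q π π') (hι : 3 ≤ Fintype.card ι)
    (hG : GrD (Fl (Jd ρ φ.ker ⊤)) κ τ) : ∃ P : Bool → Matrix ι ι K →+ G, Pr P ∧
      (∀ s B, ∃ X, κ X = P s B) ∧ ∀ (c : ℤ) X B C, q X = c + π B + π' C →
        κ X = c + P true B + P false Cᵀ := by
  have hk : ∀ a b, q a = q b → κ a = κ b := fun a b e => by
    rw [← sub_eq_zero, ← map_sub, hG.kz, mem_one, ← h.ker, map_sub, e, sub_self]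
  let w : Bool → Matrix ι ι K → E := fun s B => cond s (π B) (π' Bᵀ)
  have hw : ∀ s B, ∃ X, q X = w s B := fun s B => by
    cases s
    · exact (h.lift' hι Bᵀ).imp fun _ hX => hX.2
    · exact (h.lift hι B).imp fun _ hX => hX.2
  choose u hu using hw
  let P : Bool → Matrix ι ι K →+ G := fun s => AddMonoidHom.mk' (fun B => κ (u s B)) fun B C => by
    rw [← map_add]
    refine hk _ _ ?_
    rw [map_add, hu, hu, hu]
    cases s <;> simp [w]
  have hP : ∀ s B, P s B = κ (u s B) := fun _ _ => rfl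
  refine ⟨P, ⟨fun s B C => ?_, fun s t B C e => ?_, fun s B => ?_⟩, fun s B => ⟨_, rfl⟩,
    fun c X B C e => ?_⟩
  · rw [hP, hP, hP, ← map_mul]
    refine hk _ _ ?_
    rw [map_mul, hu, hu, hu]
    cases s <;> simp [w, h.str.mul, h.str.anti]
  · rw [hP, hP, ← map_mul, ← map_zero κ]
    refine hk _ _ ?_
    rw [map_mul, hu, hu, map_zero]
    cases s <;> cases t <;> simp [w, h.str.orth, h.str.orth'] at e ⊢
  · rw [hP, hP, ← hG.ks]
    refine hk _ _ ?_
    rw [hu]
    cases s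
    · exact h.q_star' hι (hu false B)
    · exact h.q_star hι (hu true B)
  · rw [hP, hP, ← map_intCast κ, ← map_add, ← map_add]
    refine hk _ _ ?_
    rw [e, map_add, map_add, hu, hu, map_intCast]
    rfl

theorem main (hS : StructStmt) (h : St p φ ρ q π π') (hH : Group.IsPerfect H)
    (hι : 6 ≤ Fintype.card ι) (hG : GrD (Fl (Jd ρ φ.ker ⊤)) κ τ) {P : Bool → Matrix ι ι K →+ G}
    (hP : Pr P) (hX : ∀ s B, ∃ X, κ X = P s B)
    (hq : ∀ (c : ℤ) X B C, q X = c + π B + π' C → κ X = c + P true B + P false Cᵀ) (k : ℕ) :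
    hG.Mg (k + 1) ≤ R0 P (hG.Lg ρ k) ⊓ S0 P (hG.Lg ρ k) := by
  have hF := hG.filt
  have hρ : ∀ g, κ (ρ g) = gam P true (φ g) := fun g => by
    rw [hq 1 _ _ _ (by rw [h.q_rho, Int.cast_one]), Int.cast_one, gam, itr_coe, map_inv,
      transpose_sub, transpose_one]
    rfl
  have ha : ∀ a, ∃ (c : ℤ) (B C : Matrix ι ι K), κ a = c + P true B + P false C := fun a => by
    obtain ⟨c, B, C, e⟩ := h.q_eq a
    exact ⟨c, B, _, hq c a B C e⟩
  have hB : ∀ i, Bim P (hG.Mg i) := fun i => by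
    constructor
    · rintro s B _ ⟨m, hm, rfl⟩
      obtain ⟨X, e⟩ := hX s B
      exact ⟨_, hF.left X hm, by rw [hG.left _ hm, e]⟩
    · rintro s B _ ⟨m, hm, rfl⟩
      obtain ⟨X, e⟩ := hX s B
      exact ⟨_, hF.right X hm, by rw [hG.right _ hm, e]⟩
  have hL : ∀ i, Lie P (hG.Lg ρ i) := fun i => by
    have h1 : ∀ g, ∀ l ∈ hG.Lg ρ i, gam P true g * l * gam P true g⁻¹ ∈ hG.Lg ρ i := by
      intro g l hl
      obtain ⟨x, rfl⟩ := h.surj g
      rw [← map_inv, ← hρ, ← hρ]
      exact hG.Lg_conj ρ x hl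
    constructor
    · intro s g l hl
      cases s
      · have e : ∀ g, gam P false g = gam P true (itr ι K g) := fun g => by
          rw [gam, gam, itr_itr, add_right_comm]
          rfl
        rw [e, e, map_inv]
        exact h1 _ l hl
      · exact h1 g l hl
    · rintro _ ⟨y, hy, rfl⟩
      rw [← hG.inv _ _ hy, star_sub, star_one, h.star_eq, (hG.t_inv ρ hy).2]
  have hy : ∀ y, φ y = 1 → ρ y - 1 ∈ Fl (Jd ρ φ.ker ⊤) 1 := fun y e =>
    mem_one.2 (sub_one_mem_Jd e trivial)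
  have hsp : ∀ T : AddSubgroup G, (∀ y g, φ y = 1 → τ 1 (ρ y - 1) * κ (ρ g) ∈ T) →
      hG.Mg 1 ≤ T := by
    rintro T hT _ ⟨m, hm, rfl⟩
    have : Jd ρ φ.ker ⊤ ≤ (hG.pre 1 T).toIntSubmodule := Submodule.span_le.2 (by
      rintro _ ⟨y, e, -, g, -, rfl⟩
      exact ⟨hF.right _ (hy y e), by rw [hG.right _ (hy y e)]; exact hT y g e⟩)
    exact (this (mem_one.1 hm)).2
  have hκ : ∀ a, ∀ x ∈ RR P (hG.Lg ρ 0), κ a * x ∈ RR P (hG.Lg ρ 0) ∧ x * κ a ∈
      RR P (hG.Lg ρ 0) := fun a x hx => by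
    obtain ⟨c, B, C, e⟩ := ha a
    rw [e, add_mul, add_mul, mul_add, mul_add, ← (Int.cast_commute c x).eq, ← zsmul_eq_mul]
    exact ⟨add_mem (add_mem (zsmul_mem hx c) (P_mul_RR hP _ _ hx)) (P_mul_RR hP _ _ hx),
      add_mem (add_mem (zsmul_mem hx c) (RR_mul_P hP _ _ hx)) (RR_mul_P hP _ _ hx)⟩
  have hR : hG.Mg 1 ≤ R0 P (hG.Lg ρ 0) := by
    refine le_trans (hsp _ fun y g e => (hκ _ _ ?_).2) RR_le
    let T := hG.pre 1 (RR P (hG.Lg ρ 0))
    let I : TwoSidedIdeal A := TwoSidedIdeal.mk' T (zero_mem T) (fun a b => add_mem a b)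
      (fun a => neg_mem a)
      (fun {a m} hm => ⟨hF.left a hm.1, by rw [hG.left a hm.1]; exact (hκ a _ hm.2).1⟩)
      (fun {m a} hm => ⟨hF.right a hm.1, by rw [hG.right a hm.1]; exact (hκ a _ hm.2).2⟩)
    have hI : ∀ a b, I.ringCon.mk' a = I.ringCon.mk' b ↔ a - b ∈ T := fun a b => by
      rw [RingCon.coe_mk', RingCon.eq, TwoSidedIdeal.rel_iff, TwoSidedIdeal.mem_mk']
      rfl
    obtain ⟨S₁, -, c₁⟩ := Finset.exists_subset_card_eq (s := (Finset.univ : Finset ι)) (n := 3)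
      (by rw [Finset.card_univ]; omega)
    obtain ⟨S₂, d, c₂⟩ := Finset.exists_subset_card_eq (s := S₁ᶜ) (n := 3)
      (by rw [Finset.card_compl]; omega)
    have hd : Disjoint S₁ S₂ := disjoint_compl_right.mono_right d
    have hY : ∀ S, ∀ t ∈ Ys φ S, φ t ∈ Tr K S := fun S =>
      (Subgroup.commutator_le (H₃ := (Tr K S).comap φ)).2 fun a a' b b' =>
        mul_mem (mul_mem (mul_mem a' b') (inv_mem a')) (inv_mem b')
    obtain ⟨π₁, π₁', hs⟩ := hS p ι K H I.ringCon.Quotient φ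
      ((I.ringCon.mk' : A →* I.ringCon.Quotient).comp ρ) S₁ S₂ h.surj hH
      (by rw [← map_natCast I.ringCon.mk', h.chr, map_zero])
      (fun y g e => by
        change I.ringCon.mk' (ρ y) * I.ringCon.mk' (ρ g) = I.ringCon.mk' (ρ g) * I.ringCon.mk' (ρ y)
        have e1 : ρ y * ρ g - ρ g * ρ y = (ρ y - 1) * ρ g - ρ g * (ρ y - 1) := by noncomm_ring
        rw [← map_mul I.ringCon.mk', ← map_mul I.ringCon.mk', hI, e1]
        refine ⟨sub_mem (hF.right _ (hy y e)) (hF.left _ (hy y e)), ?_⟩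
        rw [hG.sub (hF.right _ (hy y e)) (hF.left _ (hy y e)), hG.right _ (hy y e),
          hG.left _ (hy y e), hρ]
        exact comm_gam hP (hL 0) hι true ⟨y, hy y e, rfl⟩ _)
      hd c₁.ge c₂.ge (fun t₁ h₁ t₂ h₂ q₁ q₂ => by
        have := (h.d1 t₁ t₂ q₁ q₂ (tr_mul hd (hY _ _ h₁) (hY _ _ h₂))
          (tr_mul hd.symm (hY _ _ h₂) (hY _ _ h₁))).map I.ringCon.mk'
        rwa [map_mul, map_sub, map_sub, map_one] at this)
    have := hs.eq y
    rw [map_inv, e, inv_one, show (1 : SL ι K).1 = 1 from rfl, sub_self, map_zero, map_zero, add_zero,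
      add_zero] at this
    exact ((hI (ρ y) 1).1 (this.trans (map_one _).symm)).2
  have hS0 : hG.Mg 1 ≤ S0 P (hG.Lg ρ 0) := hsp _ fun y g e =>
    ⟨_, hG.Lg_conj ρ g⁻¹ ⟨y, hy y e, rfl⟩, by
      rw [inv_inv, hρ g⁻¹, ← mul_assoc, ← mul_assoc, hP.co_gam, ← mul_assoc]⟩
  have h0 : ∀ m ∈ hG.Mg 1, (1 - ff P) * m * (1 - ff P) = 0 := by
    rintro _ ⟨m, hm, rfl⟩
    obtain ⟨f, -, hff, -, e, hf⟩ := h.exists_idem (by omega)
    have e1 : κ f = ff P := by
      rw [hq 0 f 1 1 (by rw [e, Int.cast_zero, zero_add]), Int.cast_zero, zero_add, transpose_one,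
        ff]
    have e2 : 1 - ff P = κ (1 - f) := by rw [map_sub, map_one, e1]
    rw [e2, ← hG.left _ hm, ← hG.right _ (hF.left _ hm), hG.ker _ _ (hF.right _ (hF.left _ hm))]
    rw [op_eq_top hH] at hf
    refine Submodule.span_induction (p := fun m _ => (1 - f) * m * (1 - f) ∈ Fl (Jd ρ φ.ker ⊤) 2)
      ?_ (by simp) (fun a b _ _ h1 h2 => ?_) (fun n a _ h1 => ?_) (hf m (Jd_le_Bd (mem_one.1 hm)))
    · rintro _ ⟨a, -, a', -, rfl⟩
      obtain ⟨c, B, C, e3⟩ := ha a
      obtain ⟨c', B', C', e4⟩ := ha a'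
      have m1 : (1 - f) * a * f ∈ Fl (Jd ρ φ.ker ⊤) 1 := by
        rw [← hG.kz, map_mul, map_mul, ← e2, e1, e3, (hP.co_ff c B C).1]
      have m2 : f * a' * (1 - f) ∈ Fl (Jd ρ φ.ker ⊤) 1 := by
        rw [← hG.kz, map_mul, map_mul, ← e2, e1, e4, (hP.co_ff c' B' C').2]
      convert hF.mul m1 m2 using 1
      simp only [mul_assoc, ← mul_assoc f f, hff]
    · rw [mul_add, add_mul]
      exact add_mem h1 h2
    · rw [mul_smul_comm, smul_mul_assoc]
      exact zsmul_mem h1 n
  induction k with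
  | zero => exact le_inf hR hS0
  | succ k ih =>
    rintro _ ⟨m, hm, rfl⟩
    have : Jd ρ φ.ker ⊤ * Jd ρ φ.ker ⊤ ^ (k + 1) ≤ (hG.pre (k + 1 + 1)
        (R0 P (hG.Lg ρ (k + 1)) ⊓ S0 P (hG.Lg ρ (k + 1)))).toIntSubmodule := by
      refine Submodule.mul_le.2 fun a a' b b' => ?_
      have m1 := hF.mul (mem_one.2 a') (j := k + 1) b'
      have t1 := hG.mul 1 (k + 1) _ _ (mem_one.2 a') b'
      rw [add_comm 1] at m1 t1
      refine ⟨m1, ?_⟩
      rw [t1]
      refine step hP hι (hL _) (hB 1) (hB (k + 1)) ?_ (hL 0).skew (hG.Lg_le ρ 0) (hG.Lg_le ρ k) hR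
        (ih.trans inf_le_left) hS0 (ih.trans inf_le_right) h0
        (fun _ h₁ _ h₂ => hG.Lg_comm ρ h₁ h₂) ⟨_, mem_one.2 a', rfl⟩ ⟨_, b', rfl⟩
      rintro _ ⟨m, hm, rfl⟩
      exact ⟨_, hF.star hm, (hG.inv _ _ hm).symm⟩
    rw [← pow_succ'] at this
    exact (this hm).2

end Inst

end GR

/-- The graded root theorem. -/
theorem grStmt (hS : StructStmt) : GrStmt := by
  intro p _ ι K _ _ _ _ _ H _ _ A E _ _ _ φ ρ q π π' h hH hι k a b X Y m hab hX hY hm
  obtain ⟨G, _, _, κ, τ, hG⟩ := GR.exists_gr (GR.filt h)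
  obtain ⟨P, hP, h1, h2⟩ := GR.exists_pr h (by omega) hG
  have he : ∀ (c : ι) (Z : A), q Z = π (single c c 1) ∨ q Z = π' (single c c 1) →
      ∃ s, κ Z = GR.ee P s c := by
    rintro c Z (e | e)
    · exact ⟨true, by simpa using h2 0 Z (single c c 1) 0 (by simpa using e)⟩
    · exact ⟨false, by simpa using h2 0 Z 0 (single c c 1) (by simpa using e)⟩
  obtain ⟨s, hs⟩ := he a X hX
  obtain ⟨t, ht⟩ := he b Y hY
  have hm' : m ∈ GR.Fl (Jd ρ φ.ker ⊤) (k + 1) := hm
  obtain ⟨y, hy, e⟩ := (GR.main hS h hH hι hG hP h1 h2 k ⟨m, hm', rfl⟩).1 s t a b hab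
  have m1 := hG.filt.right Y (hG.filt.left X hm')
  have m2 := sub_mem m1 (hG.filt.star m1)
  refine ⟨y, (hG.ker _ _ (sub_mem hy m2)).1 ?_⟩
  rw [hG.sub hy m2, ← e, hG.sub m1 (hG.filt.star m1), hG.inv _ _ m1,
    hG.right _ (hG.filt.left X hm'), hG.left _ hm', hs, ht, GR.D, sub_self]

end Pool.Agent.Lib.MP_679d9b_al.PT
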