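import Pool.Agent.Lib.MP_679d9b_al.PT.Basic
import Mathlib

-- part Pool.Agent.Lib.MP_679d9b_al.PT.Prim
section

/-!
Isotypic components of a semisimple matrix over a finite field.
-/

set_option autoImplicit false

namespace Pool.Agent.Lib.MP_679d9b_al.PT

open Matrix Polynomial

namespace Prim

variable {ι K : Type} [Fintype ι] [DecidableEq ι] [Field K]

lemma comm_aeval {A : Type} [Ring A] [Algebra K A] {a b : A} (h : Commute a b) (q : K[X]) :
    Commute a (aeval b q) :=
  Algebra.commute_of_mem_adjoin_singleton_of_commute (aeval_mem_adjoin_singleton K b) h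

/-- The model attached to a subspace which is a vector space over an extension field. -/
lemma model_abs (p : ℕ) [Finite K] [CharP K p] (S η : Matrix ι ι K) (o : ℕ) (K' : Type)
    [Field K'] [Algebra K K'] [Module.Finite K K'] (hd : Module.finrank K K' ≤ o)
    (U : Type) [AddCommGroup U] [Module K U] [Module K' U] [IsScalarTower K K' U]
    [Module.Finite K U] (i : U →ₗ[K] (ι → K)) (π : (ι → K) →ₗ[K] U) (hπi : ∀ u, π (i u) = u)
    (hiπ : ∀ v, i (π v) = η *ᵥ v) (r : K') (hr : ∀ u, i (r • u) = S *ᵥ i u)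
    (hgen : ∀ Y : U →ₗ[K] U, (∀ u, Y (r • u) = r • Y u) → ∀ (k : K') u, Y (k • u) = k • Y u)
    (hcen : ∀ B, Commute S B → Commute B η) : Nonempty (Model p S η o) := by
  have : Module.Finite K' U := Module.Finite.of_restrictScalars_finite K K' U
  have : Finite K' := Module.finite_of_finite K
  have : CharP K' p := charP_of_injective_algebraMap (algebraMap K K').injective p
  set b := Module.finBasis K' U with hb
  have hi : Function.Injective i := Function.LeftInverse.injective hπi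
  have hSη : S * η = η * S := hcen S (Commute.refl S)
  have hπS : ∀ v, π (S *ᵥ v) = r • π v := fun v => hi (by
    rw [hr, hiπ, hiπ, mulVec_mulVec, mulVec_mulVec, hSη])
  let e : Matrix (Fin (Module.finrank K' U)) (Fin (Module.finrank K' U)) K' → Matrix ι ι K :=
    fun C => LinearMap.toMatrix' (i ∘ₗ (toLin b b C).restrictScalars K ∘ₗ π)
  have he : ∀ C v, e C *ᵥ v = i (toLin b b C (π v)) := fun C v => by
    simp only [e, LinearMap.toMatrix'_mulVec, LinearMap.comp_apply,
      LinearMap.restrictScalars_apply]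
  have hext : ∀ A B : Matrix ι ι K, (∀ v, A *ᵥ v = B *ᵥ v) → A = B := fun A B h =>
    toLin'.injective (LinearMap.ext h)
  let E : Matrix (Fin (Module.finrank K' U)) (Fin (Module.finrank K' U)) K' →ₙ+* Matrix ι ι K :=
    { toFun := e
      map_mul' := fun C D => hext _ _ fun v => by
        rw [← mulVec_mulVec, he, he, he, hπi, toLin_mul_apply b b b]
      map_zero' := hext _ _ fun v => by rw [he]; simp
      map_add' := fun C D => hext _ _ fun v => by rw [add_mulVec, he, he, he]; simp }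
  have hE : ∀ C v, E C *ᵥ v = i (toLin b b C (π v)) := he
  refine ⟨{ K' := K', ι' := Fin (Module.finrank K' U), ext := E, inj := ?_, one := ?_,
            comm := ?_, res := ?_, cen := hcen, rk := ?_ }⟩
  · intro C D h
    refine (toLin b b).injective (LinearMap.ext fun u => hi ?_)
    have h1 := hE C (i u)
    rw [h, hE, hπi] at h1
    exact h1.symm
  · refine hext _ _ fun v => ?_
    rw [hE, toLin_one, LinearMap.id_apply, hiπ]
  · intro C
    refine hext _ _ fun v => ?_
    rw [← mulVec_mulVec, ← mulVec_mulVec, hE, hE, hπS, map_smul, hr]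
  · intro B hB
    let Y : U →ₗ[K] U := π ∘ₗ toLin' B ∘ₗ i
    have hY : ∀ u, Y u = π (B *ᵥ i u) := fun u => rfl
    have hYr : ∀ u, Y (r • u) = r • Y u := fun u => by
      rw [hY, hY, hr, mulVec_mulVec, ← hB.eq, ← mulVec_mulVec, hπS]
    let Y' : U →ₗ[K'] U :=
      { toFun := Y, map_add' := Y.map_add, map_smul' := fun k u => hgen Y hYr k u }
    have hY' : ∀ u, Y' u = π (B *ᵥ i u) := fun u => rfl
    have hηη : η * η = η := hext _ _ fun v => by
      rw [← mulVec_mulVec, ← hiπ v, ← hiπ, hπi]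
    refine ⟨LinearMap.toMatrix b b Y', hext _ _ fun v => ?_⟩
    rw [hE, toLin_toMatrix, hY', hiπ, hiπ, mulVec_mulVec, mulVec_mulVec, ← (hcen B hB).eq,
      Matrix.mul_assoc, hηη]
  · intro C
    set W := LinearMap.range (toLin b b C) with hW
    have h1 : LinearMap.range (E C).mulVecLin ≤ (W.restrictScalars K).map i := by
      rintro _ ⟨v, rfl⟩
      exact ⟨toLin b b C (π v), ⟨π v, rfl⟩, (hE C v).symm⟩
    have h2 : Module.finrank K (W.restrictScalars K) =
        Module.finrank K K' * Module.finrank K' W := (Module.finrank_mul_finrank K K' W).symm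
    rw [rank_eq_finrank_range_toLin C b b]
    calc (E C).rank ≤ Module.finrank K ((W.restrictScalars K).map i) := Submodule.finrank_mono h1
      _ ≤ Module.finrank K (W.restrictScalars K) := Submodule.finrank_map_le _ _
      _ ≤ o * Module.finrank K' W := by rw [h2]; exact Nat.mul_le_mul_right _ hd

/-- An idempotent polynomial in `S` which is killed by an irreducible polynomial in `S`. -/
def Iso (S : Matrix ι ι K) (o : ℕ) (η : Matrix ι ι K) : Prop :=
  (∃ q : K[X], η = aeval S q) ∧ η * η = η ∧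
    ∃ f : K[X], Irreducible f ∧ f.natDegree ≤ o ∧ aeval S f * η = 0

lemma model_of (p : ℕ) [Finite K] [CharP K p] (S η : Matrix ι ι K) (o : ℕ) (h : Iso S o η) :
    Nonempty (Model p S η o) := by
  obtain ⟨⟨q, hq⟩, hηη, f, hf, hdeg, hfη⟩ := h
  have hcen : ∀ B, Commute S B → Commute B η := fun B hB => hq ▸ comm_aeval hB.symm q
  have hSη : S * η = η * S := hcen S (Commute.refl S)
  have : Fact (Irreducible f) := ⟨hf⟩
  let U : Submodule K (ι → K) := LinearMap.range (toLin' η)
  let i : U →ₗ[K] (ι → K) := U.subtype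
  let π : (ι → K) →ₗ[K] U := (toLin' η).rangeRestrict
  have hiπ : ∀ v, i (π v) = η *ᵥ v := fun v => rfl
  have hηi : ∀ u, η *ᵥ i u = i u := by
    rintro ⟨_, v, rfl⟩
    change η *ᵥ (η *ᵥ v) = η *ᵥ v
    rw [mulVec_mulVec, hηη]
  have hi : Function.Injective i := U.injective_subtype
  have hπi : ∀ u, π (i u) = u := fun u => hi (by rw [hiπ, hηi])
  let T : Module.End K U := π ∘ₗ toLin' S ∘ₗ i
  have hT : ∀ u, i (T u) = S *ᵥ i u := fun u => by
    change η *ᵥ (S *ᵥ i u) = _
    rw [mulVec_mulVec, ← hSη, ← mulVec_mulVec, hηi]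
  have hTq : ∀ (g : K[X]) u, i (aeval T g u) = aeval S g *ᵥ i u := by
    intro g
    induction g using Polynomial.induction_on with
    | C a =>
      intro u
      simp only [aeval_C, map_smul, Algebra.algebraMap_eq_smul_one,
        smul_mulVec, one_mulVec, LinearMap.smul_apply, Module.End.one_apply]
    | add g g' h1 h2 =>
      intro u
      simp only [map_add, LinearMap.add_apply, h1, h2, add_mulVec]
    | monomial n a h1 =>
      intro u
      rw [pow_succ, ← mul_assoc, map_mul (aeval T), map_mul (aeval S), aeval_X, aeval_X,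
        Module.End.mul_apply, h1, hT, mulVec_mulVec]
  have hTf : aeval T f = 0 := LinearMap.ext fun u => hi (by
    rw [hTq, ← hηi, mulVec_mulVec, hfη]; simp)
  let φ : AdjoinRoot f →+* Module.End K U :=
    Ideal.Quotient.lift (Ideal.span {f}) (aeval T).toRingHom fun g hg => by
      obtain ⟨c, rfl⟩ := Ideal.mem_span_singleton'.1 hg
      change aeval T (c * f) = 0
      rw [map_mul, hTf, mul_zero]
  have hφ : ∀ g : K[X], φ (AdjoinRoot.mk f g) = aeval T g := fun g => rfl
  let _ : Module (AdjoinRoot f) U := Module.compHom U φ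
  have hsm : ∀ (g : K[X]) (u : U), AdjoinRoot.mk f g • u = aeval T g u := fun g u => rfl
  have : IsScalarTower K (AdjoinRoot f) U := ⟨fun a k u => by
    obtain ⟨g, rfl⟩ := AdjoinRoot.mk_surjective k
    rw [AdjoinRoot.smul_mk, hsm, hsm, map_smul, LinearMap.smul_apply]⟩
  have : Module.Finite K (AdjoinRoot f) := (AdjoinRoot.powerBasis hf.ne_zero).finite
  have hd : Module.finrank K (AdjoinRoot f) ≤ o := by
    rw [(AdjoinRoot.powerBasis hf.ne_zero).finrank, AdjoinRoot.powerBasis_dim]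
    exact hdeg
  have hr : ∀ u : U, AdjoinRoot.mk f X • u = T u := fun u => by rw [hsm, aeval_X]
  refine model_abs p S η o (AdjoinRoot f) hd U i π hπi hiπ (AdjoinRoot.mk f X)
    (fun u => by rw [hr, hT]) (fun Y hY k u => ?_) hcen
  obtain ⟨g, rfl⟩ := AdjoinRoot.mk_surjective k
  have h1 : Commute (Y : Module.End K U) T := LinearMap.ext fun u => by
    have := hY u
    rwa [hr, hr] at this
  rw [hsm, hsm]
  exact LinearMap.congr_fun (comm_aeval (A := Module.End K U) h1 g).eq u

lemma split (S : Matrix ι ι K) (o : ℕ) (ho : 1 ≤ o) (n : ℕ) : ∀ (g q : K[X]), g.Separable →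
    g.natDegree ≤ n → g.natDegree ≤ o → aeval S q * aeval S q = aeval S q →
    aeval S g * aeval S q = 0 →
    ∃ η : Fin n → Matrix ι ι K, ∑ j, η j = aeval S q ∧ ∀ j, Iso S o (η j) := by
  have hz : Iso S o 0 := ⟨⟨0, by simp⟩, by simp, X, irreducible_X, by simpa using ho, by simp⟩
  have hu : ∀ (n : ℕ) (g q : K[X]), IsUnit g → aeval S g * aeval S q = 0 →
      ∃ η : Fin n → Matrix ι ι K, ∑ j, η j = aeval S q ∧ ∀ j, Iso S o (η j) := by
    intro n g q hg h
    refine ⟨fun _ => 0, ?_, fun _ => hz⟩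
    rw [(hg.map (aeval S)).mul_right_eq_zero.1 h]
    simp
  induction n with
  | zero =>
    intro g q hg hn _ _ h
    refine hu 0 g q ?_ h
    rw [isUnit_iff_degree_eq_zero, degree_eq_natDegree hg.ne_zero, Nat.le_zero.1 hn]
    rfl
  | succ n ih =>
    intro g q hg hn hgo hqq h
    by_cases hun : IsUnit g
    · exact hu _ g q hun h
    obtain ⟨f, hf, h', rfl⟩ := WfDvdMonoid.exists_irreducible_factor hun hg.ne_zero
    obtain ⟨a, b, hab⟩ := hg.isCoprime
    have hh0 : h' ≠ 0 := right_ne_zero_of_mul hg.ne_zero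
    rw [natDegree_mul hf.ne_zero hh0] at hn hgo
    have hfpos := hf.natDegree_pos
    have hk : ∀ c : K[X], aeval S (c * (f * h') * q) = 0 := fun c => by
      rw [map_mul, map_mul, mul_assoc, h, mul_zero]
    have hq2 : ∀ c : K[X], aeval S (c * q * q) = aeval S (c * q) := fun c => by
      rw [map_mul, map_mul, mul_assoc, hqq]
    have hsum : aeval S (b * h' * q) + aeval S (a * f * q) = aeval S q := by
      rw [← map_add, ← add_mul, add_comm, hab, one_mul]
    have hcross : aeval S (b * h' * q) * aeval S (a * f * q) = 0 := by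
      rw [← map_mul]; exact (congrArg (aeval S) (by ring)).trans (hk (a * b * q))
    have hcross' : aeval S (a * f * q) * aeval S (b * h' * q) = 0 := by
      rw [← map_mul]; exact (congrArg (aeval S) (by ring)).trans (hk (a * b * q))
    have hid1 : aeval S (b * h' * q) * aeval S (b * h' * q) = aeval S (b * h' * q) := by
      have h1 : aeval S (b * h' * q) * aeval S q = aeval S (b * h' * q) := by
        rw [← map_mul, hq2]
      rwa [← hsum, mul_add, hcross, add_zero] at h1
    have hid2 : aeval S (a * f * q) * aeval S (a * f * q) = aeval S (a * f * q) := by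
      have h1 : aeval S (a * f * q) * aeval S q = aeval S (a * f * q) := by
        rw [← map_mul, hq2]
      rwa [← hsum, mul_add, hcross', zero_add] at h1
    obtain ⟨η, hη1, hη2⟩ := ih h' (a * f * q) hg.of_mul_right (by omega) (by omega) hid2 (by
      rw [← map_mul]; exact (congrArg (aeval S) (by ring)).trans (hk a))
    refine ⟨Fin.cons (aeval S (b * h' * q)) η, ?_, fun j => ?_⟩
    · rw [Fin.sum_cons, hη1, hsum]
    · refine Fin.cases ?_ (fun j => hη2 j) j
      refine ⟨⟨_, rfl⟩, hid1, f, hf, by omega, ?_⟩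
      change aeval S f * aeval S (b * h' * q) = 0
      rw [← map_mul]; exact (congrArg (aeval S) (by ring)).trans (hk b)

end Prim

theorem primStmt : PrimStmt := by
  intro p hp ι K _ _ _ _ _ S o c hop hc hS
  have hnd : ¬ p ∣ o := (Nat.Prime.coprime_iff_not_dvd hp.out).1 hop.symm
  have ho : 1 ≤ o := Nat.pos_of_ne_zero fun h => hnd (h ▸ dvd_zero p)
  obtain ⟨η, h1, h2⟩ := Prim.split S o ho o (X ^ o - C c) 1
    (separable_X_pow_sub_C' p o c hnd hc) (by rw [natDegree_X_pow_sub_C])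
    (by rw [natDegree_X_pow_sub_C]) (by simp)
    (by simp [hS, Algebra.algebraMap_eq_smul_one])
  exact ⟨η, by simpa using h1, fun j => Prim.model_of p S (η j) o (h2 j)⟩

end Pool.Agent.Lib.MP_679d9b_al.PT
end

-- part Pool.Agent.Lib.MP_679d9b_al.PT.Comp
section

/-!
The centralizer of a semisimple element covers the special linear group of a component.
-/

set_option autoImplicit false

namespace Pool.Agent.Lib.MP_679d9b_al.PT

open Subgroup Matrix
open scoped commutatorElement

namespace Comp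

variable {p : ℕ} {ι K : Type} [Fintype ι] [DecidableEq ι] [Field K] {S η : Matrix ι ι K} {o : ℕ}
  (M : Model p S η o)

omit [DecidableEq ι] in
theorem ext_mul_eta (C : Matrix M.ι' M.ι' M.K') : M.ext C * η = M.ext C := by
  have := map_mul M.ext C 1
  rw [mul_one, M.one] at this
  exact this.symm

omit [DecidableEq ι] in
theorem eta_mul_ext (C : Matrix M.ι' M.ι' M.K') : η * M.ext C = M.ext C := by
  have := map_mul M.ext 1 C
  rw [one_mul, M.one] at this
  exact this.symm

omit [DecidableEq ι] in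
include M in
theorem eta_idem : η * η = η := by
  have := ext_mul_eta M 1
  rwa [M.one] at this

omit [DecidableEq ι] in
theorem ext_mul {C C' : Matrix M.ι' M.ι' M.K'} {B B' : Matrix ι ι K} (h : M.ext C = B * η)
    (h' : M.ext C' = B' * η) (hc : Commute B' η) : M.ext (C * C') = B * B' * η := by
  rw [map_mul, h, h', mul_assoc, ← mul_assoc η, ← hc.eq, mul_assoc B', eta_idem M, mul_assoc]

theorem ext_pow {C : Matrix M.ι' M.ι' M.K'} {B : Matrix ι ι K} (h : M.ext C = B * η)
    (hc : Commute B η) (n : ℕ) : M.ext (C ^ n) = B ^ n * η := by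
  induction n with
  | zero => rw [pow_zero, pow_zero, one_mul, M.one]
  | succ n ih => rw [pow_succ, pow_succ, ext_mul M ih h hc]

theorem pad_pow (C : Matrix M.ι' M.ι' M.K') (n : ℕ) :
    (M.ext C + (1 - η)) ^ n = M.ext (C ^ n) + (1 - η) := by
  induction n with
  | zero => rw [pow_zero, pow_zero, M.one, add_sub_cancel]
  | succ n ih =>
    rw [pow_succ, ih, pow_succ, map_mul]
    simp only [add_mul, mul_add, mul_sub, sub_mul, mul_one, one_mul, ext_mul_eta, eta_mul_ext,
      eta_idem M]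
    abel

/-- Two `p`-elements with the same image differ by a `p`-element. -/
theorem pel_quot {T G : Type} [Group T] [Group G] (φ : T →* G) (R : Subgroup T) [R.Normal]
    (h : IsPGroup p (⁅φ.ker, R⁆ : Subgroup T)) {g g' : T} (hg : g ∈ R) (e : φ g = φ g')
    (h1 : PEl p g) (h2 : PEl p g') : PEl p (g⁻¹ * g') := by
  have hn : g⁻¹ * g' ∈ φ.ker := by rw [MonoidHom.mem_ker, map_mul, map_inv, e, inv_mul_cancel]
  let π := QuotientGroup.mk' (⁅φ.ker, R⁆ : Subgroup T)
  have hc : Commute (π (g⁻¹ * g')) (π g) := by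
    rw [← commutatorElement_eq_one_iff_commute, ← map_commutatorElement]
    exact (QuotientGroup.eq_one_iff _).mpr (commutator_mem_commutator hn hg)
  have hc' : Commute (π g)⁻¹ (π g') := by
    have : π g' = π g * π (g⁻¹ * g') := by rw [← map_mul, mul_inv_cancel_left]
    rw [this]
    exact ((Commute.refl _).mul_right hc.symm).inv_left
  obtain ⟨k, hk⟩ := h1
  obtain ⟨l, hl⟩ := h2
  have hm : (g⁻¹ * g') ^ p ^ (k + l) ∈ (⁅φ.ker, R⁆ : Subgroup T) := by
    rw [← QuotientGroup.eq_one_iff]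
    change π _ = 1
    have a1 : g ^ p ^ (k + l) = 1 := by rw [pow_add, pow_mul, hk, one_pow]
    have a2 : g' ^ p ^ (k + l) = 1 := by rw [add_comm, pow_add, pow_mul, hl, one_pow]
    rw [map_pow, map_mul, map_inv, hc'.mul_pow, inv_pow, ← map_pow, ← map_pow, a1, a2, map_one,
      inv_one, one_mul]
  obtain ⟨m, hm'⟩ := h ⟨_, hm⟩
  exact ⟨k + l + m, by rw [pow_add _ _ m, pow_mul]; exact congrArg Subtype.val hm'⟩

end Comp

open Pool.Agent.Lib.MP_679d9b_al.PT.Comp

theorem compStmt : CompStmt := by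
  intro p _ ι K _ _ _ _ _ T _ φ R Q _ _ _ s o η M hR hP hQ ho hs hsQ hι
  have hc : ∀ g, Commute s g → Commute (φ g).1 η := fun g hg =>
    M.cen _ (congrArg Subtype.val (hg.map φ).eq)
  have hc1 : ∀ g, Commute s g → (φ g).1 * (1 - η) = (1 - η) * (φ g).1 := fun g hg =>
    ((Commute.one_right _).sub_right (hc g hg)).eq
  have hm : ∀ g g', (φ (g * g')).1 = (φ g).1 * (φ g').1 := fun g g' => by rw [map_mul]; rfl
  have hi : ∀ g, (φ g⁻¹).1 * (φ g).1 = 1 := fun g => by rw [← hm, inv_mul_cancel, map_one]; rfl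
  have h1 : (φ 1).1 = 1 := by rw [map_one]; rfl
  let H : Subgroup T :=
    { carrier := {g | g ∈ R ⊔ Q ∧ Commute s g ∧ (∃ C : SL M.ι' M.K', M.ext C.1 = (φ g).1 * η) ∧
        ∃ y ∈ Q, (φ g).1 * (1 - η) = (φ y).1 * (1 - η)}
      one_mem' := ⟨one_mem _, Commute.one_right _, ⟨1, by rw [h1, one_mul]; exact M.one⟩,
        1, one_mem _, rfl⟩
      mul_mem' := by
        rintro g g' ⟨a1, a2, ⟨C, a3⟩, y, hy, a4⟩ ⟨b1, b2, ⟨C', b3⟩, y', hy', b4⟩
        refine ⟨mul_mem a1 b1, a2.mul_right b2, ⟨C * C', ?_⟩, y * y', mul_mem hy hy', ?_⟩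
        · rw [hm]
          exact ext_mul M a3 b3 (hc _ b2)
        · rw [hm, hm, mul_assoc, b4, hc1 _ (hsQ _ hy'), ← mul_assoc, a4, mul_assoc, mul_assoc,
            hc1 _ (hsQ _ hy')]
      inv_mem' := by
        rintro g ⟨a1, a2, ⟨C, a3⟩, y, hy, a4⟩
        refine ⟨inv_mem a1, a2.inv_right, ⟨C⁻¹, ?_⟩, y⁻¹, inv_mem hy, ?_⟩
        · have e : M.ext (C.1 * (C⁻¹).1) = η :=
            (congrArg (fun X : SL M.ι' M.K' => M.ext X.1) (mul_inv_cancel C)).trans M.one
          rw [map_mul, a3, mul_assoc, eta_mul_ext] at e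
          have e2 := congrArg (fun X => (φ g⁻¹).1 * X) e
          simp only [← mul_assoc, hi, one_mul] at e2
          exact e2
        · have e := hi y⁻¹
          rw [inv_inv] at e
          calc (φ g⁻¹).1 * (1 - η) = (φ g⁻¹).1 * ((φ y).1 * ((φ y⁻¹).1 * (1 - η))) := by
                rw [← mul_assoc (φ y).1, e, one_mul]
            _ = (φ g⁻¹).1 * ((φ g).1 * (1 - η)) * (φ y⁻¹).1 := by
                rw [hc1 _ (hsQ _ (inv_mem hy)), a4]
                simp only [mul_assoc]
            _ = _ := by rw [← mul_assoc, hi, one_mul, hc1 _ (hsQ _ (inv_mem hy))] }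
  choose c hcx using fun g : H => g.2.2.2.1
  let ψ : H →* SL M.ι' M.K' := MonoidHom.mk' c fun g g' => Subtype.ext (M.inj (by
    rw [hcx, Subgroup.coe_mul, hm]
    exact (ext_mul M (hcx g) (hcx g') (hc _ g'.2.2.1)).symm))
  have hfin : Finite (R ⊔ Q : Subgroup T) := by
    have : ((R ⊔ Q : Subgroup T) : Set T).Finite := by
      rw [Subgroup.normal_mul]
      exact (Set.toFinite _).mul (Set.toFinite _)
    exact this
  have hle : H ≤ R ⊔ Q := fun g hg => hg.1
  refine ⟨H, ψ, Finite.of_injective _ (inclusion_injective hle), fun y hy => ?_, hle, ?_,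
    fun g hg => hg.2.1, hcx, fun g hg => hg.2.2.2⟩
  · obtain ⟨C, hC⟩ := M.res (φ y).1 (congrArg Subtype.val ((hsQ y hy).map φ).eq)
    obtain ⟨k, hk⟩ := hQ ⟨y, hy⟩
    have hk' : y ^ p ^ k = 1 := congrArg Subtype.val hk
    have e : C ^ p ^ k = 1 := M.inj (by
      have e1 : (φ y).1 ^ p ^ k = (φ (y ^ p ^ k)).1 := by rw [map_pow]; rfl
      rw [ext_pow M hC (hc _ (hsQ y hy)), M.one, e1, hk', h1, one_mul])
    exact ⟨mem_sup_right hy, hsQ y hy, ⟨⟨C, det_of_pel ⟨k, e⟩⟩, hC⟩, y, hy, rfl⟩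
  · have : Nontrivial M.ι' := Fintype.one_lt_card_iff_nontrivial.mp hι
    refine tv_induction (fun A => ∃ g, ψ g = A) (fun i j hij a => ?_) ?_
    swap
    · rintro _ _ ⟨g, rfl⟩ ⟨g', rfl⟩
      exact ⟨g * g', map_mul _ _ _⟩
    set C := SpecialLinearGroup.transvection hij a with hC
    obtain ⟨k, hk⟩ : PEl p C.1 := by
      refine pel_of_nil (CharP.cast_eq_zero _ p) ⟨2, ?_⟩
      have : C.1 - 1 = single i j a := by
        rw [hC]
        simp [SpecialLinearGroup.transvection, transvection]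
      rw [this, sq, single_mul_single_of_ne _ _ _ _ hij.symm]
    have hA : (M.ext C.1 + (1 - η)) ^ p ^ k = 1 := by rw [pad_pow, hk, M.one, add_sub_cancel]
    let A : SL ι K := ⟨M.ext C.1 + (1 - η), det_of_pel ⟨k, hA⟩⟩
    obtain ⟨g0, hg0, e0⟩ : A ∈ R.map φ := hR ▸ mem_top A
    have hfo : IsOfFinOrder g0 :=
      R.subtype.isOfFinOrder (isOfFinOrder_of_finite (⟨g0, hg0⟩ : R))
    obtain ⟨g, hg, hgp, e⟩ := pel_lift (p := p) φ hfo ⟨k, by rw [e0]; exact Subtype.ext hA⟩
    have hgR : g ∈ R := zpowers_le.mpr hg0 hg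
    rw [e0] at e
    have : Finite (φ.ker ⊓ R : Subgroup T) :=
      Finite.of_injective _ (inclusion_injective inf_le_right)
    obtain ⟨P, hPn, hPm⟩ := exists_pk (p := p) (φ.ker ⊓ R) R
      (fun g hg => ⟨0, by simpa using hg.2⟩) (hP.to_le (commutator_mono inf_le_left le_rfl))
    have : Finite P :=
      Finite.of_injective _ (inclusion_injective (fun x hx => ((hPm x).mp hx).1.2 : P ≤ R))
    have hSA : Commute (φ s) A := by
      refine Subtype.ext (Commute.eq (a := (φ s).1) (b := M.ext C.1 + (1 - η)) ?_)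
      exact (M.comm _).add_right ((Commute.one_right _).sub_right (hc s (Commute.refl s)))
    have e' : φ g = φ (s * g * s⁻¹) := by
      rw [map_mul, map_mul, map_inv, e, hSA.eq, mul_inv_cancel_right]
    obtain ⟨y, hy, hfix⟩ := fix_coset (p := p) P
      (fun x => by
        obtain ⟨l, hl⟩ := ((hPm x).mp x.2).2
        exact ⟨l, Subtype.ext hl⟩)
      (MulAut.conj s) o ho g (fun y hy => hPn.conj_mem y hy s)
      ((hPm _).mpr ⟨⟨by
          change φ (g⁻¹ * (s * g * s⁻¹)) = 1
          rw [map_mul, ← e', map_inv, inv_mul_cancel],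
        R.mul_mem (R.inv_mem hgR) (‹R.Normal›.conj_mem g hgR s)⟩,
        pel_quot φ R hP hgR e' hgp (by
          obtain ⟨l, hl⟩ := hgp
          exact ⟨l, by rw [MulAut.conj_apply, conj_pow, hl, mul_one, mul_inv_cancel]⟩)⟩)
      fun y _ => by rw [← map_pow, MulAut.conj_apply, (hs _).eq, mul_inv_cancel_right]
    have hy' := ((hPm y).mp hy).1
    have e2 : (φ (g * y)).1 = M.ext C.1 + (1 - η) := by
      rw [map_mul, e, (MonoidHom.mem_ker.mp hy'.1), mul_one]
    have e3 : M.ext C.1 = (φ (g * y)).1 * η := by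
      rw [e2, add_mul, ext_mul_eta, sub_mul, one_mul, eta_idem M, sub_self, add_zero]
    refine ⟨⟨g * y, mem_sup_left (mul_mem hgR hy'.2), mul_inv_eq_iff_eq_mul.mp hfix, ⟨C, e3⟩,
      1, one_mem _, ?_⟩, Subtype.ext (M.inj ((hcx _).trans e3.symm))⟩
    rw [e2, h1]
    simp only [add_mul, mul_sub, sub_mul, mul_one, one_mul, ext_mul_eta, eta_idem M]
    abel

end Pool.Agent.Lib.MP_679d9b_al.PT
end

-- part Pool.Agent.Lib.MP_679d9b_al.PT.CaseOne
section

/-!
Free modules of large rank over finite `p`-subgroups give long chains of centralizers.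
-/

set_option autoImplicit false

namespace Pool.Agent.Lib.MP_679d9b_al.PT

open Subgroup Matrix

namespace CaseOne

variable {ι K : Type} [Fintype ι] [DecidableEq ι] [Field K]

omit [DecidableEq ι] in
/-- Vectors with independent images under a matrix of large rank. -/
theorem exists_vec (S : Matrix ι ι K) {N : ℕ} (h : N ≤ S.rank) :
    ∃ v : Fin N → ι → K, LinearIndependent K fun i => S *ᵥ v i := by
  obtain ⟨w, hw⟩ := exists_linearIndependent_of_le_finrank (R := K)
    (M := LinearMap.range S.mulVecLin) h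
  choose v hv using fun i => (w i).2
  refine ⟨v, ?_⟩
  have h1 := hw.map' (LinearMap.range S.mulVecLin).subtype (Submodule.ker_subtype _)
  have h2 : (fun i => S *ᵥ v i) = (LinearMap.range S.mulVecLin).subtype ∘ w := funext hv
  rw [h2]
  exact h1

omit [DecidableEq ι] in
/-- If the norms of some vectors are independent then the vectors generate a free module. -/
theorem free {p : ℕ} [Fact p.Prime] [Finite K] [CharP K p] {F : Type} [Group F] [Fintype F]
    (hF : IsPGroup p F) (σ : F → Matrix ι ι K) (hσ : ∀ f g w, σ (f * g) *ᵥ w = σ f *ᵥ σ g *ᵥ w)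
    {N : ℕ} (v : Fin N → ι → K) (hv : LinearIndependent K fun i => (∑ f, σ f) *ᵥ v i) :
    LinearIndependent K fun a : F × Fin N => σ a.1 *ᵥ v a.2 := by
  classical
  rw [Fintype.linearIndependent_iff]
  by_contra hcon
  push Not at hcon
  obtain ⟨a0, ha0, i0, hi0⟩ := hcon
  let W : AddSubgroup (F × Fin N → K) :=
    { carrier := {a | ∑ x, a x • σ x.1 *ᵥ v x.2 = 0}
      zero_mem' := by simp
      add_mem' := fun {a b} ha hb => by
        have ha' : ∑ x, a x • σ x.1 *ᵥ v x.2 = 0 := ha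
        have hb' : ∑ x, b x • σ x.1 *ᵥ v x.2 = 0 := hb
        change ∑ x, (a + b) x • σ x.1 *ᵥ v x.2 = 0
        simp only [Pi.add_apply, add_smul, Finset.sum_add_distrib, ha', hb', add_zero]
      neg_mem' := fun {a} ha => by
        have ha' : ∑ x, a x • σ x.1 *ᵥ v x.2 = 0 := ha
        change ∑ x, (-a) x • σ x.1 *ᵥ v x.2 = 0
        simp only [Pi.neg_apply, neg_smul, Finset.sum_neg_distrib, ha', neg_zero] }
  have hW : ∀ (g : F) (a : W), (fun x : F × Fin N => a.1 (g⁻¹ * x.1, x.2)) ∈ W := by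
    intro g a
    have ha : ∑ x, a.1 x • σ x.1 *ᵥ v x.2 = 0 := a.2
    have h1 := congrArg (fun w => σ g *ᵥ w) ha
    simp only [mulVec_sum, mulVec_smul, mulVec_zero, ← hσ] at h1
    change ∑ x : F × Fin N, a.1 (g⁻¹ * x.1, x.2) • σ x.1 *ᵥ v x.2 = 0
    rw [← h1]
    refine (Fintype.sum_equiv ((Equiv.mulLeft g).prodCongr (Equiv.refl _)) _ _ fun x => ?_).symm
    simp
  let _ : MulAction F W :=
    { smul := fun g a => ⟨fun x => a.1 (g⁻¹ * x.1, x.2), hW g a⟩
      one_smul := fun a => Subtype.ext (funext fun x => by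
        change a.1 (1⁻¹ * x.1, x.2) = a.1 x
        simp)
      mul_smul := fun f g a => Subtype.ext (funext fun x => by
        change a.1 ((f * g)⁻¹ * x.1, x.2) = a.1 (g⁻¹ * (f⁻¹ * x.1), x.2)
        rw [_root_.mul_inv_rev, mul_assoc]) }
  have hp : p ∣ Nat.card W := by
    have h1 : addOrderOf (⟨a0, ha0⟩ : W) = p := by
      refine addOrderOf_eq_prime (Subtype.ext (funext fun x => ?_)) fun h => hi0 ?_
      · change p • a0 x = 0
        simp
      · exact congrFun (congrArg Subtype.val h) i0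
    rw [← h1]
    exact addOrderOf_dvd_natCard _
  obtain ⟨b, hb, hb0⟩ := hF.exists_fixed_point_of_prime_dvd_card_of_fixed_point W hp
    (a := 0) fun g => Subtype.ext (funext fun x => rfl)
  have h1 : ∀ f i, b.1 (f, i) = b.1 (1, i) := fun f i => by
    have h2 : b.1 (f⁻¹ * f, i) = b.1 (f, i) := congrFun (congrArg Subtype.val (hb f)) (f, i)
    rw [← h2, inv_mul_cancel]
  have h3 : ∑ x, b.1 x • σ x.1 *ᵥ v x.2 = 0 := b.2
  rw [Fintype.sum_prod_type_right] at h3
  have h4 := Fintype.linearIndependent_iff.1 hv (fun i => b.1 (1, i)) (by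
    rw [← h3]
    refine Finset.sum_congr rfl fun i _ => ?_
    rw [sum_mulVec, Finset.smul_sum]
    exact Finset.sum_congr rfl fun f _ => by rw [h1 f i])
  exact hb0 (Subtype.ext (funext fun x => ((h1 x.1 x.2).trans (h4 x.2)).symm))

/-- Even permutations of an independent family are induced by matrices of determinant one. -/
theorem exists_sl {A : Type} [Fintype A] [DecidableEq A] {b : A → ι → K}
    (hb : LinearIndependent K b) (τ : Equiv.Perm A) (hτ : Equiv.Perm.sign τ = 1) :
    ∃ M : SL ι K, ∀ a, M.1 *ᵥ b a = b (τ a) := by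
  classical
  let B := Module.Basis.extend hb.linearIndepOn_id
  let _ := FiniteDimensional.fintypeBasisIndex B
  let e : A ↪ hb.linearIndepOn_id.extend (Set.subset_univ _) :=
    ⟨fun a => ⟨b a, hb.linearIndepOn_id.subset_extend _ ⟨a, rfl⟩⟩,
      fun a a' h => hb.injective (congrArg Subtype.val h)⟩
  let τ' := τ.viaFintypeEmbedding e
  let T : (ι → K) →ₗ[K] ι → K := B.constr K (B ∘ τ')
  have hT : ∀ x, T (B x) = B (τ' x) := fun x => B.constr_basis K _ x
  have hdet : LinearMap.det T = 1 := by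
    have h1 := B.det_comp T B
    have h2 : (T ∘ B) = B ∘ τ' := funext hT
    rw [h2, AlternatingMap.map_perm, Equiv.Perm.viaFintypeEmbedding_sign, hτ, B.det_self,
      one_smul, mul_one] at h1
    exact h1.symm
  refine ⟨⟨LinearMap.toMatrix' T, by rw [LinearMap.det_toMatrix', hdet]⟩, fun a => ?_⟩
  have hB : ∀ a, B (e a) = b a := fun a => Module.Basis.extend_apply_self _ _
  change LinearMap.toMatrix' T *ᵥ b a = _
  rw [LinearMap.toMatrix'_mulVec, ← hB, hT, Equiv.Perm.viaFintypeEmbedding_apply_image, hB]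

/-- Every finite overgroup of `F` is a quotient of a finite subgroup containing `F`. -/
def Cov {C : Type} [Group C] (F : Subgroup C) : Prop :=
  ∀ (Γ : Type) [Group Γ] [Finite Γ] (i : F →* Γ), Function.Injective i →
    ∃ (H : Type) (_ : Group H) (_ : Finite H) (μ : H →* C) (j : F →* H) (ψ : H →* Γ),
      Function.Injective μ ∧ (∀ f, μ (j f) = f) ∧ Function.Surjective ψ ∧ ∀ f, ψ (j f) = i f

theorem cover {p : ℕ} [Fact p.Prime] {C : Type} [Group C] (F : Subgroup C) [Finite F]
    (hF : IsPGroup p F)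
    (h : ∀ N : ℕ, ∃ (H : Type) (_ : Group H) (_ : Finite H) (K : Type) (_ : Field K)
      (_ : Finite K) (_ : CharP K p) (ι : Type) (_ : Fintype ι) (_ : DecidableEq ι)
      (φ : H →* SL ι K) (μ : H →* C) (j : F →* H), Function.Surjective φ ∧ (∀ f, μ (j f) = f) ∧
        (∀ g, μ g = 1 → φ g ∈ center (SL ι K)) ∧ N ≤ (∑ᶠ f, (φ (j f)).1).rank) : Cov F := by
  classical
  intro Γ _ _ i hi
  obtain ⟨H, _, _, K, _, _, _, ι, _, _, φ, μ, j, hφ, hj, hμ, hN⟩ := h (Nat.card (Γ × Bool))
  let _ := Fintype.ofFinite F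
  let _ := Fintype.ofFinite Γ
  rw [finsum_eq_sum_of_fintype] at hN
  obtain ⟨v, hv⟩ := exists_vec _ hN
  have hmul : ∀ (g g' : H) (w : ι → K), (φ (g * g')).1 *ᵥ w = (φ g).1 *ᵥ (φ g').1 *ᵥ w := by
    intro g g' w
    rw [map_mul, mulVec_mulVec]
    rfl
  have hone : ∀ w : ι → K, (φ 1).1 *ᵥ w = w := by
    intro w
    rw [map_one]
    exact one_mulVec w
  have hfree := free hF (fun f => (φ (j f)).1) (fun f g w => by rw [map_mul, hmul]) v hv
  let _ : MulAction F (Γ × Bool) :=
    { smul := fun f a => (i f * a.1, a.2)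
      one_smul := fun a => by
        change (i 1 * a.1, a.2) = a
        simp
      mul_smul := fun f g a => by
        change (i (f * g) * a.1, a.2) = (i f * (i g * a.1), a.2)
        rw [map_mul, mul_assoc] }
  let _ : MulAction F (F × Fin (Nat.card (Γ × Bool))) :=
    { smul := fun f a => (f * a.1, a.2)
      one_smul := fun a => by
        change (1 * a.1, a.2) = a
        simp
      mul_smul := fun f g a => by
        change (f * g * a.1, a.2) = (f * (g * a.1), a.2)
        rw [mul_assoc] }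
  obtain ⟨e0, he0, he0'⟩ := exists_equivariant (F := F) (A := Γ × Bool)
    (B := F × Fin (Nat.card (Γ × Bool)))
    (fun f a h => hi (by
      have h1 : i f * a.1 = a.1 := congrArg Prod.fst h
      rw [map_one]; exact mul_eq_right.1 h1))
    (fun f b h => mul_eq_right.1 (show f * b.1 = b.1 from congrArg Prod.fst h))
    (by
      rw [Nat.card_prod F, Nat.card_fin]
      exact Nat.le_mul_of_pos_left _ Nat.card_pos)
  let b : Γ × Bool → ι → K := fun a => (φ (j (e0 a).1)).1 *ᵥ v (e0 a).2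
  have hb : LinearIndependent K b := hfree.comp e0 he0
  let R : Subgroup (H × Γ) :=
    { carrier := {x | ∀ y e, (φ x.1).1 *ᵥ b (y, e) = b (x.2 * y, e)}
      one_mem' := fun y e => by rw [Prod.fst_one, Prod.snd_one, hone, one_mul]
      mul_mem' := fun {x x'} hx hx' y e => by
        rw [Prod.fst_mul, hmul, hx', hx, Prod.snd_mul, mul_assoc]
      inv_mem' := fun {x} hx y e => by
        have h1 := congrArg (fun w => (φ x.1⁻¹).1 *ᵥ w) (hx (x.2⁻¹ * y) e)
        simp only [← hmul, inv_mul_cancel, hone, mul_inv_cancel_left] at h1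
        exact h1.symm }
  let μR : R →* C := μ.comp ((MonoidHom.fst _ _).comp R.subtype)
  let ψR : R →* Γ := (MonoidHom.snd _ _).comp R.subtype
  let jR : F →* R := (j.prod i).codRestrict R fun f y e => by
    change (φ (j f)).1 *ᵥ (φ (j (e0 (y, e)).1)).1 *ᵥ v (e0 (y, e)).2 =
      (φ (j (e0 (f • (y, e))).1)).1 *ᵥ v (e0 (f • (y, e))).2
    rw [he0', ← hmul, ← map_mul]
    rfl
  have hψR : Function.Surjective ψR := fun γ => by
    obtain ⟨M, hM⟩ := exists_sl hb (Equiv.prodCongrLeft fun _ : Bool => Equiv.mulLeft γ) (by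
      rw [Equiv.Perm.sign_prodCongrLeft]
      simp)
    obtain ⟨g, rfl⟩ := hφ M
    exact ⟨⟨(g, γ), fun y e => hM (y, e)⟩, rfl⟩
  obtain ⟨ψ, hψ⟩ := exists_lift μR.rangeRestrict_surjective ψR (by
    rintro ⟨⟨g, γ⟩, hx⟩ h1
    have h2 : μ g = 1 := congrArg Subtype.val h1
    obtain ⟨r, -, hr⟩ := Matrix.SpecialLinearGroup.mem_center_iff.1 (hμ g h2)
    have h3 : (φ g).1 *ᵥ b (1, true) = b (γ * 1, true) := hx 1 true
    have h4 : (φ g).1 = scalar ι r := hr.symm
    rw [h4, mul_one, scalar_apply, diagonal_const_mulVec] at h3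
    change γ = 1
    by_contra hne
    have h5 := linearIndependent_iff'.1 hb {(1, true), (γ, true)}
      (fun a => if a = (γ, true) then -1 else r) (by
        have h6 : ((1 : Γ), true) ≠ (γ, true) := fun h => hne (congrArg Prod.fst h).symm
        rw [Finset.sum_pair h6, if_neg h6, if_pos rfl, h3]
        simp) (γ, true) (by simp)
    simp at h5)
  have : Finite μR.range := Finite.of_surjective _ μR.rangeRestrict_surjective
  refine ⟨μR.range, inferInstance, inferInstance, μR.range.subtype, μR.rangeRestrict.comp jR, ψ,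
    μR.range.subtype_injective, hj, fun γ => ?_, fun f => hψ (jR f)⟩
  obtain ⟨x, rfl⟩ := hψR γ
  exact ⟨_, hψ x⟩

theorem step {G : Type} [Group G] {p : ℕ} [Fact p.Prime] {x : G}
    (hcov : ∀ F : Subgroup G, Finite F → IsPGroup p F → x ∈ F → Cov F)
    (F : Subgroup G) [Finite F] (hF : IsPGroup p F) (hx : x ∈ F) (hFx : F ≤ centralizer {x}) :
    ∃ F2 : Subgroup G, Finite F2 ∧ IsPGroup p F2 ∧ F ≤ F2 ∧ F2 ≤ centralizer {x} ∧
      ∃ c, (∀ f ∈ F, Commute f c) ∧ ∃ g ∈ F2, ¬ Commute g c := by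
  obtain ⟨F2, hF2, hF2p, hle, hF2x, g, hg, hgF⟩ : ∃ F2 : Subgroup G, Finite F2 ∧ IsPGroup p F2 ∧
      F ≤ F2 ∧ F2 ≤ centralizer {x} ∧ ∃ g ∈ F2, g ∉ F := by
    obtain ⟨H, _, _, μ, j, ψ, hμ, hj, hψ, hψj⟩ := hcov F inferInstance hF hx
      (F × Multiplicative (ZMod p)) (MonoidHom.inl _ _) fun a b h => congrArg Prod.fst h
    obtain ⟨R, hR⟩ := (hF.of_surjective _ j.rangeRestrict_surjective).exists_le_sylow
    have hΓ : IsPGroup p (F × Multiplicative (ZMod p)) := by
      obtain ⟨n, hn⟩ := IsPGroup.iff_card.1 hF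
      exact IsPGroup.of_card (n := n + 1) (by simp [hn, pow_succ])
    have h1 := (R.mapSurjective hψ).3 (Q := ⊤) (hΓ.to_subgroup ⊤) le_top
    have h2 : Function.Surjective (ψ.comp (R : Subgroup H).subtype) := fun γ => by
      have h2 : γ ∈ (R.mapSurjective hψ).1 := by rw [← h1]; trivial
      obtain ⟨r, hr, rfl⟩ := h2
      exact ⟨⟨r, hr⟩, rfl⟩
    have h3 := card_le_centralizer _ h2 ⟨j ⟨x, hx⟩, hR ⟨_, rfl⟩⟩ fun γ => by
      change γ * ψ (j ⟨x, hx⟩) = ψ (j ⟨x, hx⟩) * γ
      rw [hψj]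
      exact Prod.ext (Subtype.ext (mem_centralizer_singleton_iff.1 (hFx γ.1.2))) (by simp)
    have hinj : Function.Injective (μ.comp (R : Subgroup H).subtype) :=
      hμ.comp Subtype.val_injective
    refine ⟨(centralizer {⟨j ⟨x, hx⟩, hR ⟨_, rfl⟩⟩}).map (μ.comp (R : Subgroup H).subtype),
      Finite.of_surjective _ (MonoidHom.subgroupMap_surjective _ _), (R.2.to_subgroup _).map _,
      fun f hf => ⟨⟨j ⟨f, hf⟩, hR ⟨_, rfl⟩⟩, mem_centralizer_singleton_iff.2 (hinj ?_), hj _⟩,
      ?_, ?_⟩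
    · change μ (j _ * j _) = μ (j _ * j _)
      rw [map_mul, map_mul, hj, hj]
      exact mem_centralizer_singleton_iff.1 (hFx hf)
    · rintro _ ⟨r, hr, rfl⟩
      have h4 := congrArg (μ.comp (R : Subgroup H).subtype) (mem_centralizer_singleton_iff.1 hr)
      rw [map_mul, map_mul] at h4
      have h5 : (μ.comp (R : Subgroup H).subtype) ⟨j ⟨x, hx⟩, hR ⟨_, rfl⟩⟩ = x := hj _
      rw [h5] at h4
      exact mem_centralizer_singleton_iff.2 h4
    · by_contra hcon
      push Not at hcon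
      have h4 := card_le_of_le (show _ ≤ F from hcon)
      rw [card_map_of_injective hinj] at h4
      have h5 := h3.trans h4
      rw [Nat.card_prod, Nat.card_congr (Multiplicative.toAdd (α := ZMod p)), Nat.card_zmod] at h5
      have h6 : 0 < Nat.card F := Nat.card_pos
      have h7 := (Fact.out : p.Prime).one_lt
      nlinarith
  obtain ⟨Γ, _, _, ι, hι, hmain⟩ := main_lemma hF2p
  obtain ⟨H, _, _, μ, j, ψ, hμ, hj, hψ, hψj⟩ := hcov F2 hF2 hF2p (hle hx) Γ ι hι
  obtain ⟨c, hc, hcg⟩ := hmain H ψ j hψ hψj (F.subgroupOf F2) ⟨g, hg⟩ hgF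
  refine ⟨F2, hF2, hF2p, hle, hF2x, μ c, fun f hf => ?_, g, hg, fun h => hcg (hμ ?_)⟩
  · have h1 := (hc ⟨f, hle hf⟩ hf).map μ
    rwa [hj] at h1
  · rw [map_mul, map_mul, hj]
    exact h.eq

end CaseOne

theorem caseOneStmt : CaseOneStmt := by
  intro p _ C _ x d ⟨k, hx⟩ hyp h
  have hp : p.Prime := Fact.out
  refine h (Subgroup C) (fun _ F => Finite F ∧ IsPGroup p F ∧ x ∈ F ∧ F ≤ centralizer {x})
    (fun F => F) (zpowers x) ⟨(finite_zpowers.2 (isOfFinOrder_iff_pow_eq_one.2
      ⟨p ^ k, pow_pos hp.pos k, hx⟩)).to_subtype, isPGroup_zpowers hx, mem_zpowers x,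
      zpowers_le.2 (mem_centralizer_singleton_iff.2 rfl)⟩ ?_
  rintro _ - F ⟨h1, h2, h3, h4⟩
  obtain ⟨F2, g1, g2, g3, g4, c, hc, g, hg, hgc⟩ := CaseOne.step
    (fun F hF hFp hxF => CaseOne.cover F hFp (hyp F hF hFp hxF)) F h2 h3 h4
  exact ⟨F2, ⟨g1, g2, g3 h3, g4⟩, g3, c, hc x h3, hc, g, hg,
    (mem_centralizer_singleton_iff.1 (g4 hg)).symm, hgc⟩

end Pool.Agent.Lib.MP_679d9b_al.PT
end

-- part Pool.Agent.Lib.MP_679d9b_al.PT.MB
section

/-!
Linear algebra of one nilpotent matrix: free blocks and the detection of commuting matrices.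
-/

set_option autoImplicit false

namespace Pool.Agent.Lib.MP_679d9b_al.PT

open Module Polynomial

namespace MB

section Ring
variable {A : Type} [Ring A] {t : A} {s : ℕ}

theorem comm_Nn (ht : t ^ (s + 1) = 0) (r : A) : Commute t (Nn t s r) := by
  have h := Finset.sum_range_sub (fun i => t ^ i * r * t ^ (s + 1 - i)) (s + 1)
  simp only [ht, Nat.sub_zero, zero_mul, mul_zero, sub_zero, Finset.sum_sub_distrib] at h
  have h1 : t * Nn t s r = ∑ i ∈ Finset.range (s + 1), t ^ (i + 1) * r * t ^ (s + 1 - (i + 1)) := by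
    rw [Nn, Finset.mul_sum]
    refine Finset.sum_congr rfl fun i _ => ?_
    rw [pow_succ', Nat.add_sub_add_right]
    simp only [mul_assoc]
  have h2 : Nn t s r * t = ∑ i ∈ Finset.range (s + 1), t ^ i * r * t ^ (s + 1 - i) := by
    rw [Nn, Finset.sum_mul]
    refine Finset.sum_congr rfl fun i hi => ?_
    have : s + 1 - i = s - i + 1 := by
      have := Finset.mem_range.1 hi
      omega
    rw [this, pow_succ]
    simp only [mul_assoc]
  change t * Nn t s r = Nn t s r * t
  rw [h1, h2]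
  exact sub_eq_zero.1 h

theorem mul_Nn {c : A} (hc : Commute t c) (r : A) : c * Nn t s r = Nn t s (c * r) := by
  rw [Nn, Nn, Finset.mul_sum]
  refine Finset.sum_congr rfl fun i _ => ?_
  rw [← mul_assoc, ← mul_assoc, ← (hc.pow_left i).eq, mul_assoc (t ^ i) c r]

theorem map_Nn {B : Type} [Ring B] (e : A →+* B) (t : A) (s : ℕ) (r : A) :
    e (Nn t s r) = Nn (e t) s (e r) := by
  simp only [Nn, map_sum, map_mul, map_pow]

end Ring

variable {K V : Type} [Field K] [AddCommGroup V] [Module K V] {t : End K V} {s : ℕ}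

theorem comm_aeval {c : End K V} (hc : Commute t c) (p : K[X]) : Commute (aeval t p) c := by
  refine Polynomial.induction_on' p (fun p q hp hq => ?_) fun n a => ?_
  · rw [map_add]
    exact hp.add_left hq
  · rw [aeval_monomial]
    exact Commute.mul_left (Algebra.commutes a c) (hc.pow_left n)

theorem unit_aeval (ht : t ^ (s + 1) = 0) {p : K[X]} (hp : p.coeff 0 ≠ 0) :
    IsUnit (aeval t p) := by
  rw [← X_mul_divX_add p, map_add, map_mul, aeval_X, aeval_C]
  have hc : Commute t (aeval t (divX p)) := (comm_aeval (Commute.refl t) _).symm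
  refine IsNilpotent.isUnit_add_right_of_commute (hc.isNilpotent_mul_right ⟨_, ht⟩)
    ((Ne.isUnit hp).map _) (Algebra.commutes _ _ : Commute _ _).symm

theorem exists_mul_eq' (ht : t ^ (s + 1) = 0) {p : K[X]} (hp : aeval t p ≠ 0) :
    ∃ γ : End K V, γ * aeval t p = t ^ s ∧ ∀ c, Commute t c → Commute γ c := by
  have hp0 : p ≠ 0 := by
    rintro rfl
    exact hp (map_zero _)
  obtain ⟨q, hq, hq'⟩ := exists_eq_pow_rootMultiplicity_mul_and_not_dvd p hp0 0
  rw [C_0, sub_zero] at hq hq'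
  rw [X_dvd_iff] at hq'
  set m := p.rootMultiplicity 0
  have e : aeval t p = aeval t q * t ^ m := by
    rw [hq, mul_comm, map_mul, map_pow, aeval_X]
  have hm : m ≤ s := by
    by_contra h
    exact hp (by rw [e, pow_eq_zero_of_le (by omega) ht, mul_zero])
  obtain ⟨u, hu⟩ := unit_aeval ht hq'
  refine ⟨t ^ (s - m) * ↑u⁻¹, ?_, fun c hc => (hc.pow_left _).mul_left ?_⟩
  · rw [e, ← hu, mul_assoc, Units.inv_mul_cancel_left, ← pow_add, Nat.sub_add_cancel hm]
  · exact Commute.units_inv_left (hu ▸ comm_aeval hc q)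

theorem exists_mul_eq (ht : t ^ (s + 1) = 0) {p : K[X]} (hp : aeval t p ≠ 0) :
    ∃ γ : End K V, γ * aeval t p = t ^ s :=
  (exists_mul_eq' ht hp).imp fun _ h => h.1

/-- The norm of a map of rank one. -/
def br (t : End K V) (s : ℕ) (v : V) (μ : Dual K V) : End K V := Nn t s (μ.smulRight v)

/-- The polynomial valued form attached to a linear form. -/
noncomputable def hat (t : End K V) (s : ℕ) (μ : Dual K V) (w : V) : K[X] :=
  ∑ i ∈ Finset.range (s + 1), monomial i (μ ((t ^ (s - i)) w))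

theorem aeval_hat (μ : Dual K V) (w v : V) : aeval t (hat t s μ w) v =
    ∑ i ∈ Finset.range (s + 1), μ ((t ^ (s - i)) w) • (t ^ i) v := by
  simp only [hat, map_sum, aeval_monomial, LinearMap.sum_apply, End.mul_apply,
    Module.algebraMap_end_apply]

theorem br_apply (v : V) (μ : Dual K V) (w : V) : br t s v μ w = aeval t (hat t s μ w) v := by
  simp only [aeval_hat, br, Nn, LinearMap.sum_apply, End.mul_apply, LinearMap.smulRight_apply,
    map_smul]

theorem comm_br (ht : t ^ (s + 1) = 0) (v : V) (μ : Dual K V) : Commute t (br t s v μ) :=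
  comm_Nn ht _

theorem mul_br {c : End K V} (hc : Commute t c) (v : V) (μ : Dual K V) :
    c * br t s v μ = br t s (c v) μ := by
  rw [br, mul_Nn hc, br]
  congr 1
  ext w
  simp

theorem br_mul (ht : t ^ (s + 1) = 0) (v v' : V) (μ μ' : Dual K V) :
    br t s v μ * br t s v' μ' = aeval t (hat t s μ v') * br t s v μ' := by
  rw [mul_br (comm_br ht v μ), br_apply, mul_br (comm_aeval (Commute.refl t) _).symm]

theorem hat_zero {μ : Dual K V} {w : V} (h : ∀ j ≤ s, μ ((t ^ j) w) = 0) : hat t s μ w = 0 :=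
  Finset.sum_eq_zero fun i _ => by rw [h _ (Nat.sub_le _ _), map_zero]

theorem hat_one {μ : Dual K V} {w : V} (h : ∀ j < s, μ ((t ^ j) w) = 0)
    (h1 : μ ((t ^ s) w) = 1) : hat t s μ w = 1 := by
  rw [hat, Finset.sum_range_succ', Finset.sum_eq_zero, Nat.sub_zero, h1, zero_add,
    monomial_zero_one]
  intro i hi
  have := Finset.mem_range.1 hi
  rw [h _ (by omega), map_zero]

theorem hat_coeff (μ : Dual K V) (w : V) : (hat t s μ w).coeff 0 = μ ((t ^ s) w) := by
  rw [hat, finset_sum_coeff, Finset.sum_range_succ', Finset.sum_eq_zero, zero_add, Nat.sub_zero,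
    coeff_monomial_same]
  intro i _
  exact coeff_monomial_of_ne _ (by omega)

theorem indep (ht : t ^ (s + 1) = 0) {N : ℕ} {v : Fin N → V}
    (hv : LinearIndependent K fun c => (t ^ s) (v c)) :
    LinearIndependent K fun p : Fin N × Fin (s + 1) => (t ^ (p.2 : ℕ)) (v p.1) := by
  rw [Fintype.linearIndependent_iff] at hv ⊢
  intro g hg
  have key : ∀ m : ℕ, ∀ j : Fin (s + 1), (j : ℕ) < m → ∀ c, g (c, j) = 0 := by
    intro m
    induction m with
    | zero => intro j hj; omega
    | succ m ih =>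
      intro j hj
      refine hv (fun c => g (c, j)) ?_
      have h := congrArg (t ^ (s - j)) hg
      rw [map_zero, map_sum, Fintype.sum_prod_type] at h
      rw [← h]
      refine Finset.sum_congr rfl fun c _ => ?_
      have hj' := j.2
      rw [Finset.sum_eq_single j, map_smul, ← End.mul_apply, ← pow_add,
        Nat.sub_add_cancel (by omega)]
      · intro b _ hb
        have hb' : (b : ℕ) ≠ j := fun h => hb (Fin.ext h)
        rcases lt_or_gt_of_ne hb' with h | h
        · rw [ih b (by omega), zero_smul, map_zero]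
        · have h3 : s + 1 ≤ s - j + b := by omega
          rw [map_smul, ← End.mul_apply, ← pow_add, pow_eq_zero_of_le h3 ht,
            LinearMap.zero_apply, smul_zero]
      · simp
  exact fun p => key _ p.2 (Nat.lt_succ_self _) p.1

theorem exists_block [FiniteDimensional K V] (ht : t ^ (s + 1) = 0) {N : ℕ}
    (hN : N ≤ finrank K (LinearMap.range (t ^ s))) : ∃ (v : Fin N → V) (l : Fin N → Dual K V),
      (∀ a, (∀ j < s, l a ((t ^ j) (v a)) = 0) ∧ l a ((t ^ s) (v a)) = 1) ∧
        ∀ a b, a ≠ b → ∀ j ≤ s, l a ((t ^ j) (v b)) = 0 := by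
  obtain ⟨f, hf⟩ := exists_linearIndependent_of_le_finrank hN
  choose v hv using fun a => (f a).2
  have h1 : LinearIndependent K fun c => (t ^ s) (v c) := by
    simp only [hv]
    exact hf.map' (LinearMap.range (t ^ s)).subtype (Submodule.ker_subtype _)
  obtain ⟨g, hg⟩ := LinearMap.exists_leftInverse_of_injective _
    (LinearMap.ker_eq_bot.2 (indep ht h1))
  have h2 : ∀ (b : Fin N) (j : ℕ) (hj : j < s + 1),
      g ((t ^ j) (v b)) = Finsupp.single (b, ⟨j, hj⟩) 1 := by
    intro b j hj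
    have := LinearMap.congr_fun hg (Finsupp.single (b, ⟨j, hj⟩) 1)
    simpa using this
  refine ⟨v, fun a => (Finsupp.lapply (a, Fin.last s)).comp g, fun a => ⟨fun j hj => ?_, ?_⟩,
    fun a b hab j hj => ?_⟩
  · rw [LinearMap.comp_apply, h2 a j (by omega), Finsupp.lapply_apply, Finsupp.single_eq_of_ne]
    intro h
    have := congrArg (fun p : Fin N × Fin (s + 1) => (p.2 : ℕ)) h
    simp at this
    omega
  · rw [LinearMap.comp_apply, h2 a s (by omega), Finsupp.lapply_apply]
    exact Finsupp.single_eq_same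
  · rw [LinearMap.comp_apply, h2 b j (by omega), Finsupp.lapply_apply, Finsupp.single_eq_of_ne]
    intro h
    exact hab (congrArg Prod.fst h)

theorem block_end [FiniteDimensional K V] (ht : t ^ (s + 1) = 0) {N : ℕ}
    (hN : N ≤ finrank K (LinearMap.range (t ^ s))) :
    ∃ θ : Fin N → Fin N → End K V, (∀ a b, ∃ r, θ a b = Nn t s r) ∧
      (∀ a b c, θ a b * θ b c = θ a c) ∧ (∀ a b c d, b ≠ c → θ a b * θ c d = 0) ∧
      ∀ a, t ^ s * θ a a ≠ 0 := by
  obtain ⟨v, l, h1, h2⟩ := exists_block ht hN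
  refine ⟨fun a b => br t s (v a) (l b), fun a b => ⟨_, rfl⟩, fun a b c => ?_,
    fun a b c d hbc => ?_, fun a h => ?_⟩
  · simp only
    rw [br_mul ht, hat_one (h1 b).1 (h1 b).2, map_one, one_mul]
  · simp only
    rw [br_mul ht, hat_zero (h2 b c hbc), map_zero, zero_mul]
  · have h3 := congrArg (l a) (LinearMap.congr_fun h (v a))
    rw [End.mul_apply, br_apply, hat_one (h1 a).1 (h1 a).2, map_one, End.one_apply, (h1 a).2,
      LinearMap.zero_apply, map_zero] at h3
    exact one_ne_zero h3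

/-- The cyclic subspace generated by a vector. -/
def cyc (t : End K V) (s : ℕ) (v : V) : Submodule K V :=
  Submodule.span K (Set.range fun i : Fin (s + 1) => (t ^ (i : ℕ)) v)

theorem cyc_poly {v x : V} (h : x ∈ cyc t s v) : ∃ p : K[X], x = aeval t p v := by
  obtain ⟨c, rfl⟩ := (Submodule.mem_span_range_iff_exists_fun K).1 h
  refine ⟨∑ i : Fin (s + 1), monomial (i : ℕ) (c i), ?_⟩
  simp only [map_sum, aeval_monomial, LinearMap.sum_apply, End.mul_apply,
    Module.algebraMap_end_apply]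

theorem mem_cyc (v : V) {j : ℕ} (hj : j ≤ s) : (t ^ j) v ∈ cyc t s v :=
  Submodule.subset_span ⟨⟨j, by omega⟩, rfl⟩

theorem finrank_cyc (v : V) : finrank K (cyc t s v) ≤ s + 1 :=
  (finrank_range_le_card _).trans (Fintype.card_fin _).le

theorem exists_form {W : Submodule K V} {x : V} (hx : x ∉ W) :
    ∃ μ : Dual K V, μ x ≠ 0 ∧ ∀ y ∈ W, μ y = 0 := by
  obtain ⟨f, h1, h2⟩ := Submodule.exists_dual_map_eq_bot_of_notMem hx inferInstance
  refine ⟨f, h1, fun y hy => ?_⟩
  have : f y ∈ W.map f := Submodule.mem_map_of_mem hy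
  rwa [h2, Submodule.mem_bot] at this

theorem poly_of_cyc (ht : t ^ (s + 1) = 0) {v₀ : V} {l₀ : Dual K V} (h1 : hat t s l₀ v₀ = 1)
    (h2 : (t ^ s) v₀ ≠ 0) {z : End K V} (hz : Commute t z) (h : ∀ v, z v ∈ cyc t s v) :
    ∃ p : K[X], z = aeval t p := by
  obtain ⟨b, hb⟩ := cyc_poly (h v₀)
  have hθ : br t s v₀ l₀ v₀ = v₀ := by rw [br_apply, h1, map_one, End.one_apply]
  have hc : ∀ (p : K[X]) (x : V), br t s v₀ l₀ (aeval t p x) = aeval t p (br t s v₀ l₀ x) :=
    fun p x => (LinearMap.congr_fun (comm_aeval (comm_br ht v₀ l₀) p).eq x).symm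
  have hw : ∀ w, br t s v₀ l₀ w = 0 → z w = aeval t b w := by
    intro w hw
    obtain ⟨c, hc1⟩ := cyc_poly (h (v₀ + w))
    obtain ⟨c', hc2⟩ := cyc_poly (h w)
    rw [map_add, map_add, hb] at hc1
    have e1 := congrArg (br t s v₀ l₀) hc1
    rw [hc2, map_add, map_add, hc, hc, hc, hc, hθ, hw, map_zero, map_zero, add_zero,
      add_zero] at e1
    have e2 : aeval t (b - c) = 0 := by
      by_contra hne
      obtain ⟨γ, hγ⟩ := exists_mul_eq ht hne
      apply h2
      rw [← hγ, End.mul_apply, map_sub, LinearMap.sub_apply, e1, sub_self, map_zero]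
    rw [map_sub, sub_eq_zero] at e2
    rw [e1] at hc1
    rw [e2]
    exact add_left_cancel hc1
  refine ⟨b, LinearMap.ext fun w => ?_⟩
  have e3 : br t s v₀ l₀ (w - br t s v₀ l₀ w) = 0 := by
    rw [map_sub, ← End.mul_apply, br_mul ht, h1, map_one, one_mul, sub_self]
  have e4 : z (br t s v₀ l₀ w) = aeval t b (br t s v₀ l₀ w) := by
    rw [br_apply, ← End.mul_apply, ← (comm_aeval hz _).eq, End.mul_apply, hb, ← End.mul_apply,
      ← map_mul, mul_comm, map_mul, End.mul_apply]
  have e5 := hw _ e3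
  rw [map_sub, map_sub, e4] at e5
  exact sub_left_injective e5

theorem exists_mu [FiniteDimensional K V] (hr : s + 1 < finrank K (LinearMap.range (t ^ s)))
    {v x : V} (hx : x ∉ cyc t s v) :
    ∃ (μ : Dual K V) (w : V), (∀ y ∈ cyc t s v, μ y = 0) ∧ μ x ≠ 0 ∧ μ ((t ^ s) w) ≠ 0 := by
  have h : ¬ LinearMap.range (t ^ s) ≤ cyc t s v := fun h =>
    absurd ((Submodule.finrank_mono h).trans (finrank_cyc v)) (not_le.2 hr)
  obtain ⟨_, ⟨w, rfl⟩, hw⟩ := SetLike.not_le_iff_exists.1 h
  obtain ⟨μ₀, h1, h2⟩ := exists_form hx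
  obtain ⟨μ₁, h3, h4⟩ := exists_form hw
  by_cases h5 : μ₀ ((t ^ s) w) = 0
  · by_cases h6 : μ₁ x = 0
    · refine ⟨μ₀ + μ₁, w, fun y hy => ?_, ?_, ?_⟩
      · rw [LinearMap.add_apply, h2 y hy, h4 y hy, add_zero]
      · rwa [LinearMap.add_apply, h6, add_zero]
      · rwa [LinearMap.add_apply, h5, zero_add]
    · exact ⟨μ₁, w, h4, h6, h3⟩
  · exact ⟨μ₀, w, h2, h1, h5⟩

theorem exists_vec [FiniteDimensional K V] (hr : 2 * s + 2 < finrank K (LinearMap.range (t ^ s)))
    (μ : Dual K V) (z : End K V) : ∃ v : V, (∀ j ≤ s, μ ((t ^ j) v) = 0) ∧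
      (∀ j ≤ s, μ ((t ^ j) (z v)) = 0) ∧ (t ^ s) v ≠ 0 := by
  let F : V →ₗ[K] (Fin (s + 1) → K) × (Fin (s + 1) → K) :=
    (LinearMap.pi fun i : Fin (s + 1) => μ.comp (t ^ (i : ℕ))).prod
      (LinearMap.pi fun i : Fin (s + 1) => μ.comp (t ^ (i : ℕ) * z))
  have h1 := F.finrank_range_add_finrank_ker
  have h2 := (t ^ s).finrank_range_add_finrank_ker
  have h3 : finrank K (LinearMap.range F) ≤ 2 * s + 2 := by
    refine (Submodule.finrank_le _).trans ?_
    rw [finrank_prod, finrank_fin_fun]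
    omega
  have h : ¬ LinearMap.ker F ≤ LinearMap.ker (t ^ s) := fun h => by
    have := Submodule.finrank_mono h
    omega
  obtain ⟨v, hv, hv'⟩ := SetLike.not_le_iff_exists.1 h
  have hv0 : F v = 0 := hv
  exact ⟨v, fun j hj => congrFun (congrArg Prod.fst hv0) ⟨j, by omega⟩,
    fun j hj => congrFun (congrArg Prod.snd hv0) ⟨j, by omega⟩, hv'⟩

theorem nc_end [FiniteDimensional K V] {z z' : End K V} (ht : t ^ (s + 1) = 0)
    (hr : 2 * s + 3 ≤ finrank K (LinearMap.range (t ^ s))) (hz' : z' * z = 1) (hz : Commute t z)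
    (hz1 : z ≠ 1) (hγ : ∀ γ : End K V, Commute γ z → γ * (z - 1) ≠ t ^ s) :
    ∃ θ ξ ψ ξ' γ ξ'' ψ' : End K V, (∃ r, ξ = Nn t s r) ∧ (∃ r, ψ = Nn t s r) ∧
      (∃ r, ξ' = Nn t s r) ∧ Commute t θ ∧ t ^ s * θ ≠ 0 ∧ ψ * ξ = 0 ∧ ψ * ξ' = 0 ∧
      ψ * z * ξ' = 0 ∧ γ * ψ * z * ξ = θ * t ^ s ∧ ψ * ξ'' = θ ∧ ψ' * z * ξ' = θ := by
  obtain ⟨vv, ll, h1, -⟩ := exists_block (N := 1) ht (by omega)
  obtain ⟨h1, h2⟩ := h1 0
  set v₀ := vv 0
  set l₀ := ll 0
  have h3 := hat_one h1 h2
  have h4 : (t ^ s) v₀ ≠ 0 := fun h => by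
    rw [h, map_zero] at h2
    exact zero_ne_one h2
  have hθ := comm_br ht v₀ l₀
  obtain ⟨v, hv⟩ : ∃ v, z v ∉ cyc t s v := by
    by_contra hcon
    obtain ⟨p, hp⟩ := poly_of_cyc ht h3 h4 hz fun v => not_not.1 fun h => hcon ⟨v, h⟩
    have e : z - 1 = aeval t (p - 1) := by rw [map_sub, map_one, hp]
    obtain ⟨γ, h, h'⟩ := exists_mul_eq' ht (p := p - 1) (by rw [← e]; exact sub_ne_zero.2 hz1)
    exact hγ γ (h' z hz) (by rw [e, h])
  obtain ⟨μ, w, h5, h6, h7⟩ := exists_mu (by omega) hv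
  obtain ⟨v', h8, h9, h10⟩ := exists_vec (t := t) (s := s) (by omega) μ z
  have h11 : (t ^ s) (z v') ≠ 0 := fun h => by
    apply h10
    have e : z' (z ((t ^ s) v')) = (t ^ s) v' := LinearMap.congr_fun hz' _
    rw [← e, ← End.mul_apply z, ← (hz.pow_left s).eq, End.mul_apply, h, map_zero]
  obtain ⟨μ', h12⟩ : ∃ μ' : Dual K V, μ' ((t ^ s) (z v')) ≠ 0 := by
    by_contra hcon
    exact h11 ((forall_dual_apply_eq_zero_iff K _).1 fun φ => not_not.1 fun h => hcon ⟨φ, h⟩)
  have h13 : aeval t (hat t s μ (z v)) ≠ 0 := fun h => by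
    apply h6
    have e := congrArg l₀ (aeval_hat (t := t) (s := s) μ (z v) v₀)
    rw [h, LinearMap.zero_apply, map_zero, map_sum, Finset.sum_range_succ, Finset.sum_eq_zero,
      zero_add, map_smul, h2, Nat.sub_self, pow_zero, End.one_apply, smul_eq_mul, mul_one] at e
    · exact e.symm
    · intro i hi
      rw [map_smul, h1 i (Finset.mem_range.1 hi), smul_zero]
  obtain ⟨γ, hγ'⟩ := exists_mul_eq ht h13
  obtain ⟨u, hu⟩ := unit_aeval ht (p := hat t s μ w) (by rwa [hat_coeff])
  obtain ⟨u', hu'⟩ := unit_aeval ht (p := hat t s μ' (z v')) (by rwa [hat_coeff])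
  refine ⟨br t s v₀ l₀, br t s v l₀, br t s v₀ μ, br t s v' l₀, γ, br t s w l₀ * ↑u⁻¹,
    ↑u'⁻¹ * br t s v₀ μ', ⟨_, rfl⟩, ⟨_, rfl⟩, ⟨_, rfl⟩, hθ, fun h => ?_, ?_, ?_, ?_, ?_, ?_, ?_⟩
  · apply h4
    have e := LinearMap.congr_fun h v₀
    rwa [End.mul_apply, br_apply, h3, map_one, End.one_apply] at e
  · rw [br_mul ht, hat_zero fun j hj => h5 _ (mem_cyc v hj), map_zero, zero_mul]
  · rw [br_mul ht, hat_zero h8, map_zero, zero_mul]
  · rw [mul_assoc, mul_br hz, br_mul ht, hat_zero h9, map_zero, zero_mul]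
  · rw [mul_assoc, mul_br hz, mul_assoc, br_mul ht, ← mul_assoc, hγ', (hθ.pow_left s).eq]
  · rw [← mul_assoc, br_mul ht, (comm_aeval hθ _).eq, ← hu, Units.mul_inv_cancel_right]
  · rw [mul_assoc, mul_br hz, mul_assoc, br_mul ht, ← hu', Units.inv_mul_cancel_left]

section Transfer
variable {ι : Type} [Fintype ι] [DecidableEq ι]

theorem rank_eq (t : Matrix ι ι K) (s : ℕ) :
    (t ^ s).rank = finrank K (LinearMap.range
      ((Matrix.toLinAlgEquiv' t : End K (ι → K)) ^ s)) := by
  rw [← map_pow]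
  rfl

theorem symm_Nn (e : Matrix ι ι K ≃ₐ[K] End K (ι → K)) (t : Matrix ι ι K) (s : ℕ)
    {x : End K (ι → K)} (h : ∃ r, x = Nn (e t) s r) : ∃ r, e.symm x = Nn t s r := by
  obtain ⟨r, rfl⟩ := h
  refine ⟨e.symm r, ?_⟩
  have := map_Nn (e.symm : End K (ι → K) →+* Matrix ι ι K) (e t) s r
  simpa using this

end Transfer

end MB

open MB

theorem blockStmt : BlockStmt := by
  intro ι K _ _ _ t s N ht hN
  set e : Matrix ι ι K ≃ₐ[K] End K (ι → K) := Matrix.toLinAlgEquiv' with he
  obtain ⟨θ, h1, h2, h3, h4⟩ := block_end (t := e t) (s := s) (N := N)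
    (by rw [← map_pow, ht, map_zero]) (by rwa [rank_eq] at hN)
  refine ⟨fun a b => e.symm (θ a b), fun a b => symm_Nn e t s (h1 a b), fun a b c => ?_,
    fun a b c d h => ?_, fun a h => h4 a ?_⟩
  · simp only
    rw [← map_mul, h2]
  · simp only
    rw [← map_mul, h3 a b c d h, map_zero]
  · have := congrArg e h
    simpa using this

theorem ncStmt : NcStmt := by
  intro ι K _ _ _ t z z' s ht hr hz' hz hz1 hγ
  set e : Matrix ι ι K ≃ₐ[K] End K (ι → K) := Matrix.toLinAlgEquiv' with he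
  obtain ⟨θ, ξ, ψ, ξ', γ, ξ'', ψ', h1, h2, h3, h4, h5, h6, h7, h8, h9, h10, h11⟩ :=
    nc_end (t := e t) (s := s) (z := e z) (z' := e z') (by rw [← map_pow, ht, map_zero])
      (by rwa [rank_eq] at hr) (by rw [← map_mul, hz', map_one]) (hz.map e)
      (fun h => hz1 (e.injective (by rw [h, map_one])))
      (fun γ hc h => hγ (e.symm γ) (by simpa using hc.map e.symm) (e.injective (by simpa using h)))
  refine ⟨e.symm θ, e.symm ξ, e.symm ψ, e.symm ξ', e.symm γ, e.symm ξ'', e.symm ψ',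
    symm_Nn e t s h1, symm_Nn e t s h2, symm_Nn e t s h3, ?_, fun h => h5 ?_,
    e.injective (by simpa using h6), e.injective (by simpa using h7),
    e.injective (by simpa using h8), e.injective (by simpa using h9),
    e.injective (by simpa using h10), e.injective (by simpa using h11)⟩
  · simpa using h4.map e.symm
  · have := congrArg e h
    simpa using this

end Pool.Agent.Lib.MP_679d9b_al.PT
end
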