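import Pool.Agent.Lib.MP_679d9b_al.PT.Basic
import Mathlib

-- part Pool.Agent.Lib.MP_679d9b_al.PT.Struct
section

/-!
Representations of degree one of a perfect central extension of a special linear group.
-/

set_option autoImplicit false

namespace Pool.Agent.Lib.MP_679d9b_al.PT

open Subgroup Matrix
open scoped commutatorElement

namespace Struct

/-- There is always an index different from five given ones. -/
def Fr (ι : Type) : Prop := ∀ a b c d e : ι, ∃ m, m ≠ a ∧ m ≠ b ∧ m ≠ c ∧ m ≠ d ∧ m ≠ e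

theorem fr_of_card {ι : Type} [Fintype ι] [DecidableEq ι] (h : 6 ≤ Fintype.card ι) : Fr ι := by
  intro a b c d e
  obtain ⟨m, -, hm⟩ := Finset.exists_mem_notMem_of_card_lt_card
    (s := ({a, b, c, d, e} : Finset ι)) (t := Finset.univ)
    (lt_of_le_of_lt Finset.card_le_five (by rw [Finset.card_univ]; omega))
  exact ⟨m, by simpa [not_or] using hm⟩

section Ring

variable {ι K E : Type} [CommRing K] [Ring E]

/-- The relations satisfied by the elements `ρ (s i j a) - 1`. -/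
structure Rel (X : ι → ι → K → E) : Prop where
  z : ∀ {i j k l : ι} (a b : K), i ≠ j → k ≠ l → j ≠ k → i ≠ l → X i j a * X k l b = 0
  add : ∀ {i j : ι} (a b : K), i ≠ j → X i j (a + b) = X i j a + X i j b
  br : ∀ {i j k : ι} (a b : K), i ≠ k → k ≠ j → i ≠ j →
    X i j (a * b) = X i k a * X k j b - X k j b * X i k a

theorem Rel.flip {X : ι → ι → K → E} (h : Rel X) : Rel fun i j a => -X j i a where
  z a b h1 h2 h3 h4 := by rw [neg_mul_neg, h.z a b h1.symm h2.symm h4 h3]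
  add a b h1 := by rw [h.add a b h1.symm, neg_add]
  br a b h1 h2 h3 := by
    rw [mul_comm a b, h.br b a h2.symm h1.symm h3.symm, neg_mul_neg, neg_mul_neg, neg_sub]

/-- An index different from two given ones. -/
noncomputable def mid (F : Fr ι) (i j : ι) : ι := (F i j i j i).choose

theorem mid_l (F : Fr ι) (i j : ι) : i ≠ mid F i j := (F i j i j i).choose_spec.1.symm
theorem mid_r (F : Fr ι) (i j : ι) : mid F i j ≠ j := (F i j i j i).choose_spec.2.1

/-- Paths of length two. -/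
noncomputable def P (F : Fr ι) (X : ι → ι → K → E) (i j : ι) (a : K) : E :=
  X i (mid F i j) a * X (mid F i j) j 1

/-- Paths of length three. -/
noncomputable def Q (F : Fr ι) (X : ι → ι → K → E) (i j : ι) (a : K) : E :=
  P F X i (mid F i j) a * X (mid F i j) j 1

variable (F : Fr ι) {X : ι → ι → K → E} (h : Rel X)
include h

omit F in
theorem sr {i j k l : ι} (a b c : K) (h1 : i ≠ k) (h2 : i ≠ j) (h3 : k ≠ l) (h4 : l ≠ j)
    (h5 : k ≠ j) : X i k a * X k l b * X l j c = X i k a * X k j (b * c) := by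
  rw [h.br b c h3 h4 h5, mul_sub, ← mul_assoc, ← mul_assoc, h.z a c h1 h4 h3 h2, zero_mul,
    sub_zero]

omit F in
theorem sl {i j k l : ι} (a b c : K) (h1 : i ≠ k) (h2 : i ≠ j) (h3 : k ≠ l) (h4 : l ≠ j)
    (h5 : i ≠ l) : X i k a * X k l b * X l j c = X i l (a * b) * X l j c := by
  rw [h.br a b h1 h3 h5, sub_mul, mul_assoc (X k l b), h.z a c h1 h4 h3 h2, mul_zero, sub_zero]

theorem P1 {i j k : ι} (a b : K) (h1 : i ≠ k) (h2 : k ≠ j) (h3 : i ≠ j) :
    X i k a * X k j b = P F X i j (a * b) := by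
  obtain ⟨m, m1, m2, m3, m4, -⟩ := F i j k (mid F i j) i
  have e : ∀ {k : ι} (a b : K), i ≠ k → k ≠ j → m ≠ k →
      X i k a * X k j b = X i m (a * b) * X m j 1 := fun a b h1 h2 h4 => by
    rw [← sl h a b 1 h1 h3 h4.symm m2 m1.symm, sr h a b 1 h1 h3 h4.symm m2 h2, mul_one]
  rw [e a b h1 h2 m3, P, e _ 1 (mid_l F i j) (mid_r F i j) m4, mul_one]

theorem Q1 {i j l : ι} (a b : K) (h1 : i ≠ l) (h2 : l ≠ j) :
    P F X i l a * X l j b = Q F X i j (a * b) := by
  obtain ⟨k, k1, k2, k3, k4, -⟩ := F i j l (mid F i j) i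
  have e : ∀ {l : ι} (a b c : K), i ≠ l → l ≠ j → k ≠ l →
      P F X i l (a * b) * X l j c = X i k a * P F X k j (b * c) := fun a b c h1 h2 h3 => by
    rw [← P1 F h a b k1.symm h3 h1, mul_assoc, P1 F h b c h3 h2 k2]
  have e1 := e a 1 b h1 h2 k3
  have e2 := e a b 1 (mid_l F i j) (mid_r F i j) k4
  rw [mul_one, one_mul] at e1
  rw [mul_one] at e2
  rw [e1, Q, e2]

theorem Q2 {i j k : ι} (a b : K) (h1 : i ≠ k) (h2 : k ≠ j) :
    X i k a * P F X k j b = Q F X i j (a * b) := by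
  obtain ⟨l, l1, l2, l3, -⟩ := F i j k i i
  have e := Q1 F h (a * b) 1 l1.symm l2
  rw [mul_one] at e
  rw [← e, ← P1 F h a b h1 l3.symm l1.symm, mul_assoc, P1 F h b 1 l3.symm l2 h2, mul_one]

theorem Q3 {i j : ι} (a : K) (h1 : i ≠ j) : Q F X i j a = P F X i j a := by
  obtain ⟨k, k1, k2, -⟩ := F i j i i i
  obtain ⟨l, l1, l2, l3, -⟩ := F i j k i i
  have e := Q1 F h (a * 1) 1 l1.symm l2
  rw [← P1 F h a 1 k1.symm l3.symm l1.symm, sr h a 1 1 k1.symm h1 l3.symm l2 k2,
    P1 F h _ _ k1.symm k2 h1] at e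
  simpa using e.symm

theorem QX1 (i : ι) {j m : ι} (a b : K) (h1 : j ≠ m) : Q F X i j a * X j m b = Q F X i m (a * b) := by
  obtain ⟨k, k1, k2, k3, -⟩ := F i j m i i
  have e := Q2 F h a 1 k1.symm k2
  rw [mul_one] at e
  rw [← e, mul_assoc, Q1 F h 1 b k2 h1, Q3 F h _ k3, Q2 F h _ _ k1.symm k3, one_mul]

theorem QX0 (i : ι) {j l m : ι} (a b : K) (h1 : j ≠ l) (h2 : l ≠ m) :
    Q F X i j a * X l m b = 0 := by
  obtain ⟨k, k1, k2, k3, -⟩ := F i j m i i
  have e := Q1 F h a 1 k1.symm k2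
  rw [mul_one] at e
  rw [← e, mul_assoc, h.z 1 b k2 h2 h1 k3, mul_zero]

theorem QQ1 (i j m : ι) (a b : K) : Q F X i j a * Q F X j m b = Q F X i m (a * b) := by
  rw [Q.eq_1 F X j m, P, ← mul_assoc, ← mul_assoc, QX1 F h _ _ _ (mid_l F _ _),
    QX1 F h _ _ _ (mid_r F _ _), QX1 F h _ _ _ (mid_r F _ _), mul_one, mul_one]

theorem QQ0 (i : ι) {j l : ι} (m : ι) (a b : K) (h1 : j ≠ l) : Q F X i j a * Q F X l m b = 0 := by
  rw [Q.eq_1 F X l m, P, ← mul_assoc, ← mul_assoc, QX0 F h _ _ _ h1 (mid_l F _ _), zero_mul,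
    zero_mul]

theorem QQ' {Y : ι → ι → K → E} (h' : Rel Y) (e : ∀ i j a, Y i j a = -X j i a) (i j l m : ι)
    (a b : K) : Q F X i j a * Q F Y l m b = 0 := by
  obtain ⟨k, k1, k2, k3, -⟩ := F l m j l l
  have e1 := Q2 F h' b 1 k1.symm k2
  rw [mul_one] at e1
  rw [← e1, ← mul_assoc, e, mul_neg, QX0 F h _ _ _ k3.symm k1, neg_zero, zero_mul]

theorem X_eq {i j : ι} (a : K) (h1 : i ≠ j) :
    X i j a = Q F X i j a - Q F (fun i j a => -X j i a) j i a := by
  obtain ⟨k, k1, k2, -⟩ := F i j i i i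
  have e := h.br a 1 k1.symm k2 h1
  have e1 := P1 F h.flip 1 a k2.symm k1 h1.symm
  rw [P1 F h a 1 k1.symm k2 h1, mul_one] at e
  rw [neg_mul_neg, one_mul] at e1
  rw [Q3 F h a h1, Q3 F h.flip a h1.symm, e, e1]

/-- The paths of length three as additive maps. -/
noncomputable def Qh (i j : ι) : K →+ E :=
  AddMonoidHom.mk' (Q F X i j) fun a b => by
    rw [Q, Q, Q, P, P, P, h.add a b (mid_l F _ _), add_mul, add_mul]

variable [Fintype ι]

/-- The additive map on matrices. -/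
noncomputable def pi : Matrix ι ι K →+ E :=
  AddMonoidHom.mk' (fun B => ∑ i, ∑ j, Qh F h i j (B i j)) fun B C => by
    simp only [Matrix.add_apply, map_add, Finset.sum_add_distrib]

theorem pi_apply (B : Matrix ι ι K) : pi F h B = ∑ i, ∑ j, Qh F h i j (B i j) := rfl

theorem pi_mul (B C : Matrix ι ι K) : pi F h (B * C) = pi F h B * pi F h C := by
  simp only [pi_apply, mul_apply, map_sum, Finset.sum_mul]
  refine Finset.sum_congr rfl fun i _ => ?_
  rw [Finset.sum_comm]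
  refine Finset.sum_congr rfl fun j _ => ?_
  symm
  rw [Finset.mul_sum, Finset.sum_eq_single j, Finset.mul_sum]
  · exact Finset.sum_congr rfl fun m _ => QQ1 F h i j m _ _
  · intro l _ hl
    rw [Finset.mul_sum]
    exact Finset.sum_eq_zero fun m _ => QQ0 F h i m _ _ hl.symm
  · simp

theorem pi_orth {Y : ι → ι → K → E} (h' : Rel Y) (e : ∀ i j a, Y i j a = -X j i a)
    (B C : Matrix ι ι K) : pi F h B * pi F h' C = 0 := by
  simp only [pi_apply, Finset.sum_mul, Finset.mul_sum]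
  exact Finset.sum_eq_zero fun _ _ => Finset.sum_eq_zero fun _ _ => Finset.sum_eq_zero fun _ _ =>
    Finset.sum_eq_zero fun _ _ => QQ' F h h' e _ _ _ _ _ _

theorem pi_single [DecidableEq ι] (i j : ι) (a : K) : pi F h (single i j a) = Q F X i j a := by
  rw [pi_apply, Finset.sum_eq_single i, Finset.sum_eq_single j, single_apply_same]
  · rfl
  · intro l _ hl
    rw [single_apply_of_col_ne _ _ hl.symm, map_zero]
  · simp
  · intro k _ hk
    exact Finset.sum_eq_zero fun l _ => by rw [single_apply_of_row_ne hk.symm, map_zero]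
  · simp

end Ring

section Mat

variable {ι K : Type} [Fintype ι] [DecidableEq ι] [Field K]

/-- `A` is the transvection with entry `a` at the place `(i, j)`. -/
def IsT (A : SL ι K) (i j : ι) (a : K) : Prop := A.1 = 1 + single i j a

theorem IsT.eq {A B : SL ι K} {i j : ι} {a : K} (hA : IsT A i j a) (hB : IsT B i j a) : A = B :=
  Subtype.ext (hA.trans hB.symm)

theorem isT_tv {i j : ι} (h : i ≠ j) (a : K) : IsT (SpecialLinearGroup.transvection h a) i j a :=
  rfl

theorem IsT.comm {A B : SL ι K} {i j k l : ι} {a b : K} (hA : IsT A i j a) (hB : IsT B k l b)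
    (h1 : j ≠ k) (h2 : i ≠ l) : Commute A B := by
  refine Subtype.ext ?_
  change A.1 * B.1 = B.1 * A.1
  rw [hA, hB]
  simp only [mul_add, add_mul, one_mul, mul_one, single_mul_single_of_ne _ _ _ _ h1,
    single_mul_single_of_ne _ _ _ _ h2.symm]
  abel

theorem IsT.br {A B : SL ι K} {i j k : ι} {a b : K} (hA : IsT A i k a) (hB : IsT B k j b)
    (h2 : k ≠ j) (h3 : i ≠ j) : IsT ⁅A, B⁆ i j (a * b) := by
  have e : A * B = SpecialLinearGroup.transvection h3 (a * b) * (B * A) := by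
    refine Subtype.ext ?_
    change A.1 * B.1 = (1 + single i j (a * b)) * (B.1 * A.1)
    rw [hA, hB]
    simp only [mul_add, add_mul, one_mul, mul_one, single_mul_single_of_ne _ _ _ _ h2.symm,
      single_mul_single_of_ne _ _ _ _ h3.symm, single_mul_single_same, mul_zero]
    abel
  have : ⁅A, B⁆ = SpecialLinearGroup.transvection h3 (a * b) := by
    rw [commutatorElement_def, e]; group
  rw [this]
  exact isT_tv h3 _

theorem IsT.mul {A B : SL ι K} {i j : ι} {a b : K} (hA : IsT A i j a) (hB : IsT B i j b)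
    (h : i ≠ j) : IsT (A * B) i j (a + b) := by
  rw [hA.eq (isT_tv h a), hB.eq (isT_tv h b), ← SpecialLinearGroup.transvection_add]
  exact isT_tv h _

theorem IsT.inv {A : SL ι K} {i j : ι} {a : K} (hA : IsT A i j a) (h : i ≠ j) :
    IsT A⁻¹ i j (-a) := by
  rw [hA.eq (isT_tv h a), SpecialLinearGroup.transvection_inv]
  exact isT_tv h _

end Mat

section Cent

variable {H G : Type} [Group H] [Group G] {φ : H →* G} (hc : ∀ y g, φ y = 1 → Commute y g)
include hc

theorem br_congr {x x' y y' : H} (hx : φ x = φ x') (hy : φ y = φ y') : ⁅x, y⁆ = ⁅x', y'⁆ := by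
  have e : ∀ {x x' : H} (y : H), φ x = φ x' → ⁅x, y⁆ = ⁅x', y⁆ := fun {x x'} y hx => by
    have := (hc (x'⁻¹ * x) y (by rw [map_mul, map_inv, hx, inv_mul_cancel])).eq
    calc ⁅x, y⁆ = x' * (x'⁻¹ * x * y) * x⁻¹ * y⁻¹ := by rw [commutatorElement_def]; group
      _ = _ := by rw [this, commutatorElement_def]; group
  rw [e y hx, ← commutatorElement_inv, e x' hy, commutatorElement_inv]

theorem comm_br {x x' y : H} (h : Commute (φ y) (φ x)) (h' : Commute (φ y) (φ x')) :
    Commute y ⁅x, x'⁆ := by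
  have e : ∀ {x : H}, Commute (φ y) (φ x) → φ (y * x * y⁻¹) = φ x := fun h => by
    rw [map_mul, map_mul, map_inv, h.eq, mul_inv_cancel_right]
  have := conjugate_commutatorElement x x' y
  rw [br_congr hc (e h) (e h')] at this
  exact mul_inv_eq_iff_eq_mul.1 this

theorem comm_of_eq {x x' y : H} (h : φ x = φ x') (h' : Commute y x') : Commute y x := by
  have := hc (x'⁻¹ * x) y (by rw [map_mul, map_inv, h, inv_mul_cancel])
  simpa using h'.mul_right this.symm

omit hc in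
theorem jacobi {u v w : H} (h1 : Commute u w) (h2 : Commute ⁅v, w⁆ ⁅u, v⁆)
    (h3 : Commute ⁅v, w⁆ ⁅u, ⁅v, w⁆⁆) : ⁅⁅u, v⁆, w⁆ = ⁅u, ⁅v, w⁆⁆ := by
  have e1 : w * u * w⁻¹ = u := by rw [← h1.eq, mul_inv_cancel_right]
  have e2 : ⁅⁅u, v⁆, w⁆ = ⁅u, v⁆ * ⁅w * v * w⁻¹, w * u * w⁻¹⁆ := by
    simp only [commutatorElement_def]; group
  have e3 : ⁅w * v * w⁻¹, u⁆ = ⁅v, w⁆⁻¹ * (⁅u, v⁆⁻¹ * ⁅u, ⁅v, w⁆⁆ * ⁅v, w⁆) := by
    simp only [commutatorElement_def]; group
  rw [e2, e1, e3, ← (h2.inv_right.mul_right h3).eq]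
  group

end Cent

section Stein

variable {ι K : Type} [Fintype ι] [DecidableEq ι] [Field K] {H : Type} [Group H]
  {φ : H →* SL ι K} (F : Fr ι) (hs : Function.Surjective φ) (hc : ∀ y g, φ y = 1 → Commute y g)

include hs in
theorem exists_T {i j : ι} (h : i ≠ j) (a : K) : ∃ x, IsT (φ x) i j a := by
  obtain ⟨x, hx⟩ := hs (SpecialLinearGroup.transvection h a)
  exact ⟨x, hx ▸ isT_tv h a⟩

theorem br_T {x y : H} {i j k : ι} {a b : K} (hx : IsT (φ x) i k a) (hy : IsT (φ y) k j b)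
    (_h1 : i ≠ k) (h2 : k ≠ j) (h3 : i ≠ j) : IsT (φ ⁅x, y⁆) i j (a * b) := by
  rw [map_commutatorElement]; exact hx.br hy h2 h3

include F hs hc

theorem comm_T {x y : H} {i j k l : ι} {a b : K} (hx : IsT (φ x) i j a) (hy : IsT (φ y) k l b)
    (h0 : i ≠ j) (h1 : j ≠ k) (h2 : i ≠ l) : Commute x y := by
  obtain ⟨m, m1, m2, m3, m4, -⟩ := F i j k l i
  obtain ⟨u, hu⟩ := exists_T hs m1.symm a
  obtain ⟨v, hv⟩ := exists_T hs m2 (1 : K)
  have e := br_T hu hv m1.symm m2 h0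
  rw [mul_one] at e
  exact (comm_of_eq hc (hx.eq e) (comm_br hc (hu.comm hy m3 h2).symm (hv.comm hy h1 m4).symm)).symm

/-- The Steinberg generators. -/
theorem exists_st : ∃ s : ι → ι → K → H, (∀ i j a, i ≠ j → IsT (φ (s i j a)) i j a) ∧
    ∀ (x y : H) i j k a b, IsT (φ x) i k a → IsT (φ y) k j b → i ≠ k → k ≠ j → i ≠ j →
      ⁅x, y⁆ = s i j (a * b) := by
  have key : ∀ (x y x' y' : H) i j k m a b, IsT (φ x) i k a → IsT (φ y) k j b →
      IsT (φ x') i m (a * b) → IsT (φ y') m j 1 → i ≠ k → k ≠ j → i ≠ j → i ≠ m → m ≠ j →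
      k ≠ m → ⁅x, y⁆ = ⁅x', y'⁆ := by
    intro x y x' y' i j k m a b hx hy hx' hy' h1 h2 h3 h4 h5 h6
    obtain ⟨v, hv⟩ := exists_T hs h6 b
    have e1 := br_T hx hv h1 h6 h4
    have e2 := br_T hv hy' h6 h5 h2
    have e3 := br_T hx e2 h1 h2 h3
    have := jacobi (comm_T F hs hc hx hy' h1 h6 h3) (comm_T F hs hc e2 e1 h2 h3.symm h6)
      (comm_T F hs hc e2 e3 h2 h3.symm h2)
    rw [mul_one] at e2
    rw [br_congr hc rfl (hy.eq e2), ← this]
    exact br_congr hc (e1.eq hx') rfl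
  have ex : ∀ i j (a : K), ∃ x : H, i ≠ j → IsT (φ x) i j a := fun i j a => by
    by_cases h : i = j
    · exact ⟨1, fun h' => absurd h h'⟩
    · exact (exists_T hs h a).imp fun _ h _ => h
  choose t ht using ex
  refine ⟨fun i j a => ⁅t i (mid F i j) a, t (mid F i j) j 1⁆, fun i j a h => ?_, ?_⟩
  · simpa using br_T (ht _ _ a (mid_l F i j)) (ht _ _ 1 (mid_r F i j)) (mid_l F i j)
      (mid_r F i j) h
  · intro x y i j k a b hx hy h1 h2 h3
    obtain ⟨m, m1, m2, m3, m4, -⟩ := F i j k (mid F i j) i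
    rw [key x y _ _ i j k m a b hx hy (ht _ _ _ m1.symm) (ht _ _ _ m2) h1 h2 h3 m1.symm m2 m3.symm]
    exact (key _ _ _ _ i j _ m (a * b) 1 (ht _ _ _ (mid_l F i j)) (ht _ _ _ (mid_r F i j))
      (by rw [mul_one]; exact ht _ _ _ m1.symm) (ht _ _ _ m2) (mid_l F i j) (mid_r F i j) h3
      m1.symm m2 m4.symm).symm

omit F in
theorem ys_perfect {S : Finset ι} (h : 3 ≤ S.card) : ⁅Ys φ S, Ys φ S⁆ = Ys φ S := by
  have hm : (Ys φ S).map φ = Tr K S := by
    rw [Ys, map_commutator, map_comap_eq_self_of_surjective hs, tr_perfect h]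
  refine le_antisymm (commutator_le.2 fun x hx y hy => ?_) (commutator_le.2 fun x hx y hy => ?_)
  · exact mul_mem (mul_mem (mul_mem hx hy) (inv_mem hx)) (inv_mem hy)
  · obtain ⟨x', hx', ex⟩ : φ x ∈ (Ys φ S).map φ := hm ▸ hx
    obtain ⟨y', hy', ey⟩ : φ y ∈ (Ys φ S).map φ := hm ▸ hy
    rw [br_congr hc ex.symm ey.symm]
    exact commutator_mem_commutator hx' hy'

omit F hs in
theorem ys_comm {S₁ S₂ : Finset ι} (hd : Disjoint S₁ S₂) {x y : H} (hx : x ∈ Ys φ S₁)
    (hy : y ∈ Ys φ S₂) : Commute x y := by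
  have h1 : Ys φ S₂ ≤ (Tr K S₂).comap φ := commutator_le.2 fun x hx y hy =>
    mul_mem (mul_mem (mul_mem hx hy) (inv_mem hx)) (inv_mem hy)
  have h2 : ∀ z ∈ (Tr K S₁).comap φ, Commute (φ y) (φ z) := fun z hz => by
    have e1 := tr_mul hd hz (h1 hy)
    have e2 := tr_mul hd.symm (h1 hy) hz
    refine Subtype.ext ?_
    change (φ y).1 * (φ z).1 = (φ z).1 * (φ y).1
    rw [← sub_eq_zero, ← sub_self (0 : Matrix ι ι K)]
    conv_rhs => lhs; rw [← e2]
    conv_rhs => rhs; rw [← e1]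
    noncomm_ring
  have h3 : Ys φ S₁ ≤ centralizer {y} := commutator_le.2 fun a ha b hb =>
    mem_centralizer_singleton_iff.2 (comm_br hc (h2 a ha) (h2 b hb)).symm.eq
  exact mem_centralizer_singleton_iff.1 (h3 hx)

end Stein

section Stab

variable {H E : Type} [Group H] [Ring E] (ρ : H →* E)

/-- Elements acting trivially on `z` from the right. -/
def stabR (z : E) : Subgroup H where
  carrier := {g | z * (ρ g - 1) = 0}
  one_mem' := by simp
  mul_mem' := fun {a b} ha hb => by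
    simp only [Set.mem_ofPred_eq, mul_sub, mul_one, sub_eq_zero] at *
    rw [map_mul, ← mul_assoc, ha, hb]
  inv_mem' := fun {a} ha => by
    simp only [Set.mem_ofPred_eq, mul_sub, mul_one, sub_eq_zero] at *
    conv_lhs => rw [← ha]
    rw [mul_assoc, ← map_mul, mul_inv_cancel, map_one, mul_one]

/-- Elements acting trivially on `z` from the left. -/
def stabL (z : E) : Subgroup H where
  carrier := {g | (ρ g - 1) * z = 0}
  one_mem' := by simp
  mul_mem' := fun {a b} ha hb => by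
    simp only [Set.mem_ofPred_eq, sub_mul, one_mul, sub_eq_zero] at *
    rw [map_mul, mul_assoc, hb, ha]
  inv_mem' := fun {a} ha => by
    simp only [Set.mem_ofPred_eq, sub_mul, one_mul, sub_eq_zero] at *
    conv_lhs => rw [← ha]
    rw [← mul_assoc, ← map_mul, inv_mul_cancel, map_one, one_mul]

theorem br_mem {x y g : H} (hg : Commute x g) (hy : y ∈ stabR ρ (ρ x - 1)) :
    ⁅g, y⁆ ∈ stabR ρ (ρ x - 1) := by
  refine mul_mem ?_ (inv_mem hy)
  have e : (ρ x - 1) * (ρ (g * y * g⁻¹) - 1) = ρ g * ((ρ x - 1) * (ρ y - 1)) * ρ g⁻¹ := by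
    have h1 : ρ g * ρ g⁻¹ = 1 := by rw [← map_mul, mul_inv_cancel, map_one]
    have h2 : (ρ x - 1) * ρ g = ρ g * (ρ x - 1) := ((hg.map ρ).sub_left (Commute.one_left _)).eq
    rw [← mul_assoc, ← h2, map_mul, map_mul, mul_assoc (ρ x - 1), mul_assoc (ρ x - 1),
      mul_sub (ρ g), sub_mul (ρ g * ρ y), mul_one, h1]
  change _ = _
  rw [e, show (ρ x - 1) * (ρ y - 1) = 0 from hy, mul_zero, zero_mul]

end Stab

theorem central {p : ℕ} [Fact p.Prime] {ι K : Type} [Fintype ι] [DecidableEq ι] [Field K]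
    {H : Type} [Group H] [Finite H] {E : Type} [Ring E] {φ : H →* SL ι K} {ρ : H →* E}
    {S₁ S₂ : Finset ι} (hs : Function.Surjective φ) (hH : Group.IsPerfect H) (hp : (p : E) = 0)
    (hc : ∀ y g, φ y = 1 → Commute y g) (hd : Disjoint S₁ S₂) (h1 : 3 ≤ S₁.card)
    (h2 : 3 ≤ S₂.card) (hD : Deg1 p φ ρ S₁ S₂) : ∃ π π' : Matrix ι ι K →+ E, Str φ ρ π π' := by
  have F : Fr ι := fr_of_card (by
    have := Finset.card_le_univ (S₁ ∪ S₂)
    rw [Finset.card_union_of_disjoint hd] at this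
    omega)
  obtain ⟨s, hT, hb⟩ := exists_st F hs hc
  have hq : ∀ {g : H}, QEl p g → QEl p (ρ g) := fun ⟨m, hm, e⟩ => ⟨m, hm, by
    rw [← map_pow, e, map_one]⟩
  have R0 : ∀ x ∈ Ys φ S₁, Ys φ S₂ ≤ stabR ρ (ρ x - 1) := fun x hx =>
    le_of_qel (p := p) (ys_perfect hs hc h2) fun y hy qy =>
      le_of_qel (p := p) (S := stabL ρ (ρ y - 1)) (ys_perfect hs hc h1) (fun x hx qx =>
        red hp (hq qx) (hq qy) ((ys_comm hc hd hx hy).map ρ) (hD x hx y hy qx qy)) hx
  have hY : ∀ S : Finset ι, 3 ≤ S.card → ∃ i ∈ S, ∃ j ∈ S, i ≠ j ∧ ∀ a, s i j a ∈ Ys φ S := by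
    intro S hS
    obtain ⟨i, hi, j, hj, k, hk, e1, e2, e3⟩ := Finset.two_lt_card.1 hS
    refine ⟨i, hi, j, hj, e1, fun a => ?_⟩
    rw [← mul_one a, ← hb _ _ i j k a 1 (hT _ _ _ e2) (hT _ _ _ e3.symm) e2 e3.symm e1]
    exact commutator_mem_commutator
      (subset_closure ⟨i, k, e2, a, hi, hk, (hT _ _ _ e2).eq (isT_tv _ _)⟩)
      (subset_closure ⟨k, j, e3.symm, 1, hk, hj, (hT _ _ _ e3.symm).eq (isT_tv _ _)⟩)
  have hcs : ∀ {i j k l} a b, i ≠ j → k ≠ l → j ≠ k → i ≠ l → Commute (s i j a) (s k l b) :=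
    fun a b e1 e2 e3 e4 => comm_T F hs hc (hT _ _ a e1) (hT _ _ b e2) e1 e3 e4
  let R : ι → ι → ι → ι → Prop := fun i j k l => ∀ a b, s k l b ∈ stabR ρ (ρ (s i j a) - 1)
  have Mk : ∀ {i j k l m}, i ≠ j → k ≠ l → R i j k l → i ≠ k → j ≠ m → m ≠ l → R i j m l := by
    intro i j k l m e1 e2 h e3 e4 e5 a b
    by_cases e : m = k
    · rw [e]; exact h a b
    rw [← mul_one b, ← hb _ _ m l k b 1 (hT _ _ _ e) (hT _ _ _ e2) e e2 e5]
    exact br_mem ρ (hcs _ _ e1 e e4 e3) (h a 1)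
  have Ml : ∀ {i j k l m}, i ≠ j → k ≠ l → R i j k l → j ≠ l → i ≠ m → k ≠ m → R i j k m := by
    intro i j k l m e1 e2 h e3 e4 e5 a b
    by_cases e : l = m
    · rw [← e]; exact h a b
    rw [← mul_one b, ← hb _ _ k m l b 1 (hT _ _ _ e2) (hT _ _ _ e) e2 e e5,
      ← commutatorElement_inv]
    exact inv_mem (br_mem ρ (hcs _ _ e1 e e3 e4) (h a b))
  have Sy : ∀ {i j k l}, i ≠ j → k ≠ l → j ≠ k → i ≠ l → R i j k l → R k l i j := by
    intro i j k l e1 e2 e3 e4 h a b
    have := (hcs b a e1 e2 e3 e4).map ρ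
    change _ * _ = _
    rw [← ((this.sub_left (Commute.one_left _)).sub_right (Commute.one_right _)).eq]
    exact h b a
  have MA : ∀ {i j k l}, i ≠ j → k ≠ l → R i j k l → i ≠ k → j ≠ l → ∀ k' l', k' ≠ l' → j ≠ k' →
      i ≠ l' → R i j k' l' := by
    intro i j k l e1 e2 h e3 e4 k' l' e5 e6 e7
    obtain ⟨m, m1, m2, m3, m4, -⟩ := F i j l l' i
    exact Mk e1 m4 (Ml e1 m3 (Mk e1 e2 h e3 m2.symm m3) e4 e7 m4) m1.symm e6 e5
  have hR : ∀ {i j k l}, i ≠ j → k ≠ l → j ≠ k → i ≠ l → R i j k l := by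
    intro i j k l e1 e2 e3 e4
    obtain ⟨i₀, hi, j₀, hj, f1, y1⟩ := hY S₁ h1
    obtain ⟨k₀, hk, l₀, hl, f2, y2⟩ := hY S₂ h2
    obtain ⟨m, m1, m2, m3, m4, -⟩ := F i₀ j₀ i j i
    obtain ⟨n, n1, n2, n3, n4, n5⟩ := F i₀ j₀ i j m
    have a1 : R i₀ j₀ m n := MA f1 f2 (fun a b => R0 _ (y1 a) (y2 b))
      (hd.forall_ne_finset hi hk) (hd.forall_ne_finset hj hl) m n n5.symm m2.symm n1.symm
    have a2 : R m n i j := MA n5.symm f1 (Sy f1 n5.symm m2.symm n1.symm a1) m1 n2 i j e1 n3 m4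
    exact MA e1 n5.symm (Sy n5.symm e1 n3 m4 a2) m3.symm n4.symm k l e2 e3 e4
  have rel : Rel fun i j a => ρ (s i j a) - 1 := by
    refine ⟨fun a b e1 e2 e3 e4 => hR e1 e2 e3 e4 a b, fun {i j} a b e => ?_,
      fun {i j k} a b e1 e2 e3 => ?_⟩
    · obtain ⟨k, k1, k2, -⟩ := F i j i i i
      have a1 := hb _ _ i j k _ 1 (by
        rw [map_mul]; exact (hT i k a k1.symm).mul (hT i k b k1.symm) k1.symm)
        (hT k j 1 k2) k1.symm k2 e
      have a2 := hb _ _ i j k a 1 (hT i k a k1.symm) (hT k j 1 k2) k1.symm k2 e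
      have a3 := hb _ _ i j k b 1 (hT i k b k1.symm) (hT k j 1 k2) k1.symm k2 e
      have a4 : ⁅s i k a * s i k b, s k j 1⁆ =
          s i k a * ⁅s i k b, s k j 1⁆ * (s i k a)⁻¹ * ⁅s i k a, s k j 1⁆ := by
        simp only [commutatorElement_def]; group
      rw [a1, a2, a3, mul_one, mul_one, mul_one, (hcs a b k1.symm e k1 e).eq,
        mul_inv_cancel_right] at a4
      have a5 : _ * _ = _ := hR e e e.symm e b a
      rw [a4, map_mul, ← sub_eq_zero, ← a5]
      noncomm_ring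
    · have a1 := hb _ _ i j k a b (hT i k a e1) (hT k j b e2) e1 e2 e3
      have a2 : ρ (s i k a) * ρ (s k j b) = ρ (s i j (a * b)) * ρ (s k j b) * ρ (s i k a) := by
        rw [← map_mul, ← map_mul, ← map_mul, ← a1, commutatorElement_def]
        congr 1; group
      have a3 : _ * _ = _ := hR e3 e2 e2.symm e3 (a * b) b
      have a4 : _ * _ = _ := hR e3 e1 e3.symm e1 (a * b) a
      generalize ρ (s i k a) = A at *
      generalize ρ (s k j b) = B at *
      generalize ρ (s i j (a * b)) = C at *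
      calc C - 1 = (C * B * A - B * A) - (C - 1) * (B - 1) * A - (C - 1) * (A - 1) := by
            noncomm_ring
        _ = _ := by rw [← a2, a3, a4]; noncomm_ring
  let π := pi F rel
  let π' := (pi F rel.flip).comp (transposeAddEquiv ι ι K).toAddMonoidHom
  have m1 : ∀ B C, π (B * C) = π B * π C := pi_mul F rel
  have m2 : ∀ B C, π' (B * C) = π' C * π' B := fun B C => by
    change pi F rel.flip (B * C)ᵀ = _
    rw [transpose_mul, pi_mul]; rfl
  have o1 : ∀ B C, π B * π' C = 0 := fun B C => pi_orth F rel rel.flip (fun _ _ _ => rfl) _ _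
  have o2 : ∀ B C, π' B * π C = 0 := fun B C =>
    pi_orth F rel.flip rel (fun _ _ _ => (neg_neg _).symm) _ _
  let σ : H →* E :=
    { toFun := fun g => 1 + π ((φ g).1 - 1) + π' ((φ g⁻¹).1 - 1)
      map_one' := by simp
      map_mul' := fun g g' => by
        have e : ∀ A B : Matrix ι ι K, A * B - 1 = (A - 1) + (B - 1) + (A - 1) * (B - 1) :=
          fun A B => by noncomm_ring
        have cm : ∀ A B : SL ι K, (A * B).1 = A.1 * B.1 := fun _ _ => rfl
        rw [_root_.mul_inv_rev, map_mul, map_mul, cm, cm, e, e (φ g'⁻¹).1]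
        simp only [map_add, m1, m2, mul_add, add_mul, o1, o2, mul_one, one_mul]
        abel }
  have hlift : ∀ A : SL ι K, ∃ g ∈ ρ.eqLocus σ, φ g = A := by
    have : Nontrivial ι := by
      obtain ⟨i, -, j, -, e, -⟩ := hY S₁ h1
      exact ⟨i, j, e⟩
    refine tv_induction _ (fun i j e a => ⟨s i j a, ?_, (hT i j a e).eq (isT_tv e a)⟩) ?_
    · change ρ _ = 1 + π _ + π' _
      have t : π' (single i j a) = pi F rel.flip (single j i a) :=
        congrArg (pi F rel.flip) (transpose_single i j a)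
      rw [map_inv, hT i j a e, (hT i j a e).inv e, add_sub_cancel_left, add_sub_cancel_left,
        ← single_neg, map_neg, t, pi_single, pi_single,
        add_assoc, ← sub_eq_add_neg, ← X_eq F rel a e, add_sub_cancel]
    · rintro _ _ ⟨g, hg, rfl⟩ ⟨g', hg', rfl⟩
      exact ⟨g * g', mul_mem hg hg', map_mul _ _ _⟩
  have hall : commutator H ≤ ρ.eqLocus σ := commutator_le.2 fun x _ y _ => by
    obtain ⟨x', hx, ex⟩ := hlift (φ x)
    obtain ⟨y', hy, ey⟩ := hlift (φ y)
    rw [br_congr hc ex.symm ey.symm]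
    exact mul_mem (mul_mem (mul_mem hx hy) (inv_mem hx)) (inv_mem hy)
  exact ⟨π, π', m1, m2, o1, o2, fun g => hall Group.IsPerfect.mem_commutator⟩

end Struct

theorem structStmt : StructStmt := by
  intro p _ ι K _ _ _ H _ _ E _ φ ρ S₁ S₂ hs hH hp hc hd h1 h2 hD
  let ψ := (φ.prod ρ.toHomUnits).rangeRestrict
  have hψ : Function.Surjective ψ := MonoidHom.rangeRestrict_surjective _
  let φ' := (MonoidHom.fst _ _).comp (φ.prod ρ.toHomUnits).range.subtype
  let ρ' := (Units.coeHom E).comp ((MonoidHom.snd _ _).comp (φ.prod ρ.toHomUnits).range.subtype)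
  have e1 : ∀ g, φ' (ψ g) = φ g := fun _ => rfl
  have e2 : ∀ g, ρ' (ψ g) = ρ g := fun _ => rfl
  have : Finite (φ.prod ρ.toHomUnits).range := Finite.of_surjective ψ hψ
  have hY : ∀ S τ, τ ∈ Ys φ' S → QEl p τ → ∃ g ∈ Ys φ S, QEl p g ∧ ψ g = τ := by
    intro S τ hτ hq
    have : (Ys φ S).map ψ = Ys φ' S := by
      rw [Ys, Ys, map_commutator, show (Tr K S).comap φ = ((Tr K S).comap φ').comap ψ from rfl,
        map_comap_eq_self_of_surjective hψ]
    obtain ⟨g, hg, rfl⟩ : τ ∈ (Ys φ S).map ψ := this ▸ hτ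
    obtain ⟨a, ha, h3, h4⟩ := qel_lift ψ (isOfFinOrder_of_finite g) hq
    exact ⟨a, zpowers_le.2 hg ha, h3, h4⟩
  obtain ⟨π, π', h⟩ := Struct.central (p := p) (φ := φ') (ρ := ρ') (S₁ := S₁) (S₂ := S₂)
    (fun A => (hs A).elim fun g hg => ⟨ψ g, hg⟩) (Group.IsPerfect.ofSurjective hψ) hp
    (fun y g hy => by
      obtain ⟨y, rfl⟩ := hψ y
      obtain ⟨g, rfl⟩ := hψ g
      refine Subtype.ext (Prod.ext ?_ (Units.ext (hc y g hy).eq))
      change φ y * φ g = φ g * φ y
      rw [show φ y = 1 from hy, one_mul, mul_one]) hd h1 h2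
    (fun τ₁ a1 τ₂ a2 q1 q2 => by
      obtain ⟨g₁, b1, c1, rfl⟩ := hY _ _ a1 q1
      obtain ⟨g₂, b2, c2, rfl⟩ := hY _ _ a2 q2
      exact hD g₁ b1 g₂ b2 c1 c2)
  exact ⟨π, π', h.mul, h.anti, h.orth, h.orth', fun g => by
    have := h.eq (ψ g)
    rwa [← map_inv ψ, e1, e1, e2] at this⟩

end Pool.Agent.Lib.MP_679d9b_al.PT
end

-- part Pool.Agent.Lib.MP_679d9b_al.PT.Tens
section

/-!
The product lemma for two commuting representations of a `p`-group on a simple module.
-/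

set_option autoImplicit false

namespace Pool.Agent.Lib.MP_679d9b_al.PT

namespace Tens

variable {k V : Type} [Field k] [AddCommGroup V] [Module k V]

/-- A finite `p`-group has a nonzero fixed vector in characteristic `p`. -/
theorem exists_fixed_vec {p : ℕ} [Fact p.Prime] [CharP k p] [Nontrivial V] {F : Type} [Group F]
    [Finite F] (hF : IsPGroup p F) (T : F →* Module.End k V) : ∃ v ≠ 0, ∀ f, T f v = v := by
  obtain ⟨v₀, h₀⟩ := exists_ne (0 : V)
  have hp : ∀ v : V, p • v = 0 := fun v => by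
    rw [← Nat.cast_smul_eq_nsmul k, CharP.cast_eq_zero, zero_smul]
  let A := AddSubgroup.closure (Set.range fun f => T f v₀)
  have hA : ∀ f, ∀ v ∈ A, T f v ∈ A := fun f v hv => by
    induction hv using AddSubgroup.closure_induction with
    | mem x hx =>
      obtain ⟨g, rfl⟩ := hx
      exact AddSubgroup.subset_closure ⟨f * g, by simp⟩
    | zero => simp
    | add x y _ _ hx hy => simpa using add_mem hx hy
    | neg x _ hx => simpa using hx
  have : AddGroup.FG A := (AddGroup.fg_iff_addSubgroup_fg A).2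
    ((AddSubgroup.fg_iff A).2 ⟨_, rfl, Set.finite_range _⟩)
  have : Finite A := AddCommGroup.finite_of_fg_isAddTorsion A fun a =>
    isOfFinAddOrder_iff_nsmul_eq_zero.2 ⟨p, (Fact.out : p.Prime).pos, Subtype.ext (hp a)⟩
  let _ : MulAction F A :=
    { smul := fun f a => ⟨T f a, hA f a a.2⟩
      one_smul := fun a => Subtype.ext (show T 1 a = a by simp)
      mul_smul := fun f g a => Subtype.ext (show T (f * g) a = T f (T g a) by simp) }
  have h1 : v₀ ∈ A := AddSubgroup.subset_closure ⟨1, by simp⟩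
  have h2 : addOrderOf (⟨v₀, h1⟩ : A) = p :=
    addOrderOf_eq_prime (Subtype.ext (hp v₀)) fun h => h₀ (congrArg Subtype.val h)
  obtain ⟨b, hb, hne⟩ := hF.exists_fixed_point_of_prime_dvd_card_of_fixed_point A
    (h2 ▸ addOrderOf_dvd_natCard _) (a := 0) fun f => Subtype.ext (map_zero (T f))
  exact ⟨b, fun h => hne (Subtype.ext h.symm), fun f => congrArg Subtype.val (hb f)⟩

/-- The density theorem on a simple submodule. -/
theorem exists_dense [IsAlgClosed k] [FiniteDimensional k V] [Nontrivial V]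
    (B : Subalgebra k (Module.End k V)) : ∃ S : Submodule k V, S ≠ ⊥ ∧ (∀ a ∈ B, ∀ s ∈ S, a s ∈ S) ∧
      ∀ (l : V →ₗ[k] k), ∀ v ∈ S, ∃ a ∈ B, ∀ s ∈ S, a s = l s • v := by
  have : IsArtinian B V := isArtinian_of_tower k inferInstance
  obtain ⟨S, hS⟩ := IsAtomic.exists_atom (Submodule B V)
  have : IsSimpleModule B S := isSimpleModule_iff_isAtom.2 hS
  have : FiniteDimensional k S := .of_injective (S.subtype.restrictScalars k) Subtype.val_injective
  have : Module.Finite (Module.End B S) S := .of_restrictScalars_finite k _ _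
  refine ⟨S.restrictScalars k, fun h => hS.1 ((Submodule.restrictScalars_eq_bot_iff _ _ _).1 h),
    fun a ha s hs => S.smul_mem ⟨a, ha⟩ hs, fun l v hv => ?_⟩
  obtain ⟨a, ha⟩ := Module.Finite.toModuleEnd_moduleEnd_surjective (R := B) (M := S)
    { toFun := fun s => l s • (⟨v, hv⟩ : S)
      map_add' := fun x y => by simp [add_smul]
      map_smul' := fun g s => by
        obtain ⟨c, rfl⟩ :=
          (IsSimpleModule.algebraMap_end_bijective_of_isAlgClosed (A := B) (V := S) k).2 g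
        simp [mul_smul] }
  exact ⟨a, a.2, fun s hs => congrArg Subtype.val (LinearMap.congr_fun ha ⟨s, hs⟩)⟩

variable {B : Subalgebra k (Module.End k V)} {X : Submonoid (Module.End k V)}

theorem prime (hc : ∀ a ∈ B, ∀ b ∈ X, Commute a b)
    (hs : ∀ U : Submodule k V, (∀ a ∈ B, ∀ v ∈ U, a v ∈ U) → (∀ a ∈ X, ∀ v ∈ U, a v ∈ U) →
      U = ⊥ ∨ U = ⊤) {e : Module.End k V} (he : e ∈ B) {w : V} (h : ∀ x ∈ B, e (x w) = 0) :
    e = 0 ∨ w = 0 := by
  let U : Submodule k V :=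
    { carrier := {w | ∀ x ∈ B, e (x w) = 0}
      add_mem' := fun h1 h2 x hx => by rw [map_add, map_add, h1 x hx, h2 x hx, add_zero]
      zero_mem' := fun x _ => by simp
      smul_mem' := fun c w h1 x hx => by rw [map_smul, map_smul, h1 x hx, smul_zero] }
  rcases hs U (fun a ha v hv x hx => hv _ (mul_mem hx ha)) (fun b hb v hv x hx => by
    have := LinearMap.congr_fun (hc _ (mul_mem he hx) b hb).eq v
    simp only [Module.End.mul_apply] at this
    rw [this, hv x hx, map_zero]) with hU | hU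
  · exact Or.inr ((Submodule.eq_bot_iff U).1 hU w h)
  · exact Or.inl (LinearMap.ext fun v => (hU.ge Submodule.mem_top : v ∈ U) 1 (one_mem B))

/-- Linear disjointness of the two commuting algebras. -/
theorem disj [IsAlgClosed k] [FiniteDimensional k V] [Nontrivial V]
    (hc : ∀ a ∈ B, ∀ b ∈ X, Commute a b)
    (hs : ∀ U : Submodule k V, (∀ a ∈ B, ∀ v ∈ U, a v ∈ U) → (∀ a ∈ X, ∀ v ∈ U, a v ∈ U) →
      U = ⊥ ∨ U = ⊤) {F : Type} [Fintype F] {a b : F → Module.End k V} (ha : ∀ f, a f ∈ B)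
    (hb : ∀ f, b f ∈ X) (h : ∑ f, a f * b f = 0) (L : Module.End k V →ₗ[k] k) :
    ∑ f, L (b f) • a f = 0 := by
  obtain ⟨S, h0, h1, h2⟩ := exists_dense B
  obtain ⟨v₀, hv₀, hne⟩ := (Submodule.ne_bot_iff S).1 h0
  have hf : ∀ e ∈ B, (∀ s ∈ S, e s = 0) → e = 0 := fun e he h =>
    (prime hc hs he fun x hx => h _ (h1 x hx _ hv₀)).resolve_right hne
  obtain ⟨l₀, hl₀⟩ := Module.Projective.exists_dual_eq_one k hne
  obtain ⟨e, he, he'⟩ := h2 l₀ v₀ hv₀
  have he0 : e ≠ 0 := fun h => hne (by simpa [h, hl₀] using (he' v₀ hv₀).symm)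
  refine hf _ (sum_mem fun f _ => B.smul_mem (ha f) _) fun v hv =>
    (Module.forall_dual_apply_eq_zero_iff k _).1 fun l => ?_
  obtain ⟨x, hx, hx'⟩ := h2 l v₀ hv₀
  obtain ⟨y, hy, hy'⟩ := h2 l₀ v hv
  have h3 : ∀ f, l (a f v) • e = x * a f * y := fun f => sub_eq_zero.1 (hf _
    (sub_mem (B.smul_mem he _) (mul_mem (mul_mem hx (ha f)) hy)) fun s hs => by
      simp [he' s hs, hy' s hs, hx' _ (h1 _ (ha f) v hv), smul_smul, mul_comm])
  have h4 : ∑ f, l (a f v) • b f = 0 := LinearMap.ext fun u =>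
    (prime hc hs he fun z hz => by
      have h5 : e * z * ∑ f, l (a f v) • b f = x * (∑ f, a f * b f) * (y * z) := by
        rw [Finset.mul_sum, Finset.mul_sum, Finset.sum_mul]
        refine Finset.sum_congr rfl fun f _ => ?_
        rw [mul_smul_comm, ← smul_mul_assoc, ← smul_mul_assoc, h3, mul_assoc x (a f * b f),
          mul_assoc (a f), ← (hc _ (mul_mem hy hz) _ (hb f)).eq]
        simp only [mul_assoc]
      rw [h, mul_zero, zero_mul] at h5
      exact LinearMap.congr_fun h5 u).resolve_left he0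
  simpa [mul_comm] using congrArg L h4

end Tens

open Tens in
theorem tensStmt : TensStmt := by
  intro p _ k V _ _ _ _ _ _ _ X₁ X₂ F _ _ T₁ T₂ hF hc hs h1 h2 hi
  classical
  have := Fintype.ofFinite F
  have key : ∀ c : F → k, ∑ f, c f • (T₁ f * T₂ f) = 0 → ∀ L : Module.End k V →ₗ[k] k,
      ∑ f, (c f * L (T₂ f)) • T₁ f = 0 := fun c h L => by
    have := disj (B := Algebra.adjoin k (X₁ : Set (Module.End k V))) (X := X₂)
      (fun a ha b hb => (Algebra.commute_of_mem_adjoin_of_forall_mem_commute ha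
        fun x hx => (hc x hx b hb).symm).symm)
      (fun U hU => hs U fun a ha => hU a (Algebra.subset_adjoin ha))
      (a := fun f => c f • T₁ f) (fun f => Subalgebra.smul_mem _ (Algebra.subset_adjoin (h1 f)) _)
      h2 (by simpa only [smul_mul_assoc] using h) L
    simpa only [smul_smul, mul_comm] using this
  have rk : ∀ T : F → Module.End k V,
      cdim k T + Module.finrank k (LinearMap.ker (Fintype.linearCombination k T)) = Nat.card F :=
    fun T => by
      rw [cdim, ← Fintype.range_linearCombination, LinearMap.finrank_range_add_finrank_ker,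
        Module.finrank_fintype_fun_eq_card, Nat.card_eq_fintype_card]
  have hle : LinearMap.ker (Fintype.linearCombination k fun f => T₁ f * T₂ f) ≤
      LinearMap.ker (Fintype.linearCombination k T₁) := fun c hc => by
    obtain ⟨v, hv, hv'⟩ := exists_fixed_vec hF T₂
    obtain ⟨l, hl⟩ := Module.Projective.exists_dual_eq_one k hv
    simpa [hv', hl, Fintype.linearCombination_apply] using key c hc (l ∘ₗ LinearMap.applyₗ v)
  have r1 := rk T₁
  have r2 := rk fun f => T₁ f * T₂ f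
  rcases hle.eq_or_lt with he | hlt
  · have h0 : LinearMap.ker (Fintype.linearCombination k T₁) = ⊥ := by
      by_contra hne
      obtain ⟨c, hc, hc0⟩ := (Submodule.ne_bot_iff _).1 hne
      obtain ⟨f, hf⟩ := Function.ne_iff.1 hc0
      have h3 : ∀ s : Finset F, f ∉ s → ∃ c ∈ LinearMap.ker (Fintype.linearCombination k T₁),
          c f ≠ 0 ∧ ∀ g ∈ s, c g = 0 := fun s => by
        induction s using Finset.induction_on with
        | empty => exact fun _ => ⟨c, hc, hf, by simp⟩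
        | insert g s _ ih =>
          intro hfs
          rw [Finset.mem_insert, not_or] at hfs
          obtain ⟨c, hc, hf, hs⟩ := ih hfs.2
          obtain ⟨L, hL⟩ := Module.Projective.exists_dual_ne_zero k
            (sub_ne_zero.2 (hi.ne hfs.1))
          refine ⟨(fun x => c x * L (T₂ x)) - L (T₂ g) • c,
            sub_mem (key c (he.ge hc) L) (Submodule.smul_mem _ _ hc), ?_, fun x hx => ?_⟩
          · simpa [← mul_sub, mul_comm (L _), hf] using hL
          · rcases Finset.mem_insert.1 hx with rfl | hx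
            · simp [mul_comm]
            · simp [hs x hx]
      obtain ⟨c, hc, hf, hs⟩ := h3 (Finset.univ.erase f) (by simp)
      rw [LinearMap.mem_ker, Fintype.linearCombination_apply, Finset.sum_eq_single f
        (fun g _ hg => by simp [hs g (by simpa using hg)]) (by simp)] at hc
      exact ((Group.isUnit f).map T₁).ne_zero ((smul_eq_zero.1 hc).resolve_left hf)
    rw [he, h0, finrank_bot] at r2
    exact (min_le_left _ _).trans r2.ge
  · have := Submodule.finrank_lt_finrank_of_lt hlt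
    exact (min_le_right _ _).trans (by omega)

end Pool.Agent.Lib.MP_679d9b_al.PT
end

-- part Pool.Agent.Lib.MP_679d9b_al.PT.Sect
section

/-!
Large ranks give good flags.
-/

set_option autoImplicit false

namespace Pool.Agent.Lib.MP_679d9b_al.PT

open Matrix Module

namespace Sect

variable {K : Type} [Field K]

theorem rank_add_le {m n : Type} [Fintype m] [Fintype n] (A B : Matrix m n K) :
    (A + B).rank ≤ A.rank + B.rank := by
  unfold Matrix.rank
  refine le_trans (Submodule.finrank_mono ?_) (Submodule.finrank_add_le_finrank_add_finrank _ _)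
  rintro _ ⟨v, rfl⟩
  rw [mulVecLin_add]
  exact Submodule.add_mem_sup ⟨v, rfl⟩ ⟨v, rfl⟩

section Blocks

variable {ι₁ ι₂ : Type} [Fintype ι₁] [DecidableEq ι₁] [Fintype ι₂] [DecidableEq ι₂]

theorem rank_blocks (a : Matrix ι₁ ι₁ K) (b : Matrix ι₂ ι₁ K) (d : Matrix ι₂ ι₂ K) :
    (fromBlocks a 0 b d).rank ≤ a.rank + Fintype.card ι₂ := by
  have e : fromBlocks a 0 b d = fromRows (1 : Matrix ι₁ ι₁ K) (0 : Matrix ι₂ ι₁ K) * a *
      fromCols (1 : Matrix ι₁ ι₁ K) (0 : Matrix ι₁ ι₂ K) +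
      fromRows (0 : Matrix ι₁ ι₂ K) (1 : Matrix ι₂ ι₂ K) * fromCols b d := by
    rw [fromRows_mul, fromRows_mul_fromCols, fromRows_mul_fromCols, fromBlocks_add]
    simp
  rw [e]
  refine (rank_add_le _ _).trans (add_le_add ?_ ?_)
  · exact (rank_mul_le_left _ _).trans (rank_mul_le_right _ _)
  · exact (rank_mul_le_right _ _).trans (rank_le_card_height _)

theorem rank_le_of_block {ι : Type} [Fintype ι] [DecidableEq ι] {P : Matrix (ι₁ ⊕ ι₂) ι K}
    {P' : Matrix ι (ι₁ ⊕ ι₂) K} (h : P' * P = 1) (X : Matrix ι ι K)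
    (h0 : (P * X * P').toBlocks₁₂ = 0) :
    X.rank ≤ (P * X * P').toBlocks₁₁.rank + Fintype.card ι₂ := by
  have e : X = P' * (P * X * P') * P := by
    calc X = (P' * P) * X * (P' * P) := by rw [h]; simp
      _ = _ := by simp only [Matrix.mul_assoc]
  have h1 : X.rank ≤ (P * X * P').rank := by
    conv_lhs => rw [e]
    exact (rank_mul_le_left _ _).trans (rank_mul_le_right _ _)
  refine h1.trans ?_
  conv_lhs => rw [← fromBlocks_toBlocks (P * X * P'), h0]
  exact rank_blocks _ _ _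

variable {F : Type} [Group F]

/-- The diagonal blocks of a block triangular representation of a `p`-group. -/
theorem exists_diag {p : ℕ} [Fact p.Prime] [CharP K p] (hF : IsPGroup p F)
    (τ : F →* SL (ι₁ ⊕ ι₂) K) (h0 : ∀ f, (τ f).1.toBlocks₁₂ = 0) :
    ∃ (σ₁ : F →* SL ι₁ K) (σ₂ : F →* SL ι₂ K), ∀ f,
      (σ₁ f).1 = (τ f).1.toBlocks₁₁ ∧ (σ₂ f).1 = (τ f).1.toBlocks₂₂ := by
  have key : ∀ f g, (τ (f * g)).1.toBlocks₁₁ = (τ f).1.toBlocks₁₁ * (τ g).1.toBlocks₁₁ ∧
      (τ (f * g)).1.toBlocks₂₂ = (τ f).1.toBlocks₂₂ * (τ g).1.toBlocks₂₂ := fun f g => by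
    have e : (τ (f * g)).1 = (τ f).1 * (τ g).1 := by rw [map_mul]; rfl
    rw [e]
    conv_lhs => rw [← fromBlocks_toBlocks (τ f).1, ← fromBlocks_toBlocks (τ g).1, h0 f, h0 g,
      fromBlocks_multiply]
    conv_rhs => lhs; rw [← fromBlocks_toBlocks (τ f).1, ← fromBlocks_toBlocks (τ g).1, h0 f, h0 g,
      fromBlocks_multiply]
    simp
  have one : (τ 1).1.toBlocks₁₁ = 1 ∧ (τ 1).1.toBlocks₂₂ = 1 := by
    rw [map_one]
    change (1 : Matrix (ι₁ ⊕ ι₂) (ι₁ ⊕ ι₂) K).toBlocks₁₁ = 1 ∧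
      (1 : Matrix (ι₁ ⊕ ι₂) (ι₁ ⊕ ι₂) K).toBlocks₂₂ = 1
    rw [← fromBlocks_one]
    exact ⟨rfl, rfl⟩
  let a : F →* Matrix ι₁ ι₁ K :=
    ⟨⟨fun f => (τ f).1.toBlocks₁₁, one.1⟩, fun f g => (key f g).1⟩
  let d : F →* Matrix ι₂ ι₂ K :=
    ⟨⟨fun f => (τ f).1.toBlocks₂₂, one.2⟩, fun f g => (key f g).2⟩
  have ha : ∀ f, (a f).det = 1 := fun f => by
    obtain ⟨k, hk⟩ := hF f
    exact det_of_pel (p := p) ⟨k, by rw [← map_pow, hk, map_one]⟩
  have hd : ∀ f, (d f).det = 1 := fun f => by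
    obtain ⟨k, hk⟩ := hF f
    exact det_of_pel (p := p) ⟨k, by rw [← map_pow, hk, map_one]⟩
  exact ⟨⟨⟨fun f => ⟨a f, ha f⟩, Subtype.ext (map_one a)⟩, fun f g => Subtype.ext (map_mul a f g)⟩,
    ⟨⟨fun f => ⟨d f, hd f⟩, Subtype.ext (map_one d)⟩, fun f g => Subtype.ext (map_mul d f g)⟩,
    fun f => ⟨rfl, rfl⟩⟩

end Blocks

variable {ι : Type} [Fintype ι] [DecidableEq ι]

/-- Coordinates adapted to a subspace. -/
theorem exists_adapted (W : Submodule K (ι → K)) :
    ∃ (n : ℕ) (P : Matrix (Fin n ⊕ Fin (finrank K W)) ι K)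
      (P' : Matrix ι (Fin n ⊕ Fin (finrank K W)) K), P * P' = 1 ∧ P' * P = 1 ∧
      n + finrank K W = Fintype.card ι ∧ ∀ v, v ∈ W ↔ ∀ i, (P *ᵥ v) (Sum.inl i) = 0 := by
  obtain ⟨U, hU⟩ := W.exists_isCompl
  let e : (ι → K) ≃ₗ[K] (Fin (finrank K U) ⊕ Fin (finrank K W) → K) :=
    (Submodule.prodEquivOfIsCompl U W hU.symm).symm ≪≫ₗ
      ((finBasis K U).equivFun.prodCongr (finBasis K W).equivFun) ≪≫ₗ
      (LinearEquiv.sumArrowLequivProdArrow _ _ K K).symm
  refine ⟨finrank K U, LinearMap.toMatrix' e.toLinearMap, LinearMap.toMatrix' e.symm.toLinearMap,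
    ?_, ?_, ?_, fun v => ?_⟩
  · rw [← LinearMap.toMatrix'_comp]
    simp
  · rw [← LinearMap.toMatrix'_comp]
    simp
  · rw [Submodule.finrank_add_eq_of_isCompl hU.symm, finrank_fintype_fun_eq_card]
  · rw [LinearMap.toMatrix'_mulVec,
      ← Submodule.prodEquivOfIsCompl_symm_apply_fst_eq_zero U W hU.symm,
      ← (finBasis K U).equivFun.map_eq_zero_iff, funext_iff]
    rfl

theorem exists_moved {A : Matrix ι ι K} (h : 1 ≤ (A - 1).rank) : ∃ v, A *ᵥ v ≠ v := by
  by_contra hn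
  push Not at hn
  have : A - 1 = 0 := by
    rw [sub_eq_zero]
    exact toLin'.injective (LinearMap.ext fun v => by simp [hn v])
  rw [this, rank_zero] at h
  omega

variable {F : Type} [Group F] [Finite F]

omit [Finite F] in
theorem le_cdim {c N : ℕ} {σ : F →* SL ι K} (hN : 1 ≤ N) (h : RK c N σ) :
    c ≤ cdim K fun f => (σ f).1 := by
  obtain ⟨-, -, e, he⟩ := h
  have li : LinearIndependent K fun j => (σ (e j)).1 := by
    rw [Fintype.linearIndependent_iff]
    intro l hl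
    by_contra hn
    have := he l fun h0 => hn fun i => congrFun h0 i
    rw [hl, rank_zero] at this
    omega
  have h1 := finrank_span_eq_card li
  rw [Fintype.card_fin] at h1
  unfold cdim
  rw [← h1]
  exact Submodule.finrank_mono (Submodule.span_mono (by rintro _ ⟨j, rfl⟩; exact ⟨e j, rfl⟩))

/-- A small invariant subspace on which the group acts faithfully. -/
theorem exists_inv {m : ℕ} (σ : F →* SL ι K) (hm : Nat.card F ≤ m) (h3 : 3 ≤ Fintype.card ι)
    (h : ∀ f, f ≠ 1 → 1 ≤ ((σ f).1 - 1).rank) :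
    ∃ W : Submodule K (ι → K), 3 ≤ finrank K W ∧ finrank K W ≤ m * (m + 3) ∧
      (∀ f, ∀ v ∈ W, (σ f).1 *ᵥ v ∈ W) ∧ ∀ f, f ≠ 1 → ∃ v ∈ W, (σ f).1 *ᵥ v ≠ v := by
  classical
  have := Fintype.ofFinite F
  have hv : ∀ f, ∃ v, f ≠ 1 → (σ f).1 *ᵥ v ≠ v := fun f => by
    by_cases hf : f = 1
    · exact ⟨0, fun h => absurd hf h⟩
    · obtain ⟨v, hv⟩ := exists_moved (h f hf)
      exact ⟨v, fun _ => hv⟩
  choose v hv using hv
  obtain ⟨j⟩ : Nonempty (Fin 3 ↪ ι) := Function.Embedding.nonempty_of_card_le (by simpa using h3)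
  let u : F ⊕ Fin 3 → ι → K := Sum.elim v fun i => Pi.basisFun K ι (j i)
  let w : F × (F ⊕ Fin 3) → ι → K := fun x => (σ x.1).1 *ᵥ u x.2
  have hu : ∀ y, u y ∈ Submodule.span K (Set.range w) := fun y =>
    Submodule.subset_span ⟨(1, y), by simp [w]⟩
  refine ⟨Submodule.span K (Set.range w), ?_, ?_, fun f x hx => ?_,
    fun f hf => ⟨v f, hu (Sum.inl f), hv f hf⟩⟩
  · have li : LinearIndependent K fun i => Pi.basisFun K ι (j i) :=
      (Pi.basisFun K ι).linearIndependent.comp j j.injective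
    have h1 := finrank_span_eq_card li
    rw [Fintype.card_fin] at h1
    exact h1.ge.trans (Submodule.finrank_mono (Submodule.span_le.2 (by
      rintro _ ⟨i, rfl⟩
      exact hu (Sum.inr i))))
  · refine (finrank_range_le_card w).trans ?_
    rw [Nat.card_eq_fintype_card] at hm
    simp only [Fintype.card_prod, Fintype.card_sum, Fintype.card_fin]
    exact Nat.mul_le_mul hm (by omega)
  · have : (Submodule.span K (Set.range w)).map (mulVecLin (σ f).1) ≤
        Submodule.span K (Set.range w) := by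
      rw [Submodule.map_span_le]
      rintro _ ⟨x, rfl⟩
      refine Submodule.subset_span ⟨(f * x.1, x.2), ?_⟩
      simp [w, mulVec_mulVec]
    exact this ⟨x, hx, rfl⟩

/-- One step of the flag. -/
theorem step {p : ℕ} [Fact p.Prime] [CharP K p] {m c N : ℕ} (σ : F →* SL ι K) (hF : IsPGroup p F)
    (hm : Nat.card F ≤ m) (hN : 3 ≤ N) (h : RK c (N + m * (m + 3)) σ) :
    ∃ (n₁ n₂ : ℕ) (P : Matrix (Fin n₁ ⊕ Fin n₂) ι K) (P' : Matrix ι (Fin n₁ ⊕ Fin n₂) K)
      (σ₁ : F →* SL (Fin n₁) K) (σ₂ : F →* SL (Fin n₂) K), P * P' = 1 ∧ P' * P = 1 ∧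
      3 ≤ n₂ ∧ Function.Injective σ₂ ∧
      (∀ f, ∃ B, P * (σ f).1 * P' = fromBlocks (σ₁ f).1 0 B (σ₂ f).1) ∧ RK c N σ₁ := by
  obtain ⟨r1, r2, e, r3⟩ := h
  obtain ⟨W, w1, w2, w3, w4⟩ := exists_inv σ hm (by omega) fun f hf => by
    have := r2 f hf
    omega
  obtain ⟨n, P, P', h1, h2, h3, h4⟩ := exists_adapted W
  have h0 : ∀ f, (P * (σ f).1 * P').toBlocks₁₂ = 0 := fun f => by
    ext i j
    have a : P' *ᵥ Pi.single (Sum.inr j) 1 ∈ W := (h4 _).2 fun i => by
      rw [mulVec_mulVec, h1, one_mulVec]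
      simp
    have b := (h4 _).1 (w3 f _ a) i
    rw [mulVec_mulVec, mulVec_mulVec, mulVec_single_one] at b
    exact b
  obtain ⟨σ₁, σ₂, hσ⟩ := exists_diag hF ((cj P P' h1 h2).comp σ) h0
  have e1 : ∀ f, (σ₁ f).1 = (P * (σ f).1 * P').toBlocks₁₁ := fun f => (hσ f).1
  have e2 : ∀ f, (σ₂ f).1 = (P * (σ f).1 * P').toBlocks₂₂ := fun f => (hσ f).2
  have hb : ∀ f, P * (σ f).1 * P' =
      fromBlocks (σ₁ f).1 0 (P * (σ f).1 * P').toBlocks₂₁ (σ₂ f).1 := fun f => by
    rw [e1, e2, ← h0 f, fromBlocks_toBlocks]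
  refine ⟨n, _, P, P', σ₁, σ₂, h1, h2, w1, ?_, fun f => ⟨_, hb f⟩, ?_, fun f hf => ?_, e,
    fun l hl => ?_⟩
  · rw [injective_iff_map_eq_one]
    intro f hf
    by_contra hne
    obtain ⟨v, hv, hv'⟩ := w4 f hne
    have a : P *ᵥ v = Sum.elim (0 : Fin n → K) fun j => (P *ᵥ v) (Sum.inr j) := by
      ext (i | j)
      · exact (h4 v).1 hv i
      · rfl
    have b : (P * (σ f).1 * P') *ᵥ (P *ᵥ v) = P *ᵥ v := by
      rw [hb f, hf, a, fromBlocks_mulVec]
      simp
    apply hv'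
    have := congrArg (P' *ᵥ ·) b
    simp only [mulVec_mulVec, ← Matrix.mul_assoc, h2, Matrix.one_mul] at this
    rwa [Matrix.mul_assoc, h2, Matrix.mul_one, one_mulVec] at this
  · rw [Fintype.card_fin]
    omega
  · have a : P * ((σ f).1 - 1) * P' =
        fromBlocks ((σ₁ f).1 - 1) 0 (P * (σ f).1 * P').toBlocks₂₁ ((σ₂ f).1 - 1) := by
      rw [Matrix.mul_sub, Matrix.sub_mul, Matrix.mul_one, h1]
      conv_lhs => rw [hb f, ← fromBlocks_one, sub_eq_add_neg, fromBlocks_neg, fromBlocks_add]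
      simp [sub_eq_add_neg]
    have b := rank_le_of_block h2 ((σ f).1 - 1) (by rw [a]; simp)
    rw [a, toBlocks_fromBlocks₁₁, Fintype.card_fin] at b
    have := r2 f hf
    omega
  · have a : P * (∑ j, l j • (σ (e j)).1) * P' = ∑ j, l j • (P * (σ (e j)).1 * P') := by
      simp only [Matrix.mul_sum, Matrix.sum_mul, Matrix.mul_smul, Matrix.smul_mul]
    have b := rank_le_of_block h2 (∑ j, l j • (σ (e j)).1) (by
      rw [a]
      ext i k
      have : ∀ j, (P * (σ (e j)).1 * P') (Sum.inl i) (Sum.inr k) = 0 := fun j =>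
        congrFun (congrFun (h0 (e j)) i) k
      simp [toBlocks₁₂, Matrix.sum_apply, this])
    have d : (P * (∑ j, l j • (σ (e j)).1) * P').toBlocks₁₁ = ∑ j, l j • (σ₁ (e j)).1 := by
      rw [a]
      ext i k
      simp [toBlocks₁₁, Matrix.sum_apply, e1]
    rw [d, Fintype.card_fin] at b
    have := r3 l hl
    omega

end Sect

theorem sectStmt : SectStmt := by
  intro p _ m r
  refine ⟨3 + r * (m * (m + 3)), ?_⟩
  induction r with
  | zero => intros; trivial
  | succ r ih =>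
    intro F _ _ K _ _ c ι _ _ σ hF hm h
    have e : 3 + (r + 1) * (m * (m + 3)) = 3 + r * (m * (m + 3)) + m * (m + 3) := by ring
    refine ⟨Sect.le_cdim (by omega) h, ?_⟩
    rw [e] at h
    obtain ⟨n₁, n₂, P, P', σ₁, σ₂, h1, h2, h3, h4, h5, h6⟩ := Sect.step σ hF hm (by omega) h
    refine ⟨Fin n₁, Fin n₂, inferInstance, inferInstance, inferInstance, inferInstance, P, P', σ₁,
      σ₂, h1, h2, ?_, by simpa using h3, h4, h5, ih F K c _ σ₁ hF hm h6⟩
    have := h6.1
    omega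

end Pool.Agent.Lib.MP_679d9b_al.PT
end
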