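import Mathlib
import Pool.Agent.Lib.MP_679d9b_al.PT.Basic

/-!
Exact root elements for a perfect group.
-/

set_option autoImplicit false
set_option linter.unusedSectionVars false

namespace Pool.Agent.Lib.MP_679d9b_al.PT

open Subgroup Matrix
open scoped commutatorElement

namespace Small

theorem span_ind {A : Type} [AddCommGroup A] {S : Set A} {P : A → Prop} (h0 : P 0)
    (hadd : ∀ a b, P a → P b → P (a + b)) (hneg : ∀ a, P a → P (-a)) (hS : ∀ x ∈ S, P x) {x : A}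
    (hx : x ∈ Submodule.span ℤ S) : P x := by
  let C : AddSubgroup A :=
    { carrier := {x | P x}
      add_mem' := fun ha hb => hadd _ _ ha hb
      zero_mem' := h0
      neg_mem' := fun ha => hneg _ ha }
  exact (Submodule.span_le (p := C.toIntSubmodule)).2 hS hx

variable {p : ℕ} [Fact p.Prime] {ι K : Type} [Fintype ι] [DecidableEq ι] [Field K] {H : Type}
  [Group H] [Finite H] {A E : Type} [Ring A] [StarRing A] [Ring E] {φ : H →* SL ι K}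
  {ρ : H →* A} {q : A →+* E} {π π' : Matrix ι ι K →+ E}

theorem rho_mul_inv (ρ : H →* A) (g : H) : ρ g * ρ g⁻¹ = 1 := by
  rw [← map_mul, mul_inv_cancel, map_one]

theorem rho_inv_mul (ρ : H →* A) (g : H) : ρ g⁻¹ * ρ g = 1 := by
  rw [← map_mul, inv_mul_cancel, map_one]

theorem phi_mul_inv (φ : H →* SL ι K) (g : H) : (φ g).1 * (φ g⁻¹).1 = 1 := by
  change (φ g * φ g⁻¹).1 = 1
  rw [← map_mul, mul_inv_cancel, map_one]
  rfl

theorem phi_inv_mul (φ : H →* SL ι K) (g : H) : (φ g⁻¹).1 * (φ g).1 = 1 := by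
  change (φ g⁻¹ * φ g).1 = 1
  rw [← map_mul, inv_mul_cancel, map_one]
  rfl

/-- The class of `a` has natural part `B` and dual part `C`. -/
def Cl (q : A →+* E) (π π' : Matrix ι ι K →+ E) (a : A) (B C : Matrix ι ι K) : Prop :=
  q a = π B + π' C

theorem Cl.add {a a' : A} {B C B' C' : Matrix ι ι K} (h1 : Cl q π π' a B C)
    (h2 : Cl q π π' a' B' C') : Cl q π π' (a + a') (B + B') (C + C') := by
  unfold Cl at *
  rw [map_add, h1, h2, map_add, map_add]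
  abel

theorem Cl.sub {a a' : A} {B C B' C' : Matrix ι ι K} (h1 : Cl q π π' a B C)
    (h2 : Cl q π π' a' B' C') : Cl q π π' (a - a') (B - B') (C - C') := by
  unfold Cl at *
  rw [map_sub, h1, h2, map_sub, map_sub]
  abel

theorem Cl.congr {a : A} {B C B' C' : Matrix ι ι K} (h1 : Cl q π π' a B C) (e1 : B = B')
    (e2 : C = C') : Cl q π π' a B' C' := e1 ▸ e2 ▸ h1

theorem cl_left {a : A} {B : Matrix ι ι K} (h : q a = π B) : Cl q π π' a B 0 := by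
  unfold Cl
  rw [h, map_zero, add_zero]

theorem cl_right {a : A} {B : Matrix ι ι K} (h : q a = π' B) : Cl q π π' a 0 B := by
  unfold Cl
  rw [h, map_zero, zero_add]

theorem Cl.eq_left {a : A} {B : Matrix ι ι K} (h : Cl q π π' a B 0) : q a = π B := by
  unfold Cl at h
  rw [h, map_zero, add_zero]

theorem Cl.eq_right {a : A} {B : Matrix ι ι K} (h : Cl q π π' a 0 B) : q a = π' B := by
  unfold Cl at h
  rw [h, map_zero, zero_add]

theorem cl_sum {S : Finset ι} {a : ι → A} {B C : ι → Matrix ι ι K}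
    (h : ∀ i ∈ S, Cl q π π' (a i) (B i) (C i)) :
    Cl q π π' (∑ i ∈ S, a i) (∑ i ∈ S, B i) (∑ i ∈ S, C i) := by
  unfold Cl at *
  rw [map_sum, map_sum, map_sum, ← Finset.sum_add_distrib]
  exact Finset.sum_congr rfl h

/-- Matrices supported on a block. -/
def Supp (S : Finset ι) (M : Matrix ι ι K) : Prop := ∀ i j, i ∉ S ∨ j ∉ S → M i j = 0

/-- The projection onto a block. -/
def pr (K : Type) [Field K] (S : Finset ι) : Matrix ι ι K := ∑ a ∈ S, single a a 1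

theorem pr_eq (S : Finset ι) : pr K S = diagonal fun i => if i ∈ S then 1 else 0 := by
  ext i j
  by_cases e : i = j
  · subst e
    simp [pr, Matrix.sum_apply, single_apply]
  · rw [diagonal_apply_ne _ e, pr, Matrix.sum_apply]
    exact Finset.sum_eq_zero fun a _ => single_apply_of_ne _ _ _ _ _ fun t => e (t.1.symm.trans t.2)

theorem Supp.mul_pr {S : Finset ι} {M : Matrix ι ι K} (h : Supp S M) : M * pr K S = M := by
  ext i j
  rw [pr_eq, mul_diagonal]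
  split_ifs with e
  · rw [mul_one]
  · rw [h i j (Or.inr e), mul_zero]

theorem Supp.pr_mul {S : Finset ι} {M : Matrix ι ι K} (h : Supp S M) : pr K S * M = M := by
  ext i j
  rw [pr_eq, diagonal_mul]
  split_ifs with e
  · rw [one_mul]
  · rw [h i j (Or.inl e), mul_zero]

theorem Supp.mul_pr' {S S' : Finset ι} {M : Matrix ι ι K} (h : Supp S M) (hd : Disjoint S' S) :
    M * pr K S' = 0 := by
  ext i j
  rw [pr_eq, mul_diagonal]
  split_ifs with e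
  · rw [h i j (Or.inr (Finset.disjoint_left.1 hd e)), zero_mul, Matrix.zero_apply]
  · rw [mul_zero, Matrix.zero_apply]

theorem Supp.pr_mul' {S S' : Finset ι} {M : Matrix ι ι K} (h : Supp S M) (hd : Disjoint S' S) :
    pr K S' * M = 0 := by
  ext i j
  rw [pr_eq, diagonal_mul]
  split_ifs with e
  · rw [h i j (Or.inl (Finset.disjoint_left.1 hd e)), mul_zero, Matrix.zero_apply]
  · rw [zero_mul, Matrix.zero_apply]

theorem pr_singleton (b : ι) : pr K {b} = single b b 1 := Finset.sum_singleton _ _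

theorem pow_ne [CharP K p] {C : SL ι K} (hq : QEl p C) (hC : C ≠ 1) (n : ℕ) :
    (C.1 - 1) ^ n ≠ 0 := by
  have hq' : QEl p C.1 := by
    obtain ⟨m, h1, h2⟩ := hq
    exact ⟨m, h1, congrArg Subtype.val h2⟩
  have hp : (p : Matrix ι ι K) = 0 := by
    rw [← map_natCast (algebraMap K (Matrix ι ι K)), CharP.cast_eq_zero, map_zero]
  obtain ⟨N, h1, h2⟩ := sub_one_eq hp hq' n
  intro h
  rw [pow_eq_zero_of_le h1 h] at h2
  exact hC (Subtype.ext (sub_eq_zero.1 h2))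

theorem qel_inv {G : Type} [Group G] {g : G} (h : QEl p g) : QEl p g⁻¹ := by
  obtain ⟨m, h1, h2⟩ := h
  exact ⟨m, h1, by rw [inv_pow, h2, inv_one]⟩

theorem exists_qel [Finite K] {S : Finset ι} (hS : 3 ≤ S.card) :
    ∃ C ∈ Tr K S, QEl p C ∧ C ≠ 1 := by
  by_contra hn
  have h1 : Tr K S ≤ ⊥ := le_of_qel (p := p) (tr_perfect hS) fun g hg hq => by
    by_contra h
    exact hn ⟨g, hg, hq, h⟩
  obtain ⟨i, hi, j, hj, hij⟩ := Finset.one_lt_card.1 (show 1 < S.card by omega)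
  have h2 : SpecialLinearGroup.transvection hij (1 : K) = 1 :=
    h1 (subset_closure ⟨i, j, hij, 1, hi, hj, rfl⟩)
  have h3 : (1 : Matrix ι ι K) + single i j 1 = 1 := congrArg Subtype.val h2
  have h4 := congrFun (congrFun h3 i) j
  simp at h4

theorem exists_mulVec {M : Matrix ι ι K} (h : M ≠ 0) : ∃ v, M *ᵥ v ≠ 0 := by
  by_contra hn
  refine h (Matrix.ext fun i j => ?_)
  have : M *ᵥ Pi.single j 1 = 0 := by
    by_contra h'
    exact hn ⟨_, h'⟩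
  simpa using congrFun this i

theorem exists_vecMul {M : Matrix ι ι K} (h : M ≠ 0) : ∃ v, v ᵥ* M ≠ 0 := by
  by_contra hn
  refine h (Matrix.ext fun i j => ?_)
  have : Pi.single i 1 ᵥ* M = 0 := by
    by_contra h'
    exact hn ⟨_, h'⟩
  simpa using congrFun this j

theorem sum_cols (a : ι) (M : Matrix ι ι K) :
    ∑ j, vecMulVec (fun i => M i j) (Pi.single a 1) * single a j 1 = M := by
  ext i l
  rw [Matrix.sum_apply, Finset.sum_eq_single l]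
  · simp [vecMulVec_apply]
  · intro j _ hj
    exact mul_single_apply_of_ne _ _ _ _ _ hj.symm _
  · simp

theorem sum_rows (a : ι) (M : Matrix ι ι K) :
    ∑ j, single j a 1 * vecMulVec (Pi.single a 1) (M j) = M := by
  ext i l
  simp [Matrix.sum_apply, Matrix.mul_apply, vecMulVec_apply, single_apply, Pi.single_apply]

section
variable (h : St p φ ρ q π π')
include h

theorem B_l (a : A) {b : A} (hb : b ∈ Bd ρ ⊤) : a * b ∈ Bd ρ ⊤ := Ad_mul_Bd (h.mem_Ad a) hb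

theorem B_r {b : A} (hb : b ∈ Bd ρ ⊤) (a : A) : b * a ∈ Bd ρ ⊤ := Bd_mul_Ad hb (h.mem_Ad a)

theorem J1_l (a : A) {j : A} (hj : j ∈ Jd ρ φ.ker ⊤) : a * j ∈ Jd ρ φ.ker ⊤ :=
  Ad_mul_Jd (h.mem_Ad a) hj

theorem J1_r {j : A} (hj : j ∈ Jd ρ φ.ker ⊤) (a : A) : j * a ∈ Jd ρ φ.ker ⊤ :=
  Jd_mul_Ad hj (h.mem_Ad a)

theorem J_l {k : ℕ} (a : A) {j : A} (hj : j ∈ Jd ρ φ.ker ⊤ ^ (k + 1)) :
    a * j ∈ Jd ρ φ.ker ⊤ ^ (k + 1) := Ad_mul_Jd_pow (h.mem_Ad a) hj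

theorem J_r {k : ℕ} {j : A} (hj : j ∈ Jd ρ φ.ker ⊤ ^ (k + 1)) (a : A) :
    j * a ∈ Jd ρ φ.ker ⊤ ^ (k + 1) := Jd_pow_mul_Ad hj (h.mem_Ad a)

theorem B_star {b : A} (hb : b ∈ Bd ρ ⊤) : star b ∈ Bd ρ ⊤ := star_mem_Bd h.star_eq hb

theorem J_star {k : ℕ} {j : A} (hj : j ∈ Jd ρ φ.ker ⊤ ^ k) : star j ∈ Jd ρ φ.ker ⊤ ^ k :=
  star_mem_Jd_pow h.star_eq hj

theorem J1_star {j : A} (hj : j ∈ Jd ρ φ.ker ⊤) : star j ∈ Jd ρ φ.ker ⊤ := by
  have := J_star h (k := 1) (by rwa [pow_one])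
  rwa [pow_one] at this

omit h in
theorem J1_of {k : ℕ} {j : A} (hj : j ∈ Jd ρ φ.ker ⊤ ^ (k + 1)) : j ∈ Jd ρ φ.ker ⊤ := by
  have := Jd_pow_anti (Nat.zero_le k) hj
  rwa [zero_add, pow_one] at this

omit h in
theorem J1_J {k : ℕ} {j m : A} (hj : j ∈ Jd ρ φ.ker ⊤) (hm : m ∈ Jd ρ φ.ker ⊤ ^ (k + 1)) :
    j * m ∈ Jd ρ φ.ker ⊤ ^ (k + 2) := by
  have := Jd_pow_mul (k := 1) (by rwa [pow_one]) hm
  rwa [show 1 + (k + 1) = k + 2 by omega] at this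

omit h in
theorem J_J1 {k : ℕ} {j m : A} (hm : m ∈ Jd ρ φ.ker ⊤ ^ (k + 1)) (hj : j ∈ Jd ρ φ.ker ⊤) :
    m * j ∈ Jd ρ φ.ker ⊤ ^ (k + 2) := Jd_pow_mul (l := 1) hm (by rwa [pow_one])

theorem star_sub_one (g : H) : star (ρ g - 1) = ρ g⁻¹ - 1 := by
  rw [star_sub, h.star_eq, star_one]

theorem Cl.mul {a a' : A} {B C B' C' : Matrix ι ι K} (h1 : Cl q π π' a B C)
    (h2 : Cl q π π' a' B' C') : Cl q π π' (a * a') (B * B') (C' * C) := by
  unfold Cl at *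
  rw [map_mul, h1, h2, add_mul, mul_add, mul_add, h.str.orth, h.str.orth', h.str.mul,
    h.str.anti, add_zero, zero_add]

theorem Cl.mem {a a' : A} {B C : Matrix ι ι K} (h1 : Cl q π π' a B C) (h2 : Cl q π π' a' B C) :
    a - a' ∈ Jd ρ φ.ker ⊤ := by
  unfold Cl at *
  rw [← h.ker, map_sub, h1, h2, sub_self]

theorem Cl.mem0 {a : A} (h1 : Cl q π π' a 0 0) : a ∈ Jd ρ φ.ker ⊤ := by
  unfold Cl at *
  rw [← h.ker, h1, map_zero, map_zero, add_zero]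

theorem Cl.rho_l (g : H) {a : A} {B C : Matrix ι ι K} (h1 : Cl q π π' a B C) :
    Cl q π π' (ρ g * a) ((φ g).1 * B) (C * (φ g⁻¹).1) := by
  unfold Cl at *
  rw [map_mul, h1, mul_add, ← h.str.mul_left, ← h.str.mul_left']
  rfl

theorem Cl.rho_r (g : H) {a : A} {B C : Matrix ι ι K} (h1 : Cl q π π' a B C) :
    Cl q π π' (a * ρ g) (B * (φ g).1) ((φ g⁻¹).1 * C) := by
  unfold Cl at *
  rw [map_mul, h1, add_mul, ← h.str.mul_right, ← h.str.mul_right']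
  rfl

theorem cl_rho (g : H) : Cl q π π' (ρ g - 1) ((φ g).1 - 1) ((φ g⁻¹).1 - 1) := by
  unfold Cl
  rw [map_sub, h.q_rho, map_one]
  abel

theorem cl_B {b : A} (hb : b ∈ Bd ρ ⊤) : ∃ B C, Cl q π π' b B C := h.q_Bd hb

theorem exists_cl (hH : Group.IsPerfect H) (hι : 3 ≤ Fintype.card ι) (B C : Matrix ι ι K) :
    ∃ a ∈ Bd ρ ⊤, Cl q π π' a B C := by
  obtain ⟨X, hX, h1⟩ := h.lift hι B
  obtain ⟨Y, hY, h2⟩ := h.lift' hι C
  rw [op_eq_top hH] at hX hY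
  exact ⟨X + Y, add_mem hX hY, ((cl_left h1).add (cl_right h2)).congr (add_zero _) (zero_add _)⟩

theorem Cl.star (hι : 3 ≤ Fintype.card ι) {a : A} {B C : Matrix ι ι K} (h1 : Cl q π π' a B C) :
    Cl q π π' (star a) C B := by
  obtain ⟨X, -, e1⟩ := h.lift hι B
  obtain ⟨Y, -, e2⟩ := h.lift' hι C
  have e3 : q a = q (X + Y) := by rw [map_add, e1, e2]; exact h1
  unfold Cl
  rw [h.q_star_congr e3, star_add, map_add, h.q_star hι e1, h.q_star' hι e2, add_comm]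

/-- Left multiplications by the radical are realised by the kernel. -/
theorem col (M : Set A) (hM : ∀ n ∈ M, ∀ b ∈ Bd ρ ⊤, ∀ j ∈ Jd ρ φ.ker ⊤, b * j * n = 0) {j : A}
    (hj : j ∈ Jd ρ φ.ker ⊤) : ∃ y, φ y = 1 ∧ ∀ n ∈ M, (ρ y - 1) * n = j * n := by
  have fix : ∀ g y, φ y = 1 → ∀ n ∈ M, ρ g * ((ρ y - 1) * n) = (ρ y - 1) * n := by
    intro g y hy n hn
    have := hM n hn _ (sub_one_mem_Bd (mem_top g)) _ (sub_one_mem_Jd (P := φ.ker) hy (mem_top y))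
    rw [mul_assoc, sub_mul, one_mul] at this
    exact sub_eq_zero.1 this
  refine span_ind (P := fun j => ∃ y, φ y = 1 ∧ ∀ n ∈ M, (ρ y - 1) * n = j * n) ?_ ?_ ?_ ?_ hj
  · exact ⟨1, map_one _, fun n _ => by rw [map_one, sub_self]⟩
  · rintro a b ⟨y, hy, h1⟩ ⟨y', hy', h2⟩
    refine ⟨y * y', by rw [map_mul, hy, hy', one_mul], fun n hn => ?_⟩
    have e : (ρ (y * y') - 1) * n = (ρ y - 1) * n + ρ y * ((ρ y' - 1) * n) := by
      rw [map_mul]; noncomm_ring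
    rw [e, fix y y' hy' n hn, h1 n hn, h2 n hn, add_mul]
  · rintro a ⟨y, hy, h1⟩
    refine ⟨y⁻¹, by rw [map_inv, hy, inv_one], fun n hn => ?_⟩
    have e : (ρ y⁻¹ - 1) * n = -(ρ y⁻¹ * ((ρ y - 1) * n)) := by
      rw [← mul_assoc, mul_sub, rho_inv_mul]; noncomm_ring
    rw [e, fix y⁻¹ y hy n hn, h1 n hn, neg_mul]
  · rintro x ⟨y, hy, -, g, -, rfl⟩
    have hy' : φ (g⁻¹ * y * g) = 1 := by
      rw [map_mul, map_mul, (MonoidHom.mem_ker.1 hy), mul_one, ← map_mul, inv_mul_cancel, map_one]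
    refine ⟨g⁻¹ * y * g, hy', fun n hn => ?_⟩
    rw [← fix g _ hy' n hn, ← mul_assoc, mul_sub, ← map_mul, mul_one, sub_mul (ρ y), one_mul,
      ← map_mul]
    congr 3
    group

theorem idem (hH : Group.IsPerfect H) (hι : 3 ≤ Fintype.card ι) : ∃ f ∈ Bd ρ ⊤, f * f = f ∧
    star f = f ∧ Cl q π π' f 1 1 ∧
    ∀ b ∈ Bd ρ ⊤, b ∈ Submodule.span ℤ {x | ∃ a ∈ Bd ρ ⊤, ∃ a' ∈ Bd ρ ⊤, x = a * a'} := by
  obtain ⟨f, h1, h2, h3, h4, h5⟩ := h.exists_idem hι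
  rw [op_eq_top hH] at h1 h5
  refine ⟨f, h1, h2, h3, h4, fun b hb => Submodule.span_mono ?_ (h5 b hb)⟩
  rintro x ⟨a, -, a', -, rfl⟩
  refine ⟨a * f, B_l h a h1, f * a', B_r h h1 a', ?_⟩
  rw [mul_assoc a f (f * a'), ← mul_assoc f f, h2, mul_assoc]

/-- A class which acts as the identity on the classes of `Bd`. -/
theorem one_sub_l {u b : A} (hu : Cl q π π' u 1 1) (hb : b ∈ Bd ρ ⊤) :
    u * b - b ∈ Jd ρ φ.ker ⊤ := by
  obtain ⟨B, C, h1⟩ := cl_B h hb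
  exact ((hu.mul h h1).congr (Matrix.one_mul _) (Matrix.mul_one _)).mem h h1

theorem one_sub_r {u b : A} (hu : Cl q π π' u 1 1) (hb : b ∈ Bd ρ ⊤) :
    b * u - b ∈ Jd ρ φ.ker ⊤ := by
  obtain ⟨B, C, h1⟩ := cl_B h hb
  exact ((h1.mul h hu).congr (Matrix.mul_one _) (Matrix.one_mul _)).mem h h1

/-! ### The case of a vanishing first layer -/

section Alpha
variable (hz : ∀ b ∈ Bd ρ ⊤, ∀ j ∈ Jd ρ φ.ker ⊤, ∀ b' ∈ Bd ρ ⊤, b * j * b' = 0)
include hz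

theorem cent_lift {f : A} (hf : f ∈ Bd ρ ⊤) (h2 : f * f = f) (h3 : star f = f)
    (h4 : Cl q π π' f 1 1) (g : H) : ∃ x, φ x = φ g ∧ ρ x * f = f * ρ x := by
  have c1 : Cl q π π' (ρ g * f * ρ g⁻¹) 1 1 :=
    ((h4.rho_l h g).rho_r h g⁻¹).congr (by rw [Matrix.mul_one, phi_mul_inv])
      (by rw [Matrix.one_mul, inv_inv, phi_mul_inv])
  obtain ⟨F, hF⟩ : ∃ F, F = ρ g * f * ρ g⁻¹ := ⟨_, rfl⟩
  have FB : F ∈ Bd ρ ⊤ := hF ▸ B_r h (B_l h _ hf) _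
  have FF : F * F = F := by
    rw [hF]
    calc ρ g * f * ρ g⁻¹ * (ρ g * f * ρ g⁻¹) = ρ g * f * (ρ g⁻¹ * ρ g) * f * ρ g⁻¹ := by
          noncomm_ring
      _ = ρ g * f * ρ g⁻¹ := by rw [rho_inv_mul, mul_one, mul_assoc (ρ g), h2]
  have Fs : star F = F := by
    rw [hF, star_mul, star_mul, h.star_eq, h.star_eq, inv_inv, h3, mul_assoc]
  rw [← hF] at c1
  obtain ⟨y, hy, e1⟩ := col h (Bd ρ ⊤) (fun n hn b hb j hj => hz b hb j hj n hn) (c1.mem h h4)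
  have e2 : ρ y * f = F * f := by
    have := e1 f hf
    rw [sub_mul, sub_mul, one_mul, h2] at this
    exact sub_left_injective this
  have e3 : f * ρ y⁻¹ = f * F := by
    have := congrArg star e2
    rwa [star_mul, star_mul, h.star_eq, h3, Fs] at this
  have e4 : ρ y * f * ρ y⁻¹ = F := by
    have e5 := hz F FB _ (h4.mem h c1) F FB
    calc ρ y * f * ρ y⁻¹ = ρ y * f * (f * ρ y⁻¹) := by rw [← mul_assoc, mul_assoc (ρ y) f f, h2]
      _ = F * (f * f) * F := by rw [e2, e3]; noncomm_ring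
      _ = F * (f - F) * F + F * F * F := by rw [h2]; noncomm_ring
      _ = F := by rw [e5, zero_add, FF, FF]
  refine ⟨y⁻¹ * g, by rw [map_mul, map_inv, hy, inv_one, one_mul], ?_⟩
  have e6 : ρ g * f = ρ y * f * ρ y⁻¹ * ρ g := by
    rw [e4, hF, mul_assoc, rho_inv_mul, mul_one]
  rw [map_mul, mul_assoc, e6, ← mul_assoc, ← mul_assoc, ← mul_assoc, rho_inv_mul, one_mul,
    mul_assoc]

omit hz in
theorem qel_fix {f : A} (h2 : f * f = f) (h4 : Cl q π π' f 1 1) {x : H} (hx : QEl p x)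
    (hc : ρ x * f = f * ρ x) : f * (ρ x - 1) = ρ x - 1 := by
  have hq : QEl p (ρ x) := by
    obtain ⟨m, h1, h3⟩ := hx
    exact ⟨m, h1, by rw [← map_pow, h3, map_one]⟩
  have hJ := one_sub_l h h4 (sub_one_mem_Bd (ρ := ρ) (mem_top x))
  obtain ⟨n, hn⟩ := h.nil_of_q ((h.ker _).2 (neg_mem hJ))
  obtain ⟨N, h5, h6⟩ := sub_one_eq h.chr hq (n + 1)
  have c : Commute (1 - f) (ρ x - 1) :=
    (Commute.one_left _).sub_left (Commute.sub_right hc.symm (Commute.one_right f))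
  have i : (1 - f) ^ N = 1 - f := by
    obtain ⟨N', rfl⟩ : ∃ N', N = N' + 1 := ⟨N - 1, by omega⟩
    exact IsIdempotentElem.pow_succ_eq N' (IsIdempotentElem.one_sub h2)
  have e : -(f * (ρ x - 1) - (ρ x - 1)) = (1 - f) * (ρ x - 1) := by noncomm_ring
  rw [e] at hn
  have e2 : (1 - f) * (ρ x - 1) = 0 := by
    rw [h6, ← i, ← c.mul_pow]
    exact pow_eq_zero_of_le (by omega) hn
  rw [sub_mul, one_mul] at e2
  exact (sub_eq_zero.1 e2).symm

theorem corner_lift [Finite K] (hι : 3 ≤ Fintype.card ι) {f : A} (hf : f ∈ Bd ρ ⊤)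
    (h2 : f * f = f) (h3 : star f = f) (h4 : Cl q π π' f 1 1) (C : SL ι K) :
    ∃ x, φ x = C ∧ f * (ρ x - 1) = ρ x - 1 ∧ (ρ x - 1) * f = ρ x - 1 := by
  let T : Subgroup (SL ι K) :=
    { carrier := {C | ∃ x, φ x = C ∧ f * (ρ x - 1) = ρ x - 1 ∧ (ρ x - 1) * f = ρ x - 1}
      one_mem' := ⟨1, map_one _, by rw [map_one, sub_self, mul_zero],
        by rw [map_one, sub_self, zero_mul]⟩
      mul_mem' := by
        rintro _ _ ⟨x, rfl, a1, a2⟩ ⟨y, rfl, b1, b2⟩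
        refine ⟨x * y, map_mul _ _ _, ?_, ?_⟩
        · have e : ρ (x * y) - 1 = (ρ x - 1) * ρ y + (ρ y - 1) := by rw [map_mul]; noncomm_ring
          rw [e, mul_add, ← mul_assoc, a1, b1]
        · have e : ρ (x * y) - 1 = ρ x * (ρ y - 1) + (ρ x - 1) := by rw [map_mul]; noncomm_ring
          rw [e, add_mul, mul_assoc, a2, b2]
      inv_mem' := by
        rintro _ ⟨x, rfl, a1, a2⟩
        refine ⟨x⁻¹, map_inv _ _, ?_, ?_⟩
        · have := congrArg star a2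
          rwa [star_mul, star_sub_one h, h3] at this
        · have := congrArg star a1
          rwa [star_mul, star_sub_one h, h3] at this }
  have hT : (⊤ : Subgroup (SL ι K)) ≤ T := by
    refine le_of_qel (p := p) ?_ fun C _ hC => ?_
    · have := tr_perfect (K := K) (S := (Finset.univ : Finset ι)) (by simpa using hι)
      rwa [tr_univ] at this
    · obtain ⟨g, rfl⟩ := h.surj C
      obtain ⟨x, e1, e2⟩ := cent_lift h hz hf h2 h3 h4 g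
      obtain ⟨a, ha, a1, a2⟩ := qel_lift φ (isOfFinOrder_of_finite x) (e1 ▸ hC)
      have hc : ρ a * f = f * ρ a := by
        obtain ⟨n, hn⟩ := (Submonoid.mem_powers_iff a x).1 (mem_powers_iff_mem_zpowers.2 ha)
        rw [← hn, map_pow]
        exact (Commute.pow_left (show Commute (ρ x) f from e2) n).eq
      have k := qel_fix h h2 h4 a1 hc
      refine ⟨a, a2.trans e1, k, ?_⟩
      rw [sub_mul, hc, one_mul]
      rwa [mul_sub, mul_one] at k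
  exact hT (mem_top C)

omit h in
theorem act {f X Y c : A} (hf : f ∈ Bd ρ ⊤) (hX : X ∈ Bd ρ ⊤) (hY : Y ∈ Bd ρ ⊤)
    (h2 : c * f = c) (e1 : X * c - c ∈ Jd ρ φ.ker ⊤)
    (e2 : Y * c ∈ Jd ρ φ.ker ⊤) :
    (f + (1 - f) * X * X + (1 - f) * Y * Y) * c = X * c := by
  have k : (X * c - c) * f = X * c - c := by rw [sub_mul, mul_assoc, h2]
  have k1 := hz X hX _ e1 f hf
  have k2 := hz f hf _ e1 f hf
  have k3 := hz Y hY _ e2 f hf
  rw [mul_assoc, k] at k1 k2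
  rw [mul_assoc, mul_assoc, h2] at k3
  have k4 : (f + (1 - f) * X * X + (1 - f) * Y * Y) * c = f * c + (1 - f) * (X * (X * c - c)) +
      X * c - f * (X * c - c) - f * c + (1 - f) * (Y * (Y * c)) := by noncomm_ring
  rw [k4, k1, k2, k3]
  noncomm_ring

theorem alpha [Finite K] (hH : Group.IsPerfect H) (hι : 3 ≤ Fintype.card ι) {X c Y : A}
    (hX : X ∈ Bd ρ ⊤) (hY : Y ∈ Bd ρ ⊤) {θ₁ γ θ₂ : Matrix ι ι K}
    (qX : q X = π θ₁) (qc : q c = π γ) (qY : q Y = π θ₂) (e1 : θ₁ * γ = γ) (e2 : γ * θ₂ = γ)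
    (e3 : γ * γ = 0) : ∃ g, ρ g = 1 + X * c * Y - star (X * c * Y) := by
  obtain ⟨f, hf, h2, h3, h4, -⟩ := idem h hH hι
  have cX : Cl q π π' X θ₁ 0 := cl_left qX
  have cY : Cl q π π' (star Y) 0 θ₂ := (cl_left qY).star h hι
  obtain ⟨c0, hc0⟩ : ∃ c0, c0 = f * c * f := ⟨_, rfl⟩
  have cc : Cl q π π' c0 γ 0 := hc0 ▸ ((h4.mul h (cl_left qc)).mul h h4).congr (by simp) (by simp)
  have cc' := cc.star h hι
  have f1 : f * c0 = c0 := by rw [hc0, ← mul_assoc, ← mul_assoc, h2]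
  have f2 : c0 * f = c0 := by rw [hc0, mul_assoc, h2]
  have f3 : f * star c0 = star c0 := by
    have := congrArg star f2
    rwa [star_mul, h3] at this
  have f4 : star c0 * f = star c0 := by
    have := congrArg star f1
    rwa [star_mul, h3] at this
  have e4 : X * c * Y = X * c0 * Y := by
    have k : c0 - c ∈ Jd ρ φ.ker ⊤ := cc.mem h (cl_left qc)
    have := hz X hX _ k Y hY
    rw [mul_sub, sub_mul] at this
    exact (sub_eq_zero.1 this).symm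
  have hd : (1 + γ).det = 1 := det_one_add_nil ⟨2, by rw [pow_two, e3]⟩
  obtain ⟨x, x1, x2, x3⟩ := corner_lift h hz hι hf h2 h3 h4 ⟨1 + γ, hd⟩
  have x4 : (φ x).1 = 1 + γ := by rw [x1]
  have x5 : (φ x⁻¹).1 = 1 - γ := by
    have k := phi_inv_mul φ x
    have k2 : (1 + γ) * (1 - γ) = 1 := by
      rw [mul_sub, add_mul, add_mul, e3]; simp
    rw [x4] at k
    calc (φ x⁻¹).1 = (φ x⁻¹).1 * ((1 + γ) * (1 - γ)) := by rw [k2, Matrix.mul_one]
      _ = 1 - γ := by rw [← Matrix.mul_assoc, k, Matrix.one_mul]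
  have x6 : ρ x - 1 = c0 - star c0 := by
    have k : ρ x - 1 - (c0 - star c0) ∈ Jd ρ φ.ker ⊤ :=
      ((cl_rho h x).congr (by rw [x4]; simp) (by rw [x5]; simp)).mem h (cc.sub cc')
    have k2 := hz f hf _ k f hf
    rw [mul_sub, mul_sub f c0, x2, f1, f3, sub_mul, sub_mul c0, x3, f2, f4] at k2
    exact sub_eq_zero.1 k2
  have hYs := B_star h hY
  have hj : (1 - f) * X * X + (1 - f) * star Y * star Y ∈ Jd ρ φ.ker ⊤ := by
    have k : ∀ b ∈ Bd ρ ⊤, (1 - f) * b * b ∈ Jd ρ φ.ker ⊤ := fun b hb => by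
      refine J1_r h ?_ b
      have := neg_mem (one_sub_l h h4 hb)
      rwa [neg_sub, ← one_sub_mul] at this
    exact add_mem (k X hX) (k _ hYs)
  obtain ⟨y, -, y2⟩ := col h (Bd ρ ⊤) (fun n hn b hb j hj => hz b hb j hj n hn) hj
  have hc0B : c0 ∈ Bd ρ ⊤ := hc0 ▸ B_l h _ hf
  have y3 : ρ y * c0 = X * c0 := by
    have k := act hz hf hX hYs f2 (((cX.mul h cc).congr e1 (by simp)).mem h cc)
      (((cY.mul h cc).congr (by simp) (by simp)).mem0 h)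
    have k2 := y2 c0 hc0B
    rw [add_assoc, add_mul, ← k2, f1] at k
    rw [← k]
    noncomm_ring
  have y4 : ρ y * star c0 = star Y * star c0 := by
    have k := act hz hf hYs hX f4 (((cY.mul h cc').congr (by simp) e2).mem h cc')
      (((cX.mul h cc').congr (by simp) (by simp)).mem0 h)
    have k2 := y2 _ (B_star h hc0B)
    rw [add_assoc, add_comm ((1 - f) * star Y * star Y), add_mul, ← k2, f3] at k
    rw [← k]
    noncomm_ring
  have y5 : c0 * ρ y⁻¹ = c0 * Y := by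
    have := congrArg star y4
    rwa [star_mul, star_mul, star_star, star_star, h.star_eq] at this
  have y6 : ρ y * c0 * ρ y⁻¹ = X * c0 * Y := by rw [y3, mul_assoc, y5, mul_assoc]
  have y7 : ρ y * star c0 * ρ y⁻¹ = star (X * c0 * Y) := by
    rw [← y6, star_mul, star_mul, h.star_eq, h.star_eq, inv_inv, mul_assoc]
  refine ⟨y * x * y⁻¹, ?_⟩
  rw [e4, ← y7, ← y6, map_mul, map_mul, ← sub_add_cancel (ρ x) 1, x6, mul_add, add_mul, mul_one,
    rho_mul_inv]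
  noncomm_ring

end Alpha

/-! ### The last layer -/

omit h in
/-- The last nonzero layer between two augmentation ideals. -/
def II (ρ : H →* A) (φ : H →* SL ι K) (k : ℕ) : Submodule ℤ A :=
  Submodule.span ℤ {x | ∃ b ∈ Bd ρ ⊤, ∃ m ∈ Jd ρ φ.ker ⊤ ^ (k + 1), ∃ b' ∈ Bd ρ ⊤,
    x = b * m * b'}

omit h in
theorem II_mem {k : ℕ} {b m b' : A} (hb : b ∈ Bd ρ ⊤) (hm : m ∈ Jd ρ φ.ker ⊤ ^ (k + 1))
    (hb' : b' ∈ Bd ρ ⊤) : b * m * b' ∈ II ρ φ k :=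
  Submodule.subset_span ⟨b, hb, m, hm, b', hb', rfl⟩

theorem II_l {k : ℕ} (a : A) {n : A} (hn : n ∈ II ρ φ k) : a * n ∈ II ρ φ k := by
  refine span_ind (P := fun n => a * n ∈ II ρ φ k) ?_ ?_ ?_ ?_ hn
  · rw [mul_zero]; exact zero_mem _
  · intro x y hx hy; rw [mul_add]; exact add_mem hx hy
  · intro x hx; rw [mul_neg]; exact neg_mem hx
  · rintro _ ⟨b, hb, m, hm, b', hb', rfl⟩
    rw [← mul_assoc, ← mul_assoc]
    exact II_mem (B_l h a hb) hm hb'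

theorem II_star {k : ℕ} {n : A} (hn : n ∈ II ρ φ k) : star n ∈ II ρ φ k := by
  refine span_ind (P := fun n => star n ∈ II ρ φ k) ?_ ?_ ?_ ?_ hn
  · rw [star_zero]; exact zero_mem _
  · intro x y hx hy; rw [star_add]; exact add_mem hx hy
  · intro x hx; rw [star_neg]; exact neg_mem hx
  · rintro _ ⟨b, hb, m, hm, b', hb', rfl⟩
    rw [star_mul, star_mul, ← mul_assoc]
    exact II_mem (B_star h hb') (J_star h hm) (B_star h hb)

theorem II_r {k : ℕ} {n : A} (hn : n ∈ II ρ φ k) (a : A) : n * a ∈ II ρ φ k := by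
  have := II_star h (II_l h (star a) (II_star h hn))
  rwa [star_mul, star_star, star_star] at this

/-- The difference operator of conjugation. -/
theorem comm_eq (τ y : H) :
    ρ (τ * y * τ⁻¹ * y⁻¹) - 1 = (ρ τ * (ρ y - 1) * ρ τ⁻¹ - (ρ y - 1)) * ρ y⁻¹ := by
  have e : (ρ τ * (ρ y - 1) * ρ τ⁻¹ - (ρ y - 1)) * ρ y⁻¹ = ρ τ * ρ y * ρ τ⁻¹ * ρ y⁻¹ -
      ρ τ * ρ τ⁻¹ * ρ y⁻¹ - ρ y * ρ y⁻¹ + ρ y⁻¹ := by noncomm_ring
  rw [e, rho_mul_inv, rho_mul_inv, map_mul, map_mul, map_mul]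
  noncomm_ring

section Beta
variable {k : ℕ}
  (hz : ∀ b ∈ Bd ρ ⊤, ∀ j ∈ Jd ρ φ.ker ⊤ ^ (k + 2), ∀ b' ∈ Bd ρ ⊤, b * j * b' = 0)
include hz

theorem II_kill {n : A} (hn : n ∈ II ρ φ k) {b j : A} (hb : b ∈ Bd ρ ⊤)
    (hj : j ∈ Jd ρ φ.ker ⊤) : b * j * n = 0 := by
  refine span_ind (P := fun n => b * j * n = 0) (mul_zero _) ?_ ?_ ?_ hn
  · intro x y hx hy; rw [mul_add, hx, hy, add_zero]
  · intro x hx; rw [mul_neg, hx, neg_zero]
  · rintro _ ⟨b1, -, m, hm, b', hb', rfl⟩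
    rw [← hz b hb _ (J1_J hj (J_l h b1 hm)) b' hb']
    noncomm_ring

theorem II_sq {n n' : A} (hn : n ∈ II ρ φ k) (hn' : n' ∈ II ρ φ k) : n * n' = 0 := by
  refine span_ind (P := fun n => n * n' = 0) (zero_mul _) ?_ ?_ ?_ hn
  · intro x y hx hy; rw [add_mul, hx, hy, add_zero]
  · intro x hx; rw [neg_mul, hx, neg_zero]
  · rintro _ ⟨b, hb, m, hm, b', -, rfl⟩
    rw [mul_assoc b]
    exact II_kill h hz hn' hb (J1_r h (J1_of hm) b')

/-- Elements of the last layer which are realised by root elements. -/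
def NN : AddSubgroup A where
  carrier := {n | n ∈ II ρ φ k ∧ ∃ g, ρ g = 1 + n - star n}
  zero_mem' := ⟨zero_mem _, 1, by simp⟩
  add_mem' := by
    rintro a b ⟨ha, x, hx⟩ ⟨hb, y, hy⟩
    refine ⟨add_mem ha hb, x * y, ?_⟩
    have e := II_sq h hz (sub_mem ha (II_star h ha)) (sub_mem hb (II_star h hb))
    have e2 : (1 + a - star a) * (1 + b - star b) =
        1 + (a + b) - (star a + star b) + (a - star a) * (b - star b) := by noncomm_ring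
    rw [map_mul, hx, hy, e2, e, add_zero, star_add]
  neg_mem' := by
    rintro a ⟨ha, x, hx⟩
    refine ⟨neg_mem ha, x⁻¹, ?_⟩
    rw [← h.star_eq, hx, star_sub, star_add, star_one, star_star, star_neg]
    abel

theorem NN_star {n : A} (hn : n ∈ NN h hz) : star n ∈ NN h hz := by
  obtain ⟨ha, x, hx⟩ := hn
  refine ⟨II_star h ha, x⁻¹, ?_⟩
  rw [← h.star_eq, hx, star_sub, star_add, star_one]

theorem NN_conj (g : H) {n : A} (hn : n ∈ NN h hz) : ρ g * n * ρ g⁻¹ ∈ NN h hz := by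
  obtain ⟨ha, x, hx⟩ := hn
  refine ⟨II_r h (II_l h _ ha) _, g * x * g⁻¹, ?_⟩
  rw [map_mul, map_mul, hx, star_mul, star_mul, h.star_eq, h.star_eq, inv_inv, mul_sub, mul_add,
    sub_mul, add_mul, mul_one, rho_mul_inv, mul_assoc (ρ g) (star n)]

theorem comm_II (τ : H) {y : H} (hy : ρ y - 1 ∈ II ρ φ k) :
    ρ (τ * y * τ⁻¹ * y⁻¹) - 1 = ρ τ * (ρ y - 1) * ρ τ⁻¹ - (ρ y - 1) := by
  have e := II_sq h hz (sub_mem (II_r h (II_l h (ρ τ) hy) (ρ τ⁻¹)) hy) (II_star h hy)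
  rw [star_sub_one h, mul_sub, mul_one] at e
  rw [comm_eq h, sub_eq_zero.1 e]

omit hz in
theorem comm_J (τ : H) {y : H} (hy : ρ y - 1 ∈ Jd ρ φ.ker ⊤ ^ (k + 1)) :
    ρ (τ * y * τ⁻¹ * y⁻¹) - 1 ∈ Jd ρ φ.ker ⊤ ^ (k + 1) ∧
    ρ (τ * y * τ⁻¹ * y⁻¹) - 1 - (ρ τ * (ρ y - 1) * ρ τ⁻¹ - (ρ y - 1)) ∈
      Jd ρ φ.ker ⊤ ^ (k + 2) := by
  have e := sub_mem (J_r h (J_l h (ρ τ) hy) (ρ τ⁻¹)) hy
  rw [comm_eq h]
  refine ⟨J_r h e _, ?_⟩
  have e2 := J_J1 e (J1_of (J_star h hy))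
  rwa [star_sub_one h, mul_sub, mul_one] at e2

/-- A fourfold commutator gives an exact root element. -/
theorem base {τ₁ τ₂ y : H} (z1 : (ρ τ₁ - 1) * (ρ τ₂ - 1) = 0) (z2 : (ρ τ₂ - 1) * (ρ τ₁ - 1) = 0)
    (hy : ρ y - 1 ∈ Jd ρ φ.ker ⊤ ^ (k + 1)) :
    (ρ τ₁ - 1) * (ρ τ₁ - 1) * (ρ y - 1) * ((ρ τ₂⁻¹ - 1) * (ρ τ₂⁻¹ - 1)) ∈ NN h hz := by
  have z3 := congrArg star z1
  have z4 := congrArg star z2
  rw [star_mul, star_sub_one h, star_sub_one h, star_zero] at z3 z4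
  have b1 : ρ τ₁ - 1 ∈ Bd ρ ⊤ := sub_one_mem_Bd (mem_top _)
  have b2 : ρ τ₂ - 1 ∈ Bd ρ ⊤ := sub_one_mem_Bd (mem_top _)
  have b3 : ρ τ₁⁻¹ - 1 ∈ Bd ρ ⊤ := sub_one_mem_Bd (mem_top _)
  have b4 : ρ τ₂⁻¹ - 1 ∈ Bd ρ ⊤ := sub_one_mem_Bd (mem_top _)
  have s1 := star_sub_one h τ₁
  have s2 := star_sub_one h τ₂⁻¹
  rw [inv_inv] at s2
  obtain ⟨a1, a2⟩ := comm_J h τ₁ hy
  obtain ⟨-, a4⟩ := comm_J h τ₂ a1
  have c1 := comm_eq h τ₁ y
  have c2 := comm_eq h τ₂ (τ₁ * y * τ₁⁻¹ * y⁻¹)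
  have c3 := fun t => comm_II h hz τ₂ (y := τ₂ * (τ₁ * y * τ₁⁻¹ * y⁻¹) * τ₂⁻¹ *
    (τ₁ * y * τ₁⁻¹ * y⁻¹)⁻¹) t
  have hys := J_star h hy
  have r0 := rho_mul_inv ρ y
  rw [star_sub_one h] at hys
  have sy := star_sub_one h y
  generalize τ₂ * (τ₁ * y * τ₁⁻¹ * y⁻¹) * τ₂⁻¹ * (τ₁ * y * τ₁⁻¹ * y⁻¹)⁻¹ = w at a4 c2 c3
  generalize τ₁ * y * τ₁⁻¹ * y⁻¹ = y1 at a1 a2 a4 c1 c2
  have c4 := fun t => comm_II h hz τ₁ (y := τ₂ * w * τ₂⁻¹ * w⁻¹) t
  obtain ⟨x1, hx1⟩ : ∃ x, ρ τ₁ = 1 + x := ⟨ρ τ₁ - 1, by abel⟩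
  obtain ⟨x2, hx2⟩ : ∃ x, ρ τ₂ = 1 + x := ⟨ρ τ₂ - 1, by abel⟩
  obtain ⟨x1', hx1'⟩ : ∃ x, ρ τ₁⁻¹ = 1 + x := ⟨ρ τ₁⁻¹ - 1, by abel⟩
  obtain ⟨x2', hx2'⟩ : ∃ x, ρ τ₂⁻¹ = 1 + x := ⟨ρ τ₂⁻¹ - 1, by abel⟩
  obtain ⟨j, hj⟩ : ∃ x, ρ y = 1 + x := ⟨ρ y - 1, by abel⟩
  obtain ⟨j', hj'⟩ : ∃ x, ρ y⁻¹ = 1 + x := ⟨ρ y⁻¹ - 1, by abel⟩
  obtain ⟨j1, hj1⟩ : ∃ x, ρ y1 = 1 + x := ⟨ρ y1 - 1, by abel⟩
  obtain ⟨j2, hj2⟩ : ∃ x, ρ w = 1 + x := ⟨ρ w - 1, by abel⟩
  simp only [hx1, hx2, hx1', hx2', hj, hj', hj1, hj2, add_sub_cancel_left] at *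
  have D : ∀ x x' m : A, (1 + x) * m * (1 + x') - m = x * m + m * x' + x * m * x' := by
    intros; noncomm_ring
  rw [D] at a2 a4 c1 c2 c3
  have d1 : x1 * j + j * x1' + x1 * j * x1' ∈ Jd ρ φ.ker ⊤ ^ (k + 1) :=
    add_mem (add_mem (J_l h _ hy) (J_r h hy _)) (J_r h (J_l h _ hy) _)
  have i2 : j2 ∈ II ρ φ k := by
    rw [c2]
    refine II_r h (add_mem (add_mem ?_ ?_) (II_mem b2 a1 b4)) _
    · have e : x2 * j1 = x2 * x1 * (j + j * x1') * (1 + j') + x2 * j * x1' * (1 + j') := by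
        rw [c1]; noncomm_ring
      rw [e, z2, zero_mul, zero_mul, zero_add]
      exact II_r h (II_mem b2 hy b3) _
    · have e : j1 * x2' = x1 * j * x2' + (j + x1 * j) * (x1' * x2') +
          (x1 * j + j * x1' + x1 * j * x1') * j' * x2' := by
        rw [c1]; noncomm_ring
      rw [e, z4, mul_zero, add_zero]
      exact add_mem (II_mem b1 hy b4) (II_mem (Jd_le_Bd (J1_of d1)) hys b4)
  have DD : ∀ m : A, x2 * (x1 * m + m * x1' + x1 * m * x1') + (x1 * m + m * x1' + x1 * m * x1') *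
      x2' + x2 * (x1 * m + m * x1' + x1 * m * x1') * x2' = x2 * m * x1' + x1 * m * x2' := by
    intro m
    have e : x2 * (x1 * m + m * x1' + x1 * m * x1') + (x1 * m + m * x1' + x1 * m * x1') * x2' +
        x2 * (x1 * m + m * x1' + x1 * m * x1') * x2' = x2 * m * x1' + x1 * m * x2' +
        x2 * x1 * (m + m * x1' + m * x2' + m * x1' * x2') +
        (m + x1 * m + x2 * m) * (x1' * x2') := by noncomm_ring
    rw [e, z2, z4, zero_mul, mul_zero, add_zero, add_zero]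
  have r1 : j2 - (x2 * j * x1' + x1 * j * x2') ∈ Jd ρ φ.ker ⊤ ^ (k + 2) := by
    have e := add_mem a4 (add_mem (add_mem (J_l h x2 a2) (J_r h a2 x2')) (J_r h (J_l h x2 a2) x2'))
    rw [← DD j]
    convert e using 1
    noncomm_ring
  have e3 := c3 i2
  have i3 : x2 * j2 + j2 * x2' + x2 * j2 * x2' ∈ II ρ φ k :=
    add_mem (add_mem (II_l h _ i2) (II_r h i2 _)) (II_r h (II_l h _ i2) _)
  have e4 := c4 (e3 ▸ i3)
  rw [e3, D] at e4
  have k1 := hz x1 b1 _ r1 x2' b4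
  have k2 := hz x2 b2 _ r1 x1' b3
  have r2 : j' + j ∈ Jd ρ φ.ker ⊤ ^ (k + 2) := by
    have e : j' + j = (1 + j) * (1 + j') - 1 - j * j' := by noncomm_ring
    rw [e, r0, sub_self, zero_sub]
    exact neg_mem (J_J1 hy (J1_of hys))
  have k3 := hz _ (B_l h x2 b2) _ r2 _ (B_l h x1' b3)
  refine ⟨II_mem (B_l h _ b1) hy (B_l h _ b4),
    τ₁ * (τ₂ * w * τ₂⁻¹ * w⁻¹) * τ₁⁻¹ * (τ₂ * w * τ₂⁻¹ * w⁻¹)⁻¹, ?_⟩
  rw [star_mul, star_mul, star_mul, star_mul, s1, s2, sy, sub_eq_iff_eq_add.1 e4]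
  have e5 : x1 * (x2 * j2 + j2 * x2' + x2 * j2 * x2') + (x2 * j2 + j2 * x2' + x2 * j2 * x2') * x1' +
      x1 * (x2 * j2 + j2 * x2' + x2 * j2 * x2') * x1' + 1 =
      1 + x1 * x1 * j * (x2' * x2') - x2 * x2 * (j' * (x1' * x1')) +
      x1 * x2 * (j2 + j2 * x1' + j2 * x2' + j2 * x2' * x1' + j * x1' * x2') +
      (j2 + x1 * j2 + x2 * j2 + x2 * x1 * j) * (x2' * x1') +
      x1 * (j2 - (x2 * j * x1' + x1 * j * x2')) * x2' +
      x2 * (j2 - (x2 * j * x1' + x1 * j * x2')) * x1' + x2 * x2 * (j' + j) * (x1' * x1') := by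
    noncomm_ring
  rw [e5, z1, z3, k1, k2, k3, zero_mul, mul_zero, add_zero, add_zero, add_zero, add_zero,
    add_zero]

/-- The graded root theorem gives exact roots between two disjoint blocks. -/
theorem sq_mem (hι : 3 ≤ Fintype.card ι)
    (hG : ∀ (a b : ι) (X Y m : A), a ≠ b →
      (q X = π (single a a 1) ∨ q X = π' (single a a 1)) →
      (q Y = π (single b b 1) ∨ q Y = π' (single b b 1)) → m ∈ Jd ρ φ.ker ⊤ ^ (k + 1) →
      ∃ y, ρ y - 1 - (X * m * Y - star (X * m * Y)) ∈ Jd ρ φ.ker ⊤ ^ (k + 2))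
    {S₁ S₂ : Finset ι} (hd : Disjoint S₁ S₂) {τ₁ τ₂ : H} (t1 : φ τ₁ ∈ Tr K S₁)
    (t2 : φ τ₂ ∈ Tr K S₂) (z1 : (ρ τ₁ - 1) * (ρ τ₂ - 1) = 0) (z2 : (ρ τ₂ - 1) * (ρ τ₁ - 1) = 0)
    {m : A} (hm : m ∈ Jd ρ φ.ker ⊤ ^ (k + 1)) :
    (ρ τ₁ - 1) * (ρ τ₁ - 1) * m * ((ρ τ₂⁻¹ - 1) * (ρ τ₂⁻¹ - 1)) ∈ NN h hz := by
  have s1 : Supp S₁ ((φ τ₁).1 - 1) := tr_supp t1
  have s1' : Supp S₁ ((φ τ₁⁻¹).1 - 1) := tr_supp (map_inv φ τ₁ ▸ inv_mem t1)
  have s2 : Supp S₂ ((φ τ₂⁻¹⁻¹).1 - 1) := tr_supp ((inv_inv τ₂).symm ▸ t2)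
  have s2' : Supp S₂ ((φ τ₂⁻¹).1 - 1) := tr_supp (map_inv φ τ₂ ▸ inv_mem t2)
  have b1 : ρ τ₁ - 1 ∈ Bd ρ ⊤ := sub_one_mem_Bd (mem_top _)
  have b4 : ρ τ₂⁻¹ - 1 ∈ Bd ρ ⊤ := sub_one_mem_Bd (mem_top _)
  have c1 := cl_rho h τ₁
  have c4 := cl_rho h τ₂⁻¹
  have bs := fun y => base h hz (y := y) z1 z2
  generalize ρ τ₁ - 1 = x1 at *
  generalize ρ τ₂⁻¹ - 1 = x4 at *
  have step : ∀ a ∈ S₁, ∀ b ∈ S₂, ∀ X Y : A,
      (q X = π (single a a 1) ∨ q X = π' (single a a 1)) →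
      (q Y = π (single b b 1) ∨ q Y = π' (single b b 1)) →
      x1 * x1 * (X * m * Y) * (x4 * x4) ∈ NN h hz := by
    intro a ha b hb X Y hX hY
    have hd' : Disjoint {b} S₁ := Finset.disjoint_singleton_left.2 (Finset.disjoint_right.1 hd hb)
    obtain ⟨y, hy⟩ := hG a b X Y m (fun e => Finset.disjoint_left.1 hd ha (e ▸ hb)) hX hY hm
    have m1 := J_r h (J_l h X hm) Y
    have hy' : ρ y - 1 ∈ Jd ρ φ.ker ⊤ ^ (k + 1) := by
      have := add_mem (Jd_pow_anti (Nat.le_succ k) hy) (sub_mem m1 (J_star h m1))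
      rwa [sub_add_cancel] at this
    have j1 : x1 * star Y ∈ Jd ρ φ.ker ⊤ := by
      rcases hY with hY | hY
      · exact ((c1.mul h ((cl_left hY).star h hι)).congr (Matrix.mul_zero _)
          (by rw [← pr_singleton, s1'.pr_mul' hd'])).mem0 h
      · exact ((c1.mul h ((cl_right hY).star h hι)).congr
          (by rw [← pr_singleton, s1.mul_pr' hd']) (Matrix.zero_mul _)).mem0 h
    have k1 := hz _ b1 _ (J1_J j1 (J_star h hm)) _ (B_l h (star X) (B_l h x4 b4))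
    have k2 := hz _ (B_l h x1 b1) _ hy _ (B_l h x4 b4)
    have e : x1 * x1 * (X * m * Y) * (x4 * x4) = x1 * x1 * (ρ y - 1) * (x4 * x4) -
        x1 * x1 * (ρ y - 1 - (X * m * Y - star (X * m * Y))) * (x4 * x4) +
        x1 * (x1 * star Y * star m) * (star X * (x4 * x4)) := by
      rw [star_mul, star_mul]; noncomm_ring
    rw [e, k1, k2, sub_zero, add_zero]
    exact bs y hy'
  choose e _ he using fun a : ι => h.lift hι (single a a 1)
  choose e' _ he' using fun a : ι => h.lift' hι (single a a 1)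
  have ce : ∀ S : Finset ι, Cl q π π' (∑ a ∈ S, (e a + e' a)) (pr K S) (pr K S) := fun S =>
    cl_sum fun a _ => ((cl_left (he a)).add (cl_right (he' a))).congr (add_zero _) (zero_add _)
  have tot : x1 * x1 * ((∑ a ∈ S₁, (e a + e' a)) * m * ∑ a ∈ S₂, (e a + e' a)) * (x4 * x4) ∈
      NN h hz := by
    simp only [Finset.sum_mul, Finset.mul_sum, add_mul, mul_add]
    refine sum_mem fun b hb => ?_
    refine add_mem (sum_mem fun a ha => add_mem ?_ ?_) (sum_mem fun a ha => add_mem ?_ ?_)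
    · exact step a ha b hb _ _ (Or.inl (he a)) (Or.inl (he b))
    · exact step a ha b hb _ _ (Or.inr (he' a)) (Or.inl (he b))
    · exact step a ha b hb _ _ (Or.inl (he a)) (Or.inr (he' b))
    · exact step a ha b hb _ _ (Or.inr (he' a)) (Or.inr (he' b))
  have u1 := ((c1.mul h (ce S₁)).congr s1.mul_pr s1'.pr_mul).mem h c1
  have u2 := (((ce S₂).mul h c4).congr s2'.pr_mul s2.mul_pr).mem h c4
  generalize ∑ a ∈ S₁, (e a + e' a) = ε₁ at *
  generalize ∑ a ∈ S₂, (e a + e' a) = ε₂ at *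
  have k1 := hz _ b1 _ (J1_J u1 hm) _ (B_l h ε₂ (B_l h x4 b4))
  have k2 := hz _ (B_l h x1 b1) _ (J_J1 hm u2) _ b4
  have e3 : x1 * x1 * m * (x4 * x4) = x1 * x1 * (ε₁ * m * ε₂) * (x4 * x4) -
      x1 * ((x1 * ε₁ - x1) * m) * (ε₂ * (x4 * x4)) - x1 * x1 * (m * (ε₂ * x4 - x4)) * x4 := by
    noncomm_ring
  rw [e3, k1, k2, sub_zero, sub_zero]
  exact tot

omit hz in
theorem gen_cl (hH : Group.IsPerfect H) (hι : 3 ≤ Fintype.card ι) {x : A} {B C : Matrix ι ι K}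
    (hB : B ≠ 0) (hC : C ≠ 0) (hx : Cl q π π' x B C) :
    ∃ u ∈ Submodule.span ℤ {w | ∃ a ∈ Bd ρ ⊤, ∃ a' ∈ Bd ρ ⊤, w = a * x * a'},
      u ∈ Bd ρ ⊤ ∧ Cl q π π' u 1 1 := by
  unfold Cl at hx
  obtain ⟨u, h1, h2⟩ := h.gen hι (x := x) hB hC
    (by rw [hx, mul_add, h.str.orth, ← h.str.mul, Matrix.one_mul, add_zero])
    (by rw [hx, mul_add, h.str.orth', ← h.str.anti, Matrix.mul_one, zero_add])
  rw [op_eq_top hH] at h1
  refine ⟨u, h1, Submodule.span_le.2 ?_ h1, h2⟩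
  rintro _ ⟨a, -, a', ha', rfl⟩
  exact B_l h _ ha'

/-- Radical left factors give root elements. -/
theorem rad_l (hH : Group.IsPerfect H) (hι : 3 ≤ Fintype.card ι) {X₀ Y₀ : A} (hX₀ : X₀ ∈ Bd ρ ⊤)
    (hY₀ : Y₀ ∈ Bd ρ ⊤) {P P' Q Q' ε : Matrix ι ι K} (cX : Cl q π π' X₀ P P')
    (cY : Cl q π π' Y₀ Q Q') (n1 : P ≠ 0) (n2 : P' ≠ 0) (n3 : Q ≠ 0) (n4 : Q' ≠ 0)
    (e1 : ε * P = P) (e2 : P' * ε = P') (e3 : Q * ε = 0) (e4 : ε * Q' = 0)
    (h0 : ∀ m ∈ Jd ρ φ.ker ⊤ ^ (k + 1), X₀ * m * Y₀ ∈ NN h hz) {D m Y : A}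
    (hD : D ∈ Jd ρ φ.ker ⊤) (hm : m ∈ Jd ρ φ.ker ⊤ ^ (k + 1)) (hY : Y ∈ Bd ρ ⊤) :
    D * m * Y ∈ NN h hz := by
  obtain ⟨e, -, ce⟩ := exists_cl h hH hι ε ε
  have j1 := ((ce.mul h cX).congr e1 e2).mem h cX
  have j2 := ((ce.mul h (cY.star h hι)).congr e4 e3).mem0 h
  have s2 : ∀ ν ∈ Jd ρ φ.ker ⊤, ∀ m ∈ Jd ρ φ.ker ⊤ ^ (k + 1), ν * (X₀ * m * Y₀) ∈ NN h hz := by
    intro ν hν m hm
    obtain ⟨y, -, hy⟩ := col h (II ρ φ k) (fun n hn b hb j hj => II_kill h hz hn hb hj)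
      (J1_r h hν e)
    have hn := II_mem hX₀ hm hY₀
    have k1 := hz _ (Jd_le_Bd hν) _ (J1_J j1 hm) _ hY₀
    have k2 := hz _ (Jd_le_Bd hν) _ (J1_J j2 (J_star h hm)) _ (B_star h hX₀)
    have a1 : ρ y * (X₀ * m * Y₀) - X₀ * m * Y₀ = ν * (X₀ * m * Y₀) := by
      have := hy _ hn
      rw [sub_mul, one_mul] at this
      rw [this, ← sub_zero (ν * e * _), ← k1]
      noncomm_ring
    have a2 : X₀ * m * Y₀ * ρ y⁻¹ = X₀ * m * Y₀ := by
      have k3 := hy _ (II_star h hn)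
      have k4 : ν * e * star (X₀ * m * Y₀) = 0 := by
        rw [← k2, star_mul, star_mul]; noncomm_ring
      have k5 := congrArg star (k3.trans k4)
      rw [star_mul, star_star, star_sub_one h, star_zero, mul_sub, mul_one] at k5
      exact sub_eq_zero.1 k5
    have := sub_mem (NN_conj h hz y (h0 m hm)) (h0 m hm)
    rwa [mul_assoc (ρ y), a2, a1] at this
  have s3 : ∀ ν ∈ Jd ρ φ.ker ⊤, ∀ m ∈ Jd ρ φ.ker ⊤ ^ (k + 1), ∀ a,
      ν * (X₀ * m * Y₀) * a ∈ NN h hz := by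
    intro ν hν m hm a
    refine span_ind (P := fun a => ν * (X₀ * m * Y₀) * a ∈ NN h hz) ?_ ?_ ?_ ?_ (h.mem_Ad a)
    · rw [mul_zero]; exact zero_mem _
    · intro x y hx hy; rw [mul_add]; exact add_mem hx hy
    · intro x hx; rw [mul_neg]; exact neg_mem hx
    · rintro _ ⟨g, -, rfl⟩
      have k1 := II_kill h hz (II_mem hX₀ hm hY₀) (sub_one_mem_Bd (mem_top g⁻¹)) hν
      rw [mul_assoc, sub_mul, one_mul] at k1
      have k2 := NN_conj h hz g⁻¹ (s2 ν hν m hm)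
      rwa [sub_eq_zero.1 k1, inv_inv] at k2
  obtain ⟨u, u1, u2, u3⟩ := gen_cl h hH hι n1 n2 cX
  obtain ⟨v, v1, -, v3⟩ := gen_cl h hH hι n3 n4 cY
  have s4 : ∀ m ∈ Jd ρ φ.ker ⊤ ^ (k + 1), ∀ a, D * u * m * v * a ∈ NN h hz := by
    intro m hm a
    refine span_ind (P := fun u => D * u * m * v * a ∈ NN h hz) ?_ ?_ ?_ ?_ u1
    · simp only [mul_zero, zero_mul]; exact zero_mem _
    · intro x y hx hy; simp only [mul_add, add_mul]; exact add_mem hx hy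
    · intro x hx; simp only [mul_neg, neg_mul]; exact neg_mem hx
    rintro _ ⟨a1, -, a2, -, rfl⟩
    refine span_ind (P := fun v => D * (a1 * X₀ * a2) * m * v * a ∈ NN h hz) ?_ ?_ ?_ ?_ v1
    · simp only [mul_zero, zero_mul]; exact zero_mem _
    · intro x y hx hy; simp only [mul_add, add_mul]; exact add_mem hx hy
    · intro x hx; simp only [mul_neg, neg_mul]; exact neg_mem hx
    rintro _ ⟨a3, -, a4, -, rfl⟩
    have := s3 _ (J1_r h hD a1) _ (J_r h (J_l h a2 hm) a3) (a4 * a)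
    simpa only [mul_assoc] using this
  obtain ⟨-, -, -, -, -, hBB⟩ := idem h hH hι
  have s5 : (D * u - D) * m * Y = 0 := by
    refine span_ind (P := fun D => (D * u - D) * m * Y = 0) ?_ ?_ ?_ ?_ (hBB D (Jd_le_Bd hD))
    · simp
    · intro x y hx hy
      rw [← add_zero (0 : A)]
      nth_rewrite 1 [← hx]
      rw [← hy]
      noncomm_ring
    · intro x hx
      rw [← neg_zero, ← hx]
      noncomm_ring
    · rintro _ ⟨c, hc, c', hc', rfl⟩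
      rw [← hz c hc _ (J1_J (one_sub_r h u3 hc') hm) Y hY]
      noncomm_ring
  have s6 : D * u * m * Y ∈ NN h hz := by
    refine span_ind (P := fun Y => D * u * m * Y ∈ NN h hz) ?_ ?_ ?_ ?_ (hBB Y hY)
    · rw [mul_zero]; exact zero_mem _
    · intro x y hx hy; rw [mul_add]; exact add_mem hx hy
    · intro x hx; rw [mul_neg]; exact neg_mem hx
    · rintro _ ⟨b, hb, b', hb', rfl⟩
      have k1 := hz _ (B_l h D u2) _ (J_J1 hm (one_sub_r h v3 hb)) _ hb'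
      have e : D * u * m * (b * b') = D * u * (m * b) * v * b' - D * u * (m * (b * v - b)) * b' := by
        noncomm_ring
      rw [e, k1, sub_zero]
      exact s4 _ (J_r h hm b) b'
  rw [sub_mul, sub_mul] at s5
  exact sub_eq_zero.1 s5 ▸ s6

/-- The root property of a triple of classes. -/
def RR (ξ ψ ψ' : Matrix ι ι K) : Prop :=
  ∀ X ∈ Bd ρ ⊤, ∀ Y ∈ Bd ρ ⊤, Cl q π π' X ξ 0 → Cl q π π' Y ψ ψ' →
    ∀ m ∈ Jd ρ φ.ker ⊤ ^ (k + 1), X * m * Y ∈ NN h hz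

section
variable (hH : Group.IsPerfect H) (hι : 3 ≤ Fintype.card ι)
  (hr : ∀ D ∈ Jd ρ φ.ker ⊤, ∀ m ∈ Jd ρ φ.ker ⊤ ^ (k + 1), ∀ Y ∈ Bd ρ ⊤, D * m * Y ∈ NN h hz)
include hr

theorem RR_of {ξ ψ ψ' : Matrix ι ι K} {X Y : A} (hX : X ∈ Bd ρ ⊤) (cX : Cl q π π' X ξ 0)
    (cY : Cl q π π' Y ψ ψ') (h0 : ∀ m ∈ Jd ρ φ.ker ⊤ ^ (k + 1), X * m * Y ∈ NN h hz) :
    RR h hz ξ ψ ψ' := by
  intro X' _ Y' hY' c1 c2 m hm
  have k1 := hr _ (c1.mem h cX) m hm Y' hY'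
  have k2 := NN_star h hz (hr _ (J1_star h (c2.mem h cY)) _ (J_star h hm) _ (B_star h hX))
  rw [star_mul, star_mul, star_star, star_star, star_star] at k2
  have e : X' * m * Y' = (X' - X) * m * Y' + X * (m * (Y' - Y)) + X * m * Y := by noncomm_ring
  rw [e]
  exact add_mem (add_mem k1 k2) (h0 m hm)

include hH hι

theorem RR_sub_l {ξ ξ' ψ ψ' : Matrix ι ι K} (h1 : RR h hz ξ ψ ψ') (h2 : RR h hz ξ' ψ ψ') :
    RR h hz (ξ - ξ') ψ ψ' := by
  obtain ⟨X, hX, cX⟩ := exists_cl h hH hι ξ 0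
  obtain ⟨X', hX', cX'⟩ := exists_cl h hH hι ξ' 0
  obtain ⟨Y, hY, cY⟩ := exists_cl h hH hι ψ ψ'
  refine RR_of h hz hr (sub_mem hX hX') ((cX.sub cX').congr rfl (sub_self _)) cY fun m hm => ?_
  rw [sub_mul, sub_mul]
  exact sub_mem (h1 X hX Y hY cX cY m hm) (h2 X' hX' Y hY cX' cY m hm)

theorem RR_sub_r {ξ ψ ψ' χ χ' : Matrix ι ι K} (h1 : RR h hz ξ ψ ψ') (h2 : RR h hz ξ χ χ') :
    RR h hz ξ (ψ - χ) (ψ' - χ') := by
  obtain ⟨X, hX, cX⟩ := exists_cl h hH hι ξ 0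
  obtain ⟨Y, hY, cY⟩ := exists_cl h hH hι ψ ψ'
  obtain ⟨Y', hY', cY'⟩ := exists_cl h hH hι χ χ'
  refine RR_of h hz hr hX cX (cY.sub cY') fun m hm => ?_
  rw [mul_sub]
  exact sub_mem (h1 X hX Y hY cX cY m hm) (h2 X hX Y' hY' cX cY' m hm)

theorem RR_conj (g : SL ι K) {ξ ψ ψ' : Matrix ι ι K} (h1 : RR h hz ξ ψ ψ') :
    RR h hz (g.1 * ξ) (ψ * (g⁻¹).1) (g.1 * ψ') := by
  obtain ⟨X, hX, cX⟩ := exists_cl h hH hι ξ 0
  obtain ⟨Y, hY, cY⟩ := exists_cl h hH hι ψ ψ'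
  obtain ⟨x, rfl⟩ := h.surj g
  refine RR_of h hz hr (B_l h (ρ x) hX) ((cX.rho_l h x).congr rfl (Matrix.zero_mul _))
    ((cY.rho_r h x⁻¹).congr (by rw [map_inv]) (by rw [inv_inv])) fun m hm => ?_
  have := NN_conj h hz x (h1 X hX Y hY cX cY m hm)
  simpa only [mul_assoc] using this

/-- Sums of products of rank one pieces. -/
theorem RR_sum {ξ α ψ β ψ' β' : ι → Matrix ι ι K} (h1 : ∀ i j, RR h hz (ξ i) (ψ j) (ψ' j)) :
    RR h hz (∑ i, ξ i * α i) (∑ j, β j * ψ j) (∑ j, ψ' j * β' j) := by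
  choose X hX cX using fun i => exists_cl h hH hι (ξ i) 0
  choose a _ ca using fun i => exists_cl h hH hι (α i) 0
  choose Y hY cY using fun j => exists_cl h hH hι (ψ j) (ψ' j)
  choose b _ cb using fun j => exists_cl h hH hι (β j) (β' j)
  refine RR_of h hz hr (X := ∑ i, X i * a i) (Y := ∑ j, b j * Y j)
    (sum_mem fun i _ => B_r h (hX i) _)
    ((cl_sum fun i _ => (cX i).mul h (ca i)).congr rfl (by simp))
    (cl_sum fun j _ => (cb j).mul h (cY j)) fun m hm => ?_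
  simp only [Finset.sum_mul, Finset.mul_sum]
  refine sum_mem fun j _ => sum_mem fun i _ => ?_
  have := h1 i j _ (hX i) _ (hY j) (cX i) (cY j) _ (J_r h (J_l h (a i) hm) (b j))
  simpa only [mul_assoc] using this

end

theorem beta [Finite K] [CharP K p] (hH : Group.IsPerfect H) (hι : 6 ≤ Fintype.card ι)
    (hG : ∀ (a b : ι) (X Y m : A), a ≠ b →
      (q X = π (single a a 1) ∨ q X = π' (single a a 1)) →
      (q Y = π (single b b 1) ∨ q Y = π' (single b b 1)) → m ∈ Jd ρ φ.ker ⊤ ^ (k + 1) →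
      ∃ y, ρ y - 1 - (X * m * Y - star (X * m * Y)) ∈ Jd ρ φ.ker ⊤ ^ (k + 2)) :
    (∀ ξ ψ, ψ * ξ = 0 → RR h hz ξ ψ 0) ∧ ∀ ξ ψ, RR h hz ξ 0 ψ := by
  have hι' : 3 ≤ Fintype.card ι := by omega
  obtain ⟨S₁, -, c1⟩ := Finset.exists_subset_card_eq (s := (Finset.univ : Finset ι)) (n := 3)
    (by simpa using hι')
  obtain ⟨S₂, s2, c2⟩ := Finset.exists_subset_card_eq (s := S₁ᶜ) (n := 3)
    (by rw [Finset.card_compl]; omega)
  have hd : Disjoint S₁ S₂ := Finset.disjoint_left.2 fun a ha hb => Finset.mem_compl.1 (s2 hb) ha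
  obtain ⟨C₁, t1, q1, n1⟩ := exists_qel (p := p) (K := K) c1.ge
  obtain ⟨C₂, t2, q2, n2⟩ := exists_qel (p := p) (K := K) c2.ge
  have m1 := tr_mul hd t1 t2
  have m2 := tr_mul hd.symm t2 t1
  have hc : Commute C₁ C₂ := by
    refine Subtype.ext (?_ : C₁.1 * C₂.1 = C₂.1 * C₁.1)
    have e : C₁.1 * C₂.1 = C₂.1 * C₁.1 + (C₁.1 - 1) * (C₂.1 - 1) - (C₂.1 - 1) * (C₁.1 - 1) := by
      noncomm_ring
    rw [e, m1, m2, add_zero, sub_zero]
  obtain ⟨τ₁, τ₂, r1, r2, r3, rfl, rfl⟩ := commuting_qel_lift φ h.surj h.pker q1 q2 hc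
  have qr : ∀ x : H, QEl p x → QEl p (ρ x) := by
    rintro x ⟨m, h1, h3⟩
    exact ⟨m, h1, by rw [← map_pow, h3, map_one]⟩
  have z1 := red h.chr (qr _ r1) (qr _ r2) (r3.map ρ) (h.d1 _ _ r1 r2 m1 m2)
  have z2 := red h.chr (qr _ r2) (qr _ r1) (r3.symm.map ρ) (h.d1 _ _ r2 r1 m2 m1)
  have h0 := fun m hm => sq_mem h hz hι' hG hd t1 t2 z1 z2 (m := m) hm
  have t1' : φ τ₁⁻¹ ∈ Tr K S₁ := map_inv φ τ₁ ▸ inv_mem t1
  have t2' : φ τ₂⁻¹ ∈ Tr K S₂ := map_inv φ τ₂ ▸ inv_mem t2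
  have s1 : Supp S₁ ((φ τ₁).1 - 1) := tr_supp t1
  have s1' : Supp S₁ ((φ τ₁⁻¹).1 - 1) := tr_supp t1'
  have s2 : Supp S₂ ((φ τ₂).1 - 1) := tr_supp t2
  have s2' : Supp S₂ ((φ τ₂⁻¹).1 - 1) := tr_supp t2'
  have m3 := tr_mul hd.symm t2' t1
  have p1 := pow_ne q1 n1
  have p2 := pow_ne q2 n2
  have p1' := pow_ne (qel_inv q1) (inv_ne_one.2 n1) 2
  have p2' := pow_ne (qel_inv q2) (inv_ne_one.2 n2) 2
  rw [← map_inv, pow_two] at p1' p2'
  have b1 : ρ τ₁ - 1 ∈ Bd ρ ⊤ := sub_one_mem_Bd (mem_top _)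
  have b4 : ρ τ₂⁻¹ - 1 ∈ Bd ρ ⊤ := sub_one_mem_Bd (mem_top _)
  have cX := (cl_rho h τ₁).mul h (cl_rho h τ₁)
  have cY := (cl_rho h τ₂⁻¹).mul h (cl_rho h τ₂⁻¹)
  rw [inv_inv] at cY
  have p11 := p1 2
  have p14 := p1 4
  have p22 := p2 2
  rw [pow_two] at p11 p22
  rw [show 4 = 2 + 2 from rfl, pow_add, pow_two] at p14
  generalize (φ τ₁).1 - 1 = M₁ at *
  generalize (φ τ₁⁻¹).1 - 1 = M₁' at *
  generalize (φ τ₂).1 - 1 = M₂ at *
  generalize (φ τ₂⁻¹).1 - 1 = M₂' at *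
  have hr : ∀ D ∈ Jd ρ φ.ker ⊤, ∀ m ∈ Jd ρ φ.ker ⊤ ^ (k + 1), ∀ Y ∈ Bd ρ ⊤,
      D * m * Y ∈ NN h hz := fun D hD m hm Y hY =>
    rad_l h hz hH hι' (B_l h _ b1) (B_l h _ b4) (ε := pr K S₁) cX cY p11 p1' p2' p22
      (by rw [← Matrix.mul_assoc, s1.pr_mul]) (by rw [Matrix.mul_assoc, s1'.mul_pr])
      (by rw [Matrix.mul_assoc, s2'.mul_pr' hd, Matrix.mul_zero])
      (by rw [← Matrix.mul_assoc, s2.pr_mul' hd, Matrix.zero_mul]) h0 hD hm hY
  have R0 : ∀ α β β', RR h hz (M₁ * M₁ * α) (β * (M₂' * M₂')) (M₂ * M₂ * β') := by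
    intro α β β'
    obtain ⟨a, -, ca⟩ := exists_cl h hH hι' α 0
    obtain ⟨b, -, cb⟩ := exists_cl h hH hι' β β'
    refine RR_of h hz hr (B_r h (B_l h _ b1) a) ((cX.mul h ca).congr rfl (Matrix.zero_mul _))
      (cb.mul h cY) fun m hm => ?_
    have := h0 _ (J_r h (J_l h a hm) b)
    simpa only [mul_assoc] using this
  obtain ⟨a⟩ : Nonempty ι := Fintype.card_pos_iff.1 (by omega)
  refine ⟨fun ξ ψ hψ => ?_, fun ξ ψ => ?_⟩
  · obtain ⟨v, hv⟩ := exists_mulVec p11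
    obtain ⟨w, hw⟩ := exists_vecMul p2'
    have key := orb_dual hι' (fun v w => RR h hz (vecMulVec v (Pi.single a 1))
        (vecMulVec (Pi.single a 1) w) 0)
      (fun v v' w h1 h2 => by
        rw [sub_vecMulVec]
        exact RR_sub_l h hz hH hι' hr h1 h2)
      (fun v w w' h1 h2 => by
        have := RR_sub_r h hz hH hι' hr h1 h2
        rwa [sub_self, ← vecMulVec_sub] at this)
      (fun g v w h1 => by
        have := RR_conj h hz hH hι' hr g h1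
        rwa [mul_vecMulVec, vecMulVec_mul, Matrix.mul_zero] at this) hv hw
      (by
        rw [← dotProduct_mulVec, mulVec_mulVec, Matrix.mul_assoc, ← Matrix.mul_assoc M₂' M₁, m3,
          Matrix.zero_mul, Matrix.mul_zero, zero_mulVec, dotProduct_zero])
      (by
        have := R0 (vecMulVec v (Pi.single a 1)) (vecMulVec (Pi.single a 1) w) 0
        rwa [mul_vecMulVec, vecMulVec_mul, Matrix.mul_zero] at this)
    have := RR_sum h hz hH hι' hr (α := fun j => single a j 1) (β := fun j => single j a 1)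
      (β' := fun _ => 0) fun i j => key (fun l => ξ l i) (ψ j) (congrFun (congrFun hψ j) i)
    rwa [sum_cols, sum_rows, Finset.sum_eq_zero fun _ _ => Matrix.mul_zero _] at this
  · obtain ⟨v, hv⟩ := exists_mulVec p14
    obtain ⟨w, hw⟩ := exists_mulVec p22
    have key := orb_pair hι' (fun v w => RR h hz (vecMulVec v (Pi.single a 1)) 0
        (vecMulVec w (Pi.single a 1)))
      (fun v v' w h1 h2 => by
        rw [sub_vecMulVec]
        exact RR_sub_l h hz hH hι' hr h1 h2)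
      (fun v w w' h1 h2 => by
        have := RR_sub_r h hz hH hι' hr h1 h2
        rwa [sub_self, ← sub_vecMulVec] at this)
      (fun g v w h1 => by
        have := RR_conj h hz hH hι' hr g h1
        rwa [mul_vecMulVec, mul_vecMulVec, Matrix.zero_mul] at this)
      (v₀ := (M₁ * M₁) *ᵥ v) (w₀ := (M₂ * M₂) *ᵥ w)
      (LinearIndependent.pair_iff.2 fun s t hst => by
        have k := congrArg (fun x => (M₁ * M₁) *ᵥ x) hst
        have k2 : M₁ * M₁ * (M₂ * M₂) = 0 := by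
          rw [Matrix.mul_assoc, ← Matrix.mul_assoc M₁ M₂, m1, Matrix.zero_mul, Matrix.mul_zero]
        simp only [mulVec_add, mulVec_smul, mulVec_mulVec, k2, zero_mulVec, smul_zero, add_zero,
          mulVec_zero] at k
        have hs : s = 0 := (smul_eq_zero.1 k).resolve_right hv
        rw [hs, zero_smul, zero_add] at hst
        exact ⟨hs, (smul_eq_zero.1 hst).resolve_right hw⟩)
      (by
        have := R0 (vecMulVec v (Pi.single a 1)) 0 (vecMulVec w (Pi.single a 1))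
        rwa [mul_vecMulVec, mul_vecMulVec, Matrix.zero_mul] at this)
    have := RR_sum h hz hH hι' hr (α := fun j => single a j 1) (β := fun _ => 0)
      (β' := fun j => single a j 1) fun i j => key (fun l => ξ l i) (fun l => ψ l j)
    rwa [sum_cols, sum_cols, Finset.sum_eq_zero fun _ _ => Matrix.mul_zero _] at this

end Beta

end

end Small

theorem smallStmt (h : GrStmt) : SmallStmt := by
  intro p _ ι K _ _ _ _ _ H _ _ A E _ _ _ φ ρ q π π' hs hH hι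
  refine ⟨fun h0 X hX c _ Y hY θ₁ γ θ₂ qX qc qY e1 e2 e3 => ?_,
    fun k h0 X hX Y hY m hm ξ ψ qX qY => ?_⟩
  · refine Small.alpha hs (fun b hb j hj b' hb' => ?_) hH (by omega) hX hY qX qc qY e1 e2 e3
    have := Submodule.mul_mem_mul (Submodule.mul_mem_mul hb hj) hb'
    rwa [h0, Submodule.mem_bot] at this
  · have hz : ∀ b ∈ Bd ρ ⊤, ∀ j ∈ Jd ρ φ.ker ⊤ ^ (k + 2), ∀ b' ∈ Bd ρ ⊤, b * j * b' = 0 := by
      intro b hb j hj b' hb'
      have := Submodule.mul_mem_mul (Submodule.mul_mem_mul hb hj) hb'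
      rwa [h0, Submodule.mem_bot] at this
    obtain ⟨b1, b2⟩ := Small.beta hs hz hH hι (h p ι K H A E φ ρ q π π' hs hH hι k)
    rcases qY with ⟨qY, e⟩ | qY
    · exact (b1 ξ ψ e X hX Y hY (Small.cl_left qX) (Small.cl_left qY) m hm).2
    · exact (b2 ξ ψ X hX Y hY (Small.cl_left qX) (Small.cl_right qY) m hm).2

end Pool.Agent.Lib.MP_679d9b_al.PT
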