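import Mathlib
import Pool.Agent.Lib.MP_679d9b_al.PT.Basic

-- part Pool.Agent.Lib.MP_679d9b_al.PT.Big
section

/-!
Transport of the local analysis along subrings.
-/

set_option autoImplicit false

namespace Pool.Agent.Lib.MP_679d9b_al.PT

open Subgroup Matrix
open scoped commutatorElement

namespace Big

section Sub
variable {H A : Type} [Group H] [Ring A]

/-- The subring spanned by the image of the group. -/
def sub (ρ : H →* A) : Subring A where
  carrier := Ad ρ ⊤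
  mul_mem' := Ad_mul
  one_mem' := one_mem_Ad
  add_mem' := (Ad ρ ⊤).add_mem
  zero_mem' := (Ad ρ ⊤).zero_mem
  neg_mem' := (Ad ρ ⊤).neg_mem

/-- The representation with values in the subring. -/
def res (ρ : H →* A) : H →* sub ρ := ρ.codRestrict (sub ρ) fun g => rho_mem_Ad (mem_top g)

theorem res_coe (ρ : H →* A) (g : H) : (res ρ g : A) = ρ g := rfl

theorem res_span (ρ : H →* A) : Ad (res ρ) ⊤ = ⊤ := by
  refine eq_top_iff.2 ?_
  rintro ⟨a, ha⟩ -
  induction ha using Submodule.span_induction with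
  | mem x hx =>
    obtain ⟨g, hg, rfl⟩ := hx
    exact rho_mem_Ad (ρ := res ρ) hg
  | zero => exact (Ad (res ρ) ⊤).zero_mem
  | add x y hx hy h1 h2 => exact (Ad (res ρ) ⊤).add_mem h1 h2
  | smul c x hx h1 => exact (Ad (res ρ) ⊤).smul_mem c h1

/-- The involution on the subring. -/
@[reducible] def subStar [StarRing A] (ρ : H →* A) (hs : ∀ g, star (ρ g) = ρ g⁻¹) :
    StarRing (sub ρ) where
  star a := ⟨star a.1, star_mem_Ad hs a.2⟩
  star_involutive a := Subtype.ext (star_star a.1)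
  star_mul a b := Subtype.ext (star_mul a.1 b.1)
  star_add a b := Subtype.ext (star_add a.1 b.1)

/-- The ideal generated by the augmentation ideal of a normal subgroup. -/
def jid (ρ : H →* A) (P : Subgroup H) [P.Normal] (h : Ad ρ ⊤ = ⊤) : Ideal A where
  carrier := Jd ρ P ⊤
  add_mem' := (Jd ρ P ⊤).add_mem
  zero_mem' := (Jd ρ P ⊤).zero_mem
  smul_mem' a _ hj := Ad_mul_Jd (h ▸ Submodule.mem_top : a ∈ Ad ρ ⊤) hj

instance (ρ : H →* A) (P : Subgroup H) [P.Normal] (h : Ad ρ ⊤ = ⊤) : (jid ρ P h).IsTwoSided where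
  mul_mem_of_left b hj := Jd_mul_Ad hj (h ▸ Submodule.mem_top : b ∈ Ad ρ ⊤)

variable {H' A' : Type} [Group H'] [Ring A'] {ρ : H →* A} {ρ' : H' →* A'} (f : A' →+* A)
  (i : H' →* H) (hf : ∀ g, f (ρ' g) = ρ (i g))
include hf

theorem map_Ad : (Ad ρ' ⊤).map f.toIntAlgHom.toLinearMap = Ad ρ i.range := by
  rw [Ad, Ad, Submodule.map_span]
  congr 1
  ext x
  constructor
  · rintro ⟨_, ⟨g, -, rfl⟩, rfl⟩
    exact ⟨i g, ⟨g, rfl⟩, hf g⟩
  · rintro ⟨_, ⟨g, rfl⟩, rfl⟩
    exact ⟨_, ⟨g, mem_top g, rfl⟩, hf g⟩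

theorem map_Bd : (Bd ρ' ⊤).map f.toIntAlgHom.toLinearMap = Bd ρ i.range := by
  have : ∀ g, f.toIntAlgHom.toLinearMap (ρ' g - 1) = ρ (i g) - 1 := fun g => by
    change f (ρ' g - 1) = _
    rw [map_sub, map_one, hf]
  rw [Bd, Bd, Submodule.map_span]
  congr 1
  ext x
  constructor
  · rintro ⟨_, ⟨g, -, rfl⟩, rfl⟩
    exact ⟨i g, ⟨g, rfl⟩, this g⟩
  · rintro ⟨_, ⟨g, rfl⟩, rfl⟩
    exact ⟨_, ⟨g, mem_top g, rfl⟩, this g⟩

theorem map_Jd (P : Subgroup H) :
    (Jd ρ' (P.comap i) ⊤).map f.toIntAlgHom.toLinearMap = Jd ρ P i.range := by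
  have : ∀ y g, f.toIntAlgHom.toLinearMap ((ρ' y - 1) * ρ' g) = (ρ (i y) - 1) * ρ (i g) :=
    fun y g => by
      change f ((ρ' y - 1) * ρ' g) = _
      rw [map_mul, map_sub, map_one, hf, hf]
  rw [Jd, Jd, Submodule.map_span]
  congr 1
  ext x
  constructor
  · rintro ⟨_, ⟨y, hy, -, g, -, rfl⟩, rfl⟩
    exact ⟨i y, hy, ⟨y, rfl⟩, i g, ⟨g, rfl⟩, this y g⟩
  · rintro ⟨_, hy, ⟨y, rfl⟩, _, ⟨g, rfl⟩, rfl⟩
    exact ⟨_, ⟨y, hy, mem_top y, g, mem_top g, rfl⟩, this y g⟩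

end Sub

theorem qel_map {p : ℕ} {M M' : Type} [Monoid M] [Monoid M'] (f : M →* M') {g : M}
    (h : QEl p g) : QEl p (f g) := by
  obtain ⟨m, h1, h2⟩ := h
  exact ⟨m, h1, by rw [← map_pow, h2, map_one]⟩

theorem qel_inv {p : ℕ} {M : Type} [Group M] {g : M} (h : QEl p g) : QEl p g⁻¹ := by
  obtain ⟨m, h1, h2⟩ := h
  exact ⟨m, h1, by rw [inv_pow, h2, inv_one]⟩

theorem int_idem {p : ℕ} [hp : Fact p.Prime] {E : Type} [Ring E] (h0 : (p : E) = 0) (c : ℤ)
    {f : E} (hf : f * f = f) (hn : IsNilpotent ((c : E) * f)) : (c : E) * f = 0 := by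
  have h1 : (c : E) ^ p = c := by
    obtain ⟨d, hd⟩ := Int.prime_dvd_pow_self_sub hp.out c
    have := congrArg (Int.cast : ℤ → E) hd
    push_cast at this
    rw [h0, zero_mul, sub_eq_zero] at this
    exact this
  have h2 : ((c : E) * f) ^ p = c * f := by
    rw [(Int.cast_commute c f).mul_pow, h1, IsIdempotentElem.pow_eq hf hp.out.ne_zero]
  have h3 : ∀ n : ℕ, ((c : E) * f) ^ p ^ n = c * f := by
    intro n
    induction n with
    | zero => simp
    | succ n ih => rw [pow_succ, pow_mul, ih, h2]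
  obtain ⟨n, hn⟩ := hn
  rw [← h3 n]
  exact pow_eq_zero_of_le (Nat.lt_pow_self hp.out.one_lt).le hn

variable {p : ℕ} [Fact p.Prime] {ι K : Type} [Fintype ι] [DecidableEq ι] [Field K] {H : Type}
  [Group H] [Finite H] {A : Type} [Ring A] {φ : H →* SL ι K} {ρ : H →* A}

theorem surj_op (hφ : Function.Surjective φ) (hι : 3 ≤ Fintype.card ι) :
    Function.Surjective (φ.comp (Op p H).subtype) := by
  intro B
  have : B ∈ (Op p H).map φ := by rw [op_map hφ hι]; exact mem_top B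
  obtain ⟨g, hg, rfl⟩ := this
  exact ⟨⟨g, hg⟩, rfl⟩

/-- The structure theorem modulo the augmentation ideal of the kernel. -/
theorem structQ (h1 : StructStmt) (hφ : Function.Surjective φ) (hk : IsPGroup p φ.ker)
    (h0 : (p : A) = 0) (hs : Ad ρ ⊤ = ⊤) (hd : D1 p φ ρ) (hι : 6 ≤ Fintype.card ι) :
    ∃ π π' : Matrix ι ι K →+ A ⧸ jid ρ φ.ker hs,
      Str φ ((Ideal.Quotient.mk (jid ρ φ.ker hs) : A →* _).comp ρ) π π' := by
  have h3 : 3 ≤ Fintype.card ι := by omega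
  obtain ⟨S₁, -, hS₁⟩ := Finset.exists_subset_card_eq (s := (Finset.univ : Finset ι)) (n := 3)
    (by rw [Finset.card_univ]; omega)
  obtain ⟨S₂, hd₂, hS₂⟩ := Finset.exists_subset_card_eq (s := S₁ᶜ) (n := 3)
    (by rw [Finset.card_compl]; omega)
  have hdis : Disjoint S₁ S₂ :=
    Finset.disjoint_left.2 fun a ha hb => Finset.mem_compl.1 (hd₂ hb) ha
  let q := Ideal.Quotient.mk (jid ρ φ.ker hs)
  have hq : ∀ y, φ y = 1 → q (ρ y) = 1 := fun y hy => by
    rw [← sub_eq_zero, ← map_one q, ← map_sub]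
    exact Ideal.Quotient.eq_zero_iff_mem.2 (sub_one_mem_Jd (P := φ.ker) hy (mem_top y))
  obtain ⟨π, π', hS⟩ := h1 p ι K (Op p H) _ (φ.comp (Op p H).subtype)
    (((q : A →* A ⧸ jid ρ φ.ker hs).comp ρ).comp (Op p H).subtype) S₁ S₂ (surj_op hφ h3)
    (Subgroup.isPerfect_iff.2 (op_perfect hφ hk h3)) (by rw [← map_natCast q, h0, map_zero])
    (fun y g hy => by
      have : (((q : A →* A ⧸ jid ρ φ.ker hs).comp ρ).comp (Op p H).subtype) y = 1 := hq y hy
      rw [this]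
      exact Commute.one_left _)
    hdis hS₁.ge hS₂.ge
    (fun τ₁ t1 τ₂ t2 q1 q2 => by
      have a1 : φ τ₁ ∈ Tr K S₁ :=
        Subgroup.commutator_le_self ((Tr K S₁).comap (φ.comp (Op p H).subtype)) t1
      have a2 : φ τ₂ ∈ Tr K S₂ :=
        Subgroup.commutator_le_self ((Tr K S₂).comap (φ.comp (Op p H).subtype)) t2
      have := (hd τ₁ τ₂ (qel_map (Op p H).subtype q1) (qel_map (Op p H).subtype q2)
        (tr_mul hdis a1 a2) (tr_mul hdis.symm a2 a1)).map q
      rw [map_mul, map_sub, map_sub, map_one] at this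
      exact this)
  refine ⟨π, π', hS.mul, hS.anti, hS.orth, hS.orth', fun g => ?_⟩
  obtain ⟨g₀, hg₀, y, hy, rfl⟩ := op_decomp (p := p) hφ h3 g
  have e := hS.eq ⟨g₀, hg₀⟩
  have e1 : φ (g₀ * y) = φ g₀ := by rw [map_mul, hy, mul_one]
  have e2 : φ (g₀ * y)⁻¹ = φ g₀⁻¹ := by rw [map_inv, e1, map_inv]
  rw [e1, e2]
  change q (ρ (g₀ * y)) = _
  rw [map_mul, map_mul, hq y hy, mul_one]
  exact e

omit [Finite H] in
theorem str_eq {E : Type} [Ring E] {q : A →+* E} {π π' : Matrix ι ι K →+ E}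
    (h : Str φ ((q : A →* E).comp ρ) π π') {a : A} (ha : a ∈ Ad ρ ⊤) :
    ∃ (c : ℤ) (B C : Matrix ι ι K), q a = c + π B + π' C := by
  induction ha using Submodule.span_induction with
  | mem x hx =>
    obtain ⟨g, -, rfl⟩ := hx
    exact ⟨1, _, _, by rw [Int.cast_one]; exact h.eq g⟩
  | zero => exact ⟨0, 0, 0, by simp⟩
  | add x y _ _ h1 h2 =>
    obtain ⟨c, B, C, h1⟩ := h1
    obtain ⟨c', B', C', h2⟩ := h2
    refine ⟨c + c', B + B', C + C', ?_⟩
    rw [map_add, h1, h2, map_add, map_add, Int.cast_add]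
    abel
  | smul n x _ h1 =>
    obtain ⟨c, B, C, h1⟩ := h1
    refine ⟨n * c, n • B, n • C, ?_⟩
    rw [map_zsmul, h1, map_zsmul, map_zsmul, smul_add, smul_add, Int.cast_mul, zsmul_eq_mul]

variable [StarRing A] {E : Type} [Ring E] {q : A →+* E} {π π' : Matrix ι ι K →+ E}

/-- The data of `St` for the subgroup generated by the elements of order prime to `p`. -/
theorem st_op (h1 : StructStmt) (h : St p φ ρ q π π') (hι : 6 ≤ Fintype.card ι) :
    @St ι K _ _ _ (Op p H) _ p (sub (ρ.comp (Op p H).subtype)) E _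
      (subStar _ fun g => h.star_eq g) _ (φ.comp (Op p H).subtype)
      (res (ρ.comp (Op p H).subtype)) (q.comp (sub _).subtype) π π' := by
  have h3 : 3 ≤ Fintype.card ι := by omega
  set ρ₀ := res (ρ.comp (Op p H).subtype) with hρ₀
  set φ₀ := φ.comp (Op p H).subtype with hφ₀
  set f := (sub (ρ.comp (Op p H).subtype)).subtype with hf
  have finj : Function.Injective f := Subtype.val_injective
  have hsurj : Function.Surjective φ₀ := surj_op h.surj h3
  have hk : IsPGroup p φ₀.ker := h.pker.comap_subtype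
  have h0 : (p : sub (ρ.comp (Op p H).subtype)) = 0 := finj (by rw [map_natCast, h.chr, map_zero])
  have hstr : Str φ₀ ((q.comp f : _ →* E).comp ρ₀) π π' :=
    ⟨h.str.mul, h.str.anti, h.str.orth, h.str.orth', fun g => h.str.eq g⟩
  have hJ : ∀ a ∈ Jd ρ₀ φ₀.ker ⊤, q (f a) = 0 := by
    intro a ha
    have : f a ∈ Jd ρ φ.ker (Op p H).subtype.range := by
      rw [← map_Jd (ρ' := ρ₀) f (Op p H).subtype (fun _ => rfl) φ.ker]
      exact ⟨a, ha, rfl⟩
    exact (h.ker _).2 (Jd_mono le_top this)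
  let _ := subStar (ρ.comp (Op p H).subtype) fun g => h.star_eq g
  refine ⟨hsurj, hk, h0, fun a b e => Subtype.ext (h.inj (congrArg f e)),
    fun g => Subtype.ext (h.star_eq g), res_span _, fun a => ⟨fun ha => ?_, hJ a⟩,
    nil_aug h0 ρ₀ _ hk, hstr, h.pinj⟩
  have hd : D1 p φ₀ ρ₀ := fun τ₁ τ₂ q1 q2 e1 e2 => by
    rw [← IsNilpotent.map_iff finj, map_mul, map_sub, map_sub, map_one]
    exact h.d1 τ₁ τ₂ (qel_map (Op p H).subtype q1) (qel_map (Op p H).subtype q2) e1 e2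
  obtain ⟨π₀, π₀', hS⟩ := structQ h1 hsurj hk h0 (res_span _) hd hι
  let qb := Ideal.Quotient.lift (jid ρ₀ φ₀.ker (res_span _)) (q.comp f) hJ
  have hS' : Str φ₀ ((q.comp f : _ →* E).comp ρ₀) (qb.toAddMonoidHom.comp π₀)
      (qb.toAddMonoidHom.comp π₀') := by
    refine ⟨fun B C => ?_, fun B C => ?_, fun B C => ?_, fun B C => ?_, fun g => ?_⟩
    · exact (congrArg qb (hS.mul B C)).trans (map_mul qb _ _)
    · exact (congrArg qb (hS.anti B C)).trans (map_mul qb _ _)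
    · exact (map_mul qb _ _).symm.trans ((congrArg qb (hS.orth B C)).trans (map_zero qb))
    · exact (map_mul qb _ _).symm.trans ((congrArg qb (hS.orth' B C)).trans (map_zero qb))
    · have := congrArg qb (hS.eq g)
      rw [map_add, map_add, map_one] at this
      exact this
  obtain ⟨u1, u2⟩ := hstr.unique hS' hsurj h3
  obtain ⟨c, B, C, e⟩ := str_eq hS (a := a) (by rw [res_span]; trivial)
  have e' : (0 : E) = c + π B + π' C := by
    have := congrArg qb e
    rw [map_add, map_add, map_intCast] at this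
    rw [u1, u2, ← ha]
    exact this
  have hB : B = -(c • 1) := by
    have := congrArg (π 1 * ·) e'
    simp only [mul_zero, mul_add, ← h.str.mul, h.str.orth, one_mul, add_zero] at this
    rw [eq_neg_iff_add_eq_zero]
    apply h.pinj
    rw [map_zero, map_add, map_zsmul, zsmul_eq_mul', add_comm]
    exact this.symm
  have hC : C = -(c • 1) := by
    have := congrArg (π' 1 * ·) e'
    simp only [mul_zero, mul_add, ← h.str.anti, h.str.orth', mul_one, add_zero] at this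
    rw [eq_neg_iff_add_eq_zero]
    apply h.pinj' h3
    rw [map_zero, map_add, map_zsmul, zsmul_eq_mul', add_comm]
    exact this.symm
  have e2 : Ideal.Quotient.mk (jid ρ₀ φ₀.ker (res_span _)) a = c * (1 - π₀ 1 - π₀' 1) := by
    rw [e, hB, hC, map_neg, map_neg, map_zsmul, map_zsmul, zsmul_eq_mul, zsmul_eq_mul, mul_sub,
      mul_sub, mul_one]
    abel
  have hn : IsNilpotent a := (IsNilpotent.map_iff finj).1 (h.nil_of_q ha)
  have hid : (1 - π₀ 1 - π₀' 1) * (1 - π₀ 1 - π₀' 1) = 1 - π₀ 1 - π₀' 1 := by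
    simp only [mul_sub, sub_mul, mul_one, one_mul, ← hS.mul, ← hS.anti, hS.orth, hS.orth']
    abel
  have := int_idem (p := p) (by rw [← map_natCast (Ideal.Quotient.mk _), h0, map_zero]) c hid
    (e2 ▸ hn.map (Ideal.Quotient.mk _))
  exact Ideal.Quotient.eq_zero_iff_mem.1 (e2.trans this)

/-- A ring together with its opposite. -/
def Dbl (A : Type) : Type := A × Aᵐᵒᵖ

instance (A : Type) [Ring A] : Ring (Dbl A) := inferInstanceAs (Ring (A × Aᵐᵒᵖ))

instance (A : Type) [Ring A] : StarRing (Dbl A) where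
  star a := (MulOpposite.unop a.2, MulOpposite.op a.1)
  star_involutive _ := rfl
  star_mul _ _ := rfl
  star_add _ _ := rfl

/-- The representation together with its dual. -/
def dbl {H A : Type} [Group H] [Ring A] (ρ : H →* A) : H →* Dbl A where
  toFun g := (ρ g, MulOpposite.op (ρ g⁻¹))
  map_one' := by rw [inv_one, map_one]; rfl
  map_mul' g g' := by rw [_root_.mul_inv_rev, map_mul, map_mul]; rfl

/-- The first projection. -/
def fst (A : Type) [Ring A] : Dbl A →+* A := RingHom.fst A Aᵐᵒᵖ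

/-- The second projection. -/
def snd (A : Type) [Ring A] : Dbl A →+* Aᵐᵒᵖ := RingHom.snd A Aᵐᵒᵖ

theorem dbl_ext {A : Type} [Ring A] {a b : Dbl A} (h1 : fst A a = fst A b)
    (h2 : snd A a = snd A b) : a = b := Prod.ext h1 h2

theorem dbl_star {H A : Type} [Group H] [Ring A] (ρ : H →* A) (g : H) :
    star (dbl ρ g) = dbl ρ g⁻¹ := dbl_ext rfl (by
  change MulOpposite.op (ρ g) = MulOpposite.op (ρ g⁻¹⁻¹)
  rw [inv_inv])

theorem dbl_nil {A : Type} [Ring A] {a : Dbl A} (h1 : IsNilpotent (fst A a))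
    (h2 : IsNilpotent (snd A a).unop) : IsNilpotent a := by
  obtain ⟨m, hm⟩ := h1
  obtain ⟨n, hn⟩ := h2
  refine ⟨m + n, dbl_ext ?_ ?_⟩
  · rw [map_pow, map_zero, pow_add, hm, zero_mul]
  · rw [map_pow, map_zero, pow_add]
    have : snd A a ^ n = 0 := MulOpposite.unop_injective (by rw [MulOpposite.unop_pow, hn]; rfl)
    rw [this, mul_zero]

end Big

open Big

theorem bigStmt (h1 : StructStmt) (h2 : SmallStmt) : BigStmt := by
  intro p _ ι K _ _ _ _ _ H _ _ A E _ _ _ φ ρ q π π' h hι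
  have h3 : 3 ≤ Fintype.card ι := by omega
  have hst := st_op h1 h hι
  let _ := subStar (ρ.comp (Op p H).subtype) fun g => h.star_eq g
  obtain ⟨s1, s2⟩ := h2 p ι K (Op p H) _ E _ _ _ π π' hst
    (Subgroup.isPerfect_iff.2 (op_perfect h.surj h.pker h3)) hι
  set ρ₀ := res (ρ.comp (Op p H).subtype) with hρ₀
  set f := (sub (ρ.comp (Op p H).subtype)).subtype with hf
  have finj : Function.Injective f.toIntAlgHom.toLinearMap := Subtype.val_injective
  have eA := map_Ad (ρ := ρ) (ρ' := ρ₀) f (Op p H).subtype (fun _ => rfl)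
  have eB := map_Bd (ρ := ρ) (ρ' := ρ₀) f (Op p H).subtype (fun _ => rfl)
  have eJ := map_Jd (ρ := ρ) (ρ' := ρ₀) f (Op p H).subtype (fun _ => rfl) φ.ker
  rw [Subgroup.range_subtype] at eA eB eJ
  have out : ∀ X c Y : sub (ρ.comp (Op p H).subtype),
      (∃ g, ρ₀ g = 1 + X * c * Y - star (X * c * Y)) →
      ∃ g, ρ g = 1 + f X * f c * f Y - star (f X * f c * f Y) := by
    rintro X c Y ⟨g, hg⟩
    exact ⟨g, congrArg f hg⟩
  have bot : ∀ M : Submodule ℤ (sub (ρ.comp (Op p H).subtype)),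
      M.map f.toIntAlgHom.toLinearMap = ⊥ → M = ⊥ := fun M hM =>
    Submodule.map_injective_of_injective finj (hM.trans (Submodule.map_bot _).symm)
  rw [← eA, ← eB, ← eJ]
  refine ⟨fun hz => ?_, fun k hz => ?_, ?_⟩
  · rw [← Submodule.map_mul, ← Submodule.map_mul] at hz
    rintro _ ⟨X, hX, rfl⟩ _ ⟨c, hc, rfl⟩ _ ⟨Y, hY, rfl⟩ θ₁ γ θ₂ a1 a2 a3 a4 a5 a6
    exact out X c Y (s1 (bot _ hz) X hX c hc Y hY θ₁ γ θ₂ a1 a2 a3 a4 a5 a6)
  · rw [← Submodule.map_pow, ← Submodule.map_mul, ← Submodule.map_mul] at hz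
    rw [← Submodule.map_pow]
    rintro _ ⟨X, hX, rfl⟩ _ ⟨Y, hY, rfl⟩ _ ⟨m, hm, rfl⟩ ξ ψ a1 a2
    exact out X m Y (s2 k (bot _ hz) X hX Y hY m hm ξ ψ a1 a2)
  · rintro _ ⟨a, -, rfl⟩ ha
    exact ⟨a, (hst.ker a).1 ha, rfl⟩

theorem coreStmt (h1 : StructStmt) (h2 : CoreStStmt) : CoreStmt := by
  intro p _ ι K _ _ _ _ _ H _ _ A _ φ ρ hφ hk h0 hρ hd u s d hu hr
  have hι : 6 ≤ Fintype.card ι := le_trans (by omega) (hr.trans (rank_le_card_width _))
  have h3 : 3 ≤ Fintype.card ι := by omega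
  set ρ₁ := res (dbl ρ) with hρ₁
  set f := (sub (dbl ρ)).subtype with hf
  have finj : Function.Injective f := Subtype.val_injective
  let _ := subStar (dbl ρ) (dbl_star ρ)
  have hs : ∀ g, star (ρ₁ g) = ρ₁ g⁻¹ := fun g => Subtype.ext (dbl_star ρ g)
  have h0' : (p : sub (dbl ρ)) = 0 := finj (by
    rw [map_natCast, map_zero]
    refine dbl_ext ?_ ?_
    · rw [map_natCast, h0, map_zero]
    · rw [map_natCast, map_zero, ← MulOpposite.op_natCast, h0, MulOpposite.op_zero])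
  have hρ₁ : Function.Injective ρ₁ := fun a b e => hρ (congrArg ((fst A).comp f) e)
  have hinv : ∀ a b : SL ι K, (a.1 - 1) * (b.1 - 1) = 0 → ((a⁻¹).1 - 1) * ((b⁻¹).1 - 1) = 0 := by
    intro a b e
    have i1 : (a⁻¹).1 * a.1 = 1 := congrArg Subtype.val (inv_mul_cancel a)
    have i2 : b.1 * (b⁻¹).1 = 1 := congrArg Subtype.val (mul_inv_cancel b)
    have e1 : (a⁻¹).1 - 1 = -((a⁻¹).1 * (a.1 - 1)) := by rw [mul_sub, i1, mul_one, neg_sub]
    have e2 : (b⁻¹).1 - 1 = -((b.1 - 1) * (b⁻¹).1) := by rw [sub_mul, i2, one_mul, neg_sub]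
    rw [e1, e2, neg_mul_neg, mul_assoc, ← mul_assoc (a.1 - 1), e, zero_mul, mul_zero]
  have hd₁ : D1 p φ ρ₁ := fun τ₁ τ₂ q1 q2 e1 e2 => by
    rw [← IsNilpotent.map_iff finj, map_mul, map_sub, map_sub, map_one]
    refine dbl_nil ?_ ?_
    · exact hd τ₁ τ₂ q1 q2 e1 e2
    · exact hd τ₂⁻¹ τ₁⁻¹ (qel_inv q2) (qel_inv q1)
        (by rw [map_inv, map_inv]; exact hinv _ _ e2) (by rw [map_inv, map_inv]; exact hinv _ _ e1)
  obtain ⟨π, π', hS⟩ := structQ h1 hφ hk h0' (res_span _) hd₁ hι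
  obtain ⟨L, hL⟩ := nil_aug h0' ρ₁ φ.ker hk
  have hπ : π 1 ≠ 0 := by
    intro e
    obtain ⟨X, -, x1, x2⟩ := exists_lift_star (p := p) hs hφ hS h3 1
    have e' : π' 1 = 0 := by
      have hX : X ∈ Jd ρ₁ φ.ker ⊤ ^ 1 := by
        rw [pow_one]
        exact Ideal.Quotient.eq_zero_iff_mem.1 (x1.trans e)
      have := star_mem_Jd_pow hs hX
      rw [pow_one] at this
      exact x2.symm.trans (Ideal.Quotient.eq_zero_iff_mem.2 this)
    have triv : ∀ g : H, QEl p g → g = 1 := by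
      intro g hg
      have a1 := hS.eq g
      rw [← one_mul ((φ g).1 - 1), hS.mul, e, zero_mul, ← mul_one ((φ g⁻¹).1 - 1), hS.anti, e',
        zero_mul, add_zero, add_zero] at a1
      have a2 : ρ₁ g - 1 ∈ Jd ρ₁ φ.ker ⊤ := Ideal.Quotient.eq_zero_iff_mem
        (I := jid ρ₁ φ.ker (res_span _)).1 (by rw [map_sub, map_one]; exact sub_eq_zero.2 a1)
      have a3 := Submodule.pow_mem_pow _ a2 L
      rw [hL] at a3
      obtain ⟨k, hk⟩ := pel_of_nil h0' ⟨L, a3⟩
      exact eq_one_of_pel_qel ⟨k, hρ₁ (by rw [map_pow, hk, map_one])⟩ hg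
    have b1 : Op p H = ⊥ := (closure_eq_bot_iff).2 fun g hg => triv g hg
    have b2 := op_map (p := p) hφ h3
    rw [b1, Subgroup.map_bot] at b2
    obtain ⟨i, j, hij⟩ := Fintype.exists_pair_of_one_lt_card (α := ι) (by omega)
    have b3 : SpecialLinearGroup.transvection hij (1 : K) ∈ (⊥ : Subgroup (SL ι K)) := by
      rw [b2]; trivial
    have b4 := congrArg (fun B : SL ι K => B.1 i j) (mem_bot.1 b3)
    simp [SpecialLinearGroup.transvection, transvection, hij] at b4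
  have hst : St p φ ρ₁ (Ideal.Quotient.mk (jid ρ₁ φ.ker (res_span _))) π π' :=
    ⟨hφ, hk, h0', hρ₁, hs, res_span _, fun a => Ideal.Quotient.eq_zero_iff_mem, ⟨L, hL⟩, hS,
      hS.inj_of_ne hπ⟩
  have hu₁ : (ρ₁ u - 1) ^ (s + 1) = 0 := finj (by
    rw [map_pow, map_sub, map_one, map_zero]
    refine dbl_ext ?_ ?_
    · rw [map_pow, map_sub, map_one, map_zero]
      exact hu
    · rw [map_pow, map_sub, map_one, map_zero]
      have e : ρ u⁻¹ - 1 = -ρ u⁻¹ * (ρ u - 1) := by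
        rw [mul_sub, neg_mul, ← map_mul, inv_mul_cancel, map_one, mul_one]
        abel
      have c : Commute (-ρ u⁻¹) (ρ u - 1) :=
        (((Commute.refl u).inv_left.map ρ).sub_right (Commute.one_right _)).neg_left
      change (MulOpposite.op (ρ u⁻¹) - 1) ^ (s + 1) = 0
      rw [← MulOpposite.op_one, ← MulOpposite.op_sub, ← MulOpposite.op_pow, e, c.mul_pow, hu,
        mul_zero, MulOpposite.op_zero])
  rcases h2 p ι K H _ _ φ ρ₁ _ π π' hst u s d hu₁ hr with hA | ⟨N, n1, n2, n3, n4, n5⟩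
  · exact Or.inl hA
  · refine Or.inr ⟨N, n1, n2, n3, n4, fun E _ χ w hw η c1 c2 γ => ?_⟩
    have := n5 E (χ.comp ((fst A).comp f)) w hw η c1
    simp only [map_sub, map_one] at this c2 ⊢
    exact this c2 γ

end Pool.Agent.Lib.MP_679d9b_al.PT
end

-- part Pool.Agent.Lib.MP_679d9b_al.PT.Star
section

/-!
The norm map preserves the augmentation ideal up to a power of the group element.
-/

set_option autoImplicit false
set_option linter.unusedSectionVars false

namespace Pool.Agent.Lib.MP_679d9b_al.PT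

open Subgroup Matrix

namespace Star

section Rng
variable {p : ℕ} [Fact p.Prime] {R : Type} [Ring R]

theorem frob (hp : (p : R) = 0) (x : R) : (x - 1) ^ p = x ^ p - 1 := by
  obtain ⟨r, hr⟩ := Commute.exists_add_pow_prime_eq (Fact.out : p.Prime)
    (Commute.one_right (x - 1))
  rw [sub_add_cancel, hp, zero_mul, zero_mul, zero_mul, add_zero, one_pow] at hr
  rw [hr, add_sub_cancel_right]

theorem choose_eq {n : ℕ} (hn : (n + 1).Prime) (hp : ((n + 1 : ℕ) : R) = 0) (j : ℕ) (hj : j ≤ n) :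
    (n.choose j : R) = (-1) ^ j := by
  induction j with
  | zero => simp
  | succ j ih =>
    obtain ⟨c, hc⟩ := hn.dvd_choose_self (k := j + 1) (by omega) (by omega)
    have h1 : (((n + 1).choose (j + 1) : ℕ) : R) = 0 := by rw [hc, Nat.cast_mul, hp, zero_mul]
    rw [Nat.choose_succ_succ', Nat.cast_add, ih (by omega)] at h1
    rw [pow_succ, mul_neg, mul_one]
    exact eq_neg_of_add_eq_zero_right h1

theorem geom {n : ℕ} (hn : (n + 1).Prime) (hp : ((n + 1 : ℕ) : R) = 0) {x y : R}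
    (h : Commute x y) : (x - y) ^ n = ∑ i ∈ Finset.range (n + 1), x ^ i * y ^ (n - i) := by
  rw [sub_eq_add_neg, h.neg_right.add_pow]
  refine Finset.sum_congr rfl fun i hi => ?_
  have hi' : i ≤ n := Nat.lt_succ_iff.1 (Finset.mem_range.1 hi)
  have h1 : (-1 : R) ^ n = 1 := by rw [← choose_eq hn hp n le_rfl, Nat.choose_self, Nat.cast_one]
  rw [choose_eq hn hp i hi', neg_pow y, ((Commute.neg_one_left (y ^ (n - i))).pow_left _).eq,
    mul_assoc, mul_assoc, ← pow_add, Nat.sub_add_cancel hi', h1, mul_one]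

/-- The norm map indexed by the number of terms. -/
def G (t : R) (n : ℕ) (b : R) : R := ∑ i ∈ Finset.range n, t ^ i * b * t ^ (n - 1 - i)

theorem G_add (t b : R) (m n : ℕ) : G t (m + n) b = G t m b * t ^ n + t ^ m * G t n b := by
  unfold G
  rw [Finset.sum_range_add, Finset.sum_mul, Finset.mul_sum]
  congr 1
  · refine Finset.sum_congr rfl fun i hi => ?_
    have := Finset.mem_range.1 hi
    rw [mul_assoc _ (t ^ (m - 1 - i)), ← pow_add, show m - 1 - i + n = m + n - 1 - i by omega]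
  · refine Finset.sum_congr rfl fun i hi => ?_
    rw [pow_add, show m + n - 1 - (m + i) = n - 1 - i by omega]
    simp only [mul_assoc]

theorem G_mul (t b : R) (m n : ℕ) : G t (m * n) b = G (t ^ m) n (G t m b) := by
  induction n with
  | zero => simp [G]
  | succ n ih =>
    rw [Nat.mul_succ, G_add, G_add, ih, pow_one, pow_mul]
    simp [G]

theorem G_mul_right {t c : R} (h : Commute t c) (n : ℕ) (b : R) :
    G t n (b * c) = G t n b * c := by
  unfold G
  rw [Finset.sum_mul]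
  refine Finset.sum_congr rfl fun i _ => ?_
  simp only [mul_assoc]
  rw [(h.pow_left _).eq]

theorem G_prime (hp : (p : R) = 0) {v w : R} (hvw : v * w = 1) {I : Submodule ℤ R}
    (hI : ∀ a ∈ I, v * a * w ∈ I) {b : R} (hb : b ∈ I) : G (v - 1) p b * w ^ (p - 1) ∈ I := by
  have hpr : p.Prime := Fact.out
  obtain ⟨n, rfl⟩ : ∃ n, p = n + 1 := ⟨p - 1, (Nat.sub_add_cancel hpr.pos).symm⟩
  have h1 : ((n + 1 : ℕ) : Module.End ℤ R) = 0 := LinearMap.ext fun a => by
    rw [Module.End.natCast_apply, nsmul_eq_mul, hp, zero_mul, LinearMap.zero_apply]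
  have h2 := LinearMap.congr_fun
    (geom hpr h1 (LinearMap.commute_mulLeft_right (R := ℤ) (v - 1) (v - 1))) b
  have h3 : G (v - 1) (n + 1) b =
      ((LinearMap.mulLeft ℤ (v - 1) - LinearMap.mulRight ℤ (v - 1)) ^ n) b := by
    rw [h2, LinearMap.sum_apply]
    exact Finset.sum_congr rfl fun i _ => by
      rw [LinearMap.pow_mulLeft, LinearMap.pow_mulRight, mul_assoc]
      rfl
  rw [h3, Nat.add_sub_cancel]
  clear h1 h2 h3 hp hpr
  rename_i inst
  clear inst
  induction n with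
  | zero => simpa using hb
  | succ n ih =>
    rw [pow_succ', Module.End.mul_apply]
    generalize ((LinearMap.mulLeft ℤ (v - 1) - LinearMap.mulRight ℤ (v - 1)) ^ n) b = c at ih
    have e : (LinearMap.mulLeft ℤ (v - 1) - LinearMap.mulRight ℤ (v - 1)) c * w ^ (n + 1) =
        v * (c * w ^ n) * w - c * (v * w) * w ^ n := by
      rw [LinearMap.sub_apply, LinearMap.mulLeft_apply, LinearMap.mulRight_apply]
      have e1 : w ^ (n + 1) = w ^ n * w := pow_succ w n
      have e2 : w * w ^ n = w ^ n * w := (pow_succ' w n).symm.trans e1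
      rw [e1, mul_assoc c, mul_assoc v w, e2]
      noncomm_ring
    rw [e, hvw, mul_one]
    exact Submodule.sub_mem _ (hI _ ih) ih

theorem cancel (hp : (p : R) = 0) {m : ℕ} (hm : ¬ p ∣ m) {I : Submodule ℤ R} {x : R}
    (h : (m : R) * x ∈ I) : x ∈ I := by
  obtain ⟨a, b, e⟩ := Nat.isCoprime_iff_coprime.2
    ((Nat.Prime.coprime_iff_not_dvd (Fact.out : p.Prime)).2 hm)
  have h1 := congrArg (Int.cast : ℤ → R) e
  rw [Int.cast_add, Int.cast_mul, Int.cast_mul, Int.cast_natCast, Int.cast_natCast, hp, mul_zero,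
    zero_add, Int.cast_one] at h1
  have h2 := I.smul_mem b h
  rwa [zsmul_eq_mul, ← mul_assoc, h1, one_mul] at h2

theorem mul_mem_mul_left {I I' : Submodule ℤ R} {x : R} (h : ∀ a ∈ I, x * a ∈ I) {a : R}
    (ha : a ∈ I * I') : x * a ∈ I * I' := by
  refine Submodule.mul_induction_on ha (fun m hm n hn => ?_) fun a b ha hb => ?_
  · rw [← mul_assoc]
    exact Submodule.mul_mem_mul (h m hm) hn
  · rw [mul_add]
    exact Submodule.add_mem _ ha hb

end Rng

variable {p : ℕ} [Fact p.Prime] {ι K : Type} [Fintype ι] [DecidableEq ι] [Field K] {H : Type}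
  [Group H] [Finite H] {A E : Type} [Ring A] [StarRing A] [Ring E] {φ : H →* SL ι K}
  {ρ : H →* A} {q : A →+* E} {π π' : Matrix ι ι K →+ E}

/-- The augmentation ideal modulo a power of the radical. -/
abbrev Mk (p : ℕ) (φ : H →* SL ι K) (ρ : H →* A) (k : ℕ) : Submodule ℤ A :=
  Bd ρ (Op p H) ⊔ Jd ρ φ.ker ⊤ ^ (k + 1)

variable (h : St p φ ρ q π π') {k : ℕ}
include h

theorem Mk_left {a x : A} (ha : a ∈ Ad ρ (Op p H)) (hx : x ∈ Mk p φ ρ k) : a * x ∈ Mk p φ ρ k := by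
  obtain ⟨b, hb, j, hj, rfl⟩ := Submodule.mem_sup.1 hx
  rw [mul_add]
  exact Submodule.add_mem_sup (Ad_mul_Bd ha hb) (Ad_mul_Jd_pow (h.mem_Ad a) hj)

theorem drop_left {a x : A} (ha : a ∈ Ad ρ (Op p H)) (h0 : q a = 0) (hx : x ∈ Mk p φ ρ k) :
    a * x ∈ Mk p φ ρ (k + 1) := by
  obtain ⟨b, hb, j, hj, rfl⟩ := Submodule.mem_sup.1 hx
  rw [mul_add]
  exact Submodule.add_mem_sup (Ad_mul_Bd ha hb)
    (by simpa using h.mul_congr_left (a := a) (b := 0) (by simpa using h0) hj)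

theorem drop_right {a x : A} (ha : a ∈ Ad ρ (Op p H)) (h0 : q a = 0) (hx : x ∈ Mk p φ ρ k) :
    x * a ∈ Mk p φ ρ (k + 1) := by
  obtain ⟨b, hb, j, hj, rfl⟩ := Submodule.mem_sup.1 hx
  rw [add_mul]
  exact Submodule.add_mem_sup (Bd_mul_Ad hb ha)
    (by simpa using h.mul_congr_right (a := a) (b := 0) (by simpa using h0) hj)

theorem q_one {y : H} (hy : φ y = 1) : q (ρ y) = 1 := by
  simp [h.q_rho, hy]

theorem q_J {j : A} (hj : j ∈ Jd ρ φ.ker ⊤ ^ (k + 1)) : q j = 0 :=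
  (h.ker j).2 (by simpa using Jd_pow_anti (Nat.zero_le k) hj)

theorem lin {y : H} (hy : φ y = 1) (hM : ∀ b ∈ Bd ρ (Op p H), ρ y * b ∈ Mk p φ ρ k) {a b : A}
    (ha : a ∈ Ad ρ (Op p H)) (hb : b ∈ Bd ρ (Op p H)) :
    ρ y * (a * b) - a * (ρ y * b) ∈ Mk p φ ρ (k + 1) := by
  have e : ρ y * (a * b) - a * (ρ y * b) = (ρ y * a * ρ y⁻¹ - a) * (ρ y * b) := by
    rw [sub_mul, mul_assoc (ρ y * a), ← mul_assoc (ρ y⁻¹), ← map_mul, inv_mul_cancel, map_one,
      one_mul, mul_assoc]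
  rw [e]
  refine drop_left h (Submodule.sub_mem _ (conj_mem_Ad y ha) ha) ?_ (hM b hb)
  rw [map_sub, map_mul, map_mul, q_one h hy, q_one h (by rw [map_inv, hy, inv_one]), one_mul,
    mul_one, sub_self]

theorem eps (B C : Matrix ι ι K) : (π 1 + π' 1) * (π B + π' C) = π B + π' C := by
  rw [add_mul, mul_add, mul_add, h.str.orth, h.str.orth', ← h.str.mul, ← h.str.anti, one_mul,
    mul_one, add_zero, zero_add]

theorem pi_pow (g : H) (s : ℕ) : π 1 * q ((ρ g - 1) ^ s) = π (((φ g).1 - 1) ^ s) ∧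
    π' 1 * q ((ρ g - 1) ^ s) = π' (((φ g⁻¹).1 - 1) ^ s) := by
  cases s with
  | zero => simp
  | succ s =>
    have e : q ((ρ g - 1) ^ (s + 1)) =
        π (((φ g).1 - 1) ^ (s + 1)) + π' (((φ g⁻¹).1 - 1) ^ (s + 1)) := by
      rw [map_pow, map_sub, map_one]
      exact h.str.pow_sub g s
    rw [e, mul_add, mul_add, h.str.orth, h.str.orth', ← h.str.mul, ← h.str.anti, one_mul,
      mul_one, add_zero, zero_add]
    exact ⟨rfl, rfl⟩

omit h in
theorem inv_pow_ne {g : H} {s : ℕ} (hs : ((φ g).1 - 1) ^ s ≠ 0) : ((φ g⁻¹).1 - 1) ^ s ≠ 0 := by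
  intro h0
  have e1 : (φ g⁻¹).1 * (φ g).1 = 1 := congrArg Subtype.val (show φ g⁻¹ * φ g = 1 by simp)
  have e2 : (φ g).1 * (φ g⁻¹).1 = 1 := congrArg Subtype.val (show φ g * φ g⁻¹ = 1 by simp)
  have c : Commute ((φ g⁻¹).1 - 1) (-(φ g).1) :=
    (Commute.sub_left (e1.trans e2.symm) (Commute.one_left _)).neg_right
  refine hs ?_
  rw [show (φ g).1 - 1 = ((φ g⁻¹).1 - 1) * -(φ g).1 by
    rw [mul_neg, sub_mul, e1, one_mul, neg_sub], c.mul_pow, h0, zero_mul]

theorem step (hι : 3 ≤ Fintype.card ι) {s : ℕ} (hp : ¬ p ∣ s + 1) {g y : H} (hg : g ∈ Op p H)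
    (hy : φ y = 1) (h0 : (ρ (g * y) - 1) ^ (s + 1) = 0) (hs : ((φ g).1 - 1) ^ s ≠ 0)
    (hM : ∀ b ∈ Bd ρ (Op p H), ρ y * b ∈ Mk p φ ρ k) :
    ∀ b ∈ Bd ρ (Op p H), ρ y * b ∈ Mk p φ ρ (k + 1) := by
  obtain ⟨f, hf, ff, -, qf, gf⟩ := h.exists_idem hι
  have hfA := Bd_le_Ad hf
  have BN : ∀ {k} {b}, b ∈ Bd ρ (Op p H) → b ∈ Mk p φ ρ k := fun hb => Submodule.mem_sup_left hb
  have lin' : ∀ a ∈ Ad ρ (Op p H), ∀ b ∈ Bd ρ (Op p H),
      (ρ y * (a * b) ∈ Mk p φ ρ (k + 1) ↔ a * (ρ y * b) ∈ Mk p φ ρ (k + 1)) := fun a ha b hb =>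
    ⟨fun k2 => (Submodule.sub_mem_iff_right _ k2).1 (lin h hy hM ha hb),
      fun k2 => (Submodule.sub_mem_iff_left _ k2).1 (lin h hy hM ha hb)⟩
  have f0 : ∀ b ∈ Bd ρ (Op p H), ρ y * (1 - f) * b ∈ Mk p φ ρ (k + 1) := fun b hb => by
    refine Basic.span_map (AddMonoidHom.mulLeft (ρ y * (1 - f))) ?_ (gf b hb)
    rintro _ ⟨a, ha, a', ha', rfl⟩
    have hc : (a - f * a) * f ∈ Ad ρ (Op p H) :=
      Ad_mul (Submodule.sub_mem _ ha (Ad_mul hfA ha)) hfA
    have e : ρ y * (1 - f) * (a * f * a') = ρ y * ((a - f * a) * f * (f * a')) := by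
      rw [mul_assoc _ f (f * a'), ← mul_assoc f f, ff]
      noncomm_ring
    change ρ y * (1 - f) * (a * f * a') ∈ _
    rw [e, lin' _ hc _ (Bd_mul_Ad hf ha')]
    refine drop_left h hc ?_ (hM _ (Bd_mul_Ad hf ha'))
    obtain ⟨c, B, C, e'⟩ := h.q_eq a
    rw [map_mul, map_sub, map_mul, qf, e', add_assoc, mul_add (π 1 + π' 1), eps h,
      add_sub_add_right_eq_sub, sub_mul, ← (Int.cast_commute c _).eq, mul_assoc, eps h, sub_self]
  have split : ∀ b, ρ y * b = ρ y * (1 - f) * b + ρ y * f * b := fun b => by noncomm_ring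
  have kerJ : ∀ c ∈ Bd ρ (Op p H), q c = 0 → ρ y * c ∈ Mk p φ ρ (k + 1) := fun c hc h1 => by
    rw [split]
    exact Submodule.add_mem _ (f0 c hc) (drop_right h (Bd_le_Ad hc) h1 (hM f hf))
  have hW := rho_mem_Ad (ρ := ρ) hg
  have hT : ρ g - 1 ∈ Ad ρ (Op p H) := Bd_le_Ad (sub_one_mem_Bd hg)
  have qT : q (ρ (g * y) - 1) = q (ρ g - 1) := by
    rw [map_sub, map_sub, map_mul, map_mul, q_one h hy, mul_one]
  have cW : ∀ n, ρ g * (ρ g - 1) ^ n = (ρ g - 1) ^ n * ρ g := fun n =>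
    (((Commute.refl _).sub_right (Commute.one_right _)).pow_right n).eq
  have main : ∀ b ∈ Bd ρ (Op p H), (ρ g - 1) ^ s * (ρ y * b) ∈ Mk p φ ρ (k + 1) := by
    intro b hb
    have hx : ∀ i, (ρ (g * y) - 1) ^ i * b ∈ Mk p φ ρ k := fun i => by
      induction i with
      | zero => simpa using BN hb
      | succ i ih =>
        obtain ⟨b', hb', j, hj, e⟩ := Submodule.mem_sup.1 ih
        rw [pow_succ', mul_assoc, ← e, mul_add, sub_mul, map_mul, mul_assoc, one_mul]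
        exact Submodule.add_mem _ (Submodule.sub_mem _ (Mk_left h hW (hM _ hb')) (BN hb'))
          (Submodule.mem_sup_right (Ad_mul_Jd_pow (h.mem_Ad _) hj))
    have hrec : ∀ i, (ρ (g * y) - 1) ^ (i + 1) * b - ρ g * ((ρ g - 1) ^ i * (ρ y * b)) -
        (ρ g - 1) * ((ρ (g * y) - 1) ^ i * b) ∈ Mk p φ ρ (k + 1) := fun i => by
      obtain ⟨b', hb', j, hj, e⟩ := Submodule.mem_sup.1 (hx i)
      have hi := Basic.Ad_pow hT i
      have k1 := kerJ (b' - (ρ g - 1) ^ i * b) (Submodule.sub_mem _ hb' (Ad_mul_Bd hi hb)) (by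
        have := congrArg q e
        rw [map_add, q_J h hj, add_zero, map_mul, map_pow, qT] at this
        rw [map_sub, this, map_mul, map_pow, sub_self])
      have e2 : (ρ (g * y) - 1) ^ (i + 1) * b - ρ g * ((ρ g - 1) ^ i * (ρ y * b)) -
          (ρ g - 1) * ((ρ (g * y) - 1) ^ i * b) =
          ρ g * (ρ y * (b' - (ρ g - 1) ^ i * b) + (ρ y * ((ρ g - 1) ^ i * b) -
            (ρ g - 1) ^ i * (ρ y * b))) - ρ g * b' +
            ((ρ (g * y) - 1) * j - (ρ g - 1) * j) := by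
        rw [pow_succ', mul_assoc, ← e, map_mul]
        noncomm_ring
      rw [e2]
      exact Submodule.add_mem _ (Submodule.sub_mem _
        (Mk_left h hW (Submodule.add_mem _ k1 (lin h hy hM hi hb))) (BN (Ad_mul_Bd hW hb')))
        (Submodule.mem_sup_right (h.mul_congr_left qT hj))
    have hi : ∀ i : ℕ, (ρ (g * y) - 1) ^ (i + 1) * b -
        ((i + 1 : ℕ) : A) * (ρ g * ((ρ g - 1) ^ i * (ρ y * b))) ∈ Mk p φ ρ (k + 1) := fun i => by
      induction i with
      | zero =>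
        have := Submodule.add_mem _ (hrec 0) (BN (Ad_mul_Bd hT hb))
        simpa using this
      | succ i ih =>
        have k1 := Submodule.add_mem _ (hrec (i + 1)) (Mk_left h hT ih)
        have e : (ρ g - 1) * (((i + 1 : ℕ) : A) * (ρ g * ((ρ g - 1) ^ i * (ρ y * b)))) =
            ((i + 1 : ℕ) : A) * (ρ g * ((ρ g - 1) ^ (i + 1) * (ρ y * b))) := by
          rw [← mul_assoc, ← (Nat.cast_commute _ _).eq, mul_assoc, ← mul_assoc (ρ g), cW,
            ← mul_assoc, ← mul_assoc (ρ g), cW, pow_succ']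
          simp only [mul_assoc]
        rw [mul_sub, e, sub_add_sub_cancel, sub_sub] at k1
        rwa [Nat.cast_succ (i + 1), add_mul, one_mul, add_comm (_ * _)]
    have k1 := hi s
    rw [h0, zero_mul, zero_sub, neg_mem_iff] at k1
    have k2 := Mk_left h (rho_mem_Ad ((Op p H).inv_mem hg)) (cancel h.chr hp k1)
    rwa [← mul_assoc, ← map_mul, inv_mul_cancel, map_one, one_mul] at k2
  intro b hb
  obtain ⟨z, hz, qz⟩ := h.gen hι hs (inv_pow_ne hs) (pi_pow h g s).1 (pi_pow h g s).2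
  have hs' := Basic.Ad_pow hT s
  have z1 : z ∈ Ad ρ (Op p H) := by
    refine Submodule.span_le.2 ?_ hz
    rintro _ ⟨a, ha, a', ha', rfl⟩
    exact Ad_mul (Ad_mul (Bd_le_Ad ha) hs') (Bd_le_Ad ha')
  have z2 : z * (ρ y * b) ∈ Mk p φ ρ (k + 1) := by
    refine Basic.span_map (AddMonoidHom.mulRight (ρ y * b)) ?_ hz
    rintro _ ⟨a, ha, a', ha', rfl⟩
    have k1 := Submodule.sub_mem _ (main _ (Ad_mul_Bd (Bd_le_Ad ha') hb))
      (Mk_left h hs' (lin h hy hM (Bd_le_Ad ha') hb))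
    rw [mul_sub, sub_sub_cancel] at k1
    change a * (ρ g - 1) ^ s * a' * (ρ y * b) ∈ _
    rw [mul_assoc, mul_assoc]
    exact Mk_left h (Bd_le_Ad ha) k1
  have z3 := Submodule.add_mem _ z2 (drop_left h (Submodule.sub_mem _ hfA z1)
    (by rw [map_sub, qf, qz, sub_self]) (hM b hb))
  rw [← add_mul, add_sub_cancel, ← lin' _ hfA _ hb, ← mul_assoc] at z3
  rw [split]
  exact Submodule.add_mem _ (f0 b hb) z3

theorem stab (hι : 3 ≤ Fintype.card ι) {s : ℕ} (hp : ¬ p ∣ s + 1) {w : H}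
    (h0 : (ρ w - 1) ^ (s + 1) = 0) (hs : ((φ w).1 - 1) ^ s ≠ 0) :
    ∀ b ∈ Bd ρ (Op p H), ρ w * b ∈ Bd ρ (Op p H) := by
  obtain ⟨g, hg, y, hy, rfl⟩ := op_decomp (p := p) h.surj hι w
  rw [map_mul, hy, mul_one] at hs
  have key : ∀ k, ∀ b ∈ Bd ρ (Op p H), ρ y * b ∈ Mk p φ ρ k := fun k => by
    induction k with
    | zero =>
      intro b hb
      rw [show ρ y * b = b + (ρ y - 1) * b by noncomm_ring]
      exact Submodule.add_mem_sup hb (Jd_pow_mul_Ad
        (by simpa using sub_one_mem_Jd (P := φ.ker) hy (mem_top y)) (h.mem_Ad b))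
    | succ k ih => exact step h hι hp hg hy h0 hs ih
  obtain ⟨L, hL⟩ := h.nil
  intro b hb
  have := key L b hb
  rw [Mk, pow_succ, hL, Submodule.bot_mul, sup_bot_eq] at this
  rw [map_mul, mul_assoc]
  exact Ad_mul_Bd (rho_mem_Ad hg) this

theorem norm [CharP K p] (hι : 3 ≤ Fintype.card ι) (s : ℕ) : ∀ u : H, (ρ u - 1) ^ (s + 1) = 0 →
    ((φ u).1 - 1) ^ s ≠ 0 → ∃ e : ℕ, ∀ I : Submodule ℤ A, (∀ g, ∀ a ∈ I, ρ g * a * ρ g⁻¹ ∈ I) →
      (∀ w, (∀ b ∈ Bd ρ (Op p H), ρ w * b ∈ Bd ρ (Op p H)) → ∀ a ∈ I, ρ w * a ∈ I) →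
      ∀ b ∈ I, G (ρ u - 1) (s + 1) b * ρ u⁻¹ ^ e ∈ I := by
  induction s using Nat.strong_induction_on with
  | _ s ih =>
  intro u h0 hs
  have hpr : p.Prime := Fact.out
  by_cases hp : p ∣ s + 1
  · obtain ⟨n, hn⟩ := hp
    obtain ⟨s', rfl⟩ : ∃ s', n = s' + 1 := ⟨n - 1, by
      rcases n with _ | n
      · simp at hn
      · simp⟩
    have h2 := hpr.two_le
    have hle : p * s' ≤ s := by rw [Nat.mul_succ] at hn; omega
    have hK : ((p : ℕ) : Matrix ι ι K) = 0 := by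
      rw [← map_natCast (algebraMap K (Matrix ι ι K)), CharP.cast_eq_zero, map_zero]
    have e1 : ρ (u ^ p) - 1 = (ρ u - 1) ^ p := by rw [frob h.chr, map_pow]
    obtain ⟨e, he⟩ := ih s' (by nlinarith) (u ^ p) (by rw [e1, ← pow_mul, ← hn, h0]) (by
      rw [map_pow, show (φ u ^ p).1 = (φ u).1 ^ p from
        Matrix.SpecialLinearGroup.coe_pow (φ u) p, ← frob hK, ← pow_mul]
      exact fun h1 => hs (pow_eq_zero_of_le hle h1))
    refine ⟨p - 1 + p * e, fun I h1 h2 b hb => ?_⟩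
    have k1 := he I h1 h2 _ (G_prime h.chr (v := ρ u) (w := ρ u⁻¹)
      (by rw [← map_mul, mul_inv_cancel, map_one]) (h1 u) hb)
    have c : Commute ((ρ u - 1) ^ p) (ρ u⁻¹ ^ (p - 1)) :=
      ((((Commute.refl u).inv_right.map ρ).sub_left (Commute.one_left _)).pow_left _).pow_right _
    rwa [e1, G_mul_right c, ← G_mul, ← hn, ← inv_pow, map_pow, ← pow_mul, mul_assoc,
      ← pow_add] at k1
  · refine ⟨0, fun I h1 h2 b hb => ?_⟩
    have l1 := h2 u (stab h hι hp h0 hs)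
    have l2 : ∀ n, ∀ a ∈ I, (ρ u - 1) ^ n * a ∈ I := fun n a ha => by
      induction n with
      | zero => simpa using ha
      | succ n ih =>
        rw [pow_succ', mul_assoc, sub_mul, one_mul]
        exact Submodule.sub_mem _ (l1 _ ih) ih
    have r1 : ∀ a ∈ I, a * ρ u ∈ I := fun a ha => by
      have := h1 u⁻¹ _ (l1 a ha)
      rwa [inv_inv, ← mul_assoc, ← map_mul, inv_mul_cancel, map_one, one_mul] at this
    have r2 : ∀ n, ∀ a ∈ I, a * (ρ u - 1) ^ n ∈ I := fun n a ha => by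
      induction n with
      | zero => simpa using ha
      | succ n ih =>
        rw [pow_succ, ← mul_assoc, mul_sub, mul_one]
        exact Submodule.sub_mem _ (r1 _ ih) ih
    rw [pow_zero, mul_one]
    exact Submodule.sum_mem _ fun i _ => r2 _ _ (l2 _ _ hb)

end Star

theorem starStmt : StarStmt := by
  intro p _ ι K _ _ _ _ _ H _ _ A E _ _ _ φ ρ q π π' h hι s u h0 hs
  obtain ⟨e, he⟩ := Star.norm h hι s u h0 hs
  refine ⟨e, fun I hI => ⟨he _ (fun g a ha => conj_mem_Bd g ha) fun w hw => hw,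
    he _ (fun g a ha => ?_) fun w hw a ha => ?_⟩⟩
  · exact conj_mem_mul g (fun a ha => conj_mem_mul g (fun a ha => conj_mem_Bd g ha) (hI g) ha)
      (fun a ha => conj_mem_Bd g ha) ha
  · exact Star.mul_mem_mul_left (fun a ha => Star.mul_mem_mul_left hw ha) ha

end Pool.Agent.Lib.MP_679d9b_al.PT
end
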