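import Mathlib
import Pool.Agent.Lib.MP_679d9b_al.PT.Main
import Pool.Agent.Lib.MP_679d9b_al.PT.Sect
import Pool.Agent.Lib.MP_679d9b_al.PT.Coef


import Pool.Agent.Lib.MP_679d9b_al.PT.Dich

import Pool.Agent.Lib.MP_679d9b_al.PT.MB


import Pool.Agent.Lib.MP_679d9b_al.PT.Fin

import Pool.Agent.Lib.MP_679d9b_al.PT.GR
import Pool.Agent.Lib.MP_679d9b_al.PT.Small
import Pool.Agent.Lib.MP_679d9b_al.PT.Star

import Pool.Agent.Lib.MP_679d9b_al.PT.Core

/-!
The assembled theorem.
-/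

set_option autoImplicit false

namespace Pool.Agent.Lib.MP_679d9b_al.PT

theorem finitary {p : ℕ} [Fact p.Prime] {G : Type} [Group G] [IsSimpleGroup G] (hlf : Alt.LF G)
    (hcov : ∀ F : Subgroup G, Finite F → ∃ L : Lv p G, F ≤ L.H ∧ ∀ f ∈ F, L.r f = 1 → f = 1)
    (x : G) (d : ℕ) (hx : Alt.NoChain x d) : Finitary G :=
  main (dichStmt structStmt sectStmt (claimStmt structStmt cfStmt tensStmt secStmt) secStmt)
    primStmt compStmt caseOneStmt finStmt
    (coreStmt structStmt (coreStStmt (bigStmt structStmt (smallStmt (grStmt structStmt))) starStmt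
      blockStmt ncStmt)) hlf hcov x d hx

end Pool.Agent.Lib.MP_679d9b_al.PT
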